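import Pool.Agent.EC.St
import Pool.Agent.EB.Main

/-!
# Final assembly
-/

set_option autoImplicit false

namespace Pool.Agent.EC

open Finset Pool.Agent.WD Pool.Agent.EB
open scoped NNReal

/-- both notions of hardness -/
def Hard2 {n : ℕ} (c : ℝ) (A : Finset (Sym2 (Fin n))) (Y F : Finset (Fin n))
    (r : Fin n → Bool) : Prop := HardOn c A Y F r ∧ SumHardOn c A Y F r

/-- the partial counts are hard, and all runs are long or have a hard subproblem -/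
def Resist {n : ℕ} (ε : ℝ) (t : ℕ) (c : ℝ) (E : Finset (Sym2 (Fin n))) : Prop :=
  (∀ (A : Finset (Sym2 (Fin n))) (Y F : Finset (Fin n)) (r : Fin n → Bool), Closed E A Y →
    ε * E.card ≤ A.card → ((A.card : ℝ) ≤ (1 - ε) * E.card ∨ (Y.card : ℝ) ≤ (1 - ε) * n) →
    (F.card : ℝ) ≤ c * n → part A Y r ≠ 0 → HardOn c A Y F r ∧ SumHardOn c A Y F r) ∧
  ∀ (N : ℕ) (A : Fin N → Finset (Sym2 (Fin n))) (Y F : Fin N → Finset (Fin n))
    (r : Fin N → Fin n → Bool), RunS E t ((1 - ε) * E.card) (ε / 2 * E.card) A Y F r →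
    (∃ i, A i = E ∧ F i = ∅) →
    (2 : ℝ) ^ (c * n) ≤ N ∨
      ∃ i, HardOn c (A i) (Y i) (F i) (r i) ∧ SumHardOn c (A i) (Y i) (F i) (r i)

theorem Asm_sum_mono {n : ℕ} {c c' : ℝ} (hc : c' ≤ c) {A : Finset (Sym2 (Fin n))}
    {Y F : Finset (Fin n)} {r : Fin n → Bool} (h : SumHardOn c A Y F r) :
    SumHardOn c' A Y F r := by
  intro s W g hg he
  refine le_trans ?_ (h s W g hg he)
  exact Real.rpow_le_rpow_of_exponent_le (by norm_num)
    (mul_le_mul_of_nonneg_right hc (Real.rpow_nonneg (Nat.cast_nonneg _) _))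

theorem Asm_cube {n : ℕ} {c : ℝ} {A : Finset (Sym2 (Fin n))} {Y F : Finset (Fin n)}
    {r r' : Fin n → Bool} (hr : ∀ v ∈ F, r v = r' v) (h : Hard2 c A Y F r) :
    Hard2 c A Y F r' := by
  have hcube : ∀ y : Fin n → Bool, (∀ v ∈ F, y v = r v) ↔ ∀ v ∈ F, y v = r' v := fun y =>
    forall₂_congr fun v hv => by rw [hr v hv]
  refine ⟨?_, ?_⟩
  · intro s W P κ hκ hex
    apply h.1 s W P κ hκ
    obtain ⟨g, hg1, hg2⟩ := hex
    refine ⟨g, fun y hy => hg1 y ((hcube y).1 hy), ?_⟩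
    simp only [hcube]
    exact hg2
  · intro s W g hg he
    exact h.2 s W g hg fun x hx => he x ((hcube x).1 hx)

theorem Asm_prob_le_one (n : ℕ) {p : ℝ} (h0 : 0 ≤ p) (h1 : p ≤ 1)
    (Q : Finset (Sym2 (Fin n)) → Prop) : Prob n p Q ≤ 1 := by
  classical
  unfold Prob
  have h := Finset.sum_pow_mul_eq_add_pow p (1 - p) (clauses n)
  rw [add_sub_cancel, one_pow] at h
  refine le_trans (sum_le_sum_of_subset_of_nonneg (filter_subset _ _) ?_) h.le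
  intro E _ _
  exact mul_nonneg (pow_nonneg h0 _) (pow_nonneg (by linarith) _)

theorem Asm_prob_mono (n : ℕ) {p : ℝ} (h0 : 0 ≤ p) (h1 : p ≤ 1)
    (Q Q' : Finset (Sym2 (Fin n)) → Prop) (h : ∀ E, Q E → Q' E) : Prob n p Q ≤ Prob n p Q' := by
  classical
  unfold Prob
  apply sum_le_sum_of_subset_of_nonneg
  · intro E hE
    rw [mem_filter] at hE ⊢
    exact ⟨hE.1, h E hE.2⟩
  · intro E _ _
    exact mul_nonneg (pow_nonneg h0 _) (pow_nonneg (by linarith) _)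

theorem Asm_prob_or (n : ℕ) {p : ℝ} (h0 : 0 ≤ p) (h1 : p ≤ 1)
    (Q Q' : Finset (Sym2 (Fin n)) → Prop) :
    Prob n p (fun E => Q E ∨ Q' E) ≤ Prob n p Q + Prob n p Q' := by
  classical
  unfold Prob
  rw [sum_filter, sum_filter, sum_filter, ← sum_add_distrib]
  apply sum_le_sum
  intro E _
  have hnn : 0 ≤ p ^ E.card * (1 - p) ^ ((clauses n).card - E.card) :=
    mul_nonneg (pow_nonneg h0 _) (pow_nonneg (by linarith) _)
  by_cases h : Q E <;> by_cases h' : Q' E <;> simp [h, h'] <;> linarith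

theorem Asm_exp_poly (a k : ℕ) (b : ℝ) (hb : 0 ≤ b) :
    ∃ D₀ : ℕ, ∀ D ≥ D₀, (b * ((D : ℝ) + 1) ^ k) ^ 10 ≤ 2 ^ D ∧ a ≤ D := by
  have h1 : Filter.Tendsto (fun D : ℕ => (D : ℝ) ^ (10 * k) / 2 ^ D) Filter.atTop (nhds 0) :=
    tendsto_pow_const_div_const_pow_of_one_lt (10 * k) (by norm_num)
  have hpos : (0 : ℝ) < 1 / (b ^ 10 * 2 ^ (10 * k) + 1) := by positivity
  have h2 := (h1.eventually (gt_mem_nhds hpos)).and (Filter.eventually_ge_atTop (max a 1))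
  obtain ⟨D₀, h3⟩ := Filter.eventually_atTop.1 h2
  refine ⟨D₀, fun D hD => ⟨?_, (le_max_left _ _).trans (h3 D hD).2⟩⟩
  obtain ⟨h4, h5⟩ := h3 D hD
  have hD1 : (1 : ℝ) ≤ D := by exact_mod_cast (le_max_right _ _).trans h5
  have h2D : (0 : ℝ) < 2 ^ D := by positivity
  rw [div_lt_div_iff₀ h2D (by positivity), one_mul] at h4
  have h6 : ((D : ℝ) + 1) ^ (10 * k) ≤ 2 ^ (10 * k) * (D : ℝ) ^ (10 * k) := by
    rw [← mul_pow]
    exact pow_le_pow_left₀ (by linarith) (by linarith) _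
  have h7 : (0 : ℝ) ≤ (D : ℝ) ^ (10 * k) := by positivity
  calc (b * ((D : ℝ) + 1) ^ k) ^ 10 = b ^ 10 * ((D : ℝ) + 1) ^ (10 * k) := by
        rw [mul_pow, ← pow_mul, mul_comm k 10]
    _ ≤ b ^ 10 * (2 ^ (10 * k) * (D : ℝ) ^ (10 * k)) :=
        mul_le_mul_of_nonneg_left h6 (by positivity)
    _ ≤ (D : ℝ) ^ (10 * k) * (b ^ 10 * 2 ^ (10 * k) + 1) := by nlinarith
    _ ≤ 2 ^ D := h4.le

/-- first choice of the degree -/
theorem Asm_deg (k : ℕ) (hk : 1 ≤ k) : ∃ D : ℕ, 10 ^ 12 * k ^ 2 ≤ D ∧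
    D ≤ 8 * D * (D + 1) * Lc k D ∧ (8 * D * (D + 1) * Lc k D) ^ 10 ≤ 2 ^ D := by
  obtain ⟨D₀, hD₀⟩ := Asm_exp_poly (10 ^ 12 * k ^ 2) 15 (8 * 10 ^ 6 * k) (by positivity)
  obtain ⟨D, hD⟩ : ∃ D : ℕ, D = D₀ + 1 := ⟨_, rfl⟩
  obtain ⟨hD1, hD2⟩ := hD₀ D (by omega)
  refine ⟨D, hD2, ?_, ?_⟩
  · have h1 : 1 ≤ (D + 1) * Lc k D := by
      unfold Lc
      exact Nat.succ_le_of_lt (by positivity)
    calc D = D * 1 := (mul_one D).symm
      _ ≤ (8 * D) * ((D + 1) * Lc k D) := Nat.mul_le_mul (by omega) h1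
      _ = _ := by ring
  · have h1 : ((8 * D * (D + 1) * Lc k D : ℕ) : ℝ) ≤ 8 * 10 ^ 6 * k * ((D : ℝ) + 1) ^ 15 := by
      unfold Lc
      have h2 : (D : ℝ) ≤ (D : ℝ) + 1 := by linarith
      have h4 : (1 : ℝ) ≤ (D : ℝ) + 1 := by linarith [Nat.cast_nonneg (α := ℝ) D]
      have h3 : (D : ℝ) * ((D : ℝ) + 1) ^ 13 ≤ ((D : ℝ) + 1) ^ 15 := by
        calc (D : ℝ) * ((D : ℝ) + 1) ^ 13 ≤ ((D : ℝ) + 1) * ((D : ℝ) + 1) ^ 13 :=
              mul_le_mul_of_nonneg_right h2 (by positivity)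
          _ = ((D : ℝ) + 1) ^ 14 := by ring
          _ ≤ ((D : ℝ) + 1) ^ 15 := pow_le_pow_right₀ h4 (by norm_num)
      have h5 : ((8 * D * (D + 1) * (10 ^ 6 * k * (D + 1) ^ 12) : ℕ) : ℝ) =
          8 * 10 ^ 6 * k * ((D : ℝ) * ((D : ℝ) + 1) ^ 13) := by
        push_cast
        ring
      rw [h5]
      exact mul_le_mul_of_nonneg_left h3 (by positivity)
    have h2 : ((8 * D * (D + 1) * Lc k D : ℕ) : ℝ) ^ 10 ≤ 2 ^ D :=
      (pow_le_pow_left₀ (Nat.cast_nonneg _) h1 10).trans hD1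
    exact_mod_cast h2

/-- second choice of the degree -/
theorem Asm_deg' (k : ℕ) (c : ℝ) (hc : 0 < c) (hc1 : c ≤ 1) : ∃ D Λ : ℕ, 10 ^ 12 * k ^ 2 ≤ D ∧
    1 ≤ D ∧ D ≤ Λ ∧ Λ ^ 10 ≤ 2 ^ D ∧ 4 * D / c ≤ Λ := by
  obtain ⟨D₀, hD₀⟩ := Asm_exp_poly (10 ^ 12 * k ^ 2) 1 (4 / c + 1) (by positivity)
  obtain ⟨D, hD⟩ : ∃ D : ℕ, D = D₀ + 1 := ⟨_, rfl⟩
  obtain ⟨hD1, hD2⟩ := hD₀ D (by omega)
  obtain ⟨Λ, hΛ⟩ : ∃ Λ : ℕ, Λ = ⌈4 * (D : ℝ) / c⌉₊ := ⟨_, rfl⟩
  have hDr : (1 : ℝ) ≤ D := by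
    have : 1 ≤ D := by omega
    exact_mod_cast this
  have hΛ1 : 4 * D / c ≤ (Λ : ℝ) := by
    rw [hΛ]
    exact Nat.le_ceil _
  have hΛ2 : (Λ : ℝ) ≤ 4 * D / c + 1 := by
    rw [hΛ]
    exact (Nat.ceil_lt_add_one (by positivity)).le
  refine ⟨D, Λ, hD2, by omega, ?_, ?_, hΛ1⟩
  · have h1 : (D : ℝ) ≤ 4 * D / c := by
      rw [le_div_iff₀ hc]
      nlinarith
    exact_mod_cast h1.trans hΛ1
  · have h1 : (Λ : ℝ) ≤ (4 / c + 1) * ((D : ℝ) + 1) ^ 1 := by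
      refine hΛ2.trans ?_
      have h2 : (0 : ℝ) < 4 / c := by positivity
      have h3 : 4 * (D : ℝ) / c = 4 / c * D := by ring
      rw [pow_one, h3]
      have h4 : (0 : ℝ) ≤ D := by linarith
      linarith [add_mul (4 / c) 1 ((D : ℝ) + 1), mul_add (4 / c) (D : ℝ) 1]
    have h2 : (Λ : ℝ) ^ 10 ≤ 2 ^ D := (pow_le_pow_left₀ (Nat.cast_nonneg _) h1 10).trans hD1
    exact_mod_cast h2

theorem Asm_main (hGr1 : St_Gr1) (hGr2 : St_Gr2) (hFinP : St_FinP) (hSupE : St_SupE)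
    (hSumH : St_SumH) (hRun : St_Run) (ε : ℝ) (hε0 : 0 < ε) (hε1 : ε < 1) (t : ℕ) (ht : 1 ≤ t) :
    ∃ d₀ : ℝ, ∀ d : ℝ, d₀ ≤ d → ∃ c : ℝ, 0 < c ∧ ∃ C : ℝ, ∀ n : ℕ, d ≤ n →
      Prob n (d / n) (fun E => ¬ Resist ε t c E) ≤ C / n := by
  classical
  have h1ε : 0 < 1 - ε := by linarith
  have ht' : (1 : ℝ) ≤ t := by exact_mod_cast ht
  obtain ⟨k₀, hk₀⟩ := exists_nat_ge (max (max (4 / ε) (2 * t / (1 - ε))) 2001)
  have hk₀3 : (2001 : ℝ) ≤ k₀ := (le_max_right _ _).trans hk₀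
  refine ⟨10 ^ 10 * (k₀ : ℝ) ^ 2, fun d hd => ?_⟩
  have hd0 : 0 ≤ d / 10 ^ 10 := by
    have : (0 : ℝ) ≤ 10 ^ 10 * (k₀ : ℝ) ^ 2 := by positivity
    apply div_nonneg (this.trans hd) (by norm_num)
  -- the parameter k
  set k : ℕ := ⌊Real.sqrt (d / 10 ^ 10)⌋₊ with hk
  have hsq : Real.sqrt (d / 10 ^ 10) ^ 2 = d / 10 ^ 10 := Real.sq_sqrt hd0
  have hk1 : (k : ℝ) ≤ Real.sqrt (d / 10 ^ 10) := Nat.floor_le (Real.sqrt_nonneg _)
  have hk2 : Real.sqrt (d / 10 ^ 10) < k + 1 := Nat.lt_floor_add_one _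
  have hkk₀ : (k₀ : ℝ) ≤ k := by
    have : k₀ ≤ k := by
      rw [hk]
      apply Nat.le_floor
      apply Real.le_sqrt_of_sq_le
      rw [le_div_iff₀ (by norm_num)]
      linarith
    exact_mod_cast this
  have hk2001 : (2001 : ℝ) ≤ k := hk₀3.trans hkk₀
  have hkpos : 1 ≤ k := by
    have : (1 : ℝ) ≤ k := by linarith
    exact_mod_cast this
  have hkε : 4 ≤ k * ε := by
    have : 4 / ε ≤ k := ((le_max_left _ _).trans (le_max_left _ _)).trans (hk₀.trans hkk₀)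
    rwa [div_le_iff₀ hε0] at this
  have hkt : 2 * t ≤ k * (1 - ε) := by
    have : 2 * t / (1 - ε) ≤ k := ((le_max_right _ _).trans (le_max_left _ _)).trans
      (hk₀.trans hkk₀)
    rwa [div_le_iff₀ h1ε] at this
  have hdk1 : 10 ^ 10 * (k : ℝ) ^ 2 ≤ d := by
    have : (k : ℝ) ^ 2 ≤ d / 10 ^ 10 := by
      rw [← hsq]
      exact pow_le_pow_left₀ (Nat.cast_nonneg _) hk1 2
    rw [le_div_iff₀ (by norm_num)] at this
    linarith
  have hdk2 : 1000 * d ≤ 1001 * (10 ^ 10 * (k : ℝ) ^ 2) := by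
    have h1 : d / 10 ^ 10 ≤ ((k : ℝ) + 1) ^ 2 := by
      rw [← hsq]
      exact pow_le_pow_left₀ (Real.sqrt_nonneg _) hk2.le 2
    rw [div_le_iff₀ (by norm_num)] at h1
    have h3 : (2001 : ℝ) * k ≤ k * k := mul_le_mul_of_nonneg_right hk2001 (by linarith)
    have h4 : ((k : ℝ) + 1) ^ 2 = k * k + 2 * k + 1 := by ring
    have h5 : (k : ℝ) ^ 2 = k * k := by ring
    rw [h4] at h1
    rw [h5]
    linarith
  have hdpos : 0 < d := by
    have : (0 : ℝ) < 10 ^ 10 * (k : ℝ) ^ 2 := by positivity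
    linarith
  -- first choice of the degree
  obtain ⟨D, hD2, hDΛ, hΛ10⟩ := Asm_deg k hkpos
  obtain ⟨Λ, hΛ⟩ : ∃ Λ : ℕ, Λ = 8 * D * (D + 1) * Lc k D := ⟨_, rfl⟩
  rw [← hΛ] at hDΛ hΛ10
  have hDpos : 1 ≤ D := by
    have h1 : 0 < 10 ^ 12 * k ^ 2 := by positivity
    exact (Nat.succ_le_of_lt h1).trans hD2
  have hΛpos : 1 ≤ Λ := hDpos.trans hDΛ
  obtain ⟨cP, hcP, nP, HP⟩ := hFinP k D hkpos
  obtain ⟨cE, hcE, nE, HE⟩ := hSupE k D hkpos
  obtain ⟨cS, hcS, nS, HS⟩ := hSumH D (Lc k D)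
  set c₁ : ℝ := min (min cP cE) (min cS 1) with hc₁
  have hc₁0 : 0 < c₁ := lt_min (lt_min hcP hcE) (lt_min hcS one_pos)
  have hc₁P : c₁ ≤ cP := (min_le_left _ _).trans (min_le_left _ _)
  have hc₁E : c₁ ≤ cE := (min_le_left _ _).trans (min_le_right _ _)
  have hc₁S : c₁ ≤ cS := (min_le_right _ _).trans (min_le_left _ _)
  have hc₁1 : c₁ ≤ 1 := (min_le_right _ _).trans (min_le_right _ _)
  -- second choice of the degree
  obtain ⟨D', Λ', hD2', hD'1n, hDΛ', hΛ10', hΛ'1⟩ := Asm_deg' k c₁ hc₁0 hc₁1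
  have hD'1 : (1 : ℝ) ≤ D' := by exact_mod_cast hD'1n
  obtain ⟨C₁, HC₁⟩ := hGr1 k D Λ hkpos hD2 hΛpos hΛ10
  obtain ⟨C₂, HC₂⟩ := hGr1 k D' Λ' hkpos hD2' (hD'1n.trans hDΛ') hΛ10'
  set l : ℝ := Real.logb 2 (1 / (1 - 1 / (2 : ℝ) ^ (D' + 1))) with hl
  have hl0 : 0 < l := by
    have h2C : (1 : ℝ) < 2 ^ (D' + 1) := one_lt_pow₀ (by norm_num) (by omega)
    have h5 : 0 < 1 - 1 / (2 : ℝ) ^ (D' + 1) := by
      rw [sub_pos, div_lt_one (by positivity)]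
      exact h2C
    apply Real.logb_pos (by norm_num)
    rw [lt_div_iff₀ h5]
    have : 0 < 1 / (2 : ℝ) ^ (D' + 1) := by positivity
    linarith
  set c₂ : ℝ := c₁ / (2 * (D' + 1)) * l with hc₂
  have hc₂0 : 0 < c₂ := by positivity
  refine ⟨min c₁ c₂, lt_min hc₁0 hc₂0,
    max (|C₁| + |C₂|) ((nP + nE + nS + Λ + Λ' + 1 : ℕ) : ℝ), fun n hn => ?_⟩
  have hn0 : (0 : ℝ) < n := lt_of_lt_of_le hdpos hn
  have hnpos : 0 < n := by exact_mod_cast hn0
  have hp0 : 0 ≤ d / n := div_nonneg hdpos.le hn0.le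
  have hp1 : d / n ≤ 1 := by rwa [div_le_one hn0]
  rcases lt_or_ge n (nP + nE + nS + Λ + Λ' + 1) with hsmall | hbig
  · refine (Asm_prob_le_one n hp0 hp1 _).trans ?_
    rw [le_div_iff₀ hn0, one_mul]
    refine le_trans ?_ (le_max_right _ _)
    exact_mod_cast hsmall.le
  have hbound : Prob n (d / n) (fun E => ¬ RG2 k D Λ n E ∨ ¬ RG2 k D' Λ' n E) ≤
      max (|C₁| + |C₂|) ((nP + nE + nS + Λ + Λ' + 1 : ℕ) : ℝ) / n := by
    refine (Asm_prob_or n hp0 hp1 _ _).trans ?_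
    have h1 := HC₁ n d hdk1 hdk2 hn
    have h2 := HC₂ n d hdk1 hdk2 hn
    refine (add_le_add h1 h2).trans ?_
    rw [← add_div]
    apply div_le_div_of_nonneg_right _ hn0.le
    refine le_trans ?_ (le_max_left _ _)
    exact add_le_add (le_abs_self _) (le_abs_self _)
  refine le_trans (Asm_prob_mono n hp0 hp1 _ _ ?_) hbound
  intro E
  contrapose!
  rintro ⟨hE1, hE2⟩
  obtain ⟨E', H, hTyp⟩ := hGr2 k D Λ n E hkpos hD2 hDΛ (by omega) hE1
  obtain ⟨E'', H', hTyp'⟩ := hGr2 k D' Λ' n E hkpos hD2' hDΛ' (by omega) hE2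
  have hEcard : 0 < E.card := by
    have h0 := hTyp.tot
    have h1 : 0 < 10 ^ 10 * k ^ 2 * n := by positivity
    have h2 : 0 < 8 * E.card := lt_of_lt_of_le h1 h0
    exact Nat.pos_of_mul_pos_left h2
  have hEr : (0 : ℝ) < E.card := by exact_mod_cast hEcard
  have hcore : ∀ (A : Finset (Sym2 (Fin n))) (Y F : Finset (Fin n)) (r : Fin n → Bool),
      Closed E A Y → 2 * E.card ≤ k * A.card →
      (2 * E.card + k * A.card ≤ k * E.card ∨ n ≤ k * Yᶜ.card) →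
      (F.card : ℝ) ≤ c₁ * n → part A Y r ≠ 0 → Hard2 c₁ A Y F r := by
    intro A Y F r hcl hA1 hA2 hF hr
    refine ⟨?_, ?_⟩
    · apply Main_mono hc₁P
      apply HP Λ n E E' H (by omega) hΛ.ge hTyp A Y hcl hA1 hA2 F r _ hr
      exact hF.trans (mul_le_mul_of_nonneg_right hc₁P hn0.le)
    · apply Asm_sum_mono hc₁S
      obtain ⟨X, G, g, ctr, hS⟩ := HE Λ n E E' H (by omega) hΛ.ge hTyp A Y hcl hA1 hA2 F
        (hF.trans (mul_le_mul_of_nonneg_right hc₁E hn0.le))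
      exact HS n E A Y F X G g ctr r (by omega) hTyp.loop hcl hS hr
  have hYc : ∀ Y : Finset (Fin n), (Y.card : ℝ) ≤ (1 - ε) * n → n ≤ k * Yᶜ.card := by
    intro Y hY
    have h1 : (Yᶜ.card : ℝ) = n - Y.card := by
      rw [card_compl, Fintype.card_fin, Nat.cast_sub]
      simpa using card_le_univ Y
    have h2 : (n : ℝ) ≤ k * Yᶜ.card := by
      rw [h1]
      have h3 : ε * n ≤ n - Y.card := by linarith
      have h4 : (k : ℝ) * (ε * n) ≤ k * (n - Y.card) :=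
        mul_le_mul_of_nonneg_left h3 (Nat.cast_nonneg _)
      calc (n : ℝ) ≤ 4 * n := by linarith
        _ ≤ k * ε * n := mul_le_mul_of_nonneg_right hkε hn0.le
        _ = k * (ε * n) := by ring
        _ ≤ _ := h4
    exact_mod_cast h2
  refine ⟨?_, ?_⟩
  · intro A Y F r hcl hA1 hA2 hF hr
    have hA1' : 2 * E.card ≤ k * A.card := by
      have h3 : (k : ℝ) * (ε * E.card) ≤ k * A.card :=
        mul_le_mul_of_nonneg_left hA1 (Nat.cast_nonneg _)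
      have h4 : (2 : ℝ) * E.card ≤ k * A.card := by
        calc (2 : ℝ) * E.card ≤ 4 * E.card := by linarith
          _ ≤ k * ε * E.card := mul_le_mul_of_nonneg_right hkε hEr.le
          _ = k * (ε * E.card) := by ring
          _ ≤ _ := h3
      exact_mod_cast h4
    have hA2' : 2 * E.card + k * A.card ≤ k * E.card ∨ n ≤ k * Yᶜ.card := by
      rcases hA2 with h | h
      · left
        have h3 : (k : ℝ) * A.card ≤ k * ((1 - ε) * E.card) :=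
          mul_le_mul_of_nonneg_left h (Nat.cast_nonneg _)
        have h4 : (2 : ℝ) * E.card + k * A.card ≤ k * E.card := by
          have h5 : 4 * (E.card : ℝ) ≤ k * ε * E.card :=
            mul_le_mul_of_nonneg_right hkε hEr.le
          have h6 : (k : ℝ) * ((1 - ε) * E.card) = k * E.card - k * ε * E.card := by ring
          linarith
        exact_mod_cast h4
      · exact Or.inr (hYc Y h)
    have hh := hcore A Y F r hcl hA1' hA2'
      (hF.trans (mul_le_mul_of_nonneg_right (min_le_left _ _) hn0.le)) hr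
    exact ⟨Main_mono (min_le_left _ _) hh.1, Asm_sum_mono (min_le_left _ _) hh.2⟩
  · intro N A Y F r hrun hlast
    have hrun' := hRun n N E H' D' t ε c₁ (min c₁ c₂) (Hard2 c₁) hTyp.loop (by
        intro v hv
        refine le_trans (card_le_card ?_) (hTyp'.main.pg.deg v)
        intro w hw
        rw [nb, mem_filter] at hw ⊢
        refine ⟨mem_univ _, ?_⟩
        by_contra hcon
        exact hv (hTyp'.exc _ hw.2 hcon v (Sym2.mem_mk_left _ _))) (by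
        have h1 : (Λ' : ℝ) * H'.card ≤ 2 * D' * n := by exact_mod_cast hTyp'.few
        have h2 : 4 * D' / c₁ * H'.card ≤ 2 * D' * n :=
          (mul_le_mul_of_nonneg_right hΛ'1 (Nat.cast_nonneg _)).trans h1
        rw [div_mul_eq_mul_div, div_le_iff₀ hc₁0] at h2
        have h3 : (D' : ℝ) * (2 * (H'.card : ℝ)) ≤ D' * (c₁ * n) := by
          have h4 : 4 * (D' : ℝ) * H'.card = 2 * (D' * (2 * (H'.card : ℝ))) := by ring
          have h5 : 2 * (D' : ℝ) * n * c₁ = 2 * (D' * (c₁ * n)) := by ring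
          rw [h4, h5] at h2
          linarith
        exact le_of_mul_le_mul_left h3 (by linarith))
      hε0 hε1 ht hEcard hc₁0.le (min_le_right _ _) (fun A Y F r r' h h' => Asm_cube h h')
      (fun A Y hcl h1 h2 F r hF hr => hcore A Y F r hcl ?_ ?_ hF hr) A Y F r hrun hlast
    · rcases hrun' with h | ⟨i, h⟩
      · exact Or.inl h
      · exact Or.inr ⟨i, Main_mono (min_le_left _ _) h.1, Asm_sum_mono (min_le_left _ _) h.2⟩
    · have h3 : (k : ℝ) * ((1 - ε) * E.card) ≤ k * (t * A.card) :=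
        mul_le_mul_of_nonneg_left h1 (Nat.cast_nonneg _)
      have h4 : 2 * (t : ℝ) * E.card ≤ k * (1 - ε) * E.card :=
        mul_le_mul_of_nonneg_right hkt hEr.le
      have h5 : (t : ℝ) * (2 * E.card) ≤ t * (k * A.card) := by
        calc (t : ℝ) * (2 * E.card) = 2 * (t : ℝ) * E.card := by ring
          _ ≤ k * (1 - ε) * E.card := h4
          _ = k * ((1 - ε) * E.card) := by ring
          _ ≤ k * (t * A.card) := h3
          _ = t * (k * A.card) := by ring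
      have h6 : (2 : ℝ) * E.card ≤ k * A.card := le_of_mul_le_mul_left h5 (by linarith)
      exact_mod_cast h6
    · left
      have h3 : (k : ℝ) * A.card ≤ k * ((1 - ε / 2) * E.card) :=
        mul_le_mul_of_nonneg_left h2 (Nat.cast_nonneg _)
      have h4 : (2 : ℝ) * E.card + k * A.card ≤ k * E.card := by
        have h5 : 4 * (E.card : ℝ) ≤ k * ε * E.card :=
          mul_le_mul_of_nonneg_right hkε hEr.le
        have h6 : (k : ℝ) * ((1 - ε / 2) * E.card) = k * E.card - k * ε * E.card / 2 := by ring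
        linarith
      exact_mod_cast h4

end Pool.Agent.EC
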