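import Pool.Agent.EC.St

/-!
# Gadgets of the main part away from the exceptional vertices are gadgets (helper66)
-/

set_option autoImplicit false

namespace Pool.Agent.EC

open Finset Pool.Agent.WD Pool.Agent.EB

private theorem cnv_mem {n : ℕ} {E E' : Finset (Sym2 (Fin n))} {H : Finset (Fin n)}
    (hex : ∀ e ∈ E, e ∉ E' → ∀ v ∈ e, v ∈ H) {u v : Fin n} (hu : u ∉ H) (h : s(u, v) ∈ E) :
    s(u, v) ∈ E' := by
  by_contra h'
  exact hu (hex _ h h' u (Sym2.mem_mk_left u v))

private theorem cnv_mem' {n : ℕ} {E E' : Finset (Sym2 (Fin n))} {H : Finset (Fin n)}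
    (hex : ∀ e ∈ E, e ∉ E' → ∀ v ∈ e, v ∈ H) {u v : Fin n} (hv : v ∉ H) (h : s(u, v) ∈ E) :
    s(u, v) ∈ E' := by
  rw [Sym2.eq_swap] at h ⊢
  exact cnv_mem hex hv h

private theorem cnv_deg {n D : ℕ} {E E' : Finset (Sym2 (Fin n))} {H : Finset (Fin n)}
    (hex : ∀ e ∈ E, e ∉ E' → ∀ v ∈ e, v ∈ H) (hD : ∀ v, (nb E' v).card ≤ D) {u : Fin n}
    (hu : u ∉ H) : (nb E u).card ≤ D := by
  refine (Finset.card_le_card ?_).trans (hD u)
  intro v hv
  unfold nb at hv ⊢
  rw [Finset.mem_filter] at hv ⊢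
  exact ⟨hv.1, cnv_mem hex hu hv.2⟩

private theorem cnv_B {n D : ℕ} {E E' : Finset (Sym2 (Fin n))} {H : Finset (Fin n)}
    (hex : ∀ e ∈ E, e ∉ E' → ∀ v ∈ e, v ∈ H) (hD : ∀ v, (nb E' v).card ≤ D)
    {A : Finset (Sym2 (Fin n))} {Y : Finset (Fin n)} {g : Gad (Fin n)}
    (hg : GadB E' (A ∩ E') Y D g) (hR : Disjoint g.R H) : GadB E A Y D g := by
  have hin : ∀ u, (u = g.p ∨ u = g.q) → u ∉ H := by
    rintro u (rfl | rfl)
    · exact Finset.disjoint_left.1 hR hg.pR
    · exact Finset.disjoint_left.1 hR hg.qR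
  exact ⟨hg.pR, hg.qR, hg.pq, hg.RY, hg.Rc,
    fun u v hu hv h => hg.near u v hu hv (cnv_mem hex (hin u hu) h),
    fun u hu => cnv_deg hex hD (hin u hu), hg.C0, (Finset.mem_inter.1 hg.pqA).1⟩

private theorem cnv_A {n D : ℕ} {E E' : Finset (Sym2 (Fin n))} {H : Finset (Fin n)}
    (hsub : E' ⊆ E) (hex : ∀ e ∈ E, e ∉ E' → ∀ v ∈ e, v ∈ H) (hD : ∀ v, (nb E' v).card ≤ D)
    {A A' : Finset (Sym2 (Fin n))} {Y : Finset (Fin n)} {g : Gad (Fin n)} {e : Fin n}
    (hg : GadA E' A' Y D g e) (hR : Disjoint g.R H) (he : e ∉ H) : GadA E A Y D g e := by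
  have hin : ∀ u, (u ∈ g.C ∨ u = g.p ∨ u = g.q) → u ∉ H := by
    rintro u (hu | rfl | rfl)
    · exact Finset.disjoint_left.1 hR (hg.CR hu)
    · exact Finset.disjoint_left.1 hR hg.pR
    · exact Finset.disjoint_left.1 hR hg.qR
  exact
    { pR := hg.pR
      qR := hg.qR
      pq := hg.pq
      CR := hg.CR
      pC := hg.pC
      qC := hg.qC
      RY := hg.RY
      Cc := hg.Cc
      Rc := hg.Rc
      near := fun u v hu hv h => hg.near u v hu hv (cnv_mem hex (hin u hu) h)
      deg := fun u hu => cnv_deg hex hD (hin u hu)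
      dege := cnv_deg hex hD he
      eY := hg.eY
      ep := hsub hg.ep
      eq := hsub hg.eq
      eR := fun v hv h => hg.eR v hv (cnv_mem hex he h)
      eC := fun u hu h => hg.eC u hu (cnv_mem hex he h)
      ind := fun u v hu hv h => hg.ind u v hu hv (cnv_mem hex (hin u hu) h)
      blk := by
        intro e' he' hne h
        obtain ⟨u, hu, hu'⟩ := hg.blk e' he' hne (h.imp
          (fun h => cnv_mem' hex (hin _ (Or.inr (Or.inl rfl))) h)
          (fun h => cnv_mem' hex (hin _ (Or.inr (Or.inr rfl))) h))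
        exact ⟨u, hu, hsub hu'⟩ }

theorem thm_Cnv : St_Cnv := by
  intro n D E E' H hsub hex hD A Y
  refine ⟨fun g hg hR hp => ?_, fun g e hg hR he => cnv_A hsub hex hD hg hR he,
    fun g hg hR => cnv_B hex hD hg hR⟩
  rcases hg.typ with ⟨e, heY, hep, heq, heR, heC, hind, hblk⟩ | ⟨hC, hpq⟩
  · left
    have he : e ∉ H := fun h => hp e h hep
    refine ⟨e, cnv_A hsub hex hD (A' := A ∩ E') ?_ hR he⟩
    exact
      { pR := hg.pR
        qR := hg.qR
        pq := hg.pq
        CR := hg.CR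
        pC := hg.pC
        qC := hg.qC
        RY := hg.RY
        Cc := hg.Cc
        Rc := hg.Rc
        near := hg.near
        deg := fun u _ => hD u
        dege := hD e
        eY := heY
        ep := hep
        eq := heq
        eR := heR
        eC := heC
        ind := hind
        blk := hblk }
  · right
    refine cnv_B hex hD ?_ hR
    exact ⟨hg.pR, hg.qR, hg.pq, hg.RY, hg.Rc, fun u v hu => hg.near u v (Or.inr hu),
      fun u _ => hD u, hC, hpq⟩

end Pool.Agent.EC
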