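import Pool.Agent.EC.St

/-!
# A subgraph with large minimum degree (helper66)
-/

set_option autoImplicit false

namespace Pool.Agent.EC

open Finset Pool.Agent.WD Pool.Agent.EB

private theorem core_aux {V : Type} [Fintype V] [DecidableEq V] (G : Finset (Sym2 V)) (δ : ℕ)
    (n : ℕ) : ∀ W : Finset V, W.card = n →
      ∃ U : Finset V, (∀ v ∈ U, δ < ((inner G U).filter fun e => v ∈ e).card) ∧
        (inner G W).card ≤ (inner G U).card + δ * n := by
  induction n with
  | zero =>
    intro W hW
    rw [Finset.card_eq_zero] at hW
    subst hW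
    exact ⟨∅, fun v hv => absurd hv (Finset.notMem_empty v), by omega⟩
  | succ n ih =>
    intro W hW
    by_cases h : ∀ v ∈ W, δ < ((inner G W).filter fun e => v ∈ e).card
    · exact ⟨W, h, Nat.le_add_right _ _⟩
    · push Not at h
      obtain ⟨v, hv, hd⟩ := h
      obtain ⟨U, hU, hc⟩ := ih (W.erase v) (by rw [Finset.card_erase_of_mem hv, hW]; rfl)
      refine ⟨U, hU, ?_⟩
      have h1 : inner G W ⊆ inner G (W.erase v) ∪ (inner G W).filter fun e => v ∈ e := by
        intro e he
        rw [Finset.mem_union, Finset.mem_filter]
        by_cases hve : v ∈ e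
        · exact Or.inr ⟨he, hve⟩
        · left
          unfold inner at he ⊢
          rw [Finset.mem_filter] at he ⊢
          refine ⟨he.1, fun u hu => Finset.mem_erase.2 ⟨?_, he.2 u hu⟩⟩
          rintro rfl
          exact hve hu
      have h2 := (Finset.card_le_card h1).trans (Finset.card_union_le _ _)
      have h3 : δ * (n + 1) = δ * n + δ := by ring
      omega

theorem thm_Core : St_Core := by
  intro V _ _ G δ
  obtain ⟨U, hU, hc⟩ := core_aux G δ (Fintype.card V) univ Finset.card_univ
  refine ⟨U, hU, ?_⟩
  have h : inner G univ = G := by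
    unfold inner
    exact Finset.filter_true_of_mem fun e _ v _ => Finset.mem_univ v
  rwa [h] at hc

end Pool.Agent.EC
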