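import Pool.Agent.EC.St

/-!
# [EC Cub] the number of models on a cube, with degree bounds for the fixed variables only
-/

set_option autoImplicit false

namespace Pool.Agent.EC

open Finset Pool.Agent.WD Pool.Agent.EB

theorem Cub_set {V : Type} [Fintype V] [DecidableEq V] (E : Finset (Sym2 V))
    (hloop : ∀ e ∈ E, ¬ e.IsDiag) (r : V → Bool) (D : ℕ) (J : Finset V)
    (hD : ∀ v ∈ J, (nb E v).card ≤ D)
    (hJ : ∀ u ∈ J, ∀ v ∈ J, u ≠ v → v ∉ insert u (nb E u)) :
    (2 ^ (D + 1)) ^ J.card * (Cube_mod E J r).card ≤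
      (2 ^ (D + 1) - 1) ^ J.card * (Cube_mod E ∅ r).card := by
  classical
  induction J using Finset.induction_on with
  | empty => simp
  | insert v J hv ih =>
    have ih' := ih (fun u hu => hD u (mem_insert_of_mem hu))
      fun u hu w hw => hJ u (mem_insert_of_mem hu) w (mem_insert_of_mem hw)
    have h1 := Cube_ins E hloop J r v D (hD v (mem_insert_self _ _)) (by
      rw [Finset.disjoint_left]
      intro w hw hwJ
      exact hJ v (mem_insert_self _ _) w (mem_insert_of_mem hwJ) (fun h => hv (h ▸ hwJ)) hw)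
    rw [card_insert_of_notMem hv]
    calc (2 ^ (D + 1)) ^ (J.card + 1) * (Cube_mod E (insert v J) r).card
        = (2 ^ (D + 1)) ^ J.card * (2 ^ (D + 1) * (Cube_mod E (insert v J) r).card) := by ring
      _ ≤ (2 ^ (D + 1)) ^ J.card * ((2 ^ (D + 1) - 1) * (Cube_mod E J r).card) :=
          Nat.mul_le_mul_left _ h1
      _ = (2 ^ (D + 1) - 1) * ((2 ^ (D + 1)) ^ J.card * (Cube_mod E J r).card) := by ring
      _ ≤ (2 ^ (D + 1) - 1) * ((2 ^ (D + 1) - 1) ^ J.card * (Cube_mod E ∅ r).card) :=
          Nat.mul_le_mul_left _ ih'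
      _ = _ := by ring

theorem thm_Cub : St_Cub := by
  intro V _ _ E hloop F r D hD
  classical
  obtain ⟨J, hJF, hJ, hc⟩ := Sel1_greedy F (fun u v => v ∈ insert u (nb E u)) (by
    intro a b h
    rw [mem_insert] at h ⊢
    rcases h with h | h
    · exact Or.inl h.symm
    · right
      have := (mem_filter.1 h).2
      exact mem_filter.2 ⟨mem_univ _, by rw [Sym2.eq_swap]; exact this⟩) (D + 1)
      (fun u => insert u (nb E u)) (fun u hu => (card_insert_le _ _).trans
        (Nat.add_le_add_right (hD u hu) 1)) (fun u _ v _ h => h) (fun u _ => mem_insert_self _ _)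
  refine ⟨J.card, hc, ?_⟩
  have h1 : (Cube_mod E F r).card ≤ (Cube_mod E J r).card := by
    apply card_le_card
    intro x hx
    rw [Cube_mod, mem_filter] at hx ⊢
    exact ⟨hx.1, hx.2.1, fun v hv => hx.2.2 v (hJF hv)⟩
  exact (Nat.mul_le_mul_left _ h1).trans
    (Cub_set E hloop r D J (fun v hv => hD v (hJF hv)) hJ)

end Pool.Agent.EC
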