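import Pool.Agent.EC.Model
import Pool.Agent.EB.Defs

/-!
# Auxiliary definitions: graphs, gadgets, supplies of gadgets, ranks
-/

set_option autoImplicit false

namespace Pool.Agent.EC

open Finset Pool.Agent.WD Pool.Agent.EB
open scoped NNReal

/-! ### Graphs -/

/-- edges with both ends in `S` -/
def inner {V : Type} [Fintype V] [DecidableEq V] (E : Finset (Sym2 V)) (S : Finset V) : Finset (Sym2 V) :=
  E.filter fun e => ∀ v ∈ e, v ∈ S

/-- edges with an end in `S` -/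
def touch {V : Type} [Fintype V] [DecidableEq V] (E : Finset (Sym2 V)) (S : Finset V) : Finset (Sym2 V) :=
  E.filter fun e => ∃ v ∈ e, v ∈ S

/-- edges between `S` and `T` -/
def betw {V : Type} [Fintype V] [DecidableEq V] (E : Finset (Sym2 V)) (S T : Finset V) : Finset (Sym2 V) :=
  E.filter fun e => ∃ u ∈ S, ∃ v ∈ T, e = s(u, v)

open Classical in
/-- the typical properties of the random graph, average degree about `10 ^ 10 * k ^ 2` -/
structure RG2 (k D Λ n : ℕ) (E : Finset (Sym2 (Fin n))) : Prop where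
  loop : ∀ e ∈ E, ¬ e.IsDiag
  tot : 10 ^ 10 * k ^ 2 * n ≤ 8 * E.card
  tot2 : E.card ≤ 2 * 10 ^ 10 * k ^ 2 * n
  R1 : ∀ S T : Finset (Fin n), Disjoint S T → n ≤ 20000 * k * S.card → n ≤ 20000 * k * T.card →
    4 * n ≤ (betw E S T).card
  R2 : ∀ S : Finset (Fin n), 1000 * k * S.card ≤ n → (inner E S).card ≤ 40000 * n
  R3 : ∀ S : Finset (Fin n), 20000 * k * S.card ≤ 3 * n → (touch E S).card ≤ 5 * 10 ^ 8 * k * n
  R4 : ∀ S : Finset (Fin n), Λ * S.card ≤ 2 * n → 2 * Λ * (touch E S).card ≤ D * n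
  R5 : Λ * (E.filter fun e => Short E e).card ≤ n
  R6 : ∀ S : Finset (Fin n), S.card ^ 4 ≤ n ^ 3 → (inner E S).card ≤ 5 * S.card

/-- the main part of a typical graph -/
structure PG2 (k n D : ℕ) (E : Finset (Sym2 (Fin n))) : Prop where
  pg : PG k n D E
  G1n : ∀ S T : Finset (Fin n), Disjoint S T → n ≤ 20000 * k * S.card → n ≤ 20000 * k * T.card →
    3 * n ≤ (betw E S T).card
  G4 : ∀ S : Finset (Fin n), S.card ^ 4 ≤ n ^ 3 → (inner E S).card ≤ 5 * S.card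

/-- `E` is typical, with main part `E'` and a small set `H` of exceptional vertices -/
structure Typ (k D Λ n : ℕ) (E E' : Finset (Sym2 (Fin n))) (H : Finset (Fin n)) : Prop where
  loop : ∀ e ∈ E, ¬ e.IsDiag
  tot : 10 ^ 10 * k ^ 2 * n ≤ 8 * E.card
  tot2 : E.card ≤ 2 * 10 ^ 10 * k ^ 2 * n
  sub : E' ⊆ E
  main : PG2 k n D E'
  exc : ∀ e ∈ E, e ∉ E' → ∀ v ∈ e, v ∈ H
  rem : Λ * (E \ E').card ≤ D * n
  few : Λ * H.card ≤ 2 * D * n

/-! ### Gadgets -/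

/-- a gadget of the first type, with centre `e`; `e` is an eliminated variable -/
structure GadA {V : Type} [Fintype V] [DecidableEq V] (E A : Finset (Sym2 V)) (Y : Finset V)
    (D : ℕ) (g : Gad V) (e : V) : Prop where
  pR : g.p ∈ g.R
  qR : g.q ∈ g.R
  pq : g.p ≠ g.q
  CR : g.C ⊆ g.R
  pC : g.p ∉ g.C
  qC : g.q ∉ g.C
  RY : Disjoint g.R Y
  Cc : g.C.card ≤ 2 * D
  Rc : g.R.card ≤ (D + 1) * (2 * D + 3)
  near : ∀ u v, (u ∈ g.C ∨ u = g.p ∨ u = g.q) → v ∉ Y → s(u, v) ∈ E → v ∈ g.R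
  deg : ∀ u, (u ∈ g.C ∨ u = g.p ∨ u = g.q) → (nb E u).card ≤ D
  dege : (nb E e).card ≤ D
  eY : e ∈ Y
  ep : s(e, g.p) ∈ E
  eq : s(e, g.q) ∈ E
  eR : ∀ v, v ∉ Y → s(e, v) ∈ E → v ∈ g.R
  eC : ∀ u ∈ g.C, s(e, u) ∉ E
  ind : ∀ u v, (u ∈ g.C ∨ u = g.p ∨ u = g.q) → (v ∈ g.C ∨ v = g.p ∨ v = g.q) → s(u, v) ∉ E
  blk : ∀ e' ∈ Y, e' ≠ e → (s(e', g.p) ∈ E ∨ s(e', g.q) ∈ E) → ∃ u ∈ g.C, s(e', u) ∈ E

/-- a gadget of the second type -/
structure GadB {V : Type} [Fintype V] [DecidableEq V] (E A : Finset (Sym2 V)) (Y : Finset V)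
    (D : ℕ) (g : Gad V) : Prop where
  pR : g.p ∈ g.R
  qR : g.q ∈ g.R
  pq : g.p ≠ g.q
  RY : Disjoint g.R Y
  Rc : g.R.card ≤ (D + 1) * (2 * D + 3)
  near : ∀ u v, (u = g.p ∨ u = g.q) → v ∉ Y → s(u, v) ∈ E → v ∈ g.R
  deg : ∀ u, (u = g.p ∨ u = g.q) → (nb E u).card ≤ D
  C0 : g.C = ∅
  pqA : s(g.p, g.q) ∈ A

/-- a supply of gadgets, indexed by some pairs `(p, q)` of vertices in the core set `X`, which
avoids the set `H` -/
structure Supply {n : ℕ} (E A : Finset (Sym2 (Fin n))) (Y : Finset (Fin n)) (D : ℕ)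
    (H : Finset (Fin n)) (Λ : ℕ) (X : Finset (Fin n)) (G : Finset (Fin n × Fin n))
    (g : Fin n × Fin n → Gad (Fin n)) (ctr : Fin n × Fin n → Fin n) : Prop where
  big : n ≤ Λ * X.card
  core : ∀ e ∈ G, e.1 ∈ X ∧ e.2 ∈ X ∧ (g e).p = e.1 ∧ (g e).q = e.2
  typ : (∀ e ∈ G, GadA E A Y D (g e) (ctr e)) ∨ ∀ e ∈ G, GadB E A Y D (g e)
  conf : ∀ e ∈ G, (G.filter fun f => ¬ Disjoint (g e).R (g f).R ∨ ctr e = ctr f ∨
    s(ctr e, ctr f) ∈ E).card ≤ Λ
  avoid : ∀ e ∈ G, Disjoint (g e).R H ∧ ctr e ∉ H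
  cross : ∀ S ⊆ X, (Λ * S.card) ^ 4 ≤ n ^ 3 →
    S.card ≤ (G.filter fun e => (e.1 ∈ S ∧ e.2 ∉ S) ∨ (e.1 ∉ S ∧ e.2 ∈ S)).card

/-- the constant in the selection lemmas -/
def Lc (k D : ℕ) : ℕ := 10 ^ 6 * k * (D + 1) ^ 12

/-! ### Ranks -/

/-- the matrix `M` is a sum of `R` products -/
def RkM {I J : Type} (R : ℕ) (M : I → J → ℝ) : Prop :=
  ∃ (u : Fin R → I → ℝ) (v : Fin R → J → ℝ), ∀ y z, M y z = ∑ t, u t y * v t z

/-- the rows of `M` are linearly independent -/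
def Rows {I J : Type} [Fintype I] (M : I → J → ℝ) : Prop :=
  ∀ l : I → ℝ, (∀ z, ∑ y, l y * M y z = 0) → ∀ y, l y = 0

/-- the assignment with values `a i`, `b i` of the core variables `p`, `q` of the gadgets `g i`; the
gadgets are active; the other values are given by `x₀` -/
noncomputable def asg {V I : Type} [DecidableEq V] (g : I → Gad V) (x₀ : V → Bool)
    (a b : I → Bool) (v : V) : Bool := by
  classical
  exact if h : ∃ i, v = (g i).p then a h.choose else if h : ∃ i, v = (g i).q then b h.choose else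
    if ∃ i, v ∈ (g i).C then false else if ∃ i, v ∈ (g i).R then true else x₀ v

/-- the first choice where the orientation `o` is true, the second elsewhere -/
def mix {I α : Type} (o : I → Bool) (y z : I → α) (i : I) : α := if o i then y i else z i

end Pool.Agent.EC
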