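import Pool.Agent.EC.St
import Pool.Agent.EB.Fin

/-!
# Programs for a typical graph
-/

set_option autoImplicit false

namespace Pool.Agent.EC

open Finset Pool.Agent.WD Pool.Agent.EB
open scoped NNReal

/-- the loss for one term and one family of gadgets -/
theorem FinP_loss (hPar : St_ParL) (hConc : St_Conc) (hB1 : St_B1) (hB2 : St_B2) (D : ℕ) :
    ∃ η : ℝ, 0 < η ∧ η < 1 ∧ ∀ (V : Type) [Fintype V] [DecidableEq V] (E A : Finset (Sym2 V))
      (Y F : Finset V), A ⊆ E → (∀ e ∈ E, ¬ e.IsDiag) →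
      (∀ e ∈ E, ∀ v ∈ Y, v ∈ e → e ∈ A) → ∀ J : Finset (Gad V),
      (∀ g ∈ J, (∃ e, GadA E A Y D g e) ∨ GadB E A Y D g) → (∀ g ∈ J, ∀ h ∈ J, g ≠ h → Disjoint g.R h.R) →
      (∀ g ∈ J, Disjoint g.R F) → ∀ (T : (V → Bool) → ℝ≥0) (κ : ℝ≥0) (x₀ : V → Bool),
      (∀ x, (∀ v ∈ Y ∪ F, x v = x₀ v) → T x ≤ κ * part A Y x) → ∀ (S : Finset V) (W : ℕ),
      (Broken T S ∨ RankLe W T S) → (∀ g ∈ J, g.p ∈ S ∧ g.q ∉ S) →
      ∑ x ∈ univ.filter (fun x : V → Bool => ∀ v ∈ Y ∪ F, x v = x₀ v), (T x : ℝ) ≤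
        κ * (W + 1) * (1 - η) ^ J.card *
          ∑ x ∈ univ.filter (fun x : V → Bool => ∀ v ∈ Y ∪ F, x v = x₀ v), (part A Y x : ℝ) := by
  set ε : ℝ≥0 := ((2 : ℝ≥0) ^ D)⁻¹ with hε
  set K : ℝ≥0 := 2 ^ (2 * D ^ 2) with hK
  set r : ℕ := (D + 1) * (2 * D + 3) with hr
  have hε0 : 0 < ε := by positivity
  have hε1 : ε ≤ 1 := by
    rw [hε]
    exact inv_le_one_of_one_le₀ (one_le_pow₀ (by norm_num))
  have hK1 : 1 ≤ K := by rw [hK]; exact one_le_pow₀ (by norm_num)
  have hK1' : (1 : ℝ) ≤ K := by exact_mod_cast hK1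
  have hr3 : 1 ≤ r := by rw [hr]; nlinarith
  obtain ⟨ρ1, h10, h11, H1⟩ := hB1 ε hε0 hε1
  obtain ⟨ρ2, h20, h21, H2⟩ := hB2 ε hε0 hε1
  have hKr : (2 : ℝ) ≤ K * 2 ^ r := by
    have h2 : (2 : ℝ) ≤ 2 ^ r := by
      calc (2 : ℝ) = 2 ^ 1 := by norm_num
        _ ≤ 2 ^ r := pow_le_pow_right₀ (by norm_num) hr3
    nlinarith
  have hKr0 : (0 : ℝ) < K * 2 ^ r := by linarith
  refine ⟨min ((1 - ρ1) / (K * 2 ^ r)) ((1 - ρ2) / (K * 2 ^ r)), ?_, ?_, ?_⟩
  · exact lt_min (div_pos (by linarith) hKr0) (div_pos (by linarith) hKr0)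
  · refine (min_le_left _ _).trans_lt ?_
    rw [div_lt_one hKr0]
    linarith
  intro V _ _ E A Y F hAE hloop hclo J hJ hdis hJF T κ x₀ hT S W hTS hpq
  have hFam : Fam (part A Y) (Y ∪ F) ε K r J :=
    { pR := fun g hg => by
        rcases hJ g hg with ⟨e, h⟩ | h
        · exact h.pR
        · exact h.pR
      qR := fun g hg => by
        rcases hJ g hg with ⟨e, h⟩ | h
        · exact h.qR
        · exact h.qR
      pq := fun g hg => by
        rcases hJ g hg with ⟨e, h⟩ | h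
        · exact h.pq
        · exact h.pq
      CR := fun g hg => by
        rcases hJ g hg with ⟨e, h⟩ | h
        · exact h.CR
        · rw [h.C0]
          exact empty_subset _
      pC := fun g hg => by
        rcases hJ g hg with ⟨e, h⟩ | h
        · exact h.pC
        · rw [h.C0]
          exact notMem_empty _
      qC := fun g hg => by
        rcases hJ g hg with ⟨e, h⟩ | h
        · exact h.qC
        · rw [h.C0]
          exact notMem_empty _
      RU := fun g hg => by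
        rw [disjoint_union_right]
        refine ⟨?_, hJF g hg⟩
        rcases hJ g hg with ⟨e, h⟩ | h
        · exact h.RY
        · exact h.RY
      Rr := fun g hg => by
        rcases hJ g hg with ⟨e, h⟩ | h
        · exact h.Rc
        · exact h.Rc
      disj := hdis
      gap := fun g hg => (hPar V E A Y D hAE hloop hclo g (hJ g hg)).1
      ratio := fun g hg => (hPar V E A Y D hAE hloop hclo g (hJ g hg)).2 }
  set Q := univ.filter (fun x : V → Bool => ∀ v ∈ Y ∪ F, x v = x₀ v) with hQ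
  have hSum0 : 0 ≤ ∑ x ∈ Q, (part A Y x : ℝ) := sum_nonneg fun x _ => NNReal.coe_nonneg _
  have key : ∀ ρ : ℝ, 0 ≤ ρ → ρ < 1 → min ((1 - ρ1) / (K * 2 ^ r)) ((1 - ρ2) / (K * 2 ^ r)) ≤
      (1 - ρ) / (K * 2 ^ r) → ∀ w : ℝ, 0 ≤ w → w ≤ κ * (W + 1) →
      ∑ x ∈ Q, (T x : ℝ) ≤ w * ∑ x ∈ Q, ρ ^ nact J x * (part A Y x : ℝ) →
      ∑ x ∈ Q, (T x : ℝ) ≤ κ * (W + 1) *
        (1 - min ((1 - ρ1) / (K * 2 ^ r)) ((1 - ρ2) / (K * 2 ^ r))) ^ J.card *
          ∑ x ∈ Q, (part A Y x : ℝ) := by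
    intro ρ hρ0 hρ1 hmin w hw0 hw h
    have hc := hConc V (part A Y) (Y ∪ F) ε K r J hFam hK1 ρ hρ0 hρ1.le x₀
    have h5 : 0 ≤ 1 - (1 - ρ) / (K * 2 ^ r) := by
      rw [sub_nonneg, div_le_one hKr0]
      linarith
    have h6 : (1 - (1 - ρ) / (K * 2 ^ r)) ^ J.card ≤
        (1 - min ((1 - ρ1) / (K * 2 ^ r)) ((1 - ρ2) / (K * 2 ^ r))) ^ J.card :=
      pow_le_pow_left₀ h5 (by linarith) _
    have h7 : 0 ≤ (1 - (1 - ρ) / (K * 2 ^ r)) ^ J.card := pow_nonneg h5 _
    calc ∑ x ∈ Q, (T x : ℝ) ≤ w * ∑ x ∈ Q, ρ ^ nact J x * (part A Y x : ℝ) := h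
      _ ≤ w * ((1 - (1 - ρ) / (K * 2 ^ r)) ^ J.card * ∑ x ∈ Q, (part A Y x : ℝ)) :=
          mul_le_mul_of_nonneg_left hc hw0
      _ ≤ (κ * (W + 1)) * ((1 - min ((1 - ρ1) / (K * 2 ^ r)) ((1 - ρ2) / (K * 2 ^ r))) ^ J.card *
            ∑ x ∈ Q, (part A Y x : ℝ)) := by
          apply mul_le_mul hw (mul_le_mul_of_nonneg_right h6 hSum0)
            (mul_nonneg h7 hSum0) (hw0.trans hw)
      _ = _ := by ring
  have hκ0 : (0 : ℝ) ≤ κ := NNReal.coe_nonneg _
  have hW0 : (0 : ℝ) ≤ W := Nat.cast_nonneg W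
  rcases hTS with hB | hR
  · apply key ρ1 h10 h11 (min_le_left _ _) κ hκ0 (by nlinarith)
    exact H1 V (part A Y) (Y ∪ F) K r J hFam T κ x₀ hT
      fun g hg => hB g.p (hpq g hg).1 g.q (hpq g hg).2
  · apply key ρ2 h20 h21 (min_le_right _ _) (κ * W) (by positivity) (by nlinarith)
    exact H2 V (part A Y) (Y ∪ F) K r J hFam T κ x₀ hT S W hR hpq

theorem thm_FinP (hPar : St_ParL) (hConc : St_Conc) (hB1 : St_B1) (hB2 : St_B2)
    (hSel : St_SelX) (hCnv : St_Cnv) (hDec : St_Dec2) : St_FinP := by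
  classical
  intro k D hk
  obtain ⟨η, hη0, hη1, hLoss⟩ := FinP_loss hPar hConc hB1 hB2 D
  obtain ⟨L, hLd⟩ : ∃ L, L = Lc k D := ⟨_, rfl⟩
  have hL : 0 < L := by
    rw [hLd, Lc]
    positivity
  have h0 : (0 : ℝ) < 1 - η := by linarith
  set l := Real.logb 2 (1 / (1 - η)) with hl
  have hl0 : 0 < l := Real.logb_pos (by norm_num) (by rw [lt_div_iff₀ h0]; linarith)
  have hL' : (0 : ℝ) < L := by exact_mod_cast hL
  refine ⟨min (l / (8 * (2 * L : ℕ))) (1 / (4 * L)), lt_min (by positivity) (by positivity),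
    2000 * k, ?_⟩
  intro Λ n E E' H hn hΛ hTyp A Y hAY hA1 hA2 F r hF hr s W P κ hκ hi
  obtain ⟨hAE, hclo⟩ := hAY
  obtain ⟨i, hi1, hi2⟩ := hi
  have hn0 : 0 < n := by omega
  have hG := hTyp.main.pg
  rw [← hLd] at hΛ
  -- `D` is positive
  have hD : 1 ≤ D := by
    by_contra hD
    have hD0 : D = 0 := by omega
    have h1 : E' = ∅ := by
      rw [eq_empty_iff_forall_notMem]
      intro e he
      induction e using Sym2.ind with
      | _ u v =>
        have h2 := hG.deg u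
        rw [hD0, Nat.le_zero, card_eq_zero] at h2
        have h3 : v ∈ nb E' u := by
          unfold nb
          rw [mem_filter]
          exact ⟨mem_univ _, he⟩
        rw [h2] at h3
        exact absurd h3 (notMem_empty _)
    have h2 := hG.big
    rw [h1, card_empty, Nat.le_zero] at h2
    have h3 : 0 < 10 ^ 9 * k ^ 2 * n := by positivity
    omega
  -- few removed edges
  obtain ⟨ρ, hρ⟩ : ∃ ρ, ρ = (E \ E').card := ⟨_, rfl⟩
  have hrem := hTyp.rem
  rw [← hρ] at hrem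
  have hρn : ρ ≤ n := by
    have h1 : D ≤ Λ := by
      refine le_trans ?_ hΛ
      have h2 : 1 ≤ 8 * (D + 1) * L := Nat.mul_pos (by omega) hL
      calc D = D * 1 := (mul_one D).symm
        _ ≤ D * (8 * (D + 1) * L) := Nat.mul_le_mul_left _ h2
        _ = 8 * D * (D + 1) * L := by ring
    have h2 : D * ρ ≤ D * n := (Nat.mul_le_mul_right _ h1).trans hrem
    exact Nat.le_of_mul_le_mul_left h2 hD
  have hE' : E'.card + ρ = E.card := by
    rw [hρ, add_comm]
    exact card_sdiff_add_card_eq_card hTyp.sub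
  have hA' : A.card ≤ (A ∩ E').card + ρ := by
    have h1 : A \ E' ⊆ E \ E' := sdiff_subset_sdiff hAE (Subset.refl _)
    have h2 := card_le_card h1
    have h3 := card_inter_add_card_sdiff A E'
    omega
  have hA'' : (A ∩ E').card ≤ A.card := card_le_card inter_subset_left
  have hkE : k * ρ ≤ E.card := by
    have h1 : 10 ^ 10 * (k ^ 2 * n) ≤ 8 * E.card := by
      rw [← mul_assoc]
      exact hTyp.tot
    have h2 : k * ρ ≤ k * n := Nat.mul_le_mul_left _ hρn
    have h3 : k * n ≤ k ^ 2 * n := by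
      rw [pow_two, mul_assoc]
      exact Nat.le_mul_of_pos_left _ (by omega)
    have h4 : k * ρ ≤ k ^ 2 * n := h2.trans h3
    generalize k * ρ = a at h4 ⊢
    generalize k ^ 2 * n = b at h1 h4
    omega
  have hclo' : ∀ e ∈ E', ∀ v ∈ Y, v ∈ e → e ∈ A ∩ E' := fun e he v hv hve =>
    mem_inter.2 ⟨hclo e (hTyp.sub he) v hv hve, he⟩
  have hA1' : E'.card ≤ k * (A ∩ E').card := by
    have h1 : k * A.card ≤ k * (A ∩ E').card + k * ρ := by
      rw [← mul_add]
      exact Nat.mul_le_mul_left _ hA'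
    omega
  have hA2' : E'.card + k * (A ∩ E').card ≤ k * E'.card ∨ n ≤ k * Yᶜ.card := by
    rcases hA2 with h | h
    · left
      have h1 : k * E.card = k * E'.card + k * ρ := by
        rw [← hE', mul_add]
      have h2 : k * (A ∩ E').card ≤ k * A.card := Nat.mul_le_mul_left _ hA''
      omega
    · exact Or.inr h
  obtain ⟨C, hCn, hC⟩ := hSel k D n E' (A ∩ E') Y hk hn0 hG inter_subset_right hclo' hA1' hA2'
  rw [← hLd] at hC
  have hcnv := (hCnv n D E E' H hTyp.sub hTyp.exc hG.deg A Y).1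
  -- the set to avoid
  obtain ⟨U, hU⟩ : ∃ U, U = F ∪ (H ∪ H.biUnion (nb E')) := ⟨_, rfl⟩
  have hUc : U.card ≤ F.card + (D + 1) * H.card := by
    rw [hU]
    have h1 : (H.biUnion (nb E')).card ≤ H.card * D := card_biUnion_le_card_mul _ _ _ fun v _ => hG.deg v
    have h2 := card_union_le F (H ∪ H.biUnion (nb E'))
    have h3 := card_union_le H (H.biUnion (nb E'))
    have h4 : (D + 1) * H.card = H.card * D + H.card := by ring
    omega
  have hH : 4 * L * ((D + 1) * H.card) ≤ n := by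
    have h1 := hTyp.few
    have h2 : 8 * D * (D + 1) * L * H.card ≤ 2 * D * n := (Nat.mul_le_mul_right _ hΛ).trans h1
    have h3 : 2 * D * (4 * L * ((D + 1) * H.card)) ≤ 2 * D * n := by
      calc 2 * D * (4 * L * ((D + 1) * H.card)) = 8 * D * (D + 1) * L * H.card := by ring
        _ ≤ 2 * D * n := h2
    exact Nat.le_of_mul_le_mul_left h3 (by omega)
  have hκW : (0 : ℝ) ≤ κ * (W + 1) :=
    mul_nonneg (NNReal.coe_nonneg _) (add_nonneg (Nat.cast_nonneg _) zero_le_one)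
  have hC2 : 2 ≤ C.card := by
    by_contra hcon
    push Not at hcon
    have h1 : C.card ≤ 1 := by omega
    have h2 : 1000 * k * C.card ≤ 1000 * k * 1 := Nat.mul_le_mul_left _ h1
    have h3 := hCn.trans h2
    omega
  obtain ⟨ι, _, T, S, hι, hle, hT⟩ := hDec Bool (Fin n) s W P i C hC2
  set Q := univ.filter (fun x : Fin n → Bool => ∀ v ∈ F, x v = r v) with hQ
  have hQF : ∀ x ∈ Q, ∀ v ∈ F, x v = r v := fun x hx => (mem_filter.1 hx).2
  set tot := ∑ x ∈ Q, (part A Y x : ℝ) with htot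
  have htot0 : 0 < tot := by
    apply sum_pos' (fun x _ => NNReal.coe_nonneg _)
    refine ⟨r, mem_filter.2 ⟨mem_univ _, fun v _ => rfl⟩, ?_⟩
    exact_mod_cast pos_iff_ne_zero.2 hr
  -- the number of gadgets
  set m := (n + (2 * L - 1)) / (2 * L) with hm
  have hmn : n ≤ (2 * L) * m := by
    rw [hm]
    have := Nat.div_add_mod (n + (2 * L - 1)) (2 * L)
    have h2 := Nat.mod_lt (n + (2 * L - 1)) (show 0 < 2 * L by omega)
    omega
  have hterm : ∀ t, ∑ x ∈ Q, (T t x : ℝ) ≤ κ * (W + 1) * (1 - η) ^ m * tot := by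
    intro t
    obtain ⟨hTle, hb1, hb2, hTS⟩ := hT t
    obtain ⟨J, hJ1, hJ2, hJ3, hJ4⟩ := hC (S t) hb1 hb2
    obtain ⟨J', hJJ, hJU, hJc⟩ := Fin_rem J U hJ2
    have hJF : ∀ g ∈ J', Disjoint g.R F := fun g hg => by
      have h := hJU g hg
      rw [hU, disjoint_union_right] at h
      exact h.1
    have hJG : ∀ g ∈ J', (∃ e, GadA E A Y D g e) ∨ GadB E A Y D g := fun g hg => by
      have h := hJU g hg
      rw [hU, disjoint_union_right, disjoint_union_right] at h
      refine hcnv g (hJ1 g (hJJ hg)) h.2.1 fun v hv hvp => ?_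
      refine Finset.disjoint_left.1 h.2.2 (hJ1 g (hJJ hg)).pR (mem_biUnion.2 ⟨v, hv, ?_⟩)
      unfold nb
      rw [mem_filter]
      exact ⟨mem_univ _, hvp⟩
    have hJm : m ≤ J'.card := by
      have e1 : (n : ℝ) ≤ L * J.card := by exact_mod_cast hJ4
      have e2 : (F.card : ℝ) ≤ 1 / (4 * L) * n :=
        hF.trans (mul_le_mul_of_nonneg_right (min_le_right _ _) (Nat.cast_nonneg _))
      have e3 : (J.card : ℝ) ≤ J'.card + (F.card + (D + 1) * H.card) := by
        have h1 : J.card ≤ J'.card + (F.card + (D + 1) * H.card) := by omega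
        exact_mod_cast h1
      have e4 : (n : ℝ) ≤ 2 * L * J'.card := by
        have g1 : (L : ℝ) * F.card ≤ n / 4 := by
          calc (L : ℝ) * F.card ≤ L * (1 / (4 * L) * n) := mul_le_mul_of_nonneg_left e2 hL'.le
            _ = n / 4 := by field_simp
        have g2 : (L : ℝ) * ((D + 1) * H.card) ≤ n / 4 := by
          have h1 : ((4 * L * ((D + 1) * H.card) : ℕ) : ℝ) ≤ n := by exact_mod_cast hH
          push_cast at h1
          linarith
        have g3 : (n : ℝ) ≤ L * (J'.card + (F.card + (D + 1) * H.card)) :=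
          e1.trans (mul_le_mul_of_nonneg_left e3 hL'.le)
        have g4 : (L : ℝ) * (J'.card + (F.card + (D + 1) * H.card)) =
            L * J'.card + L * F.card + L * ((D + 1) * H.card) := by ring
        rw [g4] at g3
        linarith
      have e5 : n ≤ 2 * L * J'.card := by exact_mod_cast e4
      rw [hm]
      rw [Nat.div_le_iff_le_mul_add_pred (by omega)]
      omega
    rw [htot, mul_sum]
    refine le_trans (le_of_eq (sum_congr ?_ fun _ _ => rfl)) ((Fin_classes Y F r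
      (fun x => (T t x : ℝ)) (fun x => κ * (W + 1) * (1 - η) ^ m * (part A Y x : ℝ)) ?_).trans
        (le_of_eq (sum_congr ?_ fun _ _ => rfl)))
    · ext x
      simp [hQ]
    swap
    · ext x
      simp [hQ]
    intro x₀ hx₀
    have hthis := hLoss (Fin n) E A Y F hAE hTyp.loop hclo J' hJG
      (fun g hg h hh => hJ2 g (hJJ hg) h (hJJ hh)) hJF (T t) κ x₀
      (fun x hx => (hTle x).trans (hi1 x fun v hv =>
        (hx v (mem_union_right _ hv)).trans (hx₀ v hv))) (S t) W hTS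
      (fun g hg => hJ3 g (hJJ hg))
    refine hthis.trans ?_
    rw [← mul_sum]
    apply mul_le_mul_of_nonneg_right _ (sum_nonneg fun x _ => NNReal.coe_nonneg _)
    apply mul_le_mul_of_nonneg_left _ hκW
    exact pow_le_pow_of_le_one h0.le (by linarith) hJm
  have hi3 : tot ≤ κ * ∑ x ∈ Q, (P.val i x : ℝ) := by
    rw [htot]
    exact_mod_cast hi2
  have hmain : tot ≤ (2 * κ ^ 2 * s ^ 3 * (1 * (W + 1) * (1 - η) ^ m)) * tot := by
    calc tot ≤ κ * ∑ x ∈ Q, (P.val i x : ℝ) := hi3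
      _ ≤ κ * ∑ x ∈ Q, ∑ t, (T t x : ℝ) := by
          apply mul_le_mul_of_nonneg_left _ (NNReal.coe_nonneg _)
          apply sum_le_sum
          intro x hx
          have h2 := hle x
          exact_mod_cast h2
      _ = κ * ∑ t, ∑ x ∈ Q, (T t x : ℝ) := by
          rw [sum_comm]
      _ ≤ κ * ∑ t : ι, κ * (W + 1) * (1 - η) ^ m * tot := by
          apply mul_le_mul_of_nonneg_left _ (NNReal.coe_nonneg _)
          exact sum_le_sum fun t _ => hterm t
      _ = κ * (Fintype.card ι * (κ * (W + 1) * (1 - η) ^ m * tot)) := by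
          rw [sum_const, card_univ, nsmul_eq_mul]
      _ ≤ κ * ((2 * s ^ 3 : ℕ) * (κ * (W + 1) * (1 - η) ^ m * tot)) := by
          apply mul_le_mul_of_nonneg_left _ (NNReal.coe_nonneg _)
          exact mul_le_mul_of_nonneg_right (by exact_mod_cast hι)
            (mul_nonneg (mul_nonneg hκW (pow_nonneg h0.le _)) htot0.le)
      _ = _ := by push_cast; ring
  have hb : (1 : ℝ) ≤ 2 * κ ^ 2 * s ^ 3 * (1 * (W + 1) * (1 - η) ^ m) := by
    by_contra hcon
    push Not at hcon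
    nlinarith
  exact hard3_num hη0 hη1 le_rfl (L := 2 * L) (by omega) hmn hb hκ (min_le_left _ _) (by
    rw [Real.logb_one]
    have : 0 ≤ l * n := mul_nonneg hl0.le (Nat.cast_nonneg _)
    linarith)

end Pool.Agent.EC
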