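import Pool.Agent.EC.St

/-!
# [EC Full] The matrix of the count `part` has full rank for any orientation of the gadgets
-/

set_option autoImplicit false
set_option linter.unusedSectionVars false
set_option linter.unusedVariables false

namespace Pool.Agent.EC

open Finset Pool.Agent.WD Pool.Agent.EB
open scoped NNReal

/-- the support of the count `part` (`Main_supp` of `EB/Main.lean`) -/
private theorem Full_supp {V : Type} [Fintype V] [DecidableEq V] (A : Finset (Sym2 V))
    (Y : Finset V) (x : V → Bool) : part A Y x ≠ 0 ↔ ∀ e ∈ A, ∃ v ∈ e, v ∈ Y ∨ x v = true := by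
  unfold part
  rw [Nat.cast_ne_zero, card_ne_zero]
  constructor
  · rintro ⟨y, hy⟩ e he
    obtain ⟨-, h1, h2⟩ := mem_filter.1 hy
    obtain ⟨v, hv, hyv⟩ := h2 e he
    refine ⟨v, hv, ?_⟩
    by_cases hvY : v ∈ Y
    · exact Or.inl hvY
    · exact Or.inr (by rw [← h1 v hvY, hyv])
  · intro h
    refine ⟨Y.piecewise (fun _ => true) x, mem_filter.2 ⟨mem_univ _, ?_, ?_⟩⟩
    · intro v hv
      rw [piecewise_eq_of_notMem _ _ _ hv]
    · intro e he
      obtain ⟨v, hv, h1⟩ := h e he
      refine ⟨v, hv, ?_⟩
      by_cases hvY : v ∈ Y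
      · rw [piecewise_eq_of_mem _ _ _ hvY]
      · rw [piecewise_eq_of_notMem _ _ _ hvY]
        exact h1.resolve_left hvY

/-! ### Triangular matrices -/

private theorem Full_tri {P : Type} [Fintype P] [PartialOrder P] (M : P → P → ℝ)
    (h1 : ∀ y z, M y z ≠ 0 → y ≤ z) (h2 : ∀ y, M y y ≠ 0) (l : P → ℝ)
    (h : ∀ z, ∑ y, l y * M y z = 0) (y : P) : l y = 0 := by
  induction y using WellFoundedLT.induction with
  | _ y ih =>
    have h3 := h y
    rw [sum_eq_single y] at h3
    · exact (mul_eq_zero.1 h3).resolve_right (h2 y)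
    · intro y' _ hy'
      by_cases h4 : M y' y = 0
      · rw [h4, mul_zero]
      · rw [ih y' (lt_of_le_of_ne (h1 y' y h4) hy'), zero_mul]
    · intro h4
      exact absurd (mem_univ y) h4

private theorem Full_tri' {P : Type} [Fintype P] [PartialOrder P] (M : P → P → ℝ)
    (h1 : ∀ y z, M y z ≠ 0 → z ≤ y) (h2 : ∀ y, M y y ≠ 0) (l : P → ℝ)
    (h : ∀ z, ∑ y, l y * M y z = 0) (y : P) : l y = 0 := by
  induction y using WellFoundedGT.induction with
  | _ y ih =>
    have h3 := h y
    rw [sum_eq_single y] at h3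
    · exact (mul_eq_zero.1 h3).resolve_right (h2 y)
    · intro y' _ hy'
      by_cases h4 : M y' y = 0
      · rw [h4, mul_zero]
      · rw [ih y' (lt_of_le_of_ne (h1 y' y h4) (Ne.symm hy')), zero_mul]
    · intro h4
      exact absurd (mem_univ y) h4

/-! ### The values of the assignment -/

section

variable {V I : Type} [DecidableEq V]

/-- the basic properties of the gadgets -/
private structure Full_B (g : I → Gad V) : Prop where
  pR : ∀ i, (g i).p ∈ (g i).R
  qR : ∀ i, (g i).q ∈ (g i).R
  pq : ∀ i, (g i).p ≠ (g i).q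
  CR : ∀ i, (g i).C ⊆ (g i).R
  pC : ∀ i, (g i).p ∉ (g i).C
  qC : ∀ i, (g i).q ∉ (g i).C
  dis : ∀ i j, i ≠ j → Disjoint (g i).R (g j).R

variable {g : I → Gad V} {x₀ : V → Bool} {a b : I → Bool}

private theorem Full_B.eq (hB : Full_B g) {i j : I} {v : V} (hi : v ∈ (g i).R)
    (hj : v ∈ (g j).R) : i = j := by
  by_contra h
  exact Finset.disjoint_left.1 (hB.dis i j h) hi hj

private theorem Full_p (hB : Full_B g) (i : I) : asg g x₀ a b (g i).p = a i := by
  unfold asg
  have h : ∃ j, (g i).p = (g j).p := ⟨i, rfl⟩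
  rw [dif_pos h]
  have h1 := hB.pR h.choose
  rw [← h.choose_spec] at h1
  rw [hB.eq h1 (hB.pR i)]

private theorem Full_q (hB : Full_B g) (i : I) : asg g x₀ a b (g i).q = b i := by
  unfold asg
  have h0 : ¬ ∃ j, (g i).q = (g j).p := by
    rintro ⟨j, hj⟩
    have h1 : (g i).q ∈ (g j).R := by
      rw [hj]
      exact hB.pR j
    have h2 := hB.eq (hB.qR i) h1
    subst h2
    exact hB.pq i hj.symm
  have h : ∃ j, (g i).q = (g j).q := ⟨i, rfl⟩
  rw [dif_neg h0, dif_pos h]
  have h1 := hB.qR h.choose
  rw [← h.choose_spec] at h1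
  rw [hB.eq h1 (hB.qR i)]

private theorem Full_npq (hB : Full_B g) {i : I} {v : V} (hv : v ∈ (g i).R) (hp : v ≠ (g i).p)
    (hq : v ≠ (g i).q) : (¬ ∃ j, v = (g j).p) ∧ ¬ ∃ j, v = (g j).q := by
  constructor
  · rintro ⟨j, hj⟩
    have h1 : v ∈ (g j).R := by
      rw [hj]
      exact hB.pR j
    have h2 := hB.eq hv h1
    subst h2
    exact hp hj
  · rintro ⟨j, hj⟩
    have h1 : v ∈ (g j).R := by
      rw [hj]
      exact hB.qR j
    have h2 := hB.eq hv h1
    subst h2
    exact hq hj

private theorem Full_C (hB : Full_B g) {i : I} {v : V} (hv : v ∈ (g i).C) :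
    asg g x₀ a b v = false := by
  have hp : v ≠ (g i).p := fun h => hB.pC i (h ▸ hv)
  have hq : v ≠ (g i).q := fun h => hB.qC i (h ▸ hv)
  obtain ⟨h1, h2⟩ := Full_npq hB (hB.CR i hv) hp hq
  unfold asg
  rw [dif_neg h1, dif_neg h2, if_pos ⟨i, hv⟩]

private theorem Full_R (hB : Full_B g) {i : I} {v : V} (hv : v ∈ (g i).R) (hp : v ≠ (g i).p)
    (hq : v ≠ (g i).q) (hC : v ∉ (g i).C) : asg g x₀ a b v = true := by
  obtain ⟨h1, h2⟩ := Full_npq hB hv hp hq
  have h3 : ¬ ∃ j, v ∈ (g j).C := by
    rintro ⟨j, hj⟩
    have h4 := hB.eq hv (hB.CR j hj)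
    subst h4
    exact hC hj
  unfold asg
  rw [dif_neg h1, dif_neg h2, if_neg h3, if_pos ⟨i, hv⟩]

private theorem Full_out (hB : Full_B g) {v : V} (hv : ∀ i, v ∉ (g i).R) :
    asg g x₀ a b v = x₀ v := by
  have h1 : ¬ ∃ j, v = (g j).p := by
    rintro ⟨j, rfl⟩
    exact hv j (hB.pR j)
  have h2 : ¬ ∃ j, v = (g j).q := by
    rintro ⟨j, rfl⟩
    exact hv j (hB.qR j)
  have h3 : ¬ ∃ j, v ∈ (g j).C := by
    rintro ⟨j, hj⟩
    exact hv j (hB.CR j hj)
  have h4 : ¬ ∃ j, v ∈ (g j).R := by
    rintro ⟨j, hj⟩
    exact hv j hj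
  unfold asg
  rw [dif_neg h1, dif_neg h2, if_neg h3, if_neg h4]

/-- the values of two assignments are equal away from the core variables -/
private theorem Full_cmp (hB : Full_B g) (a b a' b' : I → Bool) (v : V) :
    asg g x₀ a b v = asg g x₀ a' b' v ∨ (∃ i, v = (g i).p) ∨ ∃ i, v = (g i).q := by
  by_cases hp : ∃ i, v = (g i).p
  · exact Or.inr (Or.inl hp)
  by_cases hq : ∃ i, v = (g i).q
  · exact Or.inr (Or.inr hq)
  left
  unfold asg
  rw [dif_neg hp, dif_neg hq, dif_neg hp, dif_neg hq]

end

/-! ### The two types -/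

section

variable {V I : Type} [Fintype V] [DecidableEq V] [Fintype I] [DecidableEq I]
  {E A : Finset (Sym2 V)} {Y F : Finset V} {D : ℕ} {g : I → Gad V} {ctr : I → V} {r : V → Bool}

private theorem Full_sym {e : Sym2 V} {P : V → Prop} (h : ∀ u w, e = s(u, w) → P u ∨ P w) :
    ∃ v ∈ e, P v := by
  induction e using Sym2.inductionOn with
  | hf u w =>
    rcases h u w rfl with h1 | h1
    · exact ⟨u, Sym2.mem_mk_left _ _, h1⟩
    · exact ⟨w, Sym2.mem_mk_right _ _, h1⟩

private theorem Full_two {u w : V} {P : V → Prop} (h : ∃ v ∈ s(u, w), P v) : P u ∨ P w := by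
  obtain ⟨v, hv, h1⟩ := h
  rcases Sym2.mem_iff.1 hv with rfl | rfl
  · exact Or.inl h1
  · exact Or.inr h1

/-- the second type -/
private theorem Full_typB (hB : Full_B g) (hAE : A ⊆ E) (hE : ∀ e ∈ E, ¬ e.IsDiag)
    (hr : part A Y r ≠ 0) (hg : ∀ i, GadB E A Y D (g i)) (hF : ∀ i, Disjoint (g i).R F)
    (a b : I → Bool) :
    part A Y (asg g (fun v => if v ∈ F then r v else true) a b) ≠ 0 ↔
      ∀ i, a i = true ∨ b i = true := by
  rw [Full_supp] at hr ⊢
  constructor
  · intro h i
    have h1 := h _ (hg i).pqA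
    rcases Full_two (P := fun v => v ∈ Y ∨ asg g (fun v => if v ∈ F then r v else true) a b v
      = true) h1 with (h2 | h2) | (h2 | h2)
    · exact absurd h2 (Finset.disjoint_left.1 (hg i).RY (hg i).pR)
    · rw [Full_p hB] at h2
      exact Or.inl h2
    · exact absurd h2 (Finset.disjoint_left.1 (hg i).RY (hg i).qR)
    · rw [Full_q hB] at h2
      exact Or.inr h2
  · intro h e he
    by_contra hno
    push Not at hno
    -- a false variable outside of `Y` is a core variable or a false fixed variable
    have hC : ∀ i v, v ∉ (g i).C := fun i v => by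
      rw [(hg i).C0]
      exact notMem_empty v
    have key : ∀ v ∈ e, v ∉ Y ∧ ((∃ i, v = (g i).p ∨ v = (g i).q) ∨
        ((∀ i, v ∉ (g i).R) ∧ r v = false)) := by
      intro v hv
      obtain ⟨h1, h2⟩ := hno v hv
      refine ⟨h1, ?_⟩
      by_cases h3 : ∃ i, v ∈ (g i).R
      · obtain ⟨i, hi⟩ := h3
        left
        refine ⟨i, ?_⟩
        by_contra h4
        rw [not_or] at h4
        exact h2 (Full_R hB hi h4.1 h4.2 (hC i v))
      · push Not at h3
        right
        refine ⟨h3, ?_⟩
        rw [Full_out hB h3] at h2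
        by_cases h4 : v ∈ F
        · rw [if_pos h4] at h2
          exact Bool.eq_false_iff.2 h2
        · rw [if_neg h4] at h2
          exact absurd rfl h2
    induction e using Sym2.inductionOn with
    | hf u w =>
      obtain ⟨hu1, hu2⟩ := key u (Sym2.mem_mk_left _ _)
      obtain ⟨hw1, hw2⟩ := key w (Sym2.mem_mk_right _ _)
      have hne : u ≠ w := by
        rintro rfl
        exact hE _ (hAE he) (Sym2.mk_isDiag_iff.2 rfl)
      -- the case of a core variable
      have core : ∀ u w : V, s(u, w) ∈ A → u ≠ w → w ∉ Y →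
          ((∃ i, w = (g i).p ∨ w = (g i).q) ∨ ((∀ i, w ∉ (g i).R) ∧ r w = false)) →
          ∀ i, u = (g i).p ∨ u = (g i).q → s((g i).p, (g i).q) = s(u, w) := by
        intro u w huw hne hwY hw i hu
        have hwR := (hg i).near u w hu hwY (hAE huw)
        rcases hw with ⟨j, hj⟩ | ⟨hj, -⟩
        · have hwj : w ∈ (g j).R := by
            rcases hj with rfl | rfl
            · exact hB.pR j
            · exact hB.qR j
          have hij := hB.eq hwR hwj
          subst hij
          rcases hu with rfl | rfl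
          · rcases hj with rfl | rfl
            · exact absurd rfl hne
            · rfl
          · rcases hj with rfl | rfl
            · exact Sym2.eq_swap
            · exact absurd rfl hne
        · exact absurd hwR (hj i)
      have fin : ∀ i, s((g i).p, (g i).q) = s(u, w) → False := by
        intro i hi
        have hp : (g i).p ∈ s(u, w) := hi ▸ Sym2.mem_mk_left _ _
        have hq : (g i).q ∈ s(u, w) := hi ▸ Sym2.mem_mk_right _ _
        have h1 := (hno _ hp).2
        have h2 := (hno _ hq).2
        rw [Full_p hB] at h1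
        rw [Full_q hB] at h2
        rcases h i with h3 | h3
        · exact h1 h3
        · exact h2 h3
      rcases hu2 with ⟨i, hi⟩ | ⟨hu3, hu4⟩
      · exact fin i (core u w he hne hw1 hw2 i hi)
      · rcases hw2 with ⟨i, hi⟩ | ⟨hw3, hw4⟩
        · refine fin i ((core w u (Sym2.eq_swap ▸ he) hne.symm hu1 (Or.inr ⟨hu3, hu4⟩) i hi).trans
            Sym2.eq_swap)
        · rcases Full_two (P := fun v => v ∈ Y ∨ r v = true) (hr _ he) with
            (h1 | h1) | (h1 | h1)
          · exact hu1 h1
          · rw [hu4] at h1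
            exact Bool.false_ne_true h1
          · exact hw1 h1
          · rw [hw4] at h1
            exact Bool.false_ne_true h1

/-- the solutions -/
private def Full_S (A : Finset (Sym2 V)) (Y : Finset V) (x : V → Bool) : Finset (V → Bool) :=
  univ.filter fun y : V → Bool => (∀ v, v ∉ Y → y v = x v) ∧ ∀ e ∈ A, ∃ v ∈ e, y v = true

private theorem Full_mem {x y : V → Bool} : y ∈ Full_S A Y x ↔
    (∀ v, v ∉ Y → y v = x v) ∧ ∀ u w, s(u, w) ∈ A → y u = true ∨ y w = true := by
  unfold Full_S
  rw [mem_filter]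
  constructor
  · rintro ⟨-, h1, h2⟩
    exact ⟨h1, fun u w huw => Full_two (P := fun v => y v = true) (h2 _ huw)⟩
  · rintro ⟨h1, h2⟩
    exact ⟨mem_univ _, h1, fun e he => Full_sym (P := fun v => y v = true)
      fun u w huw => h2 u w (huw ▸ he)⟩

/-- change of the values outside of `Y` -/
private def Full_mv (Y : Finset V) (x y : V → Bool) (v : V) : Bool := if v ∈ Y then y v else x v

/-- the first type: the number of solutions -/
private theorem Full_cntA (hB : Full_B g) (hAE : A ⊆ E) (hYA : ∀ e ∈ E, ∀ v ∈ Y, v ∈ e → e ∈ A)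
    (hg : ∀ i, GadA E A Y D (g i) (ctr i)) (x₀ : V → Bool) (a b : I → Bool) :
    (Full_S A Y (asg g x₀ a b)).card = ((Full_S A Y (asg g x₀ (fun _ => true)
      (fun _ => true))).filter fun s => ∀ i, s (ctr i) = false → a i = true ∧ b i = true).card := by
  have hmono : ∀ v, asg g x₀ a b v = true →
      asg g x₀ (fun _ => true) (fun _ => true) v = true := by
    intro v hv
    rcases Full_cmp (x₀ := x₀) hB a b (fun _ => true) (fun _ => true) v with h | ⟨i, rfl⟩ | ⟨i, rfl⟩
    · rw [← h]; exact hv
    · rw [Full_p hB]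
    · rw [Full_q hB]
  refine card_nbij' (Full_mv Y (asg g x₀ (fun _ => true) (fun _ => true)))
    (Full_mv Y (asg g x₀ a b)) ?_ ?_ ?_ ?_
  · intro y hy
    rw [mem_coe, Full_mem] at hy
    rw [mem_coe, mem_filter, Full_mem]
    have hup : ∀ v, y v = true →
        Full_mv Y (asg g x₀ (fun _ => true) (fun _ => true)) y v = true := by
      intro v hv
      unfold Full_mv
      by_cases h : v ∈ Y
      · rw [if_pos h, hv]
      · rw [if_neg h]
        rw [hy.1 v h] at hv
        exact hmono v hv
    refine ⟨⟨fun v hv => if_neg hv, fun u w huw => (hy.2 u w huw).imp (hup u) (hup w)⟩, ?_⟩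
    intro i hi
    have hi' : y (ctr i) = false := by
      have h1 : Full_mv Y (asg g x₀ (fun _ => true) (fun _ => true)) y (ctr i) = y (ctr i) :=
        if_pos (hg i).eY
      rw [← h1]; exact hi
    have hval : ∀ u, u ∈ (g i).R → s(ctr i, u) ∈ E → asg g x₀ a b u = true := by
      intro u huR hu
      have huY : u ∉ Y := Finset.disjoint_left.1 (hg i).RY huR
      rcases hy.2 _ _ (hYA _ hu _ (hg i).eY (Sym2.mem_mk_left _ _)) with h1 | h1
      · rw [hi'] at h1
        exact absurd h1 Bool.false_ne_true
      · rw [← hy.1 u huY]; exact h1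
    constructor
    · have h1 := hval _ (hB.pR i) (hg i).ep
      rwa [Full_p hB] at h1
    · have h1 := hval _ (hB.qR i) (hg i).eq
      rwa [Full_q hB] at h1
  · intro y hy
    rw [mem_coe, mem_filter, Full_mem] at hy
    obtain ⟨⟨hy1, hy2⟩, hy3⟩ := hy
    rw [mem_coe, Full_mem]
    -- the neighbours of a core variable which becomes false
    have key : ∀ i u w, (u = (g i).p ∨ u = (g i).q) → ¬ (a i = true ∧ b i = true) →
        s(u, w) ∈ A → Full_mv Y (asg g x₀ a b) y w = true := by
      intro i u w hu hab huw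
      unfold Full_mv
      by_cases hw : w ∈ Y
      · rw [if_pos hw]
        by_cases hwi : w = ctr i
        · by_contra h1
          rw [hwi] at h1
          exact hab (hy3 i (Bool.eq_false_iff.2 h1))
        · obtain ⟨c, hc, hwc⟩ := (hg i).blk w hw hwi (by
            rcases hu with rfl | rfl
            · exact Or.inl (Sym2.eq_swap ▸ hAE huw)
            · exact Or.inr (Sym2.eq_swap ▸ hAE huw))
          rcases hy2 w c (hYA _ hwc w hw (Sym2.mem_mk_left _ _)) with h1 | h1
          · exact h1
          · rw [hy1 c (Finset.disjoint_left.1 (hg i).RY (hB.CR i hc)), Full_C hB hc] at h1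
            exact absurd h1 Bool.false_ne_true
      · rw [if_neg hw]
        have hwR := (hg i).near u w (Or.inr hu) hw (hAE huw)
        have h1 : ¬ (w ∈ (g i).C ∨ w = (g i).p ∨ w = (g i).q) := fun h =>
          (hg i).ind u w (Or.inr hu) h (hAE huw)
        rw [not_or, not_or] at h1
        exact Full_R hB hwR h1.2.1 h1.2.2 h1.1
    have hone : ∀ u w, s(u, w) ∈ A → y u = true → Full_mv Y (asg g x₀ a b) y u = true ∨
        Full_mv Y (asg g x₀ a b) y w = true := by
      intro u w huw hu
      by_cases huY : u ∈ Y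
      · left
        unfold Full_mv
        rw [if_pos huY, hu]
      · have hmv : Full_mv Y (asg g x₀ a b) y u = asg g x₀ a b u := if_neg huY
        rw [hmv]
        by_cases h1 : asg g x₀ a b u = true
        · exact Or.inl h1
        · right
          rcases Full_cmp (x₀ := x₀) hB a b (fun _ => true) (fun _ => true) u with
            h | ⟨i, hi⟩ | ⟨i, hi⟩
          · rw [hy1 u huY, ← h] at hu
            exact absurd hu h1
          · refine key i u w (Or.inl hi) (fun h2 => h1 ?_) huw
            rw [hi, Full_p hB]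
            exact h2.1
          · refine key i u w (Or.inr hi) (fun h2 => h1 ?_) huw
            rw [hi, Full_q hB]
            exact h2.2
    refine ⟨fun v hv => if_neg hv, fun u w huw => ?_⟩
    rcases hy2 u w huw with h1 | h1
    · exact hone u w huw h1
    · exact (hone w u (Sym2.eq_swap ▸ huw) h1).symm
  · intro y hy
    rw [mem_coe, Full_mem] at hy
    funext v
    unfold Full_mv
    by_cases h : v ∈ Y
    · rw [if_pos h, if_pos h]
    · rw [if_neg h, hy.1 v h]
  · intro y hy
    rw [mem_coe, mem_filter, Full_mem] at hy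
    funext v
    unfold Full_mv
    by_cases h : v ∈ Y
    · rw [if_pos h, if_pos h]
    · rw [if_neg h, hy.1.1 v h]

/-- the first type: every pattern of values of the centres occurs -/
private theorem Full_patA (hB : Full_B g) (hAE : A ⊆ E) (hE : ∀ e ∈ E, ¬ e.IsDiag)
    (hr : part A Y r ≠ 0) (hg : ∀ i, GadA E A Y D (g i) (ctr i))
    (hd : ∀ i j, i ≠ j → ctr i ≠ ctr j ∧ s(ctr i, ctr j) ∉ E) (K : I → Bool) :
    ∃ y ∈ Full_S A Y (asg g (fun v => if v ∈ F then r v else true) (fun _ => true)
      (fun _ => true)), ∀ i, y (ctr i) = !(K i) := by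
  classical
  rw [Full_supp] at hr
  set x := asg g (fun v => if v ∈ F then r v else true) (fun _ => true) (fun _ => true) with hx
  refine ⟨Full_mv Y x fun v => decide (¬ ∃ i, v = ctr i ∧ K i = true), ?_, ?_⟩
  · rw [Full_mem]
    refine ⟨fun v hv => if_neg hv, ?_⟩
    -- the false variables
    have hfalse : ∀ v, Full_mv Y x (fun v => decide (¬ ∃ i, v = ctr i ∧ K i = true)) v = false →
        (∃ i, v = ctr i) ∨ (v ∉ Y ∧ x v = false) := by
      intro v hv
      unfold Full_mv at hv
      by_cases h : v ∈ Y
      · rw [if_pos h, decide_eq_false_iff_not, not_not] at hv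
        obtain ⟨i, hi, -⟩ := hv
        exact Or.inl ⟨i, hi⟩
      · rw [if_neg h] at hv
        exact Or.inr ⟨h, hv⟩
    have hxf : ∀ v, x v = false → (∃ i, v ∈ (g i).C) ∨ ((∀ i, v ∉ (g i).R) ∧ r v = false) := by
      intro v hv
      by_cases h3 : ∃ i, v ∈ (g i).R
      · obtain ⟨i, hi⟩ := h3
        left
        refine ⟨i, ?_⟩
        by_contra h4
        have h5 : x v = true := by
          by_cases h6 : v = (g i).p
          · rw [h6, hx, Full_p hB]
          · by_cases h7 : v = (g i).q
            · rw [h7, hx, Full_q hB]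
            · exact Full_R hB hi h6 h7 h4
        rw [hv] at h5
        exact Bool.false_ne_true h5
      · push Not at h3
        right
        refine ⟨h3, ?_⟩
        rw [hx, Full_out hB h3] at hv
        by_cases h4 : v ∈ F
        · rw [if_pos h4] at hv
          exact hv
        · rw [if_neg h4] at hv
          exact absurd hv.symm Bool.false_ne_true
    have hxC : ∀ i v, v ∈ (g i).R → x v = false → v ∈ (g i).C := by
      intro i v hi hv
      rcases hxf v hv with ⟨j, hj⟩ | ⟨hj, -⟩
      · have h1 := hB.eq hi (hB.CR j hj)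
        subst h1
        exact hj
      · exact absurd hi (hj i)
    have hctr : ∀ i w, s(ctr i, w) ∈ A → w ∉ Y → x w = false → False := by
      intro i w hw hwY hxw
      have h1 := (hg i).eR w hwY (hAE hw)
      exact (hg i).eC w (hxC i w h1 hxw) (hAE hw)
    have hCC : ∀ i u w, u ∈ (g i).C → s(u, w) ∈ A → w ∉ Y → x w = false → False := by
      intro i u w hu huw hwY hxw
      have h1 := (hg i).near u w (Or.inl hu) hwY (hAE huw)
      exact (hg i).ind u w (Or.inl hu) (Or.inl (hxC i w h1 hxw)) (hAE huw)
    intro u w huw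
    by_contra hno
    rw [not_or, Bool.not_eq_true, Bool.not_eq_true] at hno
    rcases hfalse u hno.1 with ⟨i, hi⟩ | ⟨huY, hxu⟩
    · rcases hfalse w hno.2 with ⟨j, hj⟩ | ⟨hwY, hxw⟩
      · rw [hi, hj] at huw
        by_cases hij : i = j
        · rw [hij] at huw
          exact hE _ (hAE huw) (Sym2.mk_isDiag_iff.2 rfl)
        · exact (hd i j hij).2 (hAE huw)
      · rw [hi] at huw
        exact hctr i w huw hwY hxw
    · rcases hfalse w hno.2 with ⟨j, hj⟩ | ⟨hwY, hxw⟩
      · rw [hj] at huw
        exact hctr j u (Sym2.eq_swap ▸ huw) huY hxu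
      · rcases hxf u hxu with ⟨i, hi⟩ | ⟨-, hru⟩
        · exact hCC i u w hi huw hwY hxw
        · rcases hxf w hxw with ⟨i, hi⟩ | ⟨-, hrw⟩
          · exact hCC i w u hi (Sym2.eq_swap ▸ huw) huY hxu
          · rcases Full_two (P := fun v => v ∈ Y ∨ r v = true) (hr _ huw) with
              (h1 | h1) | (h1 | h1)
            · exact huY h1
            · rw [hru] at h1
              exact Bool.false_ne_true h1
            · exact hwY h1
            · rw [hrw] at h1
              exact Bool.false_ne_true h1
  · intro i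
    unfold Full_mv
    rw [if_pos (hg i).eY]
    cases hK : K i with
    | false =>
      rw [Bool.not_false, decide_eq_true_iff]
      rintro ⟨j, hj, hKj⟩
      by_cases hij : i = j
      · rw [hij, hKj] at hK
        exact Bool.false_ne_true hK.symm
      · exact (hd i j hij).1 hj
    | true =>
      rw [Bool.not_true, decide_eq_false_iff_not, not_not]
      exact ⟨i, rfl, hK⟩

end

/-- [EC Full] -/
theorem thm_Full : St_Full := by
  classical
  intro V I _ _ _ _ E A Y F D g ctr r hAE hE hYA hr hg hd hF o l hl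
  rcases hg with hg | hg
  · -- the first type
    have hB : Full_B g := ⟨fun i => (hg i).pR, fun i => (hg i).qR, fun i => (hg i).pq,
      fun i => (hg i).CR, fun i => (hg i).pC, fun i => (hg i).qC, fun i j hij => (hd i j hij).1⟩
    set x₀ : V → Bool := fun v => if v ∈ F then r v else true with hx₀
    set S := Full_S A Y (asg g x₀ (fun _ => true) (fun _ => true)) with hS
    set pat : (V → Bool) → I → Bool := fun s i => !(s (ctr i)) with hpat
    -- the matrix
    have hM : ∀ y z, (part A Y (asg g x₀ (mix o y z) (mix o z y)) : ℝ) =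
        ∑ K : I → Bool, ((S.filter fun s => pat s = K).card : ℝ) *
          ((if K ≤ y then 1 else 0) * if K ≤ z then 1 else 0) := by
      intro y z
      have h1 : (part A Y (asg g x₀ (mix o y z) (mix o z y)) : ℝ) =
          ((Full_S A Y (asg g x₀ (mix o y z) (mix o z y))).card : ℝ) := by
        unfold part Full_S
        simp
      rw [h1, Full_cntA hB hAE hYA hg, ← hS]
      have h2 : ∀ s : V → Bool, (∀ i, s (ctr i) = false → mix o y z i = true ∧ mix o z y i = true) ↔
          pat s ≤ y ∧ pat s ≤ z := by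
        intro s
        rw [Pi.le_def, Pi.le_def, ← forall_and]
        refine forall_congr' fun i => ?_
        unfold mix
        show _ ↔ (!(s (ctr i))) ≤ y i ∧ (!(s (ctr i))) ≤ z i
        generalize s (ctr i) = c
        cases c <;> cases o i <;> cases y i <;> cases z i <;> simp
      rw [filter_congr fun s _ => h2 s, card_filter, Nat.cast_sum]
      have h3 : ∀ s : V → Bool, (((if pat s ≤ y ∧ pat s ≤ z then 1 else 0 : ℕ)) : ℝ) =
          (if pat s ≤ y then 1 else 0) * if pat s ≤ z then 1 else 0 := by
        intro s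
        by_cases h4 : pat s ≤ y <;> by_cases h5 : pat s ≤ z <;> simp [h4, h5]
      rw [sum_congr rfl fun s _ => h3 s, ← sum_fiberwise S pat]
      refine sum_congr rfl fun K _ => ?_
      have h6 : ∀ s ∈ S.filter fun s => pat s = K,
          ((if pat s ≤ y then (1 : ℝ) else 0) * if pat s ≤ z then 1 else 0) =
            (if K ≤ y then 1 else 0) * if K ≤ z then 1 else 0 := by
        intro s hs
        rw [(mem_filter.1 hs).2]
      rw [sum_congr rfl h6, sum_const, nsmul_eq_mul]
    -- every pattern occurs
    have hα : ∀ K : I → Bool, ((S.filter fun s => pat s = K).card : ℝ) ≠ 0 := by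
      intro K
      obtain ⟨y, hy, hyK⟩ := Full_patA (F := F) hB hAE hE hr hg (fun i j hij => (hd i j hij).2) K
      rw [Nat.cast_ne_zero, card_ne_zero]
      refine ⟨y, mem_filter.2 ⟨hy, ?_⟩⟩
      funext i
      show (!(y (ctr i))) = K i
      rw [hyK, Bool.not_not]
    have h1 : ∀ z : I → Bool, ∑ K : I → Bool, (((S.filter fun s => pat s = K).card : ℝ) *
        ∑ y, l y * (if K ≤ y then 1 else 0)) * (if K ≤ z then 1 else 0) = 0 := by
      intro z
      refine Eq.trans ?_ (hl z)
      simp_rw [hM, mul_sum]
      rw [sum_comm]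
      refine sum_congr rfl fun K _ => ?_
      rw [sum_mul]
      refine sum_congr rfl fun y _ => ?_
      ring
    have h2 := Full_tri (fun K z : I → Bool => if K ≤ z then (1 : ℝ) else 0)
      (fun y z h => by
        by_contra h3
        exact h (if_neg h3))
      (fun y => by
        show (if y ≤ y then (1 : ℝ) else 0) ≠ 0
        rw [if_pos le_rfl]
        exact one_ne_zero) _ h1
    refine Full_tri' (fun y K : I → Bool => if K ≤ y then (1 : ℝ) else 0)
      (fun y z h => by
        by_contra h3
        exact h (if_neg h3))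
      (fun y => by
        show (if y ≤ y then (1 : ℝ) else 0) ≠ 0
        rw [if_pos le_rfl]
        exact one_ne_zero) l ?_
    intro K
    exact (mul_eq_zero.1 (h2 K)).resolve_left (hα K)
  · -- the second type
    have hC : ∀ i v, v ∉ (g i).C := fun i v => by
      rw [(hg i).C0]
      exact notMem_empty v
    have hB : Full_B g := ⟨fun i => (hg i).pR, fun i => (hg i).qR, fun i => (hg i).pq,
      fun i v hv => absurd hv (hC i v), fun i => hC i _, fun i => hC i _,
      fun i j hij => (hd i j hij).1⟩
    have hM : ∀ y t : I → Bool, (part A Y (asg g (fun v => if v ∈ F then r v else true)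
        (mix o y fun i => !(t i)) (mix o (fun i => !(t i)) y)) : ℝ) ≠ 0 ↔ t ≤ y := by
      intro y t
      rw [NNReal.coe_ne_zero, Full_typB hB hAE hE hr hg hF, Pi.le_def]
      refine forall_congr' fun i => ?_
      show ((if o i then y i else !(t i)) = true ∨ (if o i then !(t i) else y i) = true) ↔
        t i ≤ y i
      generalize t i = c
      cases o i <;> cases y i <;> cases c <;> simp
    exact Full_tri' (fun y t : I → Bool => (part A Y (asg g (fun v => if v ∈ F then r v else true)
        (mix o y fun i => !(t i)) (mix o (fun i => !(t i)) y)) : ℝ))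
      (fun y t h => (hM y t).1 h) (fun y => (hM y y).2 le_rfl) l fun t => hl fun i => !(t i)

end Pool.Agent.EC
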