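import Pool.Agent.EC.St
import Pool.Agent.Helper56.Iso.Prob

/-!
# [Gr1] the random graph is typical with probability `1 - O(1/n)`

The tail bounds are copied from `EB/Gra1.lean`.
-/

set_option autoImplicit false

namespace Pool.Agent.EC

open Finset Pool.Agent.EB Pool.Agent.Helper56.Iso

theorem Gr1_fib {α : Type*} [Fintype α] [DecidableEq α] (p : ℝ) (R F : Finset α) (hF : F ⊆ R) :
    ∑ E ∈ univ.filter (fun E : Finset α => E ∩ R = F), wt p E =
      p ^ F.card * (1 - p) ^ (R.card - F.card) := by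
  have h1 : ∑ E ∈ univ.filter (fun E : Finset α => E ∩ R = F), wt p E =
      ∑ G ∈ (univ \ R).powerset, p ^ F.card * (1 - p) ^ (R.card - F.card) *
        (p ^ G.card * (1 - p) ^ ((univ \ R).card - G.card)) := by
    refine Finset.sum_nbij' (fun E => E \ R) (fun G => F ∪ G) ?_ ?_ ?_ ?_ ?_
    · intro E _
      rw [mem_powerset]
      exact sdiff_subset_sdiff (subset_univ _) le_rfl
    · intro G hG
      rw [mem_powerset] at hG
      rw [mem_filter]
      refine ⟨mem_univ _, ?_⟩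
      ext a
      have h2 := @hG a
      have h3 := @hF a
      simp only [mem_inter, mem_union, mem_sdiff, mem_univ, true_and] at h2 ⊢
      tauto
    · intro E hE
      rw [mem_filter] at hE
      rw [← hE.2, union_comm]
      exact sdiff_union_inter E R
    · intro G hG
      rw [mem_powerset] at hG
      ext a
      have h2 := @hG a
      have h3 := @hF a
      simp only [mem_union, mem_sdiff, mem_univ, true_and] at h2 ⊢
      tauto
    · intro E hE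
      rw [mem_filter] at hE
      have h2 : E.card = F.card + (E \ R).card := by
        rw [← hE.2, add_comm]
        exact (card_sdiff_add_card_inter E R).symm
      have h3 : (univ \ E).card = (R.card - F.card) + ((univ \ R).card - (E \ R).card) := by
        have e1 : (univ \ E).card = Fintype.card α - E.card := by
          rw [card_sdiff_of_subset (subset_univ _), card_univ]
        have e2 : (univ \ R).card = Fintype.card α - R.card := by
          rw [card_sdiff_of_subset (subset_univ _), card_univ]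
        have e3 : F.card ≤ R.card := card_le_card hF
        have e4 : (E \ R).card ≤ (univ \ R).card :=
          card_le_card (sdiff_subset_sdiff (subset_univ _) le_rfl)
        have e5 : R.card ≤ Fintype.card α := card_le_univ _
        omega
      unfold wt
      rw [h3, h2, pow_add, pow_add]
      ring
  rw [h1, ← mul_sum, Finset.sum_pow_mul_eq_add_pow]
  have h4 : p + (1 - p) = 1 := by ring
  rw [h4, one_pow, mul_one]

theorem Gr1_marg {α : Type*} [Fintype α] [DecidableEq α] (p : ℝ) (R : Finset α)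
    (Q : Finset α → Prop) [DecidablePred Q] :
    ∑ F ∈ R.powerset.filter Q, p ^ F.card * (1 - p) ^ (R.card - F.card) =
      Pr p (fun E => Q (E ∩ R)) := by
  unfold Pr
  rw [← Finset.sum_fiberwise_of_maps_to (s := univ) (t := R.powerset) (g := fun E => E ∩ R)
    (fun E _ => mem_powerset.mpr inter_subset_right), sum_filter]
  apply sum_congr rfl
  intro F hF
  rw [mem_powerset] at hF
  by_cases hQ : Q F
  · rw [if_pos hQ, ← Gr1_fib p R F hF]
    apply sum_congr rfl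
    intro E hE
    rw [mem_filter] at hE
    rw [ind_of (Bad := fun E => Q (E ∩ R)) (by rw [hE.2]; exact hQ)]
  · rw [if_neg hQ]
    symm
    apply sum_eq_zero
    intro E hE
    rw [mem_filter] at hE
    rw [ind_not (Bad := fun E => Q (E ∩ R)) (by rw [hE.2]; exact hQ)]

theorem Gr1_up {α : Type*} [Fintype α] [DecidableEq α] {p : ℝ} (h0 : 0 ≤ p) (h1 : p ≤ 1)
    (R : Finset α) (m : ℕ) :
    Pr p (fun E => m ≤ (E ∩ R).card) ≤ Real.exp (2 * (p * R.card) - m * Real.log 2) := by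
  have h := upper_tail h0 h1 (by norm_num : (1 : ℝ) ≤ 2) R m
  have e1 : Real.exp (2 * (p * R.card) - m * Real.log 2) = Real.exp (p * 2 * R.card) / 2 ^ m := by
    rw [Real.exp_sub, Real.exp_nat_mul, Real.exp_log (by norm_num : (0 : ℝ) < 2)]
    ring_nf
  rw [e1, le_div_iff₀ (by positivity)]
  exact h

theorem Gr1_lo {α : Type*} [Fintype α] [DecidableEq α] {p : ℝ} (h0 : 0 ≤ p) (h1 : p ≤ 1)
    (R : Finset α) (m : ℕ) :
    Pr p (fun E => (E ∩ R).card ≤ m) ≤ Real.exp (m * Real.log 2 - p * R.card / 2) := by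
  have h := lower_tail h0 h1 R m
  have e1 : Real.exp (m * Real.log 2 - p * R.card / 2) =
      2 ^ m * Real.exp (-(p * R.card / 2)) := by
    rw [sub_eq_add_neg, Real.exp_add, Real.exp_nat_mul, Real.exp_log (by norm_num : (0 : ℝ) < 2)]
  rw [e1]
  exact h

/-- union bound with exponentials -/
theorem Gr1_ub {α ι : Type*} [Fintype α] [DecidableEq α] {p : ℝ} (h0 : 0 ≤ p)
    (h1 : p ≤ 1) (I : Finset ι) (P : ι → Finset α → Prop) (b c t : ℝ)
    (hI : (I.card : ℝ) ≤ Real.exp c) (hP : ∀ i ∈ I, Pr p (P i) ≤ Real.exp b) (ht : c + b ≤ t) :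
    Pr p (fun E => ∃ i ∈ I, P i E) ≤ Real.exp t := by
  calc Pr p (fun E => ∃ i ∈ I, P i E) ≤ ∑ i ∈ I, Pr p (P i) := Pr_exists_le h0 h1 I P
    _ ≤ ∑ _i ∈ I, Real.exp b := Finset.sum_le_sum hP
    _ = I.card * Real.exp b := by rw [Finset.sum_const, nsmul_eq_mul]
    _ ≤ Real.exp c * Real.exp b := mul_le_mul_of_nonneg_right hI (Real.exp_pos b).le
    _ = Real.exp (c + b) := (Real.exp_add c b).symm
    _ ≤ Real.exp t := Real.exp_le_exp.mpr ht

/-- all the elements of `R` are present -/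
theorem Gr1_sub {α : Type*} [Fintype α] [DecidableEq α] {p : ℝ} (h0 : 0 < p) (h1 : p ≤ 1)
    (R : Finset α) : Pr p (fun E => R ⊆ E) ≤ (2 * p) ^ R.card := by
  have hm := mgf p (1 / p) R
  have e0 : 1 - p + p * (1 / p) = 2 - p := by
    field_simp
    ring
  rw [e0] at hm
  have h2 : Pr p (fun E => R ⊆ E) * (1 / p) ^ R.card ≤ (2 - p) ^ R.card := by
    rw [← hm]
    unfold Pr
    rw [Finset.sum_mul]
    apply Finset.sum_le_sum
    intro E _
    by_cases hE : R ⊆ E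
    · rw [ind_of (Bad := fun E => R ⊆ E) hE, Finset.inter_eq_right.mpr hE]
    · rw [ind_not (Bad := fun E => R ⊆ E) hE, zero_mul]
      have := wt_nonneg h0.le h1 E
      positivity
  have h3 : (2 - p) ^ R.card ≤ 2 ^ R.card := pow_le_pow_left₀ (by linarith) (by linarith) _
  have h4 : Pr p (fun E => R ⊆ E) =
      (Pr p (fun E => R ⊆ E) * (1 / p) ^ R.card) * p ^ R.card := by
    rw [mul_assoc, ← mul_pow]
    have : 1 / p * p = 1 := by field_simp
    rw [this, one_pow, mul_one]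
  rw [h4, mul_pow]
  exact mul_le_mul_of_nonneg_right (h2.trans h3) (by positivity)

/-- Markov -/
theorem Gr1_markov {α : Type*} [Fintype α] [DecidableEq α] {p : ℝ} (h0 : 0 ≤ p)
    (h1 : p ≤ 1) {ι : Type*} (I : Finset ι) (P : ι → Finset α → Prop) (n : ℕ) (M : ℝ)
    (X : Finset α → ℕ)
    (hX : ∀ E, ∃ J ⊆ I, (∀ i ∈ J, P i E) ∧ X E ≤ J.card)
    (hP : ∑ i ∈ I, Pr p (P i) ≤ M) :
    Pr p (fun E => n + 1 ≤ X E) * (n + 1) ≤ M := by
  refine le_trans ?_ hP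
  unfold Pr
  rw [Finset.sum_mul, Finset.sum_comm]
  apply Finset.sum_le_sum
  intro E _
  have hs : ∀ i ∈ I, 0 ≤ Set.indicator {E | P i E} (wt p) E := fun i _ => ind_nonneg h0 h1 (P i) E
  by_cases hE : n + 1 ≤ X E
  · rw [ind_of (Bad := fun E => n + 1 ≤ X E) hE]
    obtain ⟨J, hJ, hJP, hJX⟩ := hX E
    calc wt p E * (n + 1) ≤ wt p E * J.card := by
          apply mul_le_mul_of_nonneg_left _ (wt_nonneg h0 h1 E)
          exact_mod_cast hE.trans hJX
      _ = ∑ _i ∈ J, wt p E := by rw [Finset.sum_const, nsmul_eq_mul, mul_comm]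
      _ = ∑ i ∈ J, Set.indicator {E | P i E} (wt p) E :=
          Finset.sum_congr rfl fun i hi => (ind_of (Bad := P i) (hJP i hi)).symm
      _ ≤ ∑ i ∈ I, Set.indicator {E | P i E} (wt p) E :=
          Finset.sum_le_sum_of_subset_of_nonneg hJ fun i hi _ => hs i hi
  · rw [ind_not (Bad := fun E => n + 1 ≤ X E) hE, zero_mul]
    exact Finset.sum_nonneg hs

/-! ### regions -/

def Gr1_ST {n : ℕ} (S T : Finset (Fin n)) : Finset (Sym2 (Fin n)) :=
  (S ×ˢ T).image fun q => s(q.1, q.2)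

theorem Gr1_card_all (n : ℕ) : ((clauses n).card : ℝ) = n * (n - 1) / 2 := by
  have h : (clauses n).card = n.choose 2 := by
    have := Sym2.card_subtype_not_diag (α := Fin n)
    rw [Fintype.card_fin] at this
    rw [← this, clauses, Fintype.card_subtype]
  rw [h, Nat.cast_choose_two]

theorem Gr1_card_ST {n : ℕ} (S T : Finset (Fin n)) (h : Disjoint S T) :
    (Gr1_ST S T).card = S.card * T.card := by
  unfold Gr1_ST
  rw [Finset.card_image_of_injOn, Finset.card_product]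
  rintro ⟨u, v⟩ h1 ⟨u', v'⟩ h2 h3
  simp only [Finset.coe_product, Set.mem_prod, Finset.mem_coe] at h1 h2
  rw [Sym2.eq_iff] at h3
  rcases h3 with ⟨rfl, rfl⟩ | ⟨rfl, rfl⟩
  · rfl
  · exact absurd h2.2 (Finset.disjoint_left.mp h h1.1)

theorem Gr1_card_in {n : ℕ} (S : Finset (Fin n)) : (Gr1_ST S S).card ≤ S.card * S.card := by
  unfold Gr1_ST
  exact Finset.card_image_le.trans (by rw [Finset.card_product])

theorem Gr1_card_touch {n : ℕ} (S : Finset (Fin n)) :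
    (Gr1_ST S univ).card ≤ S.card * n := by
  unfold Gr1_ST
  exact Finset.card_image_le.trans (by rw [Finset.card_product, Finset.card_univ, Fintype.card_fin])

theorem Gr1_mem_in {n : ℕ} (S : Finset (Fin n)) (e : Sym2 (Fin n)) (h : ∀ v ∈ e, v ∈ S) :
    e ∈ Gr1_ST S S := by
  induction e with
  | _ u v =>
    unfold Gr1_ST
    rw [Finset.mem_image]
    exact ⟨(u, v), Finset.mem_product.mpr ⟨h u (Sym2.mem_mk_left u v), h v (Sym2.mem_mk_right u v)⟩,
      rfl⟩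

theorem Gr1_mem_touch {n : ℕ} (S : Finset (Fin n)) (e : Sym2 (Fin n))
    (h : ∃ v ∈ e, v ∈ S) : e ∈ Gr1_ST S univ := by
  obtain ⟨v, hv, hS⟩ := h
  obtain ⟨w, rfl⟩ := Sym2.mem_iff_exists.mp hv
  unfold Gr1_ST
  rw [Finset.mem_image]
  exact ⟨(v, w), Finset.mem_product.mpr ⟨hS, Finset.mem_univ w⟩, rfl⟩

/-! ### cycles -/

theorem Gr1_cyc {n : ℕ} (l : ℕ) [NeZero l] (hl : ∀ j : Fin l, j + 1 + 1 ≠ j) {p : ℝ}
    (h0 : 0 < p) (h1 : p ≤ 1) (c : Fin l → Fin n) :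
    Pr p (fun E : Finset (Sym2 (Fin n)) => Cy l (E.filter fun e => ¬ e.IsDiag) c) ≤ (2 * p) ^ l := by
  by_cases hc : Function.Injective c
  · have hR : (univ.image fun i : Fin l => s(c i, c (i + 1))).card = l := by
      rw [Finset.card_image_of_injective, Finset.card_univ, Fintype.card_fin]
      intro i j hij
      simp only at hij
      rw [Sym2.eq_iff] at hij
      rcases hij with ⟨h, _⟩ | ⟨h, h'⟩
      · exact hc h
      · have e1 := hc h
        have e2 := hc h'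
        exact absurd (by rw [← e1, e2]) (hl j)
    have := Gr1_sub h0 h1 (univ.image fun i : Fin l => s(c i, c (i + 1)))
    rw [hR] at this
    refine le_trans (Pr_mono h0.le h1 ?_) this
    rintro E ⟨_, hE⟩
    intro e he
    rw [Finset.mem_image] at he
    obtain ⟨i, _, rfl⟩ := he
    exact (Finset.mem_filter.mp (hE i)).1
  · have : Pr p (fun E : Finset (Sym2 (Fin n)) => Cy l (E.filter fun e => ¬ e.IsDiag) c) = 0 := by
      unfold Pr
      apply Finset.sum_eq_zero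
      intro E _
      apply ind_not (Bad := fun E : Finset (Sym2 (Fin n)) =>
        Cy l (E.filter fun e => ¬ e.IsDiag) c)
      exact fun h => hc h.1
    rw [this]
    positivity

open Classical in
theorem Gr1_short (n m : ℕ) (d p : ℝ) (hn : 0 < n) (hp : p = d / n) (h0 : 0 < p)
    (h1 : p ≤ 1) (hd : 1 ≤ d) :
    Pr p (fun E : Finset (Sym2 (Fin n)) => m + 1 ≤
      ((E.filter fun e => ¬ e.IsDiag).filter
        fun e => Short (E.filter fun e => ¬ e.IsDiag) e).card) * (m + 1) ≤ 4 * (2 * d) ^ 7 := by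
  have hn' : (0 : ℝ) < n := by exact_mod_cast hn
  -- the index set
  let I : Finset ((Fin 3 → Fin n) ⊕ (Fin 4 → Fin n) ⊕ (Fin 5 → Fin n) ⊕ (Fin 7 → Fin n)) := univ
  let P : ((Fin 3 → Fin n) ⊕ (Fin 4 → Fin n) ⊕ (Fin 5 → Fin n) ⊕ (Fin 7 → Fin n)) →
      Finset (Sym2 (Fin n)) → Prop := fun x E =>
    Sum.elim (fun c => Cy 3 (E.filter fun e => ¬ e.IsDiag) c)
      (Sum.elim (fun c => Cy 4 (E.filter fun e => ¬ e.IsDiag) c)
        (Sum.elim (fun c => Cy 5 (E.filter fun e => ¬ e.IsDiag) c)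
          (fun c => Cy 7 (E.filter fun e => ¬ e.IsDiag) c))) x
  let ed : ((Fin 3 → Fin n) ⊕ (Fin 4 → Fin n) ⊕ (Fin 5 → Fin n) ⊕ (Fin 7 → Fin n)) →
      Sym2 (Fin n) := Sum.elim (fun c => s(c 0, c 1)) (Sum.elim (fun c => s(c 0, c 1))
        (Sum.elim (fun c => s(c 0, c 1)) (fun c => s(c 0, c 1))))
  refine Gr1_markov h0.le h1 I P m (4 * (2 * d) ^ 7) _ ?_ ?_
  · intro E
    refine ⟨univ.filter fun x => P x E, Finset.subset_univ _, fun i hi =>
      (Finset.mem_filter.mp hi).2, ?_⟩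
    refine le_trans (Finset.card_le_card (t := (univ.filter fun x => P x E).image ed) ?_)
      Finset.card_image_le
    intro e he
    rw [Finset.mem_filter] at he
    rw [Finset.mem_image]
    rcases he.2 with ⟨c, hc, rfl⟩ | ⟨c, hc, rfl⟩ | ⟨c, hc, rfl⟩ | ⟨c, hc, rfl⟩
    · exact ⟨Sum.inl c, Finset.mem_filter.mpr ⟨Finset.mem_univ _, hc⟩, rfl⟩
    · exact ⟨Sum.inr (Sum.inl c), Finset.mem_filter.mpr ⟨Finset.mem_univ _, hc⟩, rfl⟩
    · exact ⟨Sum.inr (Sum.inr (Sum.inl c)), Finset.mem_filter.mpr ⟨Finset.mem_univ _, hc⟩, rfl⟩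
    · exact ⟨Sum.inr (Sum.inr (Sum.inr c)), Finset.mem_filter.mpr ⟨Finset.mem_univ _, hc⟩, rfl⟩
  · have key : ∀ (l : ℕ) [NeZero l], (∀ j : Fin l, j + 1 + 1 ≠ j) → l ≤ 7 →
        ∑ c : Fin l → Fin n, Pr p (fun E : Finset (Sym2 (Fin n)) =>
          Cy l (E.filter fun e => ¬ e.IsDiag) c) ≤ (2 * d) ^ 7 := by
      intro l _ hl h7
      calc ∑ c : Fin l → Fin n, Pr p (fun E : Finset (Sym2 (Fin n)) =>
          Cy l (E.filter fun e => ¬ e.IsDiag) c) ≤ ∑ _c : Fin l → Fin n, (2 * p) ^ l :=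
            Finset.sum_le_sum fun c _ => Gr1_cyc l hl h0 h1 c
        _ = (n : ℝ) ^ l * (2 * p) ^ l := by
            rw [Finset.sum_const, Finset.card_univ, Fintype.card_fun, Fintype.card_fin,
              Fintype.card_fin, nsmul_eq_mul, Nat.cast_pow]
        _ = (2 * d) ^ l := by
            rw [← mul_pow, hp]
            have h9 : (n : ℝ) * (2 * (d / n)) = 2 * d := by
              field_simp
            rw [h9]
        _ ≤ (2 * d) ^ 7 := pow_le_pow_right₀ (by linarith) h7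
    have k3 := key 3 (by decide) (by norm_num)
    have k4 := key 4 (by decide) (by norm_num)
    have k5 := key 5 (by decide) (by norm_num)
    have k7 := key 7 (by decide) (by norm_num)
    have e : ∑ i ∈ I, Pr p (P i) =
        (∑ c : Fin 3 → Fin n, Pr p (fun E : Finset (Sym2 (Fin n)) =>
          Cy 3 (E.filter fun e => ¬ e.IsDiag) c)) +
        ((∑ c : Fin 4 → Fin n, Pr p (fun E : Finset (Sym2 (Fin n)) =>
          Cy 4 (E.filter fun e => ¬ e.IsDiag) c)) +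
        ((∑ c : Fin 5 → Fin n, Pr p (fun E : Finset (Sym2 (Fin n)) =>
          Cy 5 (E.filter fun e => ¬ e.IsDiag) c)) +
        (∑ c : Fin 7 → Fin n, Pr p (fun E : Finset (Sym2 (Fin n)) =>
          Cy 7 (E.filter fun e => ¬ e.IsDiag) c)))) := by
      show ∑ i, Pr p (P i) = _
      rw [Fintype.sum_sum_type, Fintype.sum_sum_type, Fintype.sum_sum_type]
      rfl
    rw [e]
    linarith

theorem Gr1_two (n : ℕ) : ((2 : ℝ) ^ n) = Real.exp (n * Real.log 2) := by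
  rw [Real.exp_nat_mul, Real.exp_log (by norm_num : (0 : ℝ) < 2)]

theorem Gr1_hcard {n : ℕ} (I : Finset (Finset (Fin n))) :
    (I.card : ℝ) ≤ Real.exp (n * Real.log 2) := by
  rw [← Gr1_two]
  have : I.card ≤ 2 ^ n := by
    have h := Finset.card_le_univ I
    rwa [Fintype.card_finset, Fintype.card_fin] at h
  exact_mod_cast this

theorem Gr1_hcard2 {n : ℕ} (I : Finset (Finset (Fin n) × Finset (Fin n))) :
    (I.card : ℝ) ≤ Real.exp (2 * n * Real.log 2) := by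
  have e : Real.exp (2 * n * Real.log 2) = 2 ^ n * 2 ^ n := by
    rw [Gr1_two, ← Real.exp_add]
    ring_nf
  rw [e]
  have : I.card ≤ 2 ^ n * 2 ^ n := by
    have h := Finset.card_le_univ I
    rwa [Fintype.card_prod, Fintype.card_finset, Fintype.card_fin] at h
  exact_mod_cast this

open Classical in
/-- index sets -/
noncomputable def Gr1_J {n : ℕ} (P : Finset (Fin n) → Prop) : Finset (Finset (Fin n)) :=
  univ.filter P

open Classical in
noncomputable def Gr1_J2 {n : ℕ} (P : Finset (Fin n) → Finset (Fin n) → Prop) :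
    Finset (Finset (Fin n) × Finset (Fin n)) :=
  univ.filter fun q => P q.1 q.2

open Classical in
theorem Gr1_mem_J {n : ℕ} (P : Finset (Fin n) → Prop) (S : Finset (Fin n)) :
    S ∈ Gr1_J P ↔ P S := by
  unfold Gr1_J
  rw [Finset.mem_filter]
  exact ⟨fun h => h.2, fun h => ⟨Finset.mem_univ _, h⟩⟩

open Classical in
theorem Gr1_mem_J2 {n : ℕ} (P : Finset (Fin n) → Finset (Fin n) → Prop)
    (q : Finset (Fin n) × Finset (Fin n)) : q ∈ Gr1_J2 P ↔ P q.1 q.2 := by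
  unfold Gr1_J2
  rw [Finset.mem_filter]
  exact ⟨fun h => h.2, fun h => ⟨Finset.mem_univ _, h⟩⟩

/-- the events: too many elements of `R i`, too few elements of `R i` -/
def Gr1_many {n : ℕ} {ι : Type} (R : ι → Finset (Sym2 (Fin n))) (m : ℕ) (i : ι)
    (E : Finset (Sym2 (Fin n))) : Prop := m + 1 ≤ (E ∩ R i).card

def Gr1_few {n : ℕ} {ι : Type} (R : ι → Finset (Sym2 (Fin n))) (m : ℕ) (i : ι)
    (E : Finset (Sym2 (Fin n))) : Prop := (E ∩ R i).card ≤ m

theorem Gr1_Bmany {n : ℕ} {p : ℝ} (h0 : 0 ≤ p) (h1 : p ≤ 1)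
    (R : Finset (Fin n) → Finset (Sym2 (Fin n))) (P : Finset (Fin n) → Prop) (m : ℕ) (b t : ℝ)
    (hb : ∀ S, P S → p * ((R S).card : ℝ) ≤ b)
    (ht : n * Real.log 2 + (2 * b - m * Real.log 2) ≤ t) :
    Pr p (fun E => ∃ S ∈ Gr1_J P, Gr1_many R m S E) ≤ Real.exp t := by
  refine Gr1_ub h0 h1 (Gr1_J P) (fun S E => Gr1_many R m S E) _ _ t (Gr1_hcard _) ?_ ht
  intro S hS
  refine (Gr1_up h0 h1 (R S) (m + 1)).trans (Real.exp_le_exp.mpr ?_)
  have h2 := hb S ((Gr1_mem_J P S).mp hS)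
  have h3 : 0 ≤ Real.log 2 := Real.log_nonneg (by norm_num)
  push_cast
  nlinarith

theorem Gr1_Bfew {n : ℕ} {p : ℝ} (h0 : 0 ≤ p) (h1 : p ≤ 1)
    (R : Finset (Fin n) × Finset (Fin n) → Finset (Sym2 (Fin n)))
    (P : Finset (Fin n) → Finset (Fin n) → Prop) (m : ℕ) (b t : ℝ)
    (hb : ∀ q : Finset (Fin n) × Finset (Fin n), P q.1 q.2 → b ≤ p * ((R q).card : ℝ))
    (ht : 2 * n * Real.log 2 + (m * Real.log 2 - b / 2) ≤ t) :
    Pr p (fun E => ∃ q ∈ Gr1_J2 P, Gr1_few R m q E) ≤ Real.exp t := by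
  refine Gr1_ub h0 h1 (Gr1_J2 P) (fun S E => Gr1_few R m S E) _ _ t (Gr1_hcard2 _) ?_ ht
  intro q hq
  refine (Gr1_lo h0 h1 (R q) m).trans (Real.exp_le_exp.mpr ?_)
  have h2 := hb q ((Gr1_mem_J2 P q).mp hq)
  linarith

def Gr1_P3 (k n : ℕ) (S T : Finset (Fin n)) : Prop :=
  Disjoint S T ∧ n ≤ 20000 * k * S.card ∧ n ≤ 20000 * k * T.card

def Gr1_P4 (k n : ℕ) (S : Finset (Fin n)) : Prop := 1000 * k * S.card ≤ n

def Gr1_P5 (k n : ℕ) (S : Finset (Fin n)) : Prop := 20000 * k * S.card ≤ 3 * n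

def Gr1_P6 (Λ n : ℕ) (S : Finset (Fin n)) : Prop := Λ * S.card ≤ 2 * n

def Gr1_P8 (n : ℕ) (S : Finset (Fin n)) : Prop := 1 ≤ S.card ∧ S.card ^ 4 ≤ n ^ 3

open Classical in
def Gr1_sh (n m : ℕ) (E : Finset (Sym2 (Fin n))) : Prop := m + 1 ≤
  ((E.filter fun e => ¬ e.IsDiag).filter
    fun e => Short (E.filter fun e => ¬ e.IsDiag) e).card

theorem Gr1_B1 (k n : ℕ) (hk : 1 ≤ k) (hn : 100 ≤ n) (d p : ℝ)
    (hd : 10 ^ 10 * (k : ℝ) ^ 2 ≤ d) (hp : p = d / n) (h0 : 0 ≤ p) (h1 : p ≤ 1) :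
    Pr p (fun E => (E ∩ clauses n).card ≤ 10 ^ 10 * k ^ 2 * n / 8) ≤
      Real.exp (-((n : ℝ) / 10)) := by
  have hnr : (100 : ℝ) ≤ n := by exact_mod_cast hn
  have hkr : (1 : ℝ) ≤ k := by exact_mod_cast hk
  have hk2 : (1 : ℝ) ≤ (k : ℝ) ^ 2 := one_le_pow₀ hkr
  obtain ⟨D, hD⟩ : ∃ D : ℝ, D = 10 ^ 10 * (k : ℝ) ^ 2 := ⟨_, rfl⟩
  rw [← hD] at hd
  have hd1 : 1 ≤ D := by
    rw [hD]
    nlinarith
  have l2 : Real.log 2 < 0.6932 := by
    have := Real.log_two_lt_d9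
    linarith
  have hl0 : 0 ≤ Real.log 2 := Real.log_nonneg (by norm_num)
  refine (Gr1_lo h0 h1 _ _).trans (Real.exp_le_exp.mpr ?_)
  rw [Gr1_card_all]
  have hm : ((10 ^ 10 * k ^ 2 * n / 8 : ℕ) : ℝ) ≤ D * n / 8 := by
    refine Nat.cast_div_le.trans ?_
    push_cast
    rw [hD]
    linarith
  have e1 : p * (n * (n - 1) / 2) = d * (n - 1) / 2 := by
    rw [hp]
    field_simp
  rw [e1]
  have e2 : D * (n - 1) ≤ d * ((n : ℝ) - 1) := mul_le_mul_of_nonneg_right hd (by linarith)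
  have h8 : ((10 ^ 10 * k ^ 2 * n / 8 : ℕ) : ℝ) * Real.log 2 ≤ D * n / 8 * 0.6932 :=
    mul_le_mul hm l2.le hl0 (by positivity)
  have h9 : 0 ≤ (D - 1) * ((n : ℝ) * (0.25 - 0.6932 / 8) - 0.25) :=
    mul_nonneg (by linarith) (by linarith)
  nlinarith

theorem Gr1_B2 (k n : ℕ) (hk : 1 ≤ k) (hn : 100 ≤ n) (d p : ℝ)
    (hd : 1000 * d ≤ 1001 * (10 ^ 10 * (k : ℝ) ^ 2)) (hp : p = d / n) (h0 : 0 ≤ p) (h1 : p ≤ 1) :
    Pr p (fun E => 2 * 10 ^ 10 * k ^ 2 * n + 1 ≤ (E ∩ clauses n).card) ≤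
      Real.exp (-((n : ℝ) / 10)) := by
  have hnr : (100 : ℝ) ≤ n := by exact_mod_cast hn
  have hkr : (1 : ℝ) ≤ k := by exact_mod_cast hk
  have hk2 : (1 : ℝ) ≤ (k : ℝ) ^ 2 := one_le_pow₀ hkr
  obtain ⟨D, hD⟩ : ∃ D : ℝ, D = 10 ^ 10 * (k : ℝ) ^ 2 := ⟨_, rfl⟩
  rw [← hD] at hd
  have hd1 : 1 ≤ D := by
    rw [hD]
    nlinarith
  have l1 : 0.6931 < Real.log 2 := by
    have := Real.log_two_gt_d9
    linarith
  refine (Gr1_up h0 h1 _ _).trans (Real.exp_le_exp.mpr ?_)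
  rw [Gr1_card_all]
  have e1 : p * (n * (n - 1) / 2) = d * (n - 1) / 2 := by
    rw [hp]
    field_simp
  rw [e1]
  have e2 : d * ((n : ℝ) - 1) ≤ 1001 / 1000 * D * (n - 1) :=
    mul_le_mul_of_nonneg_right (by linarith) (by linarith)
  have h7 : D * n * 2 * 0.6931 ≤ ((2 * 10 ^ 10 * k ^ 2 * n + 1 : ℕ) : ℝ) * Real.log 2 := by
    have h8 : D * n * 2 ≤ ((2 * 10 ^ 10 * k ^ 2 * n + 1 : ℕ) : ℝ) := by
      push_cast
      rw [hD]
      linarith
    exact mul_le_mul h8 l1.le (by norm_num) (by positivity)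
  have h9 : 0 ≤ (D - 1) * ((n : ℝ) * (2 * 0.6931 - 1001 / 1000)) :=
    mul_nonneg (by linarith) (by linarith)
  nlinarith

theorem Gr1_B3 (k n : ℕ) (hn : 100 ≤ n) (d p : ℝ)
    (hd : 10 ^ 10 * (k : ℝ) ^ 2 ≤ d) (hp : p = d / n) (h0 : 0 ≤ p) (h1 : p ≤ 1) :
    Pr p (fun E => ∃ q ∈ Gr1_J2 (Gr1_P3 k n),
      Gr1_few (fun q => Gr1_ST q.1 q.2) (4 * n) q E) ≤ Real.exp (-((n : ℝ) / 10)) := by
  have hn100 : (100 : ℝ) ≤ n := by exact_mod_cast hn
  have hnr : (0 : ℝ) < n := by linarith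
  have l2 : Real.log 2 < 0.6932 := by
    have := Real.log_two_lt_d9
    linarith
  refine Gr1_Bfew h0 h1 _ _ _ (25 * n) _ ?_ ?_
  · rintro ⟨S, T⟩ ⟨hq1, hq2, hq3⟩
    simp only at hq1 hq2 hq3 ⊢
    rw [Gr1_card_ST S T hq1]
    have h2 : (n : ℝ) ≤ 20000 * k * S.card := by exact_mod_cast hq2
    have h3 : (n : ℝ) ≤ 20000 * k * T.card := by exact_mod_cast hq3
    have h4 : (n : ℝ) * n ≤ (20000 * k * S.card) * (20000 * k * T.card) :=
      mul_le_mul h2 h3 hnr.le (by positivity)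
    rw [hp, div_mul_eq_mul_div, le_div_iff₀ hnr]
    push_cast
    have h5 : 10 ^ 10 * (k : ℝ) ^ 2 * (S.card * T.card) ≤ d * (S.card * T.card) :=
      mul_le_mul_of_nonneg_right hd (by positivity)
    nlinarith
  · push_cast
    nlinarith

theorem Gr1_B4 (k n : ℕ) (hn : 100 ≤ n) (d p : ℝ)
    (hd : 1000 * d ≤ 1001 * (10 ^ 10 * (k : ℝ) ^ 2)) (hp : p = d / n) (h0 : 0 ≤ p) (h1 : p ≤ 1) :
    Pr p (fun E => ∃ S ∈ Gr1_J (Gr1_P4 k n),
      Gr1_many (fun S => Gr1_ST S S) (40000 * n) S E) ≤ Real.exp (-((n : ℝ) / 10)) := by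
  have hn100 : (100 : ℝ) ≤ n := by exact_mod_cast hn
  have hnr : (0 : ℝ) < n := by linarith
  have l1 : 0.6931 < Real.log 2 := by
    have := Real.log_two_gt_d9
    linarith
  have l2 : Real.log 2 < 0.6932 := by
    have := Real.log_two_lt_d9
    linarith
  refine Gr1_Bmany h0 h1 _ _ _ (10010 * n) _ ?_ ?_
  · intro S hS
    have h2 : 1000 * (k : ℝ) * S.card ≤ n := by
      have : 1000 * k * S.card ≤ n := hS
      exact_mod_cast this
    have h3 : ((Gr1_ST S S).card : ℝ) ≤ S.card * S.card := by exact_mod_cast Gr1_card_in S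
    have h4 : (1000 * (k : ℝ) * S.card) * (1000 * (k : ℝ) * S.card) ≤ n * n :=
      mul_le_mul h2 h2 (by positivity) hnr.le
    refine (mul_le_mul_of_nonneg_left h3 h0).trans ?_
    rw [hp, div_mul_eq_mul_div, div_le_iff₀ hnr]
    have h5 : 1000 * d * ((S.card : ℝ) * S.card) ≤
        1001 * (10 ^ 10 * (k : ℝ) ^ 2) * (S.card * S.card) :=
      mul_le_mul_of_nonneg_right hd (by positivity)
    nlinarith
  · push_cast
    nlinarith

theorem Gr1_B5 (k n : ℕ) (hk : 1 ≤ k) (hn : 100 ≤ n) (d p : ℝ)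
    (hd : 1000 * d ≤ 1001 * (10 ^ 10 * (k : ℝ) ^ 2)) (hp : p = d / n) (h0 : 0 ≤ p) (h1 : p ≤ 1) :
    Pr p (fun E => ∃ S ∈ Gr1_J (Gr1_P5 k n),
      Gr1_many (fun S => Gr1_ST S univ) (5 * 10 ^ 8 * k * n) S E) ≤
      Real.exp (-((n : ℝ) / 10)) := by
  have hn100 : (100 : ℝ) ≤ n := by exact_mod_cast hn
  have hnr : (0 : ℝ) < n := by linarith
  have hkr : (1 : ℝ) ≤ k := by exact_mod_cast hk
  have l1 : 0.6931 < Real.log 2 := by
    have := Real.log_two_gt_d9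
    linarith
  have l2 : Real.log 2 < 0.6932 := by
    have := Real.log_two_lt_d9
    linarith
  refine Gr1_Bmany h0 h1 _ _ _ (1.6 * 10 ^ 6 * k * n) _ ?_ ?_
  · intro S hS
    have h2 : 20000 * (k : ℝ) * S.card ≤ 3 * n := by
      have : 20000 * k * S.card ≤ 3 * n := hS
      exact_mod_cast this
    have h3 : ((Gr1_ST S univ).card : ℝ) ≤ S.card * n := by exact_mod_cast Gr1_card_touch S
    refine (mul_le_mul_of_nonneg_left h3 h0).trans ?_
    rw [hp, div_mul_eq_mul_div, div_le_iff₀ hnr]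
    have h5 : 1000 * d * ((S.card : ℝ) * n) ≤ 1001 * (10 ^ 10 * (k : ℝ) ^ 2) * (S.card * n) :=
      mul_le_mul_of_nonneg_right hd (by positivity)
    have h6 : (k : ℝ) * n * (20000 * (k : ℝ) * S.card) ≤ k * n * (3 * n) :=
      mul_le_mul_of_nonneg_left h2 (by positivity)
    nlinarith
  · push_cast
    have h6 : (n : ℝ) ≤ k * n := by nlinarith
    have h7 : (k : ℝ) * n * 0.6931 ≤ k * n * Real.log 2 :=
      mul_le_mul_of_nonneg_left l1.le (by positivity)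
    have h8 : (n : ℝ) * Real.log 2 ≤ n * 0.6932 := mul_le_mul_of_nonneg_left l2.le hnr.le
    nlinarith

/-- the number of sets `S` with `Λ * |S| ≤ 2 * n` -/
theorem Gr1_cnt (Λ n : ℕ) (hΛ : 1 ≤ Λ) :
    ((Gr1_J (Gr1_P6 Λ n)).card : ℝ) ≤ Real.exp ((n : ℝ) / Λ + 2 * n / Λ * Real.log Λ) := by
  have hL : (1 : ℝ) ≤ Λ := by exact_mod_cast hΛ
  have hL0 : (0 : ℝ) < Λ := by linarith
  have hlog : 0 ≤ Real.log Λ := Real.log_nonneg hL
  have h1 : ∑ S : Finset (Fin n), (1 / (Λ : ℝ)) ^ S.card = (1 / (Λ : ℝ) + 1) ^ n := by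
    have := Finset.sum_pow_mul_eq_add_pow (1 / (Λ : ℝ)) 1 (univ : Finset (Fin n))
    rw [powerset_univ, card_univ, Fintype.card_fin] at this
    rw [← this]
    exact sum_congr rfl fun S _ => by rw [one_pow, mul_one]
  have h2 : ∀ S ∈ Gr1_J (Gr1_P6 Λ n),
      Real.exp (-(2 * n / Λ * Real.log Λ)) ≤ (1 / (Λ : ℝ)) ^ S.card := by
    intro S hS
    have h3 : Λ * S.card ≤ 2 * n := (Gr1_mem_J _ _).mp hS
    have h4 : (S.card : ℝ) ≤ 2 * n / Λ := by
      rw [le_div_iff₀ hL0]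
      have : (Λ : ℝ) * S.card ≤ 2 * n := by exact_mod_cast h3
      linarith
    have h5 : (1 / (Λ : ℝ)) ^ S.card = Real.exp (-(S.card * Real.log Λ)) := by
      rw [Real.exp_neg, Real.exp_nat_mul, Real.exp_log hL0, one_div, inv_pow]
    rw [h5]
    apply Real.exp_le_exp.mpr
    have := mul_le_mul_of_nonneg_right h4 hlog
    linarith
  have h6 : ((Gr1_J (Gr1_P6 Λ n)).card : ℝ) * Real.exp (-(2 * n / Λ * Real.log Λ)) ≤
      Real.exp (n / Λ) := by
    calc ((Gr1_J (Gr1_P6 Λ n)).card : ℝ) * Real.exp (-(2 * n / Λ * Real.log Λ))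
        = ∑ _S ∈ Gr1_J (Gr1_P6 Λ n), Real.exp (-(2 * n / Λ * Real.log Λ)) := by
          rw [sum_const, nsmul_eq_mul]
      _ ≤ ∑ S ∈ Gr1_J (Gr1_P6 Λ n), (1 / (Λ : ℝ)) ^ S.card := sum_le_sum h2
      _ ≤ ∑ S : Finset (Fin n), (1 / (Λ : ℝ)) ^ S.card :=
          sum_le_sum_of_subset_of_nonneg (subset_univ _) fun S _ _ => by positivity
      _ = (1 / (Λ : ℝ) + 1) ^ n := h1
      _ ≤ (Real.exp (1 / Λ)) ^ n := pow_le_pow_left₀ (by positivity) (Real.add_one_le_exp _) n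
      _ = Real.exp (n / Λ) := by
          rw [← Real.exp_nat_mul, mul_one_div]
  have h7 : Real.exp (-(2 * n / Λ * Real.log Λ)) * Real.exp (2 * n / Λ * Real.log Λ) = 1 := by
    rw [← Real.exp_add, neg_add_cancel, Real.exp_zero]
  calc ((Gr1_J (Gr1_P6 Λ n)).card : ℝ)
      = ((Gr1_J (Gr1_P6 Λ n)).card : ℝ) * Real.exp (-(2 * n / Λ * Real.log Λ)) *
        Real.exp (2 * n / Λ * Real.log Λ) := by rw [mul_assoc, h7, mul_one]
    _ ≤ Real.exp (n / Λ) * Real.exp (2 * n / Λ * Real.log Λ) :=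
        mul_le_mul_of_nonneg_right h6 (Real.exp_pos _).le
    _ = Real.exp ((n : ℝ) / Λ + 2 * n / Λ * Real.log Λ) := (Real.exp_add _ _).symm

theorem Gr1_B6 (k D Λ n : ℕ) (hk : 1 ≤ k) (hD : 10 ^ 12 * k ^ 2 ≤ D) (hΛ : 1 ≤ Λ)
    (hΛD : Λ ^ 10 ≤ 2 ^ D) (hn : 100 ≤ n) (d p : ℝ)
    (hd : 1000 * d ≤ 1001 * (10 ^ 10 * (k : ℝ) ^ 2)) (hp : p = d / n) (h0 : 0 ≤ p) (h1 : p ≤ 1) :
    Pr p (fun E => ∃ S ∈ Gr1_J (Gr1_P6 Λ n),
      Gr1_many (fun S => Gr1_ST S univ) (D * n / (2 * Λ)) S E) ≤ Real.exp (-((n : ℝ) / Λ)) := by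
  have hn100 : (100 : ℝ) ≤ n := by exact_mod_cast hn
  have hnr : (0 : ℝ) < n := by linarith
  have hkr : (1 : ℝ) ≤ k := by exact_mod_cast hk
  have hk2 : (1 : ℝ) ≤ (k : ℝ) ^ 2 := one_le_pow₀ hkr
  have hL : (1 : ℝ) ≤ Λ := by exact_mod_cast hΛ
  have hL0 : (0 : ℝ) < Λ := by linarith
  have hDr : 10 ^ 12 * (k : ℝ) ^ 2 ≤ D := by exact_mod_cast hD
  have l1 : 0.6931 < Real.log 2 := by
    have := Real.log_two_gt_d9
    linarith
  have l2 : Real.log 2 < 0.6932 := by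
    have := Real.log_two_lt_d9
    linarith
  have hd0 : 0 ≤ d := by
    have h2 : d = p * n := by
      rw [hp]
      field_simp
    rw [h2]
    positivity
  have hlog : 10 * Real.log Λ ≤ D * Real.log 2 := by
    have h2 : Real.log ((Λ : ℝ) ^ 10) ≤ Real.log ((2 : ℝ) ^ D) :=
      Real.log_le_log (by positivity) (by exact_mod_cast hΛD)
    rw [Real.log_pow, Real.log_pow] at h2
    exact_mod_cast h2
  have ht : 0 ≤ (n : ℝ) / Λ := by positivity
  refine Gr1_ub h0 h1 _ _ (4 * d * (n / Λ) - D / 2 * (n / Λ) * Real.log 2) _ _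
    (Gr1_cnt Λ n hΛ) ?_ ?_
  · intro S hS
    refine (Gr1_up h0 h1 (Gr1_ST S univ) (D * n / (2 * Λ) + 1)).trans (Real.exp_le_exp.mpr ?_)
    have h3 : Λ * S.card ≤ 2 * n := (Gr1_mem_J _ _).mp hS
    have h4 : (S.card : ℝ) ≤ 2 * (n / Λ) := by
      rw [← mul_div_assoc, le_div_iff₀ hL0]
      have : (Λ : ℝ) * S.card ≤ 2 * n := by exact_mod_cast h3
      linarith
    have h5 : ((Gr1_ST S univ).card : ℝ) ≤ S.card * n := by exact_mod_cast Gr1_card_touch S
    have h6 : p * (Gr1_ST S univ).card ≤ d * (2 * (n / Λ)) := by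
      calc p * ((Gr1_ST S univ).card : ℝ) ≤ p * (S.card * n) := mul_le_mul_of_nonneg_left h5 h0
        _ = d * S.card := by
          rw [hp]
          field_simp
        _ ≤ d * (2 * (n / Λ)) := mul_le_mul_of_nonneg_left h4 hd0
    have h7 : (D : ℝ) / 2 * (n / Λ) ≤ ((D * n / (2 * Λ) + 1 : ℕ) : ℝ) := by
      have h8 : D * n < 2 * Λ * (D * n / (2 * Λ) + 1) := Nat.lt_mul_div_succ _ (by omega)
      have h9 : (D : ℝ) * n < 2 * Λ * ((D * n / (2 * Λ) + 1 : ℕ) : ℝ) := by exact_mod_cast h8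
      have h10 : (D : ℝ) / 2 * (n / Λ) = D * n / (2 * Λ) := by
        field_simp
      rw [h10, div_le_iff₀ (by positivity)]
      linarith
    have h8 : (D : ℝ) / 2 * (n / Λ) * Real.log 2 ≤
        ((D * n / (2 * Λ) + 1 : ℕ) : ℝ) * Real.log 2 :=
      mul_le_mul_of_nonneg_right h7 (by linarith)
    linarith
  · have h3 : 1 + 2 * Real.log Λ + 4 * d - D / 2 * Real.log 2 + 1 ≤ 0 := by
      have h4 : (D : ℝ) * 0.6931 ≤ D * Real.log 2 :=
        mul_le_mul_of_nonneg_left l1.le (by positivity)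
      have h5 : 2 * Real.log Λ ≤ D * Real.log 2 / 5 := by linarith
      have h6 : 1000 * (4 * d) ≤ 1001 * 4 / 100 * D := by nlinarith
      have h7 : (10 : ℝ) ^ 12 ≤ D := by nlinarith
      nlinarith
    have h4 : (n : ℝ) / Λ * (1 + 2 * Real.log Λ + 4 * d - D / 2 * Real.log 2 + 1) ≤ 0 :=
      mul_nonpos_of_nonneg_of_nonpos ht h3
    have h5 : 2 * (n : ℝ) / Λ = 2 * (n / Λ) := by ring
    rw [h5]
    nlinarith

theorem Gr1_B7 (Λ n : ℕ) (hΛ : 1 ≤ Λ) (hn : 0 < n) (d p : ℝ) (hp : p = d / n) (h0 : 0 < p)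
    (h1 : p ≤ 1) (hd : 1 ≤ d) :
    Pr p (fun E : Finset (Sym2 (Fin n)) => Gr1_sh n (n / Λ) E) ≤ 4 * (2 * d) ^ 7 * Λ / n := by
  have hnr : (0 : ℝ) < n := by exact_mod_cast hn
  have hL0 : (0 : ℝ) < Λ := by exact_mod_cast hΛ
  have h := Gr1_short n (n / Λ) d p hn hp h0 h1 hd
  have h2 : (n : ℝ) ≤ Λ * (((n / Λ : ℕ) : ℝ) + 1) := by
    have h8 : n < Λ * (n / Λ + 1) := Nat.lt_mul_div_succ _ (by omega)
    have h9 : (n : ℝ) < Λ * ((n / Λ + 1 : ℕ) : ℝ) := by exact_mod_cast h8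
    push_cast at h9
    exact h9.le
  rw [le_div_iff₀ hnr]
  have h3 : 0 ≤ Pr p (fun E : Finset (Sym2 (Fin n)) => Gr1_sh n (n / Λ) E) :=
    sum_nonneg fun E _ => ind_nonneg h0.le h1 _ E
  calc Pr p (fun E : Finset (Sym2 (Fin n)) => Gr1_sh n (n / Λ) E) * n
      ≤ Pr p (fun E : Finset (Sym2 (Fin n)) => Gr1_sh n (n / Λ) E) *
        (Λ * (((n / Λ : ℕ) : ℝ) + 1)) := mul_le_mul_of_nonneg_left h2 h3
    _ = (Pr p (fun E : Finset (Sym2 (Fin n)) => Gr1_sh n (n / Λ) E) *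
        (((n / Λ : ℕ) : ℝ) + 1)) * Λ := by ring
    _ ≤ 4 * (2 * d) ^ 7 * Λ := mul_le_mul_of_nonneg_right h hL0.le

/-! ### small dense sets -/

theorem Gr1_dense {n : ℕ} (S : Finset (Fin n)) (hS : 1 ≤ S.card) (p : ℝ) (h0 : 0 < p)
    (h1 : p ≤ 1) (hps : p * S.card ≤ 1) :
    Pr p (fun E => 5 * S.card + 1 ≤ (E ∩ Gr1_ST S S).card) ≤
      (Real.exp 1 * (p * S.card) ^ 5) ^ S.card := by
  have hs : (0 : ℝ) < S.card := by exact_mod_cast hS
  have hps0 : 0 < p * (S.card : ℝ) := by positivity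
  have h2 := upper_tail h0.le h1 (θ := 1 / (p * S.card)) (by rw [le_div_iff₀ hps0]; linarith)
    (Gr1_ST S S) (5 * S.card)
  have h3 : p * (1 / (p * S.card)) * (Gr1_ST S S).card ≤ S.card := by
    have h4 : ((Gr1_ST S S).card : ℝ) ≤ S.card * S.card := by exact_mod_cast Gr1_card_in S
    calc p * (1 / (p * S.card)) * ((Gr1_ST S S).card : ℝ)
        ≤ p * (1 / (p * S.card)) * (S.card * S.card) := mul_le_mul_of_nonneg_left h4 (by positivity)
      _ = S.card := by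
        field_simp
  have h5 : Pr p (fun E => 5 * S.card + 1 ≤ (E ∩ Gr1_ST S S).card) ≤
      Pr p (fun E => 5 * S.card ≤ (E ∩ Gr1_ST S S).card) :=
    Pr_mono h0.le h1 fun E hE => by omega
  refine h5.trans ?_
  have h6 : Pr p (fun E => 5 * S.card ≤ (E ∩ Gr1_ST S S).card) =
      Pr p (fun E => 5 * S.card ≤ (E ∩ Gr1_ST S S).card) * (1 / (p * S.card)) ^ (5 * S.card) *
      (p * S.card) ^ (5 * S.card) := by
    rw [mul_assoc, ← mul_pow, one_div, inv_mul_cancel₀ hps0.ne', one_pow, mul_one]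
  rw [h6, mul_pow (Real.exp 1), ← pow_mul, ← Real.exp_nat_mul, mul_one]
  exact mul_le_mul_of_nonneg_right (h2.trans (Real.exp_le_exp.mpr h3)) (pow_nonneg hps0.le _)

theorem Gr1_term (n s : ℕ) (hn : 0 < n) (hs : 1 ≤ s) (hsn : s ^ 4 ≤ n ^ 3) (d p : ℝ)
    (hd : 0 ≤ d) (hp : p = d / n) :
    (n.choose s : ℝ) * (Real.exp 1 * (p * s) ^ 5) ^ s ≤ (8 * d ^ 5 / n) ^ s := by
  have hnr : (0 : ℝ) < n := by exact_mod_cast hn
  have hsr : (0 : ℝ) < s := by exact_mod_cast hs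
  have h1 : (n.choose s : ℝ) ≤ (n * Real.exp 1 / s) ^ s := by
    have h2 : (n.choose s : ℝ) ≤ (n : ℝ) ^ s / (s.factorial : ℝ) := Nat.choose_le_pow_div s n
    have h3 := Real.pow_div_factorial_le_exp (s : ℝ) hsr.le s
    have hf : (0 : ℝ) < s.factorial := by exact_mod_cast Nat.factorial_pos s
    refine h2.trans ?_
    rw [div_le_iff₀ hf] at h3
    rw [div_le_iff₀ hf, div_pow, mul_pow, ← Real.exp_nat_mul, mul_one]
    calc (n : ℝ) ^ s = (n : ℝ) ^ s * (s : ℝ) ^ s / (s : ℝ) ^ s := by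
          field_simp
      _ ≤ (n : ℝ) ^ s * (Real.exp s * s.factorial) / (s : ℝ) ^ s := by
          apply div_le_div_of_nonneg_right _ (by positivity)
          exact mul_le_mul_of_nonneg_left h3 (by positivity)
      _ = (n : ℝ) ^ s * Real.exp s / (s : ℝ) ^ s * s.factorial := by ring
  have h4 : Real.exp 1 * Real.exp 1 ≤ 8 := by
    have h5 := Real.exp_one_lt_d9
    have h6 := Real.exp_pos 1
    nlinarith
  have hp0 : 0 ≤ p := by
    rw [hp]
    positivity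
  calc (n.choose s : ℝ) * (Real.exp 1 * (p * s) ^ 5) ^ s
      ≤ (n * Real.exp 1 / s) ^ s * (Real.exp 1 * (p * s) ^ 5) ^ s :=
        mul_le_mul_of_nonneg_right h1 (by positivity)
    _ = ((n * Real.exp 1 / s) * (Real.exp 1 * (p * s) ^ 5)) ^ s := (mul_pow _ _ _).symm
    _ ≤ (8 * d ^ 5 / n) ^ s := by
        apply pow_le_pow_left₀ (by positivity)
        have h7 : (n * Real.exp 1 / s) * (Real.exp 1 * (p * s) ^ 5) =
            (Real.exp 1 * Real.exp 1) * d ^ 5 * ((s : ℝ) ^ 4 / n ^ 4) := by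
          rw [hp]
          field_simp
        have h8 : (s : ℝ) ^ 4 / n ^ 4 ≤ 1 / n := by
          rw [div_le_div_iff₀ (by positivity) hnr, one_mul]
          have h9 : (s : ℝ) ^ 4 ≤ n ^ 3 := by exact_mod_cast hsn
          calc (s : ℝ) ^ 4 * n ≤ n ^ 3 * n := mul_le_mul_of_nonneg_right h9 hnr.le
            _ = (n : ℝ) ^ 4 := by ring
        rw [h7]
        calc Real.exp 1 * Real.exp 1 * d ^ 5 * ((s : ℝ) ^ 4 / n ^ 4)
            ≤ 8 * d ^ 5 * (1 / n) := by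
              apply mul_le_mul _ h8 (by positivity) (by positivity)
              exact mul_le_mul_of_nonneg_right h4 (by positivity)
          _ = 8 * d ^ 5 / n := by ring

theorem Gr1_B8 (n : ℕ) (hn : 0 < n) (d p : ℝ) (hd : 1 ≤ d) (hp : p = d / n) (h0 : 0 < p)
    (h1 : p ≤ 1) (hn2 : 16 * d ^ 5 ≤ n) :
    Pr p (fun E => ∃ S ∈ Gr1_J (Gr1_P8 n), 5 * S.card + 1 ≤ (E ∩ Gr1_ST S S).card) ≤
      16 * d ^ 5 / n := by
  have hnr : (0 : ℝ) < n := by exact_mod_cast hn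
  obtain ⟨r, hr⟩ : ∃ r : ℝ, r = 8 * d ^ 5 / n := ⟨_, rfl⟩
  have hr0 : 0 ≤ r := by
    rw [hr]
    positivity
  have hr1 : r ≤ 1 / 2 := by
    rw [hr, div_le_iff₀ hnr]
    linarith
  obtain ⟨g, hg⟩ : ∃ g : ℕ → ℝ, g = fun s => if 1 ≤ s ∧ s ^ 4 ≤ n ^ 3 then
    (Real.exp 1 * (p * s) ^ 5) ^ s else 0 := ⟨_, rfl⟩
  have hg0 : ∀ s, 0 ≤ g s := by
    intro s
    rw [hg]
    dsimp only
    split_ifs
    · positivity
    · exact le_rfl
  have step1 : Pr p (fun E => ∃ S ∈ Gr1_J (Gr1_P8 n), 5 * S.card + 1 ≤ (E ∩ Gr1_ST S S).card) ≤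
      ∑ S ∈ Gr1_J (Gr1_P8 n), g S.card := by
    refine (Pr_exists_le h0.le h1 _ _).trans (sum_le_sum fun S hS => ?_)
    have hS' : 1 ≤ S.card ∧ S.card ^ 4 ≤ n ^ 3 := (Gr1_mem_J _ _).mp hS
    rw [hg]
    dsimp only
    rw [if_pos hS']
    apply Gr1_dense S hS'.1 p h0 h1
    have hs : (0 : ℝ) < S.card := by exact_mod_cast hS'.1
    have h9 : (S.card : ℝ) ^ 4 ≤ n ^ 3 := by exact_mod_cast hS'.2
    have h4 : (p * S.card) ^ 4 ≤ 1 := by
      rw [hp, mul_pow, div_pow, div_mul_eq_mul_div, div_le_one (by positivity)]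
      have h5 : d ^ 4 ≤ n := by
        have : d ^ 4 ≤ d ^ 5 := pow_le_pow_right₀ hd (by norm_num)
        nlinarith [pow_nonneg (show (0 : ℝ) ≤ d by linarith) 5]
      calc d ^ 4 * (S.card : ℝ) ^ 4 ≤ n * n ^ 3 := mul_le_mul h5 h9 (by positivity) hnr.le
        _ = (n : ℝ) ^ 4 := by ring
    by_contra hcon
    rw [not_le] at hcon
    have h6 : 1 < (p * S.card) ^ 4 := one_lt_pow₀ hcon (by norm_num)
    linarith
  have step2 : ∑ S ∈ Gr1_J (Gr1_P8 n), g S.card ≤ ∑ s ∈ range (n + 1), (n.choose s : ℝ) * g s := by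
    have h2 := Finset.sum_powerset_apply_card g (x := (univ : Finset (Fin n)))
    rw [powerset_univ, card_univ, Fintype.card_fin] at h2
    have h3 : ∑ s ∈ range (n + 1), (n.choose s : ℝ) * g s =
        ∑ s ∈ range (n + 1), n.choose s • g s :=
      sum_congr rfl fun s _ => by rw [nsmul_eq_mul]
    rw [h3, ← h2]
    exact sum_le_sum_of_subset_of_nonneg (subset_univ _) fun S _ _ => hg0 _
  have step3 : ∑ s ∈ range (n + 1), (n.choose s : ℝ) * g s ≤ ∑ s ∈ range n, r ^ (s + 1) := by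
    rw [sum_range_succ']
    have h2 : (n.choose 0 : ℝ) * g 0 = 0 := by
      rw [hg]
      dsimp only
      rw [if_neg (by omega), mul_zero]
    rw [h2, add_zero]
    apply sum_le_sum
    intro s _
    by_cases hs : (s + 1) ^ 4 ≤ n ^ 3
    · have h3 := Gr1_term n (s + 1) hn (by omega) hs d p (by linarith) hp
      rw [hg, hr]
      dsimp only
      rw [if_pos ⟨by omega, hs⟩]
      exact h3
    · rw [hg]
      dsimp only
      rw [if_neg (fun h => hs h.2), mul_zero]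
      positivity
  have step4 : ∑ s ∈ range n, r ^ (s + 1) ≤ 2 * r := by
    have h2 : (1 - r) * ∑ s ∈ range n, r ^ s = 1 - r ^ n := mul_neg_geom_sum r n
    have h3 : ∑ s ∈ range n, r ^ (s + 1) = r * ∑ s ∈ range n, r ^ s := by
      rw [mul_sum]
      exact sum_congr rfl fun s _ => by ring
    have h4 : 0 ≤ ∑ s ∈ range n, r ^ s := sum_nonneg fun s _ => by positivity
    have h5 : ∑ s ∈ range n, r ^ s ≤ 2 := by
      have h6 : 0 ≤ r ^ n := by positivity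
      nlinarith
    rw [h3]
    nlinarith
  have step5 : 2 * r = 16 * d ^ 5 / n := by
    rw [hr]
    ring
  linarith

theorem Gr1_mem_inner {V : Type} [Fintype V] [DecidableEq V] (E : Finset (Sym2 V))
    (S : Finset V) (e : Sym2 V) : e ∈ inner E S ↔ e ∈ E ∧ ∀ v ∈ e, v ∈ S := by
  unfold inner
  rw [mem_filter]

theorem Gr1_mem_touch2 {V : Type} [Fintype V] [DecidableEq V] (E : Finset (Sym2 V))
    (S : Finset V) (e : Sym2 V) : e ∈ touch E S ↔ e ∈ E ∧ ∃ v ∈ e, v ∈ S := by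
  unfold touch
  rw [mem_filter]

theorem Gr1_mem_betw {V : Type} [Fintype V] [DecidableEq V] (E : Finset (Sym2 V))
    (S T : Finset V) (e : Sym2 V) :
    e ∈ betw E S T ↔ e ∈ E ∧ ∃ u ∈ S, ∃ v ∈ T, e = s(u, v) := by
  unfold betw
  rw [mem_filter]

/-- eight events -/
theorem Gr1_eight {α : Type*} [Fintype α] [DecidableEq α] {p : ℝ} (h0 : 0 ≤ p)
    (h1 : p ≤ 1) (A1 A2 A3 A4 A5 A6 A7 A8 : Finset α → Prop) (t6 t7 t8 t : ℝ)
    (B1 : Pr p A1 ≤ t) (B2 : Pr p A2 ≤ t) (B3 : Pr p A3 ≤ t) (B4 : Pr p A4 ≤ t)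
    (B5 : Pr p A5 ≤ t) (B6 : Pr p A6 ≤ t6) (B7 : Pr p A7 ≤ t7) (B8 : Pr p A8 ≤ t8) :
    Pr p (fun E => A1 E ∨ (A2 E ∨ (A3 E ∨ (A4 E ∨ (A5 E ∨ (A6 E ∨ (A7 E ∨ A8 E))))))) ≤
      5 * t + t6 + t7 + t8 := by
  have s1 := Pr_or_le h0 h1 A1
    (fun E => A2 E ∨ (A3 E ∨ (A4 E ∨ (A5 E ∨ (A6 E ∨ (A7 E ∨ A8 E))))))
  have s2 := Pr_or_le h0 h1 A2 (fun E => (A3 E ∨ (A4 E ∨ (A5 E ∨ (A6 E ∨ (A7 E ∨ A8 E))))))
  have s3 := Pr_or_le h0 h1 A3 (fun E => (A4 E ∨ (A5 E ∨ (A6 E ∨ (A7 E ∨ A8 E)))))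
  have s4 := Pr_or_le h0 h1 A4 (fun E => (A5 E ∨ (A6 E ∨ (A7 E ∨ A8 E))))
  have s5 := Pr_or_le h0 h1 A5 (fun E => (A6 E ∨ (A7 E ∨ A8 E)))
  have s6 := Pr_or_le h0 h1 A6 (fun E => A7 E ∨ A8 E)
  have s7 := Pr_or_le h0 h1 A7 A8
  linarith

theorem Gr1_exp (x : ℝ) (hx : 0 < x) : Real.exp (-x) ≤ 1 / x := by
  rw [Real.exp_neg, ← one_div]
  apply one_div_le_one_div_of_le hx
  have := Real.add_one_le_exp x
  linarith

theorem thm_Gr1 : St_Gr1 := by
  intro k D Λ hk hD hΛ hΛD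
  obtain ⟨d1, hd1⟩ : ∃ d1 : ℝ, d1 = 2 * (10 ^ 10 * (k : ℝ) ^ 2) := ⟨_, rfl⟩
  have hkr : (1 : ℝ) ≤ k := by exact_mod_cast hk
  have hk2 : (1 : ℝ) ≤ (k : ℝ) ^ 2 := one_le_pow₀ hkr
  refine ⟨50 + Λ + 4 * (2 * d1) ^ 7 * Λ + 16 * d1 ^ 5, ?_⟩
  intro n d hd hd2 hdn
  have hdd : d ≤ d1 := by
    rw [hd1]
    linarith
  have hdbig : 10 ^ 10 ≤ d := by nlinarith
  have hd0 : (1 : ℝ) ≤ d := by linarith
  have hn100 : (100 : ℝ) ≤ n := by linarith
  have hn2 : 100 ≤ n := by exact_mod_cast hn100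
  have hnp : 0 < n := by omega
  have hnr : (0 : ℝ) < n := by exact_mod_cast hnp
  have hL0 : (0 : ℝ) < Λ := by exact_mod_cast hΛ
  obtain ⟨p, hp⟩ : ∃ p : ℝ, p = d / n := ⟨_, rfl⟩
  have h0 : 0 < p := by
    rw [hp]
    positivity
  have h1 : p ≤ 1 := by
    rw [hp, div_le_one hnr]
    exact hdn
  rw [← hp]
  have hmarg : Prob n p (fun E => ¬ RG2 k D Λ n E) =
      Pr p (fun E => ¬ RG2 k D Λ n (E ∩ clauses n)) := by
    classical
    unfold Prob
    exact @Gr1_marg _ _ _ p (clauses n) (fun E => ¬ RG2 k D Λ n E)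
      fun E => Classical.propDecidable _
  rw [hmarg]
  have hd15 : 0 ≤ 4 * (2 * d1) ^ 7 * Λ := by
    have : 0 ≤ d1 := by linarith
    positivity
  by_cases hbig : 16 * d1 ^ 5 ≤ n
  · have hd5 : 16 * d ^ 5 ≤ 16 * d1 ^ 5 := by
      have := pow_le_pow_left₀ (by linarith : (0 : ℝ) ≤ d) hdd 5
      linarith
    have hd7 : 4 * (2 * d) ^ 7 ≤ 4 * (2 * d1) ^ 7 := by
      have := pow_le_pow_left₀ (by linarith : (0 : ℝ) ≤ 2 * d) (by linarith : 2 * d ≤ 2 * d1) 7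
      linarith
    have main := Gr1_eight h0.le h1 _ _ _ _ _ _ _ _ _ _ _ _
      (Gr1_B1 k n hk hn2 d p hd hp h0.le h1) (Gr1_B2 k n hk hn2 d p hd2 hp h0.le h1)
      (Gr1_B3 k n hn2 d p hd hp h0.le h1) (Gr1_B4 k n hn2 d p hd2 hp h0.le h1)
      (Gr1_B5 k n hk hn2 d p hd2 hp h0.le h1)
      (Gr1_B6 k D Λ n hk hD hΛ hΛD hn2 d p hd2 hp h0.le h1)
      (Gr1_B7 Λ n hΛ hnp d p hp h0 h1 hd0)
      (Gr1_B8 n hnp d p hd0 hp h0 h1 (hd5.trans hbig))
    have e1 : Real.exp (-((n : ℝ) / 10)) ≤ 10 / n := by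
      refine (Gr1_exp _ (by positivity)).trans (le_of_eq ?_)
      rw [one_div_div]
    have e2 : Real.exp (-((n : ℝ) / Λ)) ≤ Λ / n := by
      refine (Gr1_exp _ (by positivity)).trans (le_of_eq ?_)
      rw [one_div_div]
    have e3 : 4 * (2 * d) ^ 7 * Λ / n ≤ 4 * (2 * d1) ^ 7 * Λ / n :=
      div_le_div_of_nonneg_right (mul_le_mul_of_nonneg_right hd7 hL0.le) hnr.le
    have e4 : 16 * d ^ 5 / n ≤ 16 * d1 ^ 5 / n := div_le_div_of_nonneg_right hd5 hnr.le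
    have e5 : (50 + Λ + 4 * (2 * d1) ^ 7 * Λ + 16 * d1 ^ 5) / n =
        5 * (10 / n) + Λ / n + 4 * (2 * d1) ^ 7 * Λ / n + 16 * d1 ^ 5 / n := by ring
    rw [e5]
    refine le_trans (Pr_mono h0.le h1 ?_) (main.trans (by linarith))
    intro E hE
    by_contra hcon
    apply hE
    rw [not_or, not_or, not_or, not_or, not_or, not_or, not_or] at hcon
    obtain ⟨g1, g2, g3, g4, g5, g6, g7, g8⟩ := hcon
    have hall : (E ∩ clauses n) = E.filter fun e => ¬ e.IsDiag := by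
      ext e
      simp [clauses]
    constructor
    · intro e he
      exact (Finset.mem_filter.mp (Finset.mem_inter.mp he).2).2
    · omega
    · omega
    · intro S T hST h2 h3
      have h4 : ¬ Gr1_few (fun q : Finset (Fin n) × Finset (Fin n) => Gr1_ST q.1 q.2) (4 * n)
          (S, T) E := fun h => g3 ⟨(S, T), (Gr1_mem_J2 _ _).mpr ⟨hST, h2, h3⟩, h⟩
      have h5 : 4 * n ≤ (E ∩ Gr1_ST S T).card := (Nat.lt_of_not_le h4).le
      refine le_trans h5 (Finset.card_le_card ?_)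
      intro e he
      rw [Finset.mem_inter] at he
      unfold Gr1_ST at he
      rw [Finset.mem_image] at he
      obtain ⟨heE, ⟨u, v⟩, huv, rfl⟩ := he
      rw [Finset.mem_product] at huv
      rw [Gr1_mem_betw, hall, Finset.mem_filter]
      refine ⟨⟨heE, ?_⟩, u, huv.1, v, huv.2, rfl⟩
      intro hdiag
      have huv2 : u = v := Sym2.mk_isDiag_iff.mp hdiag
      subst huv2
      exact Finset.disjoint_left.mp hST huv.1 huv.2
    · intro S hS
      have h4 : ¬ Gr1_many (fun S : Finset (Fin n) => Gr1_ST S S) (40000 * n) S E :=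
        fun h => g4 ⟨S, (Gr1_mem_J _ _).mpr hS, h⟩
      have h5 : (E ∩ Gr1_ST S S).card ≤ 40000 * n := Nat.lt_succ_iff.mp (Nat.lt_of_not_le h4)
      refine le_trans (Finset.card_le_card ?_) h5
      intro e he
      rw [Gr1_mem_inner, Finset.mem_inter] at he
      exact Finset.mem_inter.mpr ⟨he.1.1, Gr1_mem_in S e he.2⟩
    · intro S hS
      have h4 : ¬ Gr1_many (fun S : Finset (Fin n) => Gr1_ST S univ) (5 * 10 ^ 8 * k * n) S E :=
        fun h => g5 ⟨S, (Gr1_mem_J _ _).mpr hS, h⟩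
      have h5 : (E ∩ Gr1_ST S univ).card ≤ 5 * 10 ^ 8 * k * n :=
        Nat.lt_succ_iff.mp (Nat.lt_of_not_le h4)
      refine le_trans (Finset.card_le_card ?_) h5
      intro e he
      rw [Gr1_mem_touch2, Finset.mem_inter] at he
      exact Finset.mem_inter.mpr ⟨he.1.1, Gr1_mem_touch S e he.2⟩
    · intro S hS
      have h4 : ¬ Gr1_many (fun S : Finset (Fin n) => Gr1_ST S univ) (D * n / (2 * Λ)) S E :=
        fun h => g6 ⟨S, (Gr1_mem_J _ _).mpr hS, h⟩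
      have h5 : (E ∩ Gr1_ST S univ).card ≤ D * n / (2 * Λ) :=
        Nat.lt_succ_iff.mp (Nat.lt_of_not_le h4)
      have h6 : (touch (E ∩ clauses n) S).card ≤ D * n / (2 * Λ) := by
        refine le_trans (Finset.card_le_card ?_) h5
        intro e he
        rw [Gr1_mem_touch2, Finset.mem_inter] at he
        exact Finset.mem_inter.mpr ⟨he.1.1, Gr1_mem_touch S e he.2⟩
      exact (Nat.mul_le_mul_left _ h6).trans (Nat.mul_div_le _ _)
    · have h5 := Nat.lt_succ_iff.mp (Nat.lt_of_not_le g7)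
      rw [hall]
      exact (Nat.mul_le_mul_left _ h5).trans (Nat.mul_div_le _ _)
    · intro S hS
      by_cases hS1 : 1 ≤ S.card
      · have h4 : ¬ 5 * S.card + 1 ≤ (E ∩ Gr1_ST S S).card :=
          fun h => g8 ⟨S, (Gr1_mem_J _ _).mpr ⟨hS1, hS⟩, h⟩
        have h5 : (E ∩ Gr1_ST S S).card ≤ 5 * S.card := by omega
        refine le_trans (Finset.card_le_card ?_) h5
        intro e he
        rw [Gr1_mem_inner, Finset.mem_inter] at he
        exact Finset.mem_inter.mpr ⟨he.1.1, Gr1_mem_in S e he.2⟩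
      · have h4 : S = ∅ := card_eq_zero.mp (by omega)
        have h5 : inner (E ∩ clauses n) S = ∅ := by
          rw [eq_empty_iff_forall_notMem]
          intro e he
          rw [Gr1_mem_inner] at he
          have h6 := Gr1_mem_in S e he.2
          rw [h4] at h6
          simp [Gr1_ST] at h6
        rw [h5, card_empty]
        exact Nat.zero_le _
  · rw [not_le] at hbig
    have h2 : Pr p (fun E => ¬ RG2 k D Λ n (E ∩ clauses n)) ≤
        Pr p (fun _ : Finset (Sym2 (Fin n)) => True) := Pr_mono h0.le h1 fun _ _ => trivial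
    rw [Pr_true] at h2
    refine h2.trans ?_
    rw [le_div_iff₀ hnr]
    linarith

end Pool.Agent.EC
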