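import Pool.Agent.EC.Defs
import Pool.Agent.EB.St
import Pool.Agent.EB.Cube

/-!
# Signatures of the modules
-/

set_option autoImplicit false

namespace Pool.Agent.EC

open Finset Pool.Agent.WD Pool.Agent.EB
open scoped NNReal

/-- [EC Gr1] the random graph is typical with probability `1 - O(1/n)` -/
def St_Gr1 : Prop :=
  ∀ k D Λ : ℕ, 1 ≤ k → 10 ^ 12 * k ^ 2 ≤ D → 1 ≤ Λ → Λ ^ 10 ≤ 2 ^ D →
    ∃ C : ℝ, ∀ (n : ℕ) (d : ℝ), 10 ^ 10 * (k : ℝ) ^ 2 ≤ d →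
      1000 * d ≤ 1001 * (10 ^ 10 * (k : ℝ) ^ 2) → d ≤ n →
      Prob n (d / n) (fun E => ¬ RG2 k D Λ n E) ≤ C / n

/-- [EC Gr2] the main part of a typical graph -/
def St_Gr2 : Prop :=
  ∀ (k D Λ n : ℕ) (E : Finset (Sym2 (Fin n))), 1 ≤ k → 10 ^ 12 * k ^ 2 ≤ D → D ≤ Λ → Λ ≤ n →
    RG2 k D Λ n E → ∃ (E' : Finset (Sym2 (Fin n))) (H : Finset (Fin n)), Typ k D Λ n E E' H

/-- [EC Par] `EB/Par.lean` with local degree bounds -/
def St_ParL : Prop :=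
  ∀ (V : Type) [Fintype V] [DecidableEq V] (E A : Finset (Sym2 V)) (Y : Finset V) (D : ℕ),
    A ⊆ E → (∀ e ∈ E, ¬ e.IsDiag) → (∀ e ∈ E, ∀ v ∈ Y, v ∈ e → e ∈ A) →
    ∀ g : Gad V, ((∃ e, GadA E A Y D g e) ∨ GadB E A Y D g) →
    ((∀ x, Act g x → Gap1 ((2 : ℝ≥0) ^ D)⁻¹ fun a b => part A Y (upd g x a b)) ∨
      ∀ x, Act g x → Gap2 ((2 : ℝ≥0) ^ D)⁻¹ fun a b => part A Y (upd g x a b)) ∧
    ∀ x, part A Y x ≤ 2 ^ (2 * D ^ 2) * part A Y (rst g x)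

/-- [EC SelX] gadgets for balanced cuts, with an explicit constant (`EB/Sel1.lean`, `EB/Sel2.lean`,
`Fin_sel` in `EB/Fin.lean`) -/
def St_SelX : Prop :=
  ∀ (k D n : ℕ) (E A : Finset (Sym2 (Fin n))) (Y : Finset (Fin n)), 1 ≤ k → 0 < n →
    PG k n D E → A ⊆ E → (∀ e ∈ E, ∀ v ∈ Y, v ∈ e → e ∈ A) → E.card ≤ k * A.card →
    (E.card + k * A.card ≤ k * E.card ∨ n ≤ k * Yᶜ.card) →
    ∃ C : Finset (Fin n), n ≤ 1000 * k * C.card ∧ ∀ S : Finset (Fin n),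
      C.card ≤ 3 * (S ∩ C).card → 3 * (S ∩ C).card ≤ 2 * C.card →
      ∃ J : Finset (Gad (Fin n)), (∀ g ∈ J, IsGad E A Y D g) ∧
        (∀ g ∈ J, ∀ h ∈ J, g ≠ h → Disjoint g.R h.R) ∧ (∀ g ∈ J, g.p ∈ S ∧ g.q ∉ S) ∧
        n ≤ Lc k D * J.card

/-- [EC Cnv] gadgets of the main part away from the exceptional vertices are gadgets -/
def St_Cnv : Prop :=
  ∀ (n D : ℕ) (E E' : Finset (Sym2 (Fin n))) (H : Finset (Fin n)), E' ⊆ E →
    (∀ e ∈ E, e ∉ E' → ∀ v ∈ e, v ∈ H) → (∀ v, (nb E' v).card ≤ D) →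
    ∀ (A : Finset (Sym2 (Fin n))) (Y : Finset (Fin n)),
      (∀ g, IsGad E' (A ∩ E') Y D g → Disjoint g.R H → (∀ h ∈ H, s(h, g.p) ∉ E') →
        (∃ e, GadA E A Y D g e) ∨ GadB E A Y D g) ∧
      (∀ g e, GadA E' (A ∩ E') Y D g e → Disjoint g.R H → e ∉ H → GadA E A Y D g e) ∧
      ∀ g, GadB E' (A ∩ E') Y D g → Disjoint g.R H → GadB E A Y D g

/-- [EC FinP] programs: the proof of `Fin_main` in `EB/Fin.lean` for a typical graph -/
def St_FinP : Prop :=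
  ∀ k D : ℕ, 1 ≤ k → ∃ c : ℝ, 0 < c ∧ ∃ n₀ : ℕ, ∀ (Λ n : ℕ) (E E' : Finset (Sym2 (Fin n)))
    (H : Finset (Fin n)), n₀ ≤ n → 8 * D * (D + 1) * Lc k D ≤ Λ → Typ k D Λ n E E' H →
    ∀ (A : Finset (Sym2 (Fin n))) (Y : Finset (Fin n)), Closed E A Y →
      2 * E.card ≤ k * A.card →
      (2 * E.card + k * A.card ≤ k * E.card ∨ n ≤ k * Yᶜ.card) → Hard c A Y

/-- [EC Core] a subgraph with large minimum degree -/
def St_Core : Prop :=
  ∀ (V : Type) [Fintype V] [DecidableEq V] (G : Finset (Sym2 V)) (δ : ℕ),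
    ∃ U : Finset V, (∀ v ∈ U, δ < ((inner G U).filter fun e => v ∈ e).card) ∧
      G.card ≤ (inner G U).card + δ * Fintype.card V

/-- [EC SupB] a supply of gadgets of the second type, few eliminated variables -/
def St_SupB : Prop :=
  ∀ (k D n : ℕ) (E A : Finset (Sym2 (Fin n))) (Y H : Finset (Fin n)), 1 ≤ k → 0 < n →
    PG2 k n D E → A ⊆ E → E.card ≤ k * A.card → 20000 * k * Y.card < 3 * n →
    Lc k D * H.card ≤ n →
    ∃ X G g ctr, Supply E A Y D H (Lc k D) X G g ctr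

/-- [EC SupA] a supply of gadgets of the first type, many eliminated variables -/
def St_SupA : Prop :=
  ∀ k D : ℕ, 1 ≤ k → ∃ n₀ : ℕ, ∀ (n : ℕ) (E A : Finset (Sym2 (Fin n))) (Y H : Finset (Fin n)),
    n₀ ≤ n → PG2 k n D E → A ⊆ E → (∀ e ∈ E, ∀ v ∈ Y, v ∈ e → e ∈ A) →
    3 * n ≤ 20000 * k * Y.card → n ≤ 1000 * k * Yᶜ.card → Lc k D * H.card ≤ n →
    ∃ X G g ctr, Supply E A Y D H (Lc k D) X G g ctr

/-- [EC SupE] the supply for a typical graph -/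
def St_SupE : Prop :=
  ∀ k D : ℕ, 1 ≤ k → ∃ c : ℝ, 0 < c ∧ ∃ n₀ : ℕ, ∀ (Λ n : ℕ) (E E' : Finset (Sym2 (Fin n)))
    (H : Finset (Fin n)), n₀ ≤ n → 8 * D * (D + 1) * Lc k D ≤ Λ → Typ k D Λ n E E' H →
    ∀ (A : Finset (Sym2 (Fin n))) (Y : Finset (Fin n)), Closed E A Y →
      2 * E.card ≤ k * A.card →
      (2 * E.card + k * A.card ≤ k * E.card ∨ n ≤ k * Yᶜ.card) →
      ∀ F : Finset (Fin n), (F.card : ℝ) ≤ c * n →
        ∃ X G g ctr, Supply E A Y D F (Lc k D) X G g ctr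

/-- [EC Pick] a choice of elements without conflicts which meets all the given large sets -/
def St_Pick : Prop :=
  ∀ Λ : ℕ, ∃ K : ℕ, 1 ≤ K ∧ ∀ (G : Type) [Fintype G] [DecidableEq G] (c : G → G → Prop)
    [DecidableRel c], (∀ g h, c g h → c h g) → (∀ g, (univ.filter (c g)).card ≤ Λ) →
    ∀ (ι : Type) [Fintype ι] (T : ι → Finset G) (m : ℕ), (∀ i, m ≤ (T i).card) →
      (Fintype.card ι : ℝ) < 2 ^ ((m : ℝ) / K) →
      ∃ J : Finset G, (∀ g ∈ J, ∀ h ∈ J, g ≠ h → ¬ c g h) ∧ ∀ i, (T i).card ≤ K * (J ∩ T i).card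

/-- the number of `y`-variables minus the number of `z`-variables in `P` -/
def imb {I V : Type} [Fintype I] [DecidableEq V] (a b : I → V) (P : Finset V) : ℤ :=
  ∑ i, ((if a i ∈ P then 1 else 0) - (if b i ∈ P then 1 else 0))

/-- [EC Ori] a random orientation is unbalanced -/
def St_Ori : Prop :=
  ∀ Λ : ℕ, ∃ c : ℝ, 0 < c ∧ ∀ (I V : Type) [Fintype I] [DecidableEq I] [DecidableEq V]
    (p q : I → V) (k m : ℕ) (P : Fin k → Finset V), 1 ≤ m →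
    (∀ i j, i ≠ j → Disjoint (P i) (P j)) →
    (∀ j, m ≤ (univ.filter fun i =>
        (p i ∈ P j ∧ q i ∉ P j) ∨ (p i ∉ P j ∧ q i ∈ P j)).card ∧
      (univ.filter fun i =>
        (p i ∈ P j ∧ q i ∉ P j) ∨ (p i ∉ P j ∧ q i ∈ P j)).card ≤ Λ * m) →
    ((univ.filter fun o : I → Bool =>
        ((∑ j, (imb (mix o p q) (mix o q p) (P j)).natAbs : ℕ) : ℝ) < c * k * Real.sqrt m).card :
      ℝ) ≤ 2 ^ (-(c * k)) * 2 ^ Fintype.card I

/-- [EC Tree] a tree tensor network is a sum of `W ^ k` products of functions of the `k` pieces of a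
partition of the variables -/
def St_Tree : Prop :=
  ∀ (V : Type) [Fintype V] [DecidableEq V] (τ : VTree V) (X : Finset V) (L : ℕ), τ.vars = univ →
    1 ≤ L → ∃ (k : ℕ) (P : Fin k → Finset V), (∀ i j, i ≠ j → Disjoint (P i) (P j)) ∧
      (∀ j, L ≤ (P j ∩ X).card ∧ (P j ∩ X).card ≤ 2 * L) ∧ X.card ≤ 2 * L * k + L ∧
      ∀ (W : ℕ) (h : (V → Bool) → ℝ), CutsR W h τ →
        ∃ (f : Fin (W ^ k) → Fin k → (V → Bool) → ℝ) (f0 : Fin (W ^ k) → (V → Bool) → ℝ),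
          (∀ t j x y, (∀ v ∈ P j, x v = y v) → f t j x = f t j y) ∧
          (∀ t x y, (∀ v, (∀ j, v ∉ P j) → x v = y v) → f0 t x = f0 t y) ∧
          ∀ x, h x = ∑ t, f0 t x * ∏ j, f t j x

/-- [EC Rank] the rank of a product of functions of the pieces of a partition -/
def St_Rank : Prop :=
  ∀ (I V : Type) [Fintype I] [DecidableEq I] [Fintype V] [DecidableEq V] (a b : I → V)
    (x : (I → Bool) → (I → Bool) → V → Bool), Function.Injective a → Function.Injective b →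
    (∀ i j, a i ≠ b j) → (∀ y z i, x y z (a i) = y i) → (∀ y z i, x y z (b i) = z i) →
    (∀ v, (∀ i, v ≠ a i) → (∀ i, v ≠ b i) → ∀ y z y' z', x y z v = x y' z' v) →
    ∀ (k : ℕ) (P : Fin k → Finset V), (∀ i j, i ≠ j → Disjoint (P i) (P j)) →
    ∃ R : ℕ, 2 * R + ∑ j, (imb a b (P j)).natAbs ≤ 2 * Fintype.card I ∧
      ∀ (f : Fin k → (V → Bool) → ℝ) (f0 : (V → Bool) → ℝ),
        (∀ j x y, (∀ v ∈ P j, x v = y v) → f j x = f j y) →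
        (∀ x y, (∀ v, (∀ j, v ∉ P j) → x v = y v) → f0 x = f0 y) →
        RkM (2 ^ R) fun y z => f0 (x y z) * ∏ j, f j (x y z)

/-- [EC Lin] linear algebra -/
def St_Lin : Prop :=
  (∀ (I J : Type) [Fintype I] (R : ℕ) (M : I → J → ℝ), Rows M → RkM R M → Fintype.card I ≤ R) ∧
  ∀ (I J ι : Type) [Fintype ι] (R : ι → ℕ) (M : ι → I → J → ℝ), (∀ i, RkM (R i) (M i)) →
    RkM (∑ i, R i) fun y z => ∑ i, M i y z

/-- [EC Full] the matrix of the partial count for any orientation of the gadgets has full rank -/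
def St_Full : Prop :=
  ∀ (V I : Type) [Fintype V] [DecidableEq V] [Fintype I] [DecidableEq I]
    (E A : Finset (Sym2 V)) (Y F : Finset V) (D : ℕ) (g : I → Gad V) (ctr : I → V)
    (r : V → Bool), A ⊆ E → (∀ e ∈ E, ¬ e.IsDiag) → (∀ e ∈ E, ∀ v ∈ Y, v ∈ e → e ∈ A) →
    part A Y r ≠ 0 →
    ((∀ i, GadA E A Y D (g i) (ctr i)) ∨ ∀ i, GadB E A Y D (g i)) →
    (∀ i j, i ≠ j → Disjoint (g i).R (g j).R ∧ ctr i ≠ ctr j ∧ s(ctr i, ctr j) ∉ E) →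
    (∀ i, Disjoint (g i).R F) → ∀ o : I → Bool,
    Rows fun y z => (part A Y
      (asg g (fun v => if v ∈ F then r v else true) (mix o y z) (mix o z y)) : ℝ)

/-- [EC SumH] from a supply of gadgets to the lower bound for sums of tree tensor networks -/
def St_SumH : Prop :=
  ∀ D Λ : ℕ, ∃ c : ℝ, 0 < c ∧ ∃ n₀ : ℕ, ∀ (n : ℕ) (E A : Finset (Sym2 (Fin n)))
    (Y F X : Finset (Fin n)) (G : Finset (Fin n × Fin n)) (g : Fin n × Fin n → Gad (Fin n))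
    (ctr : Fin n × Fin n → Fin n) (r : Fin n → Bool), n₀ ≤ n → (∀ e ∈ E, ¬ e.IsDiag) →
    Closed E A Y → Supply E A Y D F Λ X G g ctr → part A Y r ≠ 0 → SumHardOn c A Y F r

/-- [EC Cub] the number of models on a cube, with degree bounds for the fixed variables only -/
def St_Cub : Prop :=
  ∀ (V : Type) [Fintype V] [DecidableEq V] (E : Finset (Sym2 V)), (∀ e ∈ E, ¬ e.IsDiag) →
    ∀ (F : Finset V) (r : V → Bool) (D : ℕ), (∀ v ∈ F, (nb E v).card ≤ D) →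
    ∃ m, F.card ≤ (D + 1) * m ∧ (2 ^ (D + 1)) ^ m * (Cube_mod E F r).card ≤
      (2 ^ (D + 1) - 1) ^ m * (Cube_mod E ∅ r).card

/-- [EC Run] runs with slack, for an arbitrary notion `Q` of hardness on a cube -/
def St_Run : Prop :=
  ∀ (n N : ℕ) (E : Finset (Sym2 (Fin n))) (H : Finset (Fin n)) (D t : ℕ) (ε c₁ c₂ : ℝ)
    (Q : Finset (Sym2 (Fin n)) → Finset (Fin n) → Finset (Fin n) → (Fin n → Bool) → Prop),
    (∀ e ∈ E, ¬ e.IsDiag) → (∀ v, v ∉ H → (nb E v).card ≤ D) → 2 * (H.card : ℝ) ≤ c₁ * n →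
    0 < ε → ε < 1 → 1 ≤ t → 0 < E.card → 0 ≤ c₁ →
    c₂ ≤ c₁ / (2 * (D + 1)) * Real.logb 2 (1 / (1 - 1 / (2 : ℝ) ^ (D + 1))) →
    (∀ A Y F r r', (∀ v ∈ F, r v = r' v) → Q A Y F r → Q A Y F r') →
    (∀ A Y, Closed E A Y → (1 - ε) * E.card ≤ t * A.card →
      (A.card : ℝ) ≤ (1 - ε / 2) * E.card → ∀ F r, (F.card : ℝ) ≤ c₁ * n → part A Y r ≠ 0 →
      Q A Y F r) →
    ∀ (A : Fin N → Finset (Sym2 (Fin n))) (Y F : Fin N → Finset (Fin n))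
      (r : Fin N → Fin n → Bool), RunS E t ((1 - ε) * E.card) (ε / 2 * E.card) A Y F r →
      (∃ i, A i = E ∧ F i = ∅) →
      (2 : ℝ) ^ (c₂ * n) ≤ N ∨ ∃ i, Q (A i) (Y i) (F i) (r i)

end Pool.Agent.EC
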