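import Pool.Agent.EC.St

/-!
# EC, module Lin: linear algebra (helper75)
-/

set_option autoImplicit false

namespace Pool.Agent.EC

open Finset

private theorem Lin_one (I J : Type) [Fintype I] (R : ℕ) (M : I → J → ℝ) (hM : Rows M)
    (hR : RkM R M) : Fintype.card I ≤ R := by
  obtain ⟨u, v, huv⟩ := hR
  let f : (I → ℝ) →ₗ[ℝ] (Fin R → ℝ) :=
    { toFun := fun l t => ∑ y, l y * u t y
      map_add' := fun l l' => by
        funext t
        simp only [Pi.add_apply, add_mul, Finset.sum_add_distrib]
      map_smul' := fun c l => by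
        funext t
        simp only [Pi.smul_apply, smul_eq_mul, RingHom.id_apply, Finset.mul_sum, mul_assoc] }
  have hf : Function.Injective f := by
    refine (injective_iff_map_eq_zero f).2 fun l hl => ?_
    funext y
    refine hM l (fun z => ?_) y
    have h1 : ∀ t, ∑ y, l y * u t y = 0 := fun t => congrFun hl t
    calc ∑ y, l y * M y z = ∑ y, ∑ t, l y * u t y * v t z := by
          refine Finset.sum_congr rfl fun y _ => ?_
          rw [huv, Finset.mul_sum]
          exact Finset.sum_congr rfl fun t _ => by ring
      _ = ∑ t, (∑ y, l y * u t y) * v t z := by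
          rw [Finset.sum_comm]
          exact Finset.sum_congr rfl fun t _ => by rw [Finset.sum_mul]
      _ = 0 := Finset.sum_eq_zero fun t _ => by rw [h1, zero_mul]
  have h2 := LinearMap.finrank_le_finrank_of_injective hf
  rwa [Module.finrank_fintype_fun_eq_card, Module.finrank_fintype_fun_eq_card,
    Fintype.card_fin] at h2

theorem thm_Lin : St_Lin := by
  refine ⟨fun I J _ R M hM hR => Lin_one I J R M hM hR, fun I J ι _ R M hM => ?_⟩
  choose u v huv using hM
  have hcard : Fintype.card (Fin (∑ i, R i)) = Fintype.card ((i : ι) × Fin (R i)) := by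
    rw [Fintype.card_fin, Fintype.card_sigma]
    simp
  let e : Fin (∑ i, R i) ≃ (i : ι) × Fin (R i) := Fintype.equivOfCardEq hcard
  refine ⟨fun t y => u (e t).1 (e t).2 y, fun t z => v (e t).1 (e t).2 z, fun y z => ?_⟩
  rw [Equiv.sum_comp e (fun s : (i : ι) × Fin (R i) => u s.1 s.2 y * v s.1 s.2 z),
    Fintype.sum_sigma]
  exact Finset.sum_congr rfl fun i _ => huv i y z

end Pool.Agent.EC
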