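import Pool.Agent.EC.St

/-!
# A random orientation is unbalanced

`thm_Ori : St_Ori`. The separated pairs are distributed to the pieces, the bits of a piece are
exposed in turn, and each time the classical inequality of Littlewood, Offord and Erdos is used.
-/

set_option autoImplicit false
set_option linter.unusedSectionVars false
set_option linter.unnecessarySeqFocus false

namespace Pool.Agent.EC

open Finset

/-! ## Middle binomial coefficients -/

theorem ori_central_sq (m : ℕ) : m.centralBinom ^ 2 * (2 * m + 1) ≤ 16 ^ m := by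
  induction m with
  | zero => simp
  | succ m ih =>
    have h1 := Nat.succ_mul_centralBinom_succ m
    have h2 : (m + 1) ^ 2 * ((m + 1).centralBinom ^ 2 * (2 * (m + 1) + 1)) ≤
        (m + 1) ^ 2 * 16 ^ (m + 1) := by
      calc (m + 1) ^ 2 * ((m + 1).centralBinom ^ 2 * (2 * (m + 1) + 1))
          = ((m + 1) * (m + 1).centralBinom) ^ 2 * (2 * (m + 1) + 1) := by ring
        _ = (m.centralBinom ^ 2 * (2 * m + 1)) * (4 * ((2 * m + 1) * (2 * m + 3))) := by
            rw [h1]; ring
        _ ≤ 16 ^ m * (16 * (m + 1) ^ 2) := Nat.mul_le_mul ih (by nlinarith)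
        _ = (m + 1) ^ 2 * 16 ^ (m + 1) := by ring
    exact Nat.le_of_mul_le_mul_left h2 (by positivity)

theorem ori_half_sq (n : ℕ) : n.choose (n / 2) ^ 2 * (n + 1) ≤ 4 ^ n := by
  rcases Nat.even_or_odd' n with ⟨m, rfl | rfl⟩
  · have h1 := ori_central_sq m
    rw [Nat.centralBinom] at h1
    rw [Nat.mul_div_cancel_left _ (by norm_num), pow_mul]
    exact h1
  · have h1 := ori_central_sq (m + 1)
    have h2 : (m + 1).centralBinom = 2 * (2 * m + 1).choose m := by
      rw [Nat.centralBinom]
      have h3 : 2 * (m + 1) = (2 * m + 1) + 1 := by ring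
      rw [h3, Nat.choose_succ_succ,
        ← Nat.choose_symm_of_eq_add (show 2 * m + 1 = m + (m + 1) by ring)]
      ring
    have h4 : (2 * m + 1) / 2 = m := by omega
    rw [h4]
    rw [h2] at h1
    have h5 : 4 * ((2 * m + 1).choose m ^ 2 * (2 * (m + 1) + 1)) ≤ 4 * 4 ^ (2 * m + 1) := by
      calc 4 * ((2 * m + 1).choose m ^ 2 * (2 * (m + 1) + 1))
          = (2 * (2 * m + 1).choose m) ^ 2 * (2 * (m + 1) + 1) := by ring
        _ ≤ 16 ^ (m + 1) := h1
        _ = 4 * 4 ^ (2 * m + 1) := by
            rw [show (16 : ℕ) = 4 ^ 2 by norm_num, ← pow_mul, ← pow_succ']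
            congr 1
    have h6 : (2 * m + 1).choose m ^ 2 * (2 * m + 1 + 1) ≤
        (2 * m + 1).choose m ^ 2 * (2 * (m + 1) + 1) := Nat.mul_le_mul_left _ (by omega)
    omega

/-- sign of a Boolean -/
def oriSg (b : Bool) : ℤ := if b then 1 else -1

/-- The number of solutions when all coefficients are nonzero. -/
theorem ori_card_le {ι : Type} [Fintype ι] [DecidableEq ι] (a : ι → ℤ) (ha : ∀ i, a i ≠ 0)
    (c : ℤ) : (univ.filter fun x : ι → Bool => (∑ i, a i * oriSg (x i)) = c).card ≤
      (Fintype.card ι).choose (Fintype.card ι / 2) := by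
  let f : (ι → Bool) → Finset ι := fun x => univ.filter fun i => x i = decide (0 < a i)
  have hf : Function.Injective f := by
    intro x y h
    funext i
    have h1 : i ∈ f x ↔ i ∈ f y := by rw [h]
    simp only [f, mem_filter, mem_univ, true_and] at h1
    generalize decide (0 < a i) = b at h1
    revert h1
    cases x i <;> cases y i <;> cases b <;> simp
  rw [← card_image_of_injective _ hf]
  apply IsAntichain.sperner
  intro A hA B hB hAB hle
  rw [coe_image, Set.mem_image] at hA hB
  obtain ⟨x, hx, rfl⟩ := hA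
  obtain ⟨y, hy, rfl⟩ := hB
  rw [coe_filter, Set.mem_ofPred_eq] at hx hy
  have hterm : ∀ i, a i * oriSg (x i) ≤ a i * oriSg (y i) := by
    intro i
    have h1 : i ∈ f x → i ∈ f y := fun h => hle h
    simp only [f, mem_filter, mem_univ, true_and] at h1
    have h2 := ha i
    by_cases h3 : 0 < a i
    · simp only [h3, decide_true] at h1
      unfold oriSg
      cases hx' : x i <;> cases hy' : y i <;> simp_all <;> omega
    · simp only [h3, decide_false] at h1
      unfold oriSg
      cases hx' : x i <;> cases hy' : y i <;> simp_all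
  apply hAB
  have hsum : ∑ i, (a i * oriSg (y i) - a i * oriSg (x i)) = 0 := by
    rw [sum_sub_distrib, hx.2, hy.2, sub_self]
  rw [sum_eq_zero_iff_of_nonneg (fun i _ => sub_nonneg.2 (hterm i))] at hsum
  congr 1
  funext i
  have h1 := hsum i (mem_univ i)
  have h2 := ha i
  have h3 : a i * (oriSg (y i) - oriSg (x i)) = 0 := by rw [mul_sub]; exact h1
  have h4 := (mul_eq_zero.1 h3).resolve_left h2
  revert h4
  unfold oriSg
  cases x i <;> cases y i <;> simp

/-- Few sign vectors give a small sum. -/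
theorem ori_anti {ι : Type} [Fintype ι] [DecidableEq ι] (a : ι → ℤ) (ha : ∀ i, a i ≠ 0) (C : ℤ)
    (hι : 1 ≤ Fintype.card ι) :
    ((univ.filter fun x : ι → Bool =>
      ((C + ∑ i, a i * oriSg (x i)).natAbs : ℝ) < Real.sqrt (Fintype.card ι) / 16).card : ℝ) ≤
      7 / 8 * 2 ^ Fintype.card ι := by
  set f := Fintype.card ι with hf
  set r := ⌊Real.sqrt f / 16⌋₊ with hr
  have hsub : (univ.filter fun x : ι → Bool =>
      ((C + ∑ i, a i * oriSg (x i)).natAbs : ℝ) < Real.sqrt f / 16) ⊆
      (Finset.Icc (-(r : ℤ)) r).biUnion fun v =>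
        univ.filter fun x : ι → Bool => (∑ i, a i * oriSg (x i)) = v - C := by
    intro x hx
    rw [mem_filter] at hx
    have h1 : (C + ∑ i, a i * oriSg (x i)).natAbs ≤ r := Nat.le_floor hx.2.le
    rw [mem_biUnion]
    refine ⟨C + ∑ i, a i * oriSg (x i), ?_, ?_⟩
    · rw [Finset.mem_Icc]
      omega
    · rw [mem_filter]
      exact ⟨mem_univ _, by ring⟩
  have h1 : (univ.filter fun x : ι → Bool =>
      ((C + ∑ i, a i * oriSg (x i)).natAbs : ℝ) < Real.sqrt f / 16).card ≤
      (2 * r + 1) * f.choose (f / 2) := by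
    refine (card_le_card hsub).trans (card_biUnion_le.trans ?_)
    refine (sum_le_card_nsmul _ _ _ fun v _ => ori_card_le a ha (v - C)).trans ?_
    rw [smul_eq_mul, Int.card_Icc]
    apply le_of_eq
    congr 1
    omega
  have hf0 : (0 : ℝ) ≤ f := Nat.cast_nonneg _
  have hf1 : (1 : ℝ) ≤ f := by exact_mod_cast hι
  have h2 : ((f.choose (f / 2) : ℕ) : ℝ) * Real.sqrt (f + 1) ≤ 2 ^ f := by
    apply le_of_sq_le_sq _ (by positivity)
    rw [mul_pow, Real.sq_sqrt (by positivity), ← pow_mul, mul_comm f 2, pow_mul]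
    have h4 := ori_half_sq f
    have h6 : (((f.choose (f / 2) ^ 2 * (f + 1) : ℕ)) : ℝ) ≤ ((4 ^ f : ℕ) : ℝ) := by
      exact_mod_cast h4
    push_cast at h6
    norm_num
    exact h6
  have h3 : (r : ℝ) ≤ Real.sqrt f / 16 := Nat.floor_le (by positivity)
  have h4 : Real.sqrt f ≤ Real.sqrt (f + 1) := Real.sqrt_le_sqrt (by linarith)
  have h5 : (4 : ℝ) / 3 ≤ Real.sqrt (f + 1) := by
    apply Real.le_sqrt_of_sq_le
    norm_num
    linarith
  have h6 : (2 * (r : ℝ) + 1) ≤ 7 / 8 * Real.sqrt (f + 1) := by linarith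
  calc ((univ.filter fun x : ι → Bool =>
      ((C + ∑ i, a i * oriSg (x i)).natAbs : ℝ) < Real.sqrt f / 16).card : ℝ)
      ≤ (((2 * r + 1) * f.choose (f / 2) : ℕ) : ℝ) := by exact_mod_cast h1
    _ = (2 * (r : ℝ) + 1) * (f.choose (f / 2) : ℕ) := by push_cast; ring
    _ ≤ (7 / 8 * Real.sqrt (f + 1)) * (f.choose (f / 2) : ℕ) := by gcongr
    _ = 7 / 8 * ((f.choose (f / 2) : ℕ) * Real.sqrt (f + 1)) := by ring
    _ ≤ 7 / 8 * 2 ^ f := by gcongr

/-! ## Exposing blocks of bits in turn -/

/-- One block. -/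
theorem ori_block {I : Type} [Fintype I] [DecidableEq I] (O : Finset I) (F w : (I → Bool) → ℝ)
    (θ : ℝ) (hF0 : ∀ o, 0 ≤ F o) (hF : ∀ o o', (∀ i ∉ O, o i = o' i) → F o = F o')
    (hw : ∀ y, ∑ x, w ((Equiv.piEquivPiSubtypeProd (fun i => i ∈ O) (fun _ => Bool)).symm (x, y)) ≤
      θ * 2 ^ O.card) :
    ∑ o, F o * w o ≤ θ * ∑ o, F o := by
  set e := Equiv.piEquivPiSubtypeProd (fun i => i ∈ O) (fun _ => Bool) with he
  have key : ∀ x y i, i ∉ O → ∀ x', e.symm (x, y) i = e.symm (x', y) i := by
    intro x y i hi x'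
    simp only [he, Equiv.piEquivPiSubtypeProd_symm_apply, hi, dif_neg, not_false_iff]
  have hF' : ∀ x y, F (e.symm (x, y)) = F (e.symm (fun _ => true, y)) := by
    intro x y
    apply hF
    intro i hi
    exact key x y i hi _
  have h1 : ∑ o, F o * w o = ∑ y, ∑ x, F (e.symm (x, y)) * w (e.symm (x, y)) := by
    rw [← Fintype.sum_prod_type_right (f := fun p => F (e.symm p) * w (e.symm p))]
    exact (Equiv.sum_comp e.symm (fun o => F o * w o)).symm
  have h2 : ∑ o, F o = ∑ y, ∑ x, F (e.symm (x, y)) := by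
    rw [← Fintype.sum_prod_type_right (f := fun p => F (e.symm p))]
    exact (Equiv.sum_comp e.symm F).symm
  rw [h1, h2, mul_sum]
  apply sum_le_sum
  intro y _
  have h3 : ∑ x, F (e.symm (x, y)) * w (e.symm (x, y)) =
      F (e.symm (fun _ => true, y)) * ∑ x, w (e.symm (x, y)) := by
    rw [mul_sum]
    apply sum_congr rfl
    intro x _
    rw [hF' x y]
  have h4 : ∑ x, F (e.symm (x, y)) = 2 ^ O.card * F (e.symm (fun _ => true, y)) := by
    rw [sum_congr rfl (fun x _ => hF' x y), sum_const, card_univ, nsmul_eq_mul, Fintype.card_fun,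
      Fintype.card_bool, Fintype.card_coe]
    push_cast
    ring
  rw [h3, h4]
  calc F (e.symm (fun _ => true, y)) * ∑ x, w (e.symm (x, y))
      ≤ F (e.symm (fun _ => true, y)) * (θ * 2 ^ O.card) :=
        mul_le_mul_of_nonneg_left (hw y) (hF0 _)
    _ = θ * (2 ^ O.card * F (e.symm (fun _ => true, y))) := by ring

/-- All blocks. -/
theorem ori_seq {I : Type} [Fintype I] [DecidableEq I] {k : ℕ} (O : Fin k → Finset I)
    (w : Fin k → (I → Bool) → ℝ) (θ : ℝ) (hθ : 0 ≤ θ) (hw0 : ∀ j o, 0 ≤ w j o)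
    (hdep : ∀ j l, j < l → ∀ o o', (∀ i ∉ O l, o i = o' i) → w j o = w j o')
    (J : Finset (Fin k))
    (hw : ∀ j ∈ J, ∀ y, ∑ x, w j ((Equiv.piEquivPiSubtypeProd (fun i => i ∈ O j)
      (fun _ => Bool)).symm (x, y)) ≤ θ * 2 ^ (O j).card) :
    ∑ o, ∏ j ∈ J, w j o ≤ θ ^ J.card * 2 ^ Fintype.card I := by
  induction J using Finset.induction_on_max with
  | empty => simp
  | insert a s hs ih =>
    have ha : a ∉ s := fun h => lt_irrefl _ (hs a h)
    have h1 := ih fun j hj => hw j (mem_insert_of_mem hj)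
    have h2 := ori_block (O a) (fun o => ∏ j ∈ s, w j o) (w a) θ
      (fun o => prod_nonneg fun j _ => hw0 j o)
      (fun o o' h => prod_congr rfl fun j hj => hdep j a (hs j hj) o o' h)
      (hw a (mem_insert_self _ _))
    calc ∑ o, ∏ j ∈ insert a s, w j o = ∑ o, (∏ j ∈ s, w j o) * w a o := by
          apply sum_congr rfl
          intro o _
          rw [prod_insert ha, mul_comm]
      _ ≤ θ * ∑ o, ∏ j ∈ s, w j o := h2
      _ ≤ θ * (θ ^ s.card * 2 ^ Fintype.card I) := mul_le_mul_of_nonneg_left h1 hθ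
      _ = θ ^ (insert a s).card * 2 ^ Fintype.card I := by
          rw [card_insert_of_notMem ha, pow_succ]
          ring

/-! ## The separated pairs -/

section
variable {I V : Type} [Fintype I] [DecidableEq I] [DecidableEq V]

/-- the pair `i` is separated by the piece `j` -/
def OriSep (p q : I → V) {k : ℕ} (P : Fin k → Finset V) (j : Fin k) (i : I) : Prop :=
  (p i ∈ P j ∧ q i ∉ P j) ∨ (p i ∉ P j ∧ q i ∈ P j)

instance (p q : I → V) {k : ℕ} (P : Fin k → Finset V) (j : Fin k) (i : I) :
    Decidable (OriSep p q P j i) := by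
  unfold OriSep
  infer_instance

/-- the pairs owned by the piece `j` -/
def oriOwn (p q : I → V) {k : ℕ} (P : Fin k → Finset V) (j : Fin k) : Finset I :=
  univ.filter fun i => OriSep p q P j i ∧ ∀ l, l < j → ¬ OriSep p q P l i

/-- the coefficient of the pair `i` in the piece `j` -/
def oriEps (p q : I → V) {k : ℕ} (P : Fin k → Finset V) (j : Fin k) (i : I) : ℤ :=
  (if p i ∈ P j then 1 else 0) - (if q i ∈ P j then 1 else 0)

theorem oriEps_ne (p q : I → V) {k : ℕ} (P : Fin k → Finset V) (j : Fin k) (i : I)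
    (h : OriSep p q P j i) : oriEps p q P j i ≠ 0 := by
  unfold oriEps
  rcases h with ⟨h1, h2⟩ | ⟨h1, h2⟩ <;> simp [h1, h2]

theorem oriEps_zero (p q : I → V) {k : ℕ} (P : Fin k → Finset V) (j : Fin k) (i : I)
    (h : ¬ OriSep p q P j i) : oriEps p q P j i = 0 := by
  unfold oriEps OriSep at *
  by_cases h1 : p i ∈ P j <;> by_cases h2 : q i ∈ P j <;> simp_all

theorem ori_imb (p q : I → V) {k : ℕ} (P : Fin k → Finset V) (j : Fin k) (o : I → Bool) :
    imb (mix o p q) (mix o q p) (P j) = ∑ i, oriEps p q P j i * oriSg (o i) := by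
  unfold imb
  apply sum_congr rfl
  intro i _
  unfold mix oriEps oriSg
  cases o i <;> simp

theorem ori_imb_dep (p q : I → V) {k : ℕ} (P : Fin k → Finset V) (j l : Fin k) (hjl : j < l)
    (o o' : I → Bool) (h : ∀ i ∉ oriOwn p q P l, o i = o' i) :
    imb (mix o p q) (mix o q p) (P j) = imb (mix o' p q) (mix o' q p) (P j) := by
  rw [ori_imb, ori_imb]
  apply sum_congr rfl
  intro i _
  by_cases hs : OriSep p q P j i
  · have h1 : i ∉ oriOwn p q P l := by
      intro h2
      unfold oriOwn at h2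
      rw [mem_filter] at h2
      exact h2.2.2 j hjl hs
    rw [h i h1]
  · rw [oriEps_zero p q P j i hs, zero_mul, zero_mul]

theorem ori_imb_split (p q : I → V) {k : ℕ} (P : Fin k → Finset V) (j : Fin k)
    (y : {i // ¬ i ∈ oriOwn p q P j} → Bool) : ∃ C : ℤ, ∀ x : {i // i ∈ oriOwn p q P j} → Bool,
    imb (mix ((Equiv.piEquivPiSubtypeProd (fun i => i ∈ oriOwn p q P j)
      (fun _ => Bool)).symm (x, y)) p q) (mix ((Equiv.piEquivPiSubtypeProd
      (fun i => i ∈ oriOwn p q P j) (fun _ => Bool)).symm (x, y)) q p) (P j) =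
      C + ∑ i : {i // i ∈ oriOwn p q P j}, oriEps p q P j i * oriSg (x i) := by
  refine ⟨∑ i ∈ (oriOwn p q P j)ᶜ, oriEps p q P j i * oriSg
    (if h : i ∈ oriOwn p q P j then true else y ⟨i, h⟩), ?_⟩
  intro x
  rw [ori_imb, ← sum_add_sum_compl (oriOwn p q P j), add_comm]
  congr 1
  · apply sum_congr rfl
    intro i hi
    rw [mem_compl] at hi
    rw [Equiv.piEquivPiSubtypeProd_symm_apply, dif_neg hi, dif_neg hi]
  · rw [← sum_coe_sort]
    apply sum_congr rfl
    intro i _
    rw [Equiv.piEquivPiSubtypeProd_symm_apply, dif_pos i.2]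

theorem ori_own_card (p q : I → V) {k : ℕ} (P : Fin k → Finset V)
    (hP : ∀ i j, i ≠ j → Disjoint (P i) (P j)) :
    ∑ j, (univ.filter fun i => OriSep p q P j i).card ≤ 2 * ∑ j, (oriOwn p q P j).card := by
  have hone : ∀ v : V, (univ.filter fun j => v ∈ P j).card ≤ 1 := by
    intro v
    rw [card_le_one]
    intro a ha b hb
    rw [mem_filter] at ha hb
    by_contra hab
    exact disjoint_left.1 (hP a b hab) ha.2 hb.2
  have h1 : ∑ j, (univ.filter fun i => OriSep p q P j i).card =
      ∑ i, (univ.filter fun j => OriSep p q P j i).card := by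
    simp only [card_filter]
    exact sum_comm
  have h2 : ∑ j, (oriOwn p q P j).card =
      ∑ i, (univ.filter fun j => OriSep p q P j i ∧ ∀ l, l < j → ¬ OriSep p q P l i).card := by
    unfold oriOwn
    simp only [card_filter]
    exact sum_comm
  rw [h1, h2, mul_sum]
  apply sum_le_sum
  intro i _
  by_cases hne : (univ.filter fun j => OriSep p q P j i).Nonempty
  · have h3 : (univ.filter fun j => OriSep p q P j i).card ≤ 2 := by
      have h4 : (univ.filter fun j => OriSep p q P j i) ⊆
          (univ.filter fun j => p i ∈ P j) ∪ (univ.filter fun j => q i ∈ P j) := by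
        intro j hj
        rw [mem_filter] at hj
        rw [mem_union, mem_filter, mem_filter]
        rcases hj.2 with h | h
        · exact Or.inl ⟨mem_univ _, h.1⟩
        · exact Or.inr ⟨mem_univ _, h.2⟩
      have h5 := (card_le_card h4).trans (card_union_le _ _)
      have h6 := hone (p i)
      have h7 := hone (q i)
      omega
    have h4 : 1 ≤ (univ.filter fun j => OriSep p q P j i ∧
        ∀ l, l < j → ¬ OriSep p q P l i).card := by
      rw [Nat.one_le_iff_ne_zero, ← Nat.pos_iff_ne_zero, card_pos]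
      refine ⟨(univ.filter fun j => OriSep p q P j i).min' hne, ?_⟩
      have h5 := min'_mem _ hne
      rw [mem_filter] at h5 ⊢
      refine ⟨mem_univ _, h5.2, ?_⟩
      intro l hl hsep
      exact absurd (min'_le _ l (mem_filter.2 ⟨mem_univ _, hsep⟩)) (not_le.2 hl)
    omega
  · rw [not_nonempty_iff_eq_empty] at hne
    rw [hne, card_empty]
    exact Nat.zero_le _

/-- Most orientations make many of the selected pieces unbalanced. -/
theorem ori_few (p q : I → V) {k : ℕ} (P : Fin k → Finset V) (J : Finset (Fin k))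
    (hJ : ∀ j ∈ J, 1 ≤ (oriOwn p q P j).card) (η : ℝ)
    (hη : ∀ j ∈ J, η ≤ Real.sqrt (oriOwn p q P j).card / 16) :
    ((univ.filter fun o : I → Bool => 32 * (J.filter fun j =>
      η ≤ ((imb (mix o p q) (mix o q p) (P j)).natAbs : ℝ)).card < J.card).card : ℝ) ≤
      2 ^ (-((J.card : ℝ) / 32)) * 2 ^ Fintype.card I := by
  classical
  set G : Fin k → (I → Bool) → Prop := fun j o =>
    η ≤ ((imb (mix o p q) (mix o q p) (P j)).natAbs : ℝ) with hG
  set w : Fin k → (I → Bool) → ℝ := fun j o => if G j o then 1 / 2 else 1 with hw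
  have h0 := ori_seq (oriOwn p q P) w (15 / 16) (by norm_num)
    (fun j o => by simp only [hw]; split_ifs <;> norm_num)
    (fun j l hjl o o' h => by
      simp only [hw, hG]
      rw [ori_imb_dep p q P j l hjl o o' h]) J
    (fun j hj y => by
      obtain ⟨C, hC⟩ := ori_imb_split p q P j y
      have h1 : ∀ x, w j ((Equiv.piEquivPiSubtypeProd (fun i => i ∈ oriOwn p q P j)
          (fun _ => Bool)).symm (x, y)) ≤ 1 / 2 + (1 / 2) * (if ((C + ∑ i : {i // i ∈ oriOwn p q P j},
            oriEps p q P j i * oriSg (x i)).natAbs : ℝ) <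
            Real.sqrt (Fintype.card {i // i ∈ oriOwn p q P j}) / 16 then 1 else 0) := by
        intro x
        simp only [hw, hG]
        rw [hC x]
        split_ifs with h1 h2 h2
        · norm_num
        · norm_num
        · norm_num
        · exfalso
          apply h1
          rw [Fintype.card_coe] at h2
          exact (hη j hj).trans (not_lt.1 h2)
      have h2 := ori_anti (fun i : {i // i ∈ oriOwn p q P j} => oriEps p q P j i) (fun i => by
        apply oriEps_ne
        have h3 := i.2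
        unfold oriOwn at h3
        rw [mem_filter] at h3
        exact h3.2.1) C (by rw [Fintype.card_coe]; exact hJ j hj)
      rw [card_filter] at h2
      push_cast at h2
      refine (sum_le_sum fun x _ => h1 x).trans ?_
      rw [sum_add_distrib, ← mul_sum, sum_const, card_univ, nsmul_eq_mul, Fintype.card_fun,
        Fintype.card_bool, Fintype.card_coe]
      rw [Fintype.card_coe] at h2
      push_cast
      linarith)
  have h1 : ∀ o, (1 / 2 : ℝ) ^ (J.filter fun j => G j o).card = ∏ j ∈ J, w j o := by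
    intro o
    simp only [hw]
    rw [prod_ite, prod_const, prod_const_one, mul_one]
  set B := univ.filter fun o : I → Bool => 32 * (J.filter fun j => G j o).card < J.card with hB
  have h2 : (B.card : ℝ) * (1 / 2 : ℝ) ^ ((J.card : ℝ) / 32) ≤
      (15 / 16) ^ J.card * 2 ^ Fintype.card I := by
    refine le_trans ?_ h0
    calc (B.card : ℝ) * (1 / 2 : ℝ) ^ ((J.card : ℝ) / 32)
        = ∑ o ∈ B, (1 / 2 : ℝ) ^ ((J.card : ℝ) / 32) := by rw [sum_const, nsmul_eq_mul]
      _ ≤ ∑ o ∈ B, ∏ j ∈ J, w j o := by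
          apply sum_le_sum
          intro o ho
          rw [← h1 o, ← Real.rpow_natCast]
          apply Real.rpow_le_rpow_of_exponent_ge (by norm_num) (by norm_num)
          rw [hB, mem_filter] at ho
          have h3 : ((32 * (J.filter fun j => G j o).card : ℕ) : ℝ) < (J.card : ℝ) := by
            exact_mod_cast ho.2
          push_cast at h3
          linarith
      _ ≤ ∑ o, ∏ j ∈ J, w j o := by
          apply sum_le_univ_sum_of_nonneg
          intro o
          rw [← h1 o]
          positivity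
  have h3 : ((15 : ℝ) / 16) ^ J.card ≤ 2 ^ (-((J.card : ℝ) / 16)) := by
    have h4 : ((15 : ℝ) / 16) ≤ 2 ^ (-(1 / 16 : ℝ)) := by
      have h5 : (((15 : ℝ) / 16) ^ (16 : ℕ)) ≤ (2 ^ (-(1 / 16 : ℝ))) ^ (16 : ℕ) := by
        rw [← Real.rpow_natCast (2 ^ (-(1 / 16 : ℝ))), ← Real.rpow_mul (by norm_num)]
        norm_num
      exact le_of_pow_le_pow_left₀ (by norm_num) (by positivity) h5
    calc ((15 : ℝ) / 16) ^ J.card ≤ (2 ^ (-(1 / 16 : ℝ))) ^ J.card := by gcongr
      _ = 2 ^ (-((J.card : ℝ) / 16)) := by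
          rw [← Real.rpow_natCast, ← Real.rpow_mul (by norm_num)]
          congr 1
          ring
  have h4 : (1 / 2 : ℝ) ^ ((J.card : ℝ) / 32) = 2 ^ (-((J.card : ℝ) / 32)) := by
    rw [Real.rpow_neg (by norm_num), one_div, Real.inv_rpow (by norm_num)]
  have h5 : (2 : ℝ) ^ (-((J.card : ℝ) / 16)) =
      2 ^ (-((J.card : ℝ) / 32)) * 2 ^ (-((J.card : ℝ) / 32)) := by
    rw [← Real.rpow_add (by norm_num)]
    congr 1
    ring
  have h6 : (0 : ℝ) < 2 ^ (-((J.card : ℝ) / 32)) := Real.rpow_pos_of_pos (by norm_num) _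
  rw [h4] at h2
  have h7 : (B.card : ℝ) * 2 ^ (-((J.card : ℝ) / 32)) ≤
      (2 ^ (-((J.card : ℝ) / 32)) * 2 ^ Fintype.card I) * 2 ^ (-((J.card : ℝ) / 32)) := by
    calc (B.card : ℝ) * 2 ^ (-((J.card : ℝ) / 32)) ≤ (15 / 16) ^ J.card * 2 ^ Fintype.card I := h2
      _ ≤ 2 ^ (-((J.card : ℝ) / 16)) * 2 ^ Fintype.card I := by gcongr
      _ = _ := by rw [h5]; ring
  exact le_of_mul_le_mul_right h7 h6

end

/-- **[EC Ori]** a random orientation is unbalanced. -/
theorem thm_Ori : St_Ori := by
  intro Λ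
  refine ⟨1 / (16384 * (Λ + 1)), by positivity, ?_⟩
  intro I V _ _ _ p q k m P hm hP hcard
  set f : Fin k → ℕ := fun j => (oriOwn p q P j).card with hf
  set J : Finset (Fin k) := univ.filter fun j => m ≤ 4 * f j with hJ
  have hle : ∀ j, f j ≤ Λ * m := by
    intro j
    refine le_trans (card_le_card ?_) (hcard j).2
    intro i hi
    unfold oriOwn at hi
    rw [mem_filter] at hi ⊢
    exact ⟨mem_univ _, hi.2.1⟩
  have h1 : k * m ≤ 2 * ∑ j, f j := by
    refine le_trans ?_ (ori_own_card p q P hP)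
    have h2 := card_nsmul_le_sum univ (fun j : Fin k => (univ.filter fun i => OriSep p q P j i).card)
      m (fun j _ => (hcard j).1)
    rwa [card_univ, Fintype.card_fin, smul_eq_mul] at h2
  have h2 : 4 * ∑ j, f j ≤ 4 * (J.card * (Λ * m)) + k * m := by
    rw [mul_sum]
    have h3 : ∀ j ∈ (univ : Finset (Fin k)), 4 * f j ≤ (if j ∈ J then 4 * (Λ * m) else 0) + m := by
      intro j _
      by_cases hj : j ∈ J
      · rw [if_pos hj]
        have := hle j
        omega
      · rw [if_neg hj]
        rw [hJ, mem_filter] at hj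
        have : ¬ m ≤ 4 * f j := fun h => hj ⟨mem_univ _, h⟩
        omega
    refine (sum_le_sum h3).trans ?_
    rw [sum_add_distrib, sum_ite_mem, sum_const, sum_const, card_univ, Fintype.card_fin,
      univ_inter, smul_eq_mul, smul_eq_mul]
    apply le_of_eq
    ring
  have h3 : k ≤ 4 * Λ * J.card := by
    have h4 : k * m ≤ (4 * Λ * J.card) * m := by
      have h5 : 4 * (J.card * (Λ * m)) = (4 * Λ * J.card) * m := by ring
      rw [h5] at h2
      omega
    exact Nat.le_of_mul_le_mul_right h4 hm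
  have hm0 : (1 : ℝ) ≤ m := by exact_mod_cast hm
  have hs0 : 0 < Real.sqrt m := Real.sqrt_pos.2 (by linarith)
  have h4 := ori_few p q P J (fun j hj => by
    rw [hJ, mem_filter] at hj
    have := hj.2
    simp only [hf] at this
    omega) (Real.sqrt m / 32) (fun j hj => by
    rw [hJ, mem_filter] at hj
    have h5 : (m : ℝ) / 4 ≤ ((oriOwn p q P j).card : ℝ) := by
      have h6 : (m : ℝ) ≤ 4 * ((oriOwn p q P j).card : ℝ) := by exact_mod_cast hj.2
      linarith
    have h6 := Real.sqrt_le_sqrt h5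
    have h7 : Real.sqrt ((m : ℝ) / 4) = Real.sqrt m / 2 := by
      rw [Real.sqrt_div (by positivity)]
      congr 1
      rw [show (4 : ℝ) = 2 ^ 2 by norm_num]
      exact Real.sqrt_sq (by norm_num)
    rw [h7] at h6
    linarith)
  have hk : (k : ℝ) ≤ 4 * Λ * J.card := by exact_mod_cast h3
  have hΛ : (0 : ℝ) < 16384 * ((Λ : ℝ) + 1) := by positivity
  have hck : 1 / (16384 * ((Λ : ℝ) + 1)) * k ≤ (J.card : ℝ) / 4096 := by
    rw [div_mul_eq_mul_div, one_mul, div_le_div_iff₀ hΛ (by norm_num)]
    have h5 : (0 : ℝ) ≤ J.card := Nat.cast_nonneg _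
    nlinarith
  refine le_trans ?_ (h4.trans ?_)
  · have h5 : (univ.filter fun o : I → Bool =>
        ((∑ j, (imb (mix o p q) (mix o q p) (P j)).natAbs : ℕ) : ℝ) <
          1 / (16384 * ((Λ : ℝ) + 1)) * k * Real.sqrt m) ⊆
        (univ.filter fun o : I → Bool => 32 * (J.filter fun j =>
      Real.sqrt m / 32 ≤ ((imb (mix o p q) (mix o q p) (P j)).natAbs : ℝ)).card < J.card) := by
      intro o ho
      rw [mem_filter] at ho ⊢
      refine ⟨mem_univ _, ?_⟩
      by_contra hcon
      rw [not_lt] at hcon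
      have h6 : (J.card : ℝ) ≤ 32 * ((J.filter fun j => Real.sqrt m / 32 ≤
          ((imb (mix o p q) (mix o q p) (P j)).natAbs : ℝ)).card : ℝ) := by exact_mod_cast hcon
      have h7 : ((J.filter fun j => Real.sqrt m / 32 ≤
          ((imb (mix o p q) (mix o q p) (P j)).natAbs : ℝ)).card : ℝ) * (Real.sqrt m / 32) ≤
          ((∑ j, (imb (mix o p q) (mix o q p) (P j)).natAbs : ℕ) : ℝ) := by
        push_cast
        calc ((J.filter fun j => Real.sqrt m / 32 ≤
          ((imb (mix o p q) (mix o q p) (P j)).natAbs : ℝ)).card : ℝ) * (Real.sqrt m / 32)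
            = ∑ j ∈ J.filter fun j => Real.sqrt m / 32 ≤
          ((imb (mix o p q) (mix o q p) (P j)).natAbs : ℝ), (Real.sqrt m / 32) := by
              rw [sum_const, nsmul_eq_mul]
          _ ≤ ∑ j ∈ J.filter fun j => Real.sqrt m / 32 ≤
          ((imb (mix o p q) (mix o q p) (P j)).natAbs : ℝ),
              ((imb (mix o p q) (mix o q p) (P j)).natAbs : ℝ) := by
              apply sum_le_sum
              intro j hj
              exact (mem_filter.1 hj).2
          _ ≤ ∑ j, ((imb (mix o p q) (mix o q p) (P j)).natAbs : ℝ) := by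
              apply sum_le_univ_sum_of_nonneg
              intro j
              positivity
      have h8 := ho.2
      have h9 : 1 / (16384 * ((Λ : ℝ) + 1)) * k * Real.sqrt m ≤
          (J.card : ℝ) / 4096 * Real.sqrt m := mul_le_mul_of_nonneg_right hck hs0.le
      have h10 : (J.card : ℝ) * Real.sqrt m ≤ 32 * ((J.filter fun j => Real.sqrt m / 32 ≤
          ((imb (mix o p q) (mix o q p) (P j)).natAbs : ℝ)).card : ℝ) * Real.sqrt m :=
        mul_le_mul_of_nonneg_right h6 hs0.le
      have h11 : (0 : ℝ) ≤ (J.card : ℝ) * Real.sqrt m := by positivity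
      linarith
    exact_mod_cast card_le_card h5
  · gcongr
    · norm_num
    · have h5 : (0 : ℝ) ≤ J.card := Nat.cast_nonneg _
      linarith

end Pool.Agent.EC
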