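import Pool.Agent.EC.St

/-!
# Module ParL: the two-by-two relations and the ratio bound for the count, local degree bounds
-/

set_option autoImplicit false
set_option linter.unusedSectionVars false

namespace Pool.Agent.EC

open Finset Pool.Agent.WD Pool.Agent.EB
open scoped NNReal

section

variable {V : Type} [Fintype V] [DecidableEq V]

/-- the assignments which are counted -/
private def Par_S (A : Finset (Sym2 V)) (Y : Finset V) (x : V → Bool) : Finset (V → Bool) :=
  univ.filter fun y : V → Bool =>
    (∀ v, v ∉ Y → y v = x v) ∧ ∀ e ∈ A, ∃ v ∈ e, y v = true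

private theorem Par_part (A : Finset (Sym2 V)) (Y : Finset V) (x : V → Bool) :
    part A Y x = ((Par_S A Y x).card : ℝ≥0) := rfl

private theorem Par_mem {A : Finset (Sym2 V)} {Y : Finset V} {x y : V → Bool} :
    y ∈ Par_S A Y x ↔ (∀ v, v ∉ Y → y v = x v) ∧
      ∀ u w, s(u, w) ∈ A → y u = true ∨ y w = true := by
  unfold Par_S
  rw [mem_filter]
  constructor
  · rintro ⟨-, h1, h2⟩
    refine ⟨h1, fun u w huw => ?_⟩
    obtain ⟨v, hv, hy⟩ := h2 _ huw
    rcases Sym2.mem_iff.1 hv with rfl | rfl
    · exact Or.inl hy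
    · exact Or.inr hy
  · rintro ⟨h1, h2⟩
    refine ⟨mem_univ _, h1, fun e he => ?_⟩
    induction e using Sym2.ind with
    | _ u w =>
      rcases h2 u w he with h3 | h3
      · exact ⟨u, Sym2.mem_mk_left u w, h3⟩
      · exact ⟨w, Sym2.mem_mk_right u w, h3⟩

private theorem Par_fib (S T : Finset (V → Bool)) (N : Finset V) (φ : (V → Bool) → V → Bool)
    (hφ : ∀ y ∈ S, φ y ∈ T)
    (hinj : ∀ y ∈ S, ∀ z ∈ S, φ y = φ z → (∀ v ∈ N, y v = z v) → y = z) :
    S.card ≤ 2 ^ N.card * T.card := by
  have h := card_le_card_of_injOn (s := S) (t := T ×ˢ (univ : Finset (N → Bool)))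
    (fun y => (φ y, fun v : N => y v)) (fun y hy => by
      rw [mem_coe, mem_product]
      exact ⟨hφ y hy, mem_univ _⟩) (by
      intro y hy z hz hyz
      have h1 := (Prod.mk.inj hyz).1
      have h2 := (Prod.mk.inj hyz).2
      exact hinj y hy z hz h1 fun v hv => congrFun h2 ⟨v, hv⟩)
  rw [card_product, card_univ, Fintype.card_fun, Fintype.card_bool, Fintype.card_coe,
    mul_comm] at h
  exact h

private theorem Par_upd (g : Gad V) (x : V → Bool) (a b : Bool) (v : V) :
    upd g x a b v = if v = g.q then b else if v = g.p then a else x v := by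
  unfold upd
  rw [Function.update_apply, Function.update_apply]

private theorem Par_upd_q (g : Gad V) (x : V → Bool) (a b : Bool) : upd g x a b g.q = b := by
  rw [Par_upd, if_pos rfl]

private theorem Par_upd_p {g : Gad V} (h : g.p ≠ g.q) (x : V → Bool) (a b : Bool) :
    upd g x a b g.p = a := by
  rw [Par_upd, if_neg h, if_pos rfl]

private theorem Par_upd_ne (g : Gad V) (x : V → Bool) (a b : Bool) {v : V} (h1 : v ≠ g.p)
    (h2 : v ≠ g.q) : upd g x a b v = x v := by
  rw [Par_upd, if_neg h2, if_neg h1]

variable {E A : Finset (Sym2 V)} {Y : Finset V} {D : ℕ} {g : Gad V}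

private theorem Par_pY (hg : IsGad E A Y D g) : g.p ∉ Y := fun h =>
  disjoint_left.1 hg.RY hg.pR h

private theorem Par_qY (hg : IsGad E A Y D g) : g.q ∉ Y := fun h =>
  disjoint_left.1 hg.RY hg.qR h

private theorem Par_act {x : V → Bool} (hx : Act g x) {v : V} (hv : v ∈ g.R) (h1 : v ≠ g.p)
    (h2 : v ≠ g.q) (hC : v ∉ g.C) : x v = true := by
  by_contra h
  rw [Bool.not_eq_true] at h
  exact hC ((hx v hv h1 h2).1 h)

/-- changing the values of the core variables in a consistent way -/
private theorem Par_agree (x y : V → Bool) (a b a' b' : Bool)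
    (h : ∀ v, v ∉ Y → y v = upd g x a b v) (v : V) (hv : v ∉ Y) :
    upd g y a' b' v = upd g x a' b' v := by
  rw [Par_upd, Par_upd]
  by_cases h1 : v = g.q
  · rw [if_pos h1, if_pos h1]
  · rw [if_neg h1, if_neg h1]
    by_cases h2 : v = g.p
    · rw [if_pos h2, if_pos h2]
    · rw [if_neg h2, if_neg h2, h v hv, Par_upd, if_neg h1, if_neg h2]

private theorem Par_back {x y : V → Bool} {a b : Bool} (hg : IsGad E A Y D g)
    (h : ∀ v, v ∉ Y → y v = upd g x a b v) (a' b' : Bool) :
    upd g (upd g y a' b') a b = y := by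
  funext v
  rw [Par_upd]
  by_cases h1 : v = g.q
  · rw [if_pos h1, h1, h _ (Par_qY hg), Par_upd_q]
  · rw [if_neg h1]
    by_cases h2 : v = g.p
    · rw [if_pos h2, h2, h _ (Par_pY hg), Par_upd_p hg.pq]
    · rw [if_neg h2, Par_upd_ne g y a' b' h2 h1]

/-- type 1: the three equal entries -/
private theorem Par_T1 (hAE : A ⊆ E) (hYA : ∀ e ∈ E, ∀ v ∈ Y, v ∈ e → e ∈ A)
    (hg : IsGad E A Y D g) {e : V} (he : e ∈ Y) (hep : s(e, g.p) ∈ E) (heq : s(e, g.q) ∈ E)
    (hind : ∀ u v, (u ∈ g.C ∨ u = g.p ∨ u = g.q) → (v ∈ g.C ∨ v = g.p ∨ v = g.q) → s(u, v) ∉ E)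
    (hoth : ∀ e' ∈ Y, e' ≠ e → (s(e', g.p) ∈ E ∨ s(e', g.q) ∈ E) → ∃ u ∈ g.C, s(e', u) ∈ E)
    {x : V → Bool} (hx : Act g x) {a b : Bool} (hab : a = false ∨ b = false) :
    (Par_S A Y (upd g x a b)).card =
      ((Par_S A Y (upd g x true true)).filter fun y => y e = true).card := by
  have hpY := Par_pY hg
  have hqY := Par_qY hg
  have hepne : e ≠ g.p := fun h => hpY (h ▸ he)
  have heqne : e ≠ g.q := fun h => hqY (h ▸ he)
  -- the neighbours of the core variables are true
  have hkey : ∀ z : V → Bool, (∀ v, v ∉ Y → z v = upd g x true true v) →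
      (∀ u w, s(u, w) ∈ A → z u = true ∨ z w = true) → z e = true →
      ∀ u w, (u = g.p ∨ u = g.q) → s(u, w) ∈ E → upd g z a b w = true := by
    intro z hz1 hz2 hze u w hu huw
    by_cases hwY : w ∈ Y
    · have hwp : w ≠ g.p := fun h => hpY (h ▸ hwY)
      have hwq : w ≠ g.q := fun h => hqY (h ▸ hwY)
      rw [Par_upd_ne g z a b hwp hwq]
      by_cases hwe : w = e
      · rw [hwe]
        exact hze
      · obtain ⟨c, hc, hwc⟩ := hoth w hwY hwe (by
          rcases hu with rfl | rfl
          · exact Or.inl (Sym2.eq_swap ▸ huw)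
          · exact Or.inr (Sym2.eq_swap ▸ huw))
        have hcA := hYA _ hwc w hwY (Sym2.mem_mk_left w c)
        rcases hz2 w c hcA with h1 | h1
        · exact h1
        · exfalso
          have hcR := hg.CR hc
          have hcY : c ∉ Y := fun h => disjoint_left.1 hg.RY hcR h
          have hcp : c ≠ g.p := fun h => hg.pC (h ▸ hc)
          have hcq : c ≠ g.q := fun h => hg.qC (h ▸ hc)
          rw [hz1 c hcY, Par_upd_ne g x true true hcp hcq, (hx c hcR hcp hcq).2 hc] at h1
          exact Bool.false_ne_true h1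
    · have hwR := hg.near u w (Or.inr hu) hwY huw
      have hw : ¬ (w ∈ g.C ∨ w = g.p ∨ w = g.q) := fun h => hind u w (Or.inr hu) h huw
      rw [not_or, not_or] at hw
      rw [Par_upd_ne g z a b hw.2.1 hw.2.2, hz1 w hwY, Par_upd_ne g x true true hw.2.1 hw.2.2]
      exact Par_act hx hwR hw.2.1 hw.2.2 hw.1
  refine card_nbij' (fun y => upd g y true true) (fun y => upd g y a b) ?_ ?_ ?_ ?_
  · intro y hy
    rw [mem_coe, Par_mem] at hy
    show upd g y true true ∈ filter _ _
    rw [mem_filter, Par_mem]
    have hmono : ∀ v, y v = true → upd g y true true v = true := by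
      intro v hv
      rw [Par_upd]
      split_ifs
      · rfl
      · rfl
      · exact hv
    refine ⟨⟨fun v hv => Par_agree x y a b true true hy.1 v hv, fun u w huw => ?_⟩, ?_⟩
    · exact (hy.2 u w huw).imp (hmono u) (hmono w)
    · apply hmono
      rcases hab with rfl | rfl
      · rcases hy.2 e g.p (hYA _ hep e he (Sym2.mem_mk_left _ _)) with h1 | h1
        · exact h1
        · rw [hy.1 _ hpY, Par_upd_p hg.pq] at h1
          exact absurd h1 Bool.false_ne_true
      · rcases hy.2 e g.q (hYA _ heq e he (Sym2.mem_mk_left _ _)) with h1 | h1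
        · exact h1
        · rw [hy.1 _ hqY, Par_upd_q] at h1
          exact absurd h1 Bool.false_ne_true
  · intro z hz
    rw [mem_coe, mem_filter, Par_mem] at hz
    show upd g z a b ∈ (Par_S A Y (upd g x a b))
    rw [Par_mem]
    obtain ⟨⟨hz1, hz2⟩, hze⟩ := hz
    refine ⟨fun v hv => Par_agree x z true true a b hz1 v hv, fun u w huw => ?_⟩
    by_cases hu : u = g.p ∨ u = g.q
    · exact Or.inr (hkey z hz1 hz2 hze u w hu (hAE huw))
    · by_cases hw : w = g.p ∨ w = g.q
      · exact Or.inl (hkey z hz1 hz2 hze w u hw (Sym2.eq_swap ▸ hAE huw))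
      · rw [not_or] at hu hw
        rw [Par_upd_ne g z a b hu.1 hu.2, Par_upd_ne g z a b hw.1 hw.2]
        exact hz2 u w huw
  · intro y hy
    rw [mem_coe, Par_mem] at hy
    exact Par_back hg hy.1 true true
  · intro z hz
    rw [mem_coe, mem_filter, Par_mem] at hz
    exact Par_back hg hz.1.1 a b

/-- a variable becomes false and its eliminated neighbours become true -/
private def Par_low (E : Finset (Sym2 V)) (Y : Finset V) (e : V) (y : V → Bool) (v : V) : Bool :=
  if v = e then false else if v ∈ nb E e ∧ v ∈ Y then true else y v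

private theorem Par_low_self (e : V) (y : V → Bool) : Par_low E Y e y e = false := if_pos rfl

private theorem Par_low_mono {e : V} {y : V → Bool} {v : V} (hv : v ≠ e) (h : y v = true) :
    Par_low E Y e y v = true := by
  unfold Par_low
  rw [if_neg hv]
  split_ifs
  · rfl
  · exact h

private theorem Par_mem_nb {e w : V} : w ∈ nb E e ↔ s(e, w) ∈ E := by
  unfold nb
  rw [mem_filter]
  exact ⟨fun h => h.2, fun h => ⟨mem_univ _, h⟩⟩

private theorem Par_low_inj {e : V} {y z : V → Bool} (hyz : y e = z e)
    (h : Par_low E Y e y = Par_low E Y e z) (hN : ∀ v ∈ nb E e, y v = z v) : y = z := by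
  funext v
  by_cases h1 : v = e
  · rw [h1, hyz]
  · by_cases h2 : v ∈ nb E e
    · exact hN v h2
    · have h3 := congrFun h v
      unfold Par_low at h3
      rw [if_neg h1, if_neg h1, if_neg fun h4 => h2 h4.1, if_neg fun h4 => h2 h4.1] at h3
      exact h3

private theorem Par_low_sat (hAE : A ⊆ E) (hE : ∀ e ∈ E, ¬ e.IsDiag) {e : V} {y : V → Bool}
    (hy : ∀ u w, s(u, w) ∈ A → y u = true ∨ y w = true)
    (hout : ∀ w, w ∉ Y → s(e, w) ∈ E → y w = true) (u w : V) (huw : s(u, w) ∈ A) :
    Par_low E Y e y u = true ∨ Par_low E Y e y w = true := by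
  have hkey : ∀ w, s(e, w) ∈ E → Par_low E Y e y w = true := by
    intro w hw
    have hwe : w ≠ e := by
      rintro rfl
      exact hE _ hw (Sym2.mk_isDiag_iff.2 rfl)
    by_cases hwY : w ∈ Y
    · unfold Par_low
      rw [if_neg hwe, if_pos ⟨Par_mem_nb.2 hw, hwY⟩]
    · exact Par_low_mono hwe (hout w hwY hw)
  by_cases hu : u = e
  · rw [hu] at huw
    exact Or.inr (hkey w (hAE huw))
  · by_cases hw : w = e
    · rw [hw] at huw
      exact Or.inl (hkey u (Sym2.eq_swap ▸ hAE huw))
    · exact (hy u w huw).imp (Par_low_mono hu) (Par_low_mono hw)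

/-- type 2: one core variable becomes false -/
private theorem Par_T2 (hAE : A ⊆ E) (hE : ∀ e ∈ E, ¬ e.IsDiag) (hg : IsGad E A Y D g)
    (hC : g.C = ∅) (hD : ∀ v, (v = g.p ∨ v = g.q) → (nb E v).card ≤ D) {x : V → Bool} (hx : Act g x) {a b : Bool}
    (c : V) (hc : c = g.p ∧ a = false ∧ b = true ∨ c = g.q ∧ a = true ∧ b = false) :
    (Par_S A Y (upd g x true true)).card ≤ 2 ^ D * (Par_S A Y (upd g x a b)).card ∧
      (Par_S A Y (upd g x a b)).card ≤ (Par_S A Y (upd g x true true)).card := by
  have hpY := Par_pY hg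
  have hqY := Par_qY hg
  have hcpq : c = g.p ∨ c = g.q := hc.imp (fun h => h.1) fun h => h.1
  have hcY : c ∉ Y := by
    rcases hcpq with rfl | rfl
    · exact hpY
    · exact hqY
  have hval : ∀ v, upd g x a b v = if v = c then false else upd g x true true v := by
    intro v
    rcases hc with ⟨rfl, rfl, rfl⟩ | ⟨rfl, rfl, rfl⟩
    · rw [Par_upd, Par_upd]
      by_cases h1 : v = g.q
      · rw [if_pos h1, if_pos h1, if_neg fun h2 => hg.pq (h2.symm.trans h1)]
      · rw [if_neg h1, if_neg h1]
        by_cases h2 : v = g.p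
        · rw [if_pos h2, if_pos h2]
        · rw [if_neg h2, if_neg h2, if_neg h2]
    · rw [Par_upd, Par_upd]
      by_cases h1 : v = g.q
      · rw [if_pos h1, if_pos h1]
      · rw [if_neg h1, if_neg h1, if_neg h1]
  constructor
  · refine (Par_fib _ (Par_S A Y (upd g x a b)) (nb E c) (Par_low E Y c) ?_ ?_).trans
      (Nat.mul_le_mul_right _ (Nat.pow_le_pow_right (by norm_num) (hD c hcpq)))
    · intro y hy
      rw [Par_mem] at hy ⊢
      refine ⟨fun v hv => ?_, fun u w huw => Par_low_sat hAE hE hy.2 ?_ u w huw⟩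
      · unfold Par_low
        rw [hval]
        by_cases h1 : v = c
        · rw [if_pos h1, if_pos h1]
        · rw [if_neg h1, if_neg h1, if_neg fun h2 => hv h2.2]
          exact hy.1 v hv
      · intro w hw hcw
        have hwR := hg.near c w (Or.inr hcpq) hw hcw
        rw [hy.1 w hw, Par_upd]
        split_ifs with h1 h2
        · rfl
        · rfl
        · exact Par_act hx hwR h2 h1 (by
            rw [hC]
            exact notMem_empty _)
    · intro y hy z hz h hN
      rw [Par_mem] at hy hz
      exact Par_low_inj (by rw [hy.1 c hcY, hz.1 c hcY]) h hN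
  · refine card_le_card_of_injOn (fun y => Function.update y c true) ?_ ?_
    · intro y hy
      rw [mem_coe, Par_mem] at hy
      show Function.update y c true ∈ (Par_S A Y (upd g x true true))
      rw [Par_mem]
      have hmono : ∀ v, y v = true → Function.update y c true v = true := by
        intro v hv
        rw [Function.update_apply]
        split_ifs
        · rfl
        · exact hv
      refine ⟨fun v hv => ?_, fun u w huw => (hy.2 u w huw).imp (hmono u) (hmono w)⟩
      rw [Function.update_apply]
      by_cases h1 : v = c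
      · rw [if_pos h1, h1]
        rcases hcpq with rfl | rfl
        · rw [Par_upd_p hg.pq]
        · rw [Par_upd_q]
      · rw [if_neg h1, hy.1 v hv, hval, if_neg h1]
    · intro y hy z hz h
      rw [mem_coe, Par_mem] at hy hz
      funext v
      by_cases h1 : v = c
      · rw [h1, hy.1 c hcY, hz.1 c hcY]
      · have h2 := congrFun h v
        simp only [Function.update_of_ne h1] at h2
        exact h2

/-- the map to the active region -/
private def Par_rs (g : Gad V) (N : Finset V) (y : V → Bool) (v : V) : Bool :=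
  if v ∈ g.R then (if v ∈ g.C then false else true) else if v ∈ N then true else y v

private theorem Par_ratio (hAE : A ⊆ E) (hD : ∀ v ∈ g.C, (nb E v).card ≤ D)
    (hg : IsGad E A Y D g) (hind : ∀ u ∈ g.C, ∀ v ∈ g.C, s(u, v) ∉ E) (x : V → Bool) :
    (Par_S A Y x).card ≤ 2 ^ (2 * D ^ 2) * (Par_S A Y (rst g x)).card := by
  classical
  have hN : ((g.C.biUnion fun u => nb E u) ∩ Y).card ≤ 2 * D ^ 2 := by
    refine (card_le_card inter_subset_left).trans (card_biUnion_le.trans ?_)
    refine (sum_le_card_nsmul _ _ D fun u hu => hD u hu).trans ?_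
    rw [smul_eq_mul, pow_two, ← mul_assoc]
    exact Nat.mul_le_mul_right _ hg.Cc
  have hNm : ∀ u w, u ∈ g.C → s(u, w) ∈ E → w ∈ Y →
      w ∈ (g.C.biUnion fun u => nb E u) ∩ Y := fun u w hu huw hw =>
    mem_inter.2 ⟨mem_biUnion.2 ⟨u, hu, Par_mem_nb.2 huw⟩, hw⟩
  have hNY : ∀ w, w ∈ (g.C.biUnion fun u => nb E u) ∩ Y → w ∈ Y := fun w hw =>
    (mem_inter.1 hw).2
  generalize (g.C.biUnion fun u => nb E u) ∩ Y = N at hN hNm hNY
  refine (Par_fib _ (Par_S A Y (rst g x)) N (Par_rs g N) ?_ ?_).trans
    (Nat.mul_le_mul_right _ (Nat.pow_le_pow_right (by norm_num) hN))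
  · intro y hy
    rw [Par_mem] at hy ⊢
    refine ⟨fun v hv => ?_, fun u w huw => ?_⟩
    · unfold Par_rs rst
      by_cases h1 : v ∈ g.R
      · rw [if_pos h1, if_pos h1]
      · rw [if_neg h1, if_neg h1, if_neg fun h2 => hv (hNY v h2)]
        exact hy.1 v hv
    · -- a false variable lies in `C`, or it was false and lies outside
      have hfalse : ∀ v, Par_rs g N y v = false → v ∈ g.C ∨ v ∉ g.R ∧ v ∉ N ∧ y v = false := by
        intro v hv
        unfold Par_rs at hv
        by_cases h1 : v ∈ g.R
        · rw [if_pos h1] at hv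
          by_cases h2 : v ∈ g.C
          · exact Or.inl h2
          · rw [if_neg h2] at hv
            exact absurd hv.symm Bool.false_ne_true
        · rw [if_neg h1] at hv
          by_cases h2 : v ∈ N
          · rw [if_pos h2] at hv
            exact absurd hv.symm Bool.false_ne_true
          · rw [if_neg h2] at hv
            exact Or.inr ⟨h1, h2, hv⟩
      have hkey : ∀ u w, s(u, w) ∈ E → u ∈ g.C → Par_rs g N y w = false → False := by
        intro u w huw hu hw
        rcases hfalse w hw with h1 | ⟨h1, h2, -⟩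
        · exact hind u hu w h1 huw
        · by_cases hwY : w ∈ Y
          · exact h2 (hNm u w hu huw hwY)
          · exact h1 (hg.near u w (Or.inl hu) hwY huw)
      by_contra hno
      rw [not_or, Bool.not_eq_true, Bool.not_eq_true] at hno
      rcases hfalse u hno.1 with h1 | ⟨-, -, h1⟩
      · exact hkey u w (hAE huw) h1 hno.2
      · rcases hfalse w hno.2 with h2 | ⟨-, -, h2⟩
        · exact hkey w u (Sym2.eq_swap ▸ hAE huw) h2 hno.1
        · rcases hy.2 u w huw with h3 | h3
          · rw [h1] at h3
            exact Bool.false_ne_true h3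
          · rw [h2] at h3
            exact Bool.false_ne_true h3
  · intro y hy z hz h hNe
    rw [Par_mem] at hy hz
    funext v
    by_cases hvY : v ∈ Y
    · by_cases hvN : v ∈ N
      · exact hNe v hvN
      · have h1 : v ∉ g.R := fun h2 => disjoint_left.1 hg.RY h2 hvY
        have h2 := congrFun h v
        unfold Par_rs at h2
        rw [if_neg h1, if_neg h1, if_neg hvN, if_neg hvN] at h2
        exact h2
    · rw [hy.1 v hvY, hz.1 v hvY]

end

private theorem Par_inv (D a b : ℕ) (h : a ≤ 2 ^ D * b) :
    ((2 : ℝ≥0) ^ D)⁻¹ * (a : ℝ≥0) ≤ b := by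
  rw [inv_mul_le_iff₀ (by positivity)]
  exact_mod_cast h

private theorem Par_A {V : Type} [Fintype V] [DecidableEq V] {E A : Finset (Sym2 V)}
    {Y : Finset V} {D : ℕ} {g : Gad V} {e : V} (h : GadA E A Y D g e) : IsGad E A Y D g where
  pR := h.pR
  qR := h.qR
  pq := h.pq
  CR := h.CR
  pC := h.pC
  qC := h.qC
  RY := h.RY
  Cc := h.Cc
  Rc := h.Rc
  near := h.near
  typ := Or.inl ⟨e, h.eY, h.ep, h.eq, h.eR, h.eC, h.ind, h.blk⟩

private theorem Par_B {V : Type} [Fintype V] [DecidableEq V] {E A : Finset (Sym2 V)}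
    {Y : Finset V} {D : ℕ} {g : Gad V} (h : GadB E A Y D g) : IsGad E A Y D g where
  pR := h.pR
  qR := h.qR
  pq := h.pq
  CR := by rw [h.C0]; exact empty_subset _
  pC := by rw [h.C0]; exact notMem_empty _
  qC := by rw [h.C0]; exact notMem_empty _
  RY := h.RY
  Cc := by rw [h.C0, card_empty]; exact Nat.zero_le _
  Rc := h.Rc
  near := by
    intro u v hu
    refine h.near u v (hu.resolve_left ?_)
    rw [h.C0]
    exact notMem_empty _
  typ := Or.inr ⟨h.C0, h.pqA⟩

theorem thm_ParL : St_ParL := by
  classical
  intro V _ _ E A Y D hAE hE hYA g hgg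
  have hg : IsGad E A Y D g := by
    rcases hgg with ⟨e, h⟩ | h
    · exact Par_A h
    · exact Par_B h
  have hDC : ∀ v ∈ g.C, (nb E v).card ≤ D := by
    rcases hgg with ⟨e, h⟩ | h
    · exact fun v hv => h.deg v (Or.inl hv)
    · intro v hv
      rw [h.C0] at hv
      exact absurd hv (notMem_empty _)
  have hDp : ∀ v, (v = g.p ∨ v = g.q) → (nb E v).card ≤ D := by
    rcases hgg with ⟨e, h⟩ | h
    · exact fun v hv => h.deg v (Or.inr hv)
    · exact h.deg
  constructor
  · rcases hgg with ⟨e, hgA⟩ | hgB
    · obtain ⟨he, hep, heq, hnear, heC, hind, hoth⟩ :=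
        (⟨hgA.eY, hgA.ep, hgA.eq, hgA.eR, hgA.eC, hgA.ind, hgA.blk⟩ : _ ∧ _ ∧ _ ∧ _ ∧ _ ∧ _ ∧ _)
      left
      intro x hx
      have hpY := Par_pY hg
      have hqY := Par_qY hg
      have h1 := Par_T1 hAE hYA hg he hep heq hind hoth hx (a := false) (b := true) (Or.inl rfl)
      have h2 := Par_T1 hAE hYA hg he hep heq hind hoth hx (a := true) (b := false) (Or.inr rfl)
      have h3 := Par_T1 hAE hYA hg he hep heq hind hoth hx (a := false) (b := false) (Or.inl rfl)
      have h4 := card_filter_add_card_filter_not (s := Par_S A Y (upd g x true true))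
        (fun y => y e = true)
      have h5 : ((Par_S A Y (upd g x true true)).filter fun y => ¬ y e = true).card ≤
          ((Par_S A Y (upd g x true true)).filter fun y => y e = true).card := by
        refine card_le_card_of_injOn (fun y => Function.update y e true) ?_ ?_
        · intro y hy
          rw [mem_coe, mem_filter, Par_mem] at hy
          show Function.update y e true ∈ filter _ _
          rw [mem_filter, Par_mem]
          have hmono : ∀ v, y v = true → Function.update y e true v = true := by
            intro v hv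
            rw [Function.update_apply]
            split_ifs
            · rfl
            · exact hv
          refine ⟨⟨fun v hv => ?_, fun u w huw => (hy.1.2 u w huw).imp (hmono u) (hmono w)⟩, ?_⟩
          · have hve : v ≠ e := fun h => hv (h ▸ he)
            rw [Function.update_of_ne hve]
            exact hy.1.1 v hv
          · exact Function.update_self _ _ _
        · intro y hy z hz h
          rw [mem_coe, mem_filter, Bool.not_eq_true] at hy hz
          funext v
          by_cases hv : v = e
          · rw [hv, hy.2, hz.2]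
          · have h6 := congrFun h v
            simp only [Function.update_of_ne hv] at h6
            exact h6
      have h6 : ((Par_S A Y (upd g x true true)).filter fun y => y e = true).card ≤
          2 ^ D * ((Par_S A Y (upd g x true true)).filter fun y => ¬ y e = true).card := by
        refine (Par_fib _ _ (nb E e) (Par_low E Y e) ?_ ?_).trans
          (Nat.mul_le_mul_right _ (Nat.pow_le_pow_right (by norm_num) hgA.dege))
        · intro y hy
          rw [mem_filter, Par_mem] at hy ⊢
          refine ⟨⟨fun v hv => ?_, fun u w huw => Par_low_sat hAE hE hy.1.2 ?_ u w huw⟩, ?_⟩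
          · have hve : v ≠ e := fun h => hv (h ▸ he)
            unfold Par_low
            rw [if_neg hve, if_neg fun h => hv h.2]
            exact hy.1.1 v hv
          · intro w hw hew
            rw [hy.1.1 w hw, Par_upd]
            split_ifs with h7 h8
            · rfl
            · rfl
            · exact Par_act hx (hnear w hw hew) h8 h7 fun h9 => heC w h9 hew
          · rw [Par_low_self]
            exact Bool.false_ne_true
        · intro y hy z hz h hN
          rw [mem_filter] at hy hz
          exact Par_low_inj (by rw [hy.2, hz.2]) h hN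
      refine ⟨?_, ?_, ?_, ?_⟩
      · show part A Y (upd g x false true) = part A Y (upd g x true false)
        rw [Par_part, Par_part, h1, h2]
      · show part A Y (upd g x false false) = part A Y (upd g x true false)
        rw [Par_part, Par_part, h3, h2]
      · show (1 + ((2 : ℝ≥0) ^ D)⁻¹) * part A Y (upd g x true false) ≤
          part A Y (upd g x true true)
        rw [Par_part, Par_part, h2, ← h4, add_mul, one_mul, Nat.cast_add]
        exact add_le_add le_rfl (Par_inv D _ _ h6)
      · show part A Y (upd g x true true) ≤ 2 * part A Y (upd g x true false)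
        rw [Par_part, Par_part, h2, ← h4, two_mul, Nat.cast_add]
        exact add_le_add le_rfl (Nat.cast_le.2 h5)
    · right
      have hC := hgB.C0
      have hpq := hgB.pqA
      intro x hx
      have h1 := Par_T2 hAE hE hg hC hDp hx g.p (a := false) (b := true) (Or.inl ⟨rfl, rfl, rfl⟩)
      have h2 := Par_T2 hAE hE hg hC hDp hx g.q (a := true) (b := false) (Or.inr ⟨rfl, rfl, rfl⟩)
      refine ⟨?_, ?_, ?_, ?_, ?_⟩
      · show part A Y (upd g x false false) = 0
        rw [Par_part, Nat.cast_eq_zero, card_eq_zero, eq_empty_iff_forall_notMem]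
        intro y hy
        rw [Par_mem] at hy
        rcases hy.2 g.p g.q hpq with h3 | h3
        · rw [hy.1 _ (Par_pY hg), Par_upd_p hg.pq] at h3
          exact Bool.false_ne_true h3
        · rw [hy.1 _ (Par_qY hg), Par_upd_q] at h3
          exact Bool.false_ne_true h3
      · exact Par_inv D _ _ h1.1
      · exact Par_inv D _ _ h2.1
      · exact Nat.cast_le.2 h1.2
      · exact Nat.cast_le.2 h2.2
  · intro x
    have h := Par_ratio hAE hDC hg (by
      rcases hg.typ with ⟨e, -, -, -, -, -, hind, -⟩ | ⟨hC, -⟩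
      · exact fun u hu v hv => hind u v (Or.inl hu) (Or.inl hv)
      · intro u hu
        rw [hC] at hu
        exact absurd hu (notMem_empty u)) x
    rw [Par_part, Par_part]
    exact_mod_cast h

end Pool.Agent.EC
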