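import Pool.Agent.EC.St
import Pool.Agent.EB.Sel1

/-!
# EC: a random choice of elements without conflicts
-/

set_option autoImplicit false
set_option linter.unusedSectionVars false

namespace Pool.Agent.EC

open Finset Pool.Agent.WD Pool.Agent.EB

section

variable {G : Type} [Fintype G] [DecidableEq G] (c : G → G → Prop) [DecidableRel c]

/-- closed conflict neighbourhood -/
def Pick_nc (g : G) : Finset G := insert g (univ.filter (c g))

/-- the element `g` is selected by `w` -/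
def Pick_sel (w : G → Bool) (g : G) : Prop := w g = true ∧ ∀ h, h ≠ g → c g h → w h = false

open Classical in
/-- the weight -/
noncomputable def Pick_wt (w : G → Bool) (g : G) : ℝ := if Pick_sel c w g then 1 / 2 else 1

theorem Pick_wt_nonneg (w : G → Bool) (g : G) : 0 ≤ Pick_wt c w g := by
  unfold Pick_wt
  split_ifs <;> norm_num

theorem Pick_wt_le (w : G → Bool) (g : G) : Pick_wt c w g ≤ 1 := by
  unfold Pick_wt
  split_ifs <;> norm_num

theorem Pick_sel_congr (g : G) (w w' : G → Bool) (h : ∀ v ∈ Pick_nc c g, w v = w' v) :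
    Pick_sel c w g ↔ Pick_sel c w' g := by
  unfold Pick_sel
  have hg : w g = w' g := h g (mem_insert_self _ _)
  have hv : ∀ v, c g v → w v = w' v := fun v hv =>
    h v (mem_insert_of_mem (mem_filter.mpr ⟨mem_univ _, hv⟩))
  rw [hg]
  refine and_congr_right fun _ => ?_
  constructor
  · intro h1 v h2 h3
    rw [← hv v h3]
    exact h1 v h2 h3
  · intro h1 v h2 h3
    rw [hv v h3]
    exact h1 v h2 h3

/-- make `g` selected -/
def Pick_rst (g : G) (w : G → Bool) (v : G) : Bool := if v ∈ Pick_nc c g then decide (v = g) else w v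

theorem Pick_rst_off (g : G) (w : G → Bool) (v : G) (hv : v ∉ Pick_nc c g) :
    Pick_rst c g w v = w v := by
  unfold Pick_rst
  rw [if_neg hv]

theorem Pick_rst_rst (g : G) (w : G → Bool) :
    Pick_rst c g (Pick_rst c g w) = Pick_rst c g w := by
  funext v
  unfold Pick_rst
  split_ifs <;> rfl

theorem Pick_rst_sel (g : G) (w : G → Bool) : Pick_sel c (Pick_rst c g w) g := by
  refine ⟨?_, fun h h1 h2 => ?_⟩
  · have h3 : g ∈ Pick_nc c g := mem_insert_self _ _
    unfold Pick_rst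
    rw [if_pos h3]
    simp
  · have h3 : h ∈ Pick_nc c g := mem_insert_of_mem (mem_filter.mpr ⟨mem_univ _, h2⟩)
    unfold Pick_rst
    rw [if_pos h3]
    simp [h1]

theorem Pick_fibre (g : G) (z : G → Bool) (L : ℕ) (hL : (Pick_nc c g).card ≤ L) :
    (univ.filter (fun w : G → Bool => Pick_rst c g w = z)).card ≤ 2 ^ L := by
  have h1 : (univ.filter (fun w : G → Bool => Pick_rst c g w = z)).card ≤
      (univ : Finset (Pick_nc c g → Bool)).card := by
    refine Finset.card_le_card_of_injOn (fun x v => x v.1)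
      (fun _ _ => Finset.mem_coe.2 (mem_univ _)) ?_
    intro x hx y hy hxy
    have hx' : Pick_rst c g x = z := (Finset.mem_filter.1 (Finset.mem_coe.1 hx)).2
    have hy' : Pick_rst c g y = z := (Finset.mem_filter.1 (Finset.mem_coe.1 hy)).2
    funext v
    by_cases hv : v ∈ Pick_nc c g
    · exact congrFun hxy ⟨v, hv⟩
    · rw [← Pick_rst_off c g x v hv, ← Pick_rst_off c g y v hv, hx', hy']
  refine h1.trans ?_
  rw [Finset.card_univ, Fintype.card_fun, Fintype.card_bool, Fintype.card_coe]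
  exact Nat.pow_le_pow_right (by norm_num) hL

theorem Pick_step (g : G) (L : ℕ) (hL : (Pick_nc c g).card ≤ L) (F : (G → Bool) → ℝ)
    (hF0 : ∀ w, 0 ≤ F w) (hF : ∀ w, F (Pick_rst c g w) = F w) :
    ∑ w, F w * Pick_wt c w g ≤ (1 - 1 / 2 ^ (L + 1)) * ∑ w, F w := by
  classical
  have hmaps : ∀ x ∈ (univ : Finset (G → Bool)), Pick_rst c g x ∈ univ.image (Pick_rst c g) :=
    fun x hx => Finset.mem_image_of_mem _ hx
  rw [← Finset.sum_fiberwise_of_maps_to hmaps, ← Finset.sum_fiberwise_of_maps_to hmaps,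
    Finset.mul_sum]
  refine Finset.sum_le_sum fun z hz => ?_
  obtain ⟨x1, hx1, rfl⟩ := Finset.mem_image.1 hz
  set z : G → Bool := Pick_rst c g x1 with hzdef
  have hzz : Pick_rst c g z = z := Pick_rst_rst c g x1
  set P : Finset (G → Bool) := univ.filter (fun x => Pick_rst c g x = z) with hP
  have hzP : z ∈ P := by
    rw [hP, Finset.mem_filter]
    exact ⟨mem_univ _, hzz⟩
  have hFP : ∀ x ∈ P, F x = F z := by
    intro x hx
    have h1 := (Finset.mem_filter.1 hx).2
    rw [← hF x, h1]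
  have hcard : (P.card : ℝ) ≤ 2 ^ L := by
    have h1 := Pick_fibre c g z L hL
    exact_mod_cast h1
  have h1 : ∑ x ∈ P, F x * Pick_wt c x g = F z * ∑ x ∈ P, Pick_wt c x g := by
    rw [Finset.mul_sum]
    exact Finset.sum_congr rfl fun x hx => by rw [hFP x hx]
  have h2 : ∑ x ∈ P, F x = F z * P.card := by
    rw [Finset.sum_congr rfl hFP, Finset.sum_const, nsmul_eq_mul, mul_comm]
  have h3 : ∑ x ∈ P, Pick_wt c x g ≤ P.card - 1 / 2 := by
    rw [← Finset.add_sum_erase _ _ hzP]
    have h4 : Pick_wt c z g = 1 / 2 := by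
      unfold Pick_wt
      rw [if_pos (Pick_rst_sel c g x1)]
    have h5 : ∑ x ∈ P.erase z, Pick_wt c x g ≤ ∑ _x ∈ P.erase z, (1 : ℝ) :=
      Finset.sum_le_sum fun x _ => Pick_wt_le c x g
    rw [Finset.sum_const, nsmul_eq_mul, mul_one, Finset.card_erase_of_mem hzP] at h5
    have h6 : 1 ≤ P.card := Finset.card_pos.mpr ⟨z, hzP⟩
    rw [Nat.cast_sub h6, Nat.cast_one] at h5
    rw [h4]
    linarith
  rw [h1, h2]
  have h7 : (P.card : ℝ) - 1 / 2 ≤ (1 - 1 / 2 ^ (L + 1)) * P.card := by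
    have h8 : 1 / (2 : ℝ) ^ (L + 1) * P.card ≤ 1 / 2 := by
      rw [pow_succ, one_div_mul_eq_div, div_le_iff₀ (by positivity)]
      linarith
    linarith
  calc F z * ∑ x ∈ P, Pick_wt c x g ≤ F z * ((1 - 1 / 2 ^ (L + 1)) * P.card) :=
        mul_le_mul_of_nonneg_left (h3.trans h7) (hF0 z)
    _ = _ := by ring

theorem Pick_mom (L : ℕ) (hL : ∀ g, (Pick_nc c g).card ≤ L) (T : Finset G)
    (hT : ∀ g ∈ T, ∀ h ∈ T, g ≠ h → Disjoint (Pick_nc c g) (Pick_nc c h)) :
    ∑ w : G → Bool, ∏ g ∈ T, Pick_wt c w g ≤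
      (1 - 1 / 2 ^ (L + 1)) ^ T.card * 2 ^ Fintype.card G := by
  classical
  induction T using Finset.induction_on with
  | empty => simp
  | insert g T hg ih =>
    have ih' := ih fun a ha b hb => hT a (mem_insert_of_mem ha) b (mem_insert_of_mem hb)
    have h0 : (0 : ℝ) ≤ 1 - 1 / 2 ^ (L + 1) := by
      rw [sub_nonneg, div_le_one (by positivity)]
      exact one_le_pow₀ (by norm_num)
    have h1 := Pick_step c g L (hL g) (fun w => ∏ h ∈ T, Pick_wt c w h)
      (fun w => Finset.prod_nonneg fun h _ => Pick_wt_nonneg c w h) (by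
        intro w
        refine Finset.prod_congr rfl fun h hh => ?_
        unfold Pick_wt
        have h2 : Pick_sel c (Pick_rst c g w) h ↔ Pick_sel c w h := by
          refine Pick_sel_congr c h _ _ fun v hv => Pick_rst_off c g w v fun hv' => ?_
          refine Finset.disjoint_left.mp (hT g (mem_insert_self _ _) h (mem_insert_of_mem hh) ?_)
            hv' hv
          rintro rfl
          exact hg hh
        simp only [h2])
    calc ∑ w : G → Bool, ∏ a ∈ insert g T, Pick_wt c w a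
        = ∑ w : G → Bool, (∏ h ∈ T, Pick_wt c w h) * Pick_wt c w g := by
          refine Finset.sum_congr rfl fun w _ => ?_
          rw [Finset.prod_insert hg, mul_comm]
      _ ≤ (1 - 1 / 2 ^ (L + 1)) * ∑ w : G → Bool, ∏ h ∈ T, Pick_wt c w h := h1
      _ ≤ (1 - 1 / 2 ^ (L + 1)) * ((1 - 1 / 2 ^ (L + 1)) ^ T.card * 2 ^ Fintype.card G) :=
          mul_le_mul_of_nonneg_left ih' h0
      _ = _ := by rw [Finset.card_insert_of_notMem hg]; ring

end

theorem Pick_theta (θ : ℝ) (h0 : 0 ≤ θ) (q : ℕ) (hq : 1 ≤ q) (h : θ ^ q ≤ 1 / 4) (t : ℕ) :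
    θ ^ t ≤ (2 : ℝ) ^ (-(2 * (t : ℝ) / q)) := by
  have hq0 : (0 : ℝ) < q := by exact_mod_cast hq
  have h1 : θ ^ t = (θ ^ q) ^ ((t : ℝ) / q) := by
    rw [← Real.rpow_natCast θ q, ← Real.rpow_mul h0, mul_div_cancel₀ _ hq0.ne', Real.rpow_natCast]
  rw [h1]
  have h2 : (2 : ℝ) ^ (-(2 * (t : ℝ) / q)) = (1 / 4) ^ ((t : ℝ) / q) := by
    have h3 : (1 / 4 : ℝ) = 2 ^ (-2 : ℝ) := by
      rw [Real.rpow_neg (by norm_num)]
      norm_num
    rw [h3, ← Real.rpow_mul (by norm_num)]
    congr 1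
    ring
  rw [h2]
  exact Real.rpow_le_rpow (by positivity) h (by positivity)

theorem thm_Pick : St_Pick := by
  classical
  intro Λ
  set L : ℕ := Λ + 1 with hLdef
  set θ : ℝ := 1 - 1 / 2 ^ (L + 1) with hθ
  have hθ0 : 0 ≤ θ := by
    rw [hθ, sub_nonneg, div_le_one (by positivity)]
    exact one_le_pow₀ (by norm_num)
  have hθ1 : θ < 1 := by
    rw [hθ]
    have : (0 : ℝ) < 1 / 2 ^ (L + 1) := by positivity
    linarith
  obtain ⟨q, hq⟩ := exists_pow_lt_of_lt_one (show (0 : ℝ) < 1 / 4 by norm_num) hθ1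
  have hq1 : 1 ≤ q := by
    rcases Nat.eq_zero_or_pos q with rfl | h
    · norm_num at hq
    · exact h
  have hq0 : (0 : ℝ) < q := by exact_mod_cast hq1
  have hL1 : 1 ≤ L := by omega
  refine ⟨L * L * q, ?_, ?_⟩
  · exact Nat.mul_pos (Nat.mul_pos hL1 hL1) hq1
  intro G _ _ c _ hsym hdeg ι _ T m hm hι
  have hnc : ∀ g, (Pick_nc c g).card ≤ L := fun g =>
    (card_insert_le _ _).trans (Nat.add_le_add_right (hdeg g) 1)
  have hncs : ∀ g v, v ∈ Pick_nc c g → g ∈ Pick_nc c v := by
    intro g v hv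
    unfold Pick_nc at hv ⊢
    rw [mem_insert, mem_filter] at hv ⊢
    rcases hv with rfl | hv
    · exact Or.inl rfl
    · exact Or.inr ⟨mem_univ _, hsym _ _ hv.2⟩
  have hself : ∀ g, g ∈ Pick_nc c g := fun g => mem_insert_self _ _
  -- greedy choice
  have hgr : ∀ i, ∃ T' ⊆ T i, (∀ a ∈ T', ∀ b ∈ T', a ≠ b → Disjoint (Pick_nc c a) (Pick_nc c b)) ∧
      (T i).card ≤ L * L * T'.card := by
    intro i
    obtain ⟨J, hJ1, hJ2, hJ3⟩ := Sel1_greedy (T i)
      (fun a b => ¬ Disjoint (Pick_nc c a) (Pick_nc c b)) (fun a b h h' => h h'.symm) (L * L)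
      (fun a => (Pick_nc c a).biUnion (Pick_nc c))
      (fun a _ => (card_biUnion_le_card_mul _ _ _ fun v _ => hnc v).trans
        (Nat.mul_le_mul_right _ (hnc a)))
      (fun a _ b _ hab => by
        rw [Finset.not_disjoint_iff] at hab
        obtain ⟨v, hv1, hv2⟩ := hab
        exact mem_biUnion.mpr ⟨v, hv1, hncs b v hv2⟩)
      (fun a _ h => Finset.disjoint_left.mp h (hself a) (hself a))
    exact ⟨J, hJ1, fun a ha b hb hab => not_not.mp (hJ2 a ha b hb hab), hJ3⟩
  choose T' hT'1 hT'2 hT'3 using hgr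
  let S : (G → Bool) → Finset G := fun w => univ.filter fun g => Pick_sel c w g
  -- the bad sets
  let bad : ι → Finset (G → Bool) := fun i =>
    univ.filter fun w => q * (S w ∩ T' i).card < (T' i).card
  have hprod : ∀ (i : ι) (w : G → Bool), ∏ g ∈ T' i, Pick_wt c w g =
      (1 / 2 : ℝ) ^ (S w ∩ T' i).card := by
    intro i w
    unfold Pick_wt
    rw [Finset.prod_ite]
    simp only [Finset.prod_const, one_pow, mul_one]
    congr 2
    ext g
    simp only [S, mem_filter, mem_inter, mem_univ, true_and]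
    exact and_comm
  have hbad : ∀ i, ((bad i).card : ℝ) ≤ (2 : ℝ) ^ (-((m : ℝ) / (L * L * q : ℕ))) *
      2 ^ Fintype.card G := by
    intro i
    set t : ℝ := ((T' i).card : ℝ) with ht
    have h1 := Pick_mom c L hnc (T' i) (hT'2 i)
    have h2 : ((bad i).card : ℝ) * (2 : ℝ) ^ (-(t / q)) ≤
        ∑ w : G → Bool, ∏ g ∈ T' i, Pick_wt c w g := by
      rw [← nsmul_eq_mul, ← Finset.sum_const]
      refine (Finset.sum_le_sum fun w hw => ?_).trans
        (Finset.sum_le_sum_of_subset_of_nonneg (Finset.subset_univ (bad i)) fun w _ _ =>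
          Finset.prod_nonneg fun g _ => Pick_wt_nonneg c w g)
      rw [hprod]
      have h3 : q * (S w ∩ T' i).card < (T' i).card := (mem_filter.mp hw).2
      have h4 : ((S w ∩ T' i).card : ℝ) ≤ t / q := by
        rw [le_div_iff₀ hq0, mul_comm, ht]
        exact_mod_cast h3.le
      have h5 : (1 / 2 : ℝ) ^ (S w ∩ T' i).card = (2 : ℝ) ^ (-((S w ∩ T' i).card : ℝ)) := by
        rw [Real.rpow_neg (by norm_num), Real.rpow_natCast, one_div, inv_pow]
      rw [h5]
      exact Real.rpow_le_rpow_of_exponent_le (by norm_num) (by linarith)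
    have h6 := Pick_theta θ hθ0 q hq1 hq.le (T' i).card
    have h7 : ((bad i).card : ℝ) * (2 : ℝ) ^ (-(t / q)) ≤
        (2 : ℝ) ^ (-(2 * t / q)) * 2 ^ Fintype.card G :=
      h2.trans (h1.trans (mul_le_mul_of_nonneg_right h6 (by positivity)))
    have h8 : (2 : ℝ) ^ (-(2 * t / q)) = (2 : ℝ) ^ (-(t / q)) * (2 : ℝ) ^ (-(t / q)) := by
      rw [← Real.rpow_add (by norm_num)]
      congr 1
      ring
    rw [h8] at h7
    have h9 : (0 : ℝ) < (2 : ℝ) ^ (-(t / q)) := by positivity
    have h10 : ((bad i).card : ℝ) ≤ (2 : ℝ) ^ (-(t / q)) * 2 ^ Fintype.card G := by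
      refine le_of_mul_le_mul_right ?_ h9
      linarith
    refine h10.trans (mul_le_mul_of_nonneg_right ?_ (by positivity))
    refine Real.rpow_le_rpow_of_exponent_le (by norm_num) ?_
    have h11 : (m : ℝ) ≤ (L * L : ℕ) * t := by
      rw [ht]
      exact_mod_cast (hm i).trans (hT'3 i)
    have hLL : (0 : ℝ) < (L * L : ℕ) := by exact_mod_cast Nat.mul_pos hL1 hL1
    rw [neg_le_neg_iff, Nat.cast_mul (L * L) q, div_le_div_iff₀ (by positivity) hq0]
    nlinarith [mul_le_mul_of_nonneg_right h11 hq0.le]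
  -- union bound
  have hex : ∃ w : G → Bool, ∀ i, w ∉ bad i := by
    by_contra hcon
    push Not at hcon
    have h1 : (univ : Finset (G → Bool)) ⊆ univ.biUnion bad := by
      intro w _
      obtain ⟨i, hi⟩ := hcon w
      exact mem_biUnion.mpr ⟨i, mem_univ _, hi⟩
    have h2 := (card_le_card h1).trans card_biUnion_le
    rw [Finset.card_univ, Fintype.card_fun, Fintype.card_bool] at h2
    have h3 : ((2 ^ Fintype.card G : ℕ) : ℝ) ≤ ∑ i, ((bad i).card : ℝ) := by exact_mod_cast h2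
    have h4 : ∑ i, ((bad i).card : ℝ) ≤ Fintype.card ι *
        ((2 : ℝ) ^ (-((m : ℝ) / (L * L * q : ℕ))) * 2 ^ Fintype.card G) := by
      refine (Finset.sum_le_sum fun i _ => hbad i).trans (le_of_eq ?_)
      rw [Finset.sum_const, nsmul_eq_mul, Finset.card_univ]
    have h5 : (Fintype.card ι : ℝ) *
        ((2 : ℝ) ^ (-((m : ℝ) / (L * L * q : ℕ))) * 2 ^ Fintype.card G) < 2 ^ Fintype.card G := by
      have h6 : (0 : ℝ) < (2 : ℝ) ^ (-((m : ℝ) / (L * L * q : ℕ))) := by positivity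
      have h7 : (Fintype.card ι : ℝ) * (2 : ℝ) ^ (-((m : ℝ) / (L * L * q : ℕ))) < 1 := by
        have h8 := mul_lt_mul_of_pos_right hι h6
        rw [← Real.rpow_add (by norm_num), add_neg_cancel, Real.rpow_zero] at h8
        exact h8
      have h9 : (0 : ℝ) < 2 ^ Fintype.card G := by positivity
      nlinarith [mul_lt_mul_of_pos_right h7 h9]
    have h10 : ((2 ^ Fintype.card G : ℕ) : ℝ) = 2 ^ Fintype.card G := by push_cast; rfl
    rw [h10] at h3
    linarith
  obtain ⟨w, hw⟩ := hex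
  refine ⟨S w, ?_, ?_⟩
  · intro g hg h hh hgh hc
    have h1 : Pick_sel c w g := (mem_filter.mp hg).2
    have h2 : Pick_sel c w h := (mem_filter.mp hh).2
    have h3 := h1.2 h hgh.symm hc
    rw [h2.1] at h3
    exact Bool.noConfusion h3
  · intro i
    have h1 : ¬ q * (S w ∩ T' i).card < (T' i).card := fun h =>
      hw i (mem_filter.mpr ⟨mem_univ _, h⟩)
    have h2 : (S w ∩ T' i).card ≤ (S w ∩ T i).card :=
      card_le_card (inter_subset_inter_left (hT'1 i))
    calc (T i).card ≤ L * L * (T' i).card := hT'3 i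
      _ ≤ L * L * (q * (S w ∩ T' i).card) := Nat.mul_le_mul_left _ (not_lt.mp h1)
      _ ≤ L * L * (q * (S w ∩ T i).card) :=
          Nat.mul_le_mul_left _ (Nat.mul_le_mul_left _ h2)
      _ = _ := by ring

end Pool.Agent.EC
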