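import Pool.Agent.EC.St

/-!
# The rank of a product of functions of the pieces of a partition
-/

set_option autoImplicit false

namespace Pool.Agent.EC

open Finset Pool.Agent.WD Pool.Agent.EB
open scoped NNReal

/-- a sum of products indexed by a finite type -/
private lemma rank_of {I J ι : Type} [Fintype ι] {R : ℕ} {M : I → J → ℝ}
    (hc : Fintype.card ι = R) (u : ι → I → ℝ) (v : ι → J → ℝ)
    (h : ∀ y z, M y z = ∑ t, u t y * v t z) : RkM R M := by
  classical
  let e : Fin R ≃ ι := (Fintype.equivFinOfCardEq hc).symm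
  refine ⟨fun t => u (e t), fun t => v (e t), fun y z => ?_⟩
  rw [h y z]
  exact (Equiv.sum_comp e fun t => u t y * v t z).symm

/-- products of matrices, entry by entry -/
private lemma rank_mul {I J : Type} {R S : ℕ} {M N : I → J → ℝ} (hM : RkM R M) (hN : RkM S N) :
    RkM (R * S) fun y z => M y z * N y z := by
  obtain ⟨u, v, h⟩ := hM
  obtain ⟨u', v', h'⟩ := hN
  refine rank_of (ι := Fin R × Fin S) (by simp) (fun t y => u t.1 y * u' t.2 y)
    (fun t z => v t.1 z * v' t.2 z) fun y z => ?_
  rw [h, h', Finset.sum_mul_sum, ← Finset.sum_product', Finset.univ_product_univ]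
  refine Finset.sum_congr rfl fun t _ => ?_
  ring

private lemma rank_swap {I J : Type} {R : ℕ} {M : I → J → ℝ} (h : RkM R fun z y => M y z) :
    RkM R M := by
  obtain ⟨u, v, h⟩ := h
  refine ⟨v, u, fun y z => ?_⟩
  have h1 := h z y
  beta_reduce at h1
  rw [h1]
  exact Finset.sum_congr rfl fun t _ => mul_comm _ _

/-- a matrix which depends on few bits of the row index has small rank -/
private lemma rank_dep {I J : Type} [DecidableEq I] {M : (I → Bool) → J → ℝ}
    (A : Finset I) (h : ∀ y y' z, (∀ i ∈ A, y i = y' i) → M y z = M y' z) :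
    RkM (2 ^ A.card) M := by
  classical
  refine rank_of (ι := A → Bool) (by simp) (fun c y => if (fun i : A => y i) = c then 1 else 0)
    (fun c z => M (fun i => if h : i ∈ A then c ⟨i, h⟩ else false) z) fun y z => ?_
  simp only [ite_mul, one_mul, zero_mul]
  rw [Finset.sum_ite_eq Finset.univ (fun i : A => y i)
    (fun c => M (fun i => if h : i ∈ A then c ⟨i, h⟩ else false) z), if_pos (Finset.mem_univ _)]
  refine h _ _ _ fun i hi => ?_
  rw [dif_pos hi]

/-- products over finite sets -/
private lemma rank_prod {I J κ : Type} [DecidableEq κ] (m : κ → ℕ) (g : κ → I → J → ℝ)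
    (h : ∀ j, RkM (2 ^ m j) (g j)) (s : Finset κ) :
    RkM (2 ^ ∑ j ∈ s, m j) fun y z => ∏ j ∈ s, g j y z := by
  induction s using Finset.induction_on with
  | empty =>
    refine rank_of (ι := Unit) (by simp) (fun _ _ => 1) (fun _ _ => 1) fun y z => ?_
    simp
  | insert j s hj ih =>
    have := rank_mul (h j) ih
    rw [← pow_add] at this
    rw [Finset.sum_insert hj]
    obtain ⟨u, v, h⟩ := this
    refine ⟨u, v, fun y z => ?_⟩
    beta_reduce
    rw [Finset.prod_insert hj]
    exact h y z

/-- counting the variables in the pieces and in the rest -/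
private lemma rank_count {I V : Type} [Fintype I] [DecidableEq V] (a : I → V) {k : ℕ}
    (P : Fin k → Finset V) (hP : ∀ i j, i ≠ j → Disjoint (P i) (P j)) :
    ∑ j, (univ.filter fun i => a i ∈ P j).card + (univ.filter fun i => ∀ j, a i ∉ P j).card =
      Fintype.card I := by
  classical
  have h1 : ∀ j, (univ.filter fun i => a i ∈ P j).card = ∑ i, if a i ∈ P j then 1 else 0 :=
    fun j => Finset.card_filter _ _
  simp only [h1, Finset.card_filter]
  rw [Finset.sum_comm, ← Finset.sum_add_distrib, Fintype.card_eq_sum_ones]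
  refine Finset.sum_congr rfl fun i _ => ?_
  by_cases h : ∃ j, a i ∈ P j
  · obtain ⟨j, hj⟩ := h
    rw [if_neg (fun h => h j hj), add_zero, Finset.sum_eq_single j, if_pos hj]
    · intro l _ hl
      rw [if_neg]
      intro h
      exact Finset.disjoint_left.1 (hP l j hl) h hj
    · intro h
      exact absurd (Finset.mem_univ j) h
  · rw [not_exists] at h
    rw [if_pos h, Finset.sum_eq_zero, zero_add]
    intro l _
    rw [if_neg (h l)]

theorem thm_Rank : St_Rank := by
  intro I V _ _ _ _ a b x ha hb hab xa xb xo k P hP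
  classical
  set α : Fin k → ℕ := fun j => (univ.filter fun i => a i ∈ P j).card with hα
  set β : Fin k → ℕ := fun j => (univ.filter fun i => b i ∈ P j).card with hβ
  set α0 : ℕ := (univ.filter fun i => ∀ j, a i ∉ P j).card with hα0
  set β0 : ℕ := (univ.filter fun i => ∀ j, b i ∉ P j).card with hβ0
  have hA : ∑ j, α j + α0 = Fintype.card I := rank_count a P hP
  have hB : ∑ j, β j + β0 = Fintype.card I := rank_count b P hP
  -- equality of assignments on a set of variables
  have key : ∀ (S : V → Prop) (y z y' z' : I → Bool), (∀ i, S (a i) → y i = y' i) →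
      (∀ i, S (b i) → z i = z' i) → ∀ v, S v → x y z v = x y' z' v := by
    intro S y z y' z' h1 h2 v hv
    by_cases h3 : ∃ i, v = a i
    · obtain ⟨i, rfl⟩ := h3
      rw [xa, xa]; exact h1 i hv
    · by_cases h4 : ∃ i, v = b i
      · obtain ⟨i, rfl⟩ := h4
        rw [xb, xb]; exact h2 i hv
      · rw [not_exists] at h3 h4
        exact xo v h3 h4 y z y' z'
  -- one factor
  have fac : ∀ (S : V → Prop) (A B : Finset I), (∀ i, S (a i) → i ∈ A) → (∀ i, S (b i) → i ∈ B) →
      ∀ (f : (V → Bool) → ℝ), (∀ x y, (∀ v, S v → x v = y v) → f x = f y) →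
      RkM (2 ^ min A.card B.card) fun y z => f (x y z) := by
    intro S A B hA hB f hf
    rcases le_total A.card B.card with h | h
    · rw [min_eq_left h]
      exact rank_dep _ fun y y' z hy => hf _ _ (key S y z y' z (fun i hi => hy i (hA i hi))
        fun _ _ => rfl)
    · rw [min_eq_right h]
      exact rank_swap (rank_dep _ fun z z' y hz => hf _ _ (key S y z y z' (fun _ _ => rfl)
        fun i hi => hz i (hB i hi)))
  refine ⟨∑ j, min (α j) (β j) + min α0 β0, ?_, ?_⟩
  · have hi : ∀ j, imb a b (P j) = (α j : ℤ) - β j := by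
      intro j
      unfold imb
      rw [Finset.sum_sub_distrib, hα, hβ]
      simp only [Finset.card_filter]
      push_cast
      rfl
    have h1 : ∀ j, 2 * min (α j) (β j) + (imb a b (P j)).natAbs = α j + β j := by
      intro j
      rw [hi j]
      omega
    have h2 : 2 * ∑ j, min (α j) (β j) + ∑ j, (imb a b (P j)).natAbs =
        ∑ j, α j + ∑ j, β j := by
      rw [Finset.mul_sum, ← Finset.sum_add_distrib, ← Finset.sum_add_distrib]
      exact Finset.sum_congr rfl fun j _ => h1 j
    have h3 := min_le_left α0 β0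
    have h4 := min_le_right α0 β0
    omega
  · intro f f0 hf hf0
    have h1 : ∀ j, RkM (2 ^ min (α j) (β j)) fun y z => f j (x y z) := fun j =>
      fac (fun v => v ∈ P j) _ _ (fun i hi => Finset.mem_filter.2 ⟨Finset.mem_univ _, hi⟩)
        (fun i hi => Finset.mem_filter.2 ⟨Finset.mem_univ _, hi⟩) (f j) (hf j)
    have h0 : RkM (2 ^ min α0 β0) fun y z => f0 (x y z) :=
      fac (fun v => ∀ j, v ∉ P j) _ _ (fun i hi => Finset.mem_filter.2 ⟨Finset.mem_univ _, hi⟩)
        (fun i hi => Finset.mem_filter.2 ⟨Finset.mem_univ _, hi⟩) f0 hf0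
    have h2 := rank_prod (fun j => min (α j) (β j)) (fun j y z => f j (x y z)) h1 univ
    have h3 := rank_mul h0 h2
    rw [← pow_add, add_comm] at h3
    exact h3

end Pool.Agent.EC
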