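import Pool.Agent.EC.St
import Pool.Agent.EB.Cube

/-!
# EC: runs with slack

Adaptation of `Main_run` in `EB/Main.lean`.
-/

set_option autoImplicit false

namespace Pool.Agent.EC

open Finset Pool.Agent.WD Pool.Agent.EB
open scoped NNReal

/-- the support of the count -/
private theorem Run_supp {V : Type} [Fintype V] [DecidableEq V] (A : Finset (Sym2 V))
    (Y : Finset V) (x : V → Bool) : part A Y x ≠ 0 ↔ ∀ e ∈ A, ∃ v ∈ e, v ∈ Y ∨ x v = true := by
  unfold part
  rw [Nat.cast_ne_zero, card_ne_zero]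
  constructor
  · rintro ⟨y, hy⟩ e he
    obtain ⟨-, h1, h2⟩ := mem_filter.1 hy
    obtain ⟨v, hv, hyv⟩ := h2 e he
    refine ⟨v, hv, ?_⟩
    by_cases hvY : v ∈ Y
    · exact Or.inl hvY
    · exact Or.inr (by rw [← h1 v hvY, hyv])
  · intro h
    refine ⟨Y.piecewise (fun _ => true) x, mem_filter.2 ⟨mem_univ _, ?_, ?_⟩⟩
    · intro v hv
      rw [piecewise_eq_of_notMem _ _ _ hv]
    · intro e he
      obtain ⟨v, hv, h1⟩ := h e he
      refine ⟨v, hv, ?_⟩
      by_cases hvY : v ∈ Y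
      · rw [piecewise_eq_of_mem _ _ _ hvY]
      · rw [piecewise_eq_of_notMem _ _ _ hvY]
        exact h1.resolve_left hvY

/-- [EC Run] -/
theorem thm_Run (hCub : St_Cub) : St_Run := by
  classical
  intro n N E H D t ε c₁ c₂ Q hloop hdeg hH hε1 hε2 ht1 hE hc₁ hc hQ core A Y F r hrun hi
  obtain ⟨i₀, hi₀, hF₀⟩ := hi
  by_contra hcon
  push Not at hcon
  obtain ⟨hN, hno⟩ := hcon
  have hε : 0 < 1 - ε := by linarith
  have ht : (1 : ℝ) ≤ t := by exact_mod_cast ht1
  have hE0 : (0 : ℝ) < E.card := by exact_mod_cast hE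
  have ht0 : (0 : ℝ) < t := by linarith
  -- each model lies in a small cube
  have key : ∀ x ∈ Cube_mod E ∅ (fun _ => true), ∃ i, c₁ * n < ((F i).card : ℝ) ∧
      x ∈ Cube_mod E (F i) (r i) := by
    intro x hx
    have hxE : ∀ e ∈ E, ∃ v ∈ e, x v = true := (Cube_mem.1 hx).1
    have hne : (univ.filter fun i : Fin N => (1 - ε) * E.card < t * ((A i).card : ℝ) ∧
        ∀ v ∈ F i, x v = r i v).Nonempty := by
      refine ⟨i₀, mem_filter.2 ⟨mem_univ _, ?_, ?_⟩⟩
      · rw [hi₀]
        nlinarith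
      · rw [hF₀]
        simp
    set i := (univ.filter fun i : Fin N => (1 - ε) * E.card < t * ((A i).card : ℝ) ∧
        ∀ v ∈ F i, x v = r i v).min' hne with hi
    have him := (mem_filter.1 (min'_mem _ hne)).2
    rw [← hi] at him
    obtain ⟨him1, him2⟩ := him
    have hlt : ∀ j < i, (∀ v ∈ F j, x v = r j v) → t * ((A j).card : ℝ) ≤ (1 - ε) * E.card := by
      intro j hj hxj
      by_contra hcon
      push Not at hcon
      have hj' : j ∈ univ.filter fun i : Fin N => (1 - ε) * E.card < t * ((A i).card : ℝ) ∧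
          ∀ v ∈ F i, x v = r i v := mem_filter.2 ⟨mem_univ _, hcon, hxj⟩
      exact absurd hj (not_lt.2 (min'_le _ j hj'))
    obtain ⟨hcl, hstep⟩ := hrun i
    refine ⟨i, ?_, Cube_mem.2 ⟨hxE, him2⟩⟩
    by_contra hFi
    push Not at hFi
    have hA2 : ((A i).card : ℝ) ≤ (1 - ε / 2) * E.card := by
      rcases hstep with h | h
      · exact absurd him1 (not_lt.2 h)
      · obtain ⟨J, hJt, hJi, hJA⟩ := h x him2 fun e he => hxE e (hcl.1 he)
        have e0 : (A i).card ≤ (A i \ J.biUnion A).card + (J.biUnion A).card := by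
          have h1 := card_le_card (subset_union_left (s₁ := A i) (s₂ := J.biUnion A))
          have h2 := card_sdiff_add_card (A i) (J.biUnion A)
          omega
        have e0' : ((A i).card : ℝ) ≤ ((A i \ J.biUnion A).card : ℝ) + ((J.biUnion A).card : ℝ) := by
          exact_mod_cast e0
        have e1 : (J.biUnion A).card ≤ ∑ j ∈ J, (A j).card := card_biUnion_le
        have e2 : ((J.biUnion A).card : ℝ) ≤ ∑ j ∈ J, ((A j).card : ℝ) := by exact_mod_cast e1
        have e3 : ∑ j ∈ J, ((A j).card : ℝ) ≤ ∑ _j ∈ J, (1 - ε) * E.card / t := by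
          apply sum_le_sum
          intro j hj
          rw [le_div_iff₀ ht0]
          linarith [hlt j (hJi j hj).1 (hJi j hj).2]
        rw [sum_const, nsmul_eq_mul] at e3
        have e4 : (J.card : ℝ) ≤ t := by exact_mod_cast hJt
        have e5 : (J.card : ℝ) * ((1 - ε) * E.card / t) ≤ t * ((1 - ε) * E.card / t) :=
          mul_le_mul_of_nonneg_right e4 (div_nonneg (mul_nonneg hε.le hE0.le) ht0.le)
        have e6 : (t : ℝ) * ((1 - ε) * E.card / t) = (1 - ε) * E.card := by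
          field_simp
        linarith
    have hr : part (A i) (Y i) x ≠ 0 := by
      rw [Run_supp]
      intro e he
      obtain ⟨v, hv, hxv⟩ := hxE e (hcl.1 he)
      exact ⟨v, hv, Or.inr hxv⟩
    exact hno i (hQ _ _ _ x (r i) him2 (core (A i) (Y i) hcl him1.le hA2 (F i) x hFi hr))
  -- the number of models
  set M := (Cube_mod E ∅ (fun _ => true)).card with hM
  have hM0 : 0 < M := by
    rw [hM, card_pos]
    refine ⟨fun _ => true, Cube_mem.2 ⟨?_, by simp⟩⟩
    intro e _
    induction e using Sym2.inductionOn with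
    | hf a b => exact ⟨a, Sym2.mem_mk_left _ _, rfl⟩
  set q : ℝ := 1 - 1 / (2 : ℝ) ^ (D + 1) with hq
  have h2C : (2 : ℝ) ≤ 2 ^ (D + 1) := by
    calc (2 : ℝ) = 2 ^ 1 := by norm_num
      _ ≤ 2 ^ (D + 1) := pow_le_pow_right₀ (by norm_num) (by omega)
  have h2C0 : (0 : ℝ) < 2 ^ (D + 1) := by positivity
  have hq0 : 0 < q := by
    rw [hq, sub_pos, div_lt_one h2C0]
    linarith
  have hq1 : q < 1 := by
    rw [hq]
    have : 0 < 1 / (2 : ℝ) ^ (D + 1) := by positivity
    linarith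
  set l := Real.logb 2 (1 / q) with hl
  have hl0 : 0 < l := Real.logb_pos (by norm_num) (by rw [lt_div_iff₀ hq0]; linarith)
  have h2l : (2 : ℝ) ^ (-l) = q := by
    rw [Real.rpow_neg (by norm_num), hl, Real.rpow_logb (by norm_num) (by norm_num) (by positivity)]
    rw [one_div, inv_inv]
  have hcube : ∀ i, c₁ * n < ((F i).card : ℝ) →
      ((Cube_mod E (F i) (r i)).card : ℝ) ≤ (2 : ℝ) ^ (-(c₂ * n)) * M := by
    intro i hi
    obtain ⟨m, hm1, hm2⟩ := hCub (Fin n) E hloop (F i \ H) (r i) D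
      (fun v hv => hdeg v (mem_sdiff.1 hv).2)
    have hM' : Cube_mod E ∅ (r i) = Cube_mod E ∅ (fun _ => true) := by
      ext x
      rw [Cube_mem, Cube_mem]
      simp
    rw [hM', ← hM] at hm2
    have hle : (Cube_mod E (F i) (r i)).card ≤ (Cube_mod E (F i \ H) (r i)).card := by
      apply card_le_card
      intro x hx
      rw [Cube_mem] at hx ⊢
      exact ⟨hx.1, fun v hv => hx.2 v (mem_sdiff.1 hv).1⟩
    have hm3' : (2 ^ (D + 1)) ^ m * (Cube_mod E (F i) (r i)).card ≤
        (2 ^ (D + 1) - 1) ^ m * M := (Nat.mul_le_mul_left _ hle).trans hm2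
    have e1 : ((2 : ℝ) ^ (D + 1)) ^ m * (Cube_mod E (F i) (r i)).card ≤
        ((2 : ℝ) ^ (D + 1) - 1) ^ m * M := by
      have h3 : 1 ≤ 2 ^ (D + 1) := Nat.one_le_two_pow
      have : (((2 ^ (D + 1)) ^ m * (Cube_mod E (F i) (r i)).card : ℕ) : ℝ) ≤
          (((2 ^ (D + 1) - 1) ^ m * M : ℕ) : ℝ) := by exact_mod_cast hm3'
      push_cast [Nat.cast_sub h3] at this
      exact this
    have e2 : ((2 : ℝ) ^ (D + 1) - 1) = q * 2 ^ (D + 1) := by
      rw [hq]
      field_simp
    rw [e2, mul_pow] at e1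
    have e3 : ((Cube_mod E (F i) (r i)).card : ℝ) ≤ q ^ m * M := by
      have h4 : (0 : ℝ) < ((2 : ℝ) ^ (D + 1)) ^ m := by positivity
      have h5 : ((2 : ℝ) ^ (D + 1)) ^ m * (Cube_mod E (F i) (r i)).card ≤
          ((2 : ℝ) ^ (D + 1)) ^ m * (q ^ m * M) := by
        calc _ ≤ _ := e1
          _ = _ := by ring
      exact le_of_mul_le_mul_left h5 h4
    refine e3.trans (mul_le_mul_of_nonneg_right ?_ (Nat.cast_nonneg _))
    rw [← Real.rpow_natCast, ← h2l, ← Real.rpow_mul (by norm_num)]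
    apply Real.rpow_le_rpow_of_exponent_le (by norm_num)
    have hFH : (F i).card ≤ (F i \ H).card + H.card := by
      have h1 := card_le_card (subset_union_left (s₁ := F i) (s₂ := H))
      have h2 := card_sdiff_add_card (F i) H
      omega
    have hFH' : ((F i).card : ℝ) ≤ ((F i \ H).card : ℝ) + H.card := by exact_mod_cast hFH
    have hm3 : ((F i \ H).card : ℝ) ≤ (D + 1) * m := by exact_mod_cast hm1
    have hC1 : (0 : ℝ) < 2 * (D + 1) := by positivity
    have e5 : c₁ / (2 * (D + 1)) * n ≤ m := by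
      rw [div_mul_eq_mul_div, div_le_iff₀ hC1]
      linarith
    have e6 : c₂ * n ≤ c₁ / (2 * (D + 1)) * l * n :=
      mul_le_mul_of_nonneg_right hc (Nat.cast_nonneg _)
    have e7 : c₁ / (2 * (D + 1)) * n * l ≤ m * l := mul_le_mul_of_nonneg_right e5 hl0.le
    nlinarith
  have hsub : Cube_mod E ∅ (fun _ => true) ⊆ (univ.filter fun i : Fin N =>
      c₁ * n < ((F i).card : ℝ)).biUnion fun i => Cube_mod E (F i) (r i) := by
    intro x hx
    obtain ⟨i, hi1, hi2⟩ := key x hx
    exact mem_biUnion.2 ⟨i, mem_filter.2 ⟨mem_univ _, hi1⟩, hi2⟩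
  have h1 : (M : ℝ) ≤ ∑ i ∈ univ.filter (fun i : Fin N => c₁ * n < ((F i).card : ℝ)),
      ((Cube_mod E (F i) (r i)).card : ℝ) := by
    have := (card_le_card hsub).trans card_biUnion_le
    rw [← hM] at this
    exact_mod_cast this
  have h2 : ∑ i ∈ univ.filter (fun i : Fin N => c₁ * n < ((F i).card : ℝ)),
      ((Cube_mod E (F i) (r i)).card : ℝ) ≤ N * ((2 : ℝ) ^ (-(c₂ * n)) * M) := by
    refine (sum_le_card_nsmul _ _ _ fun i hi => hcube i (mem_filter.1 hi).2).trans ?_
    rw [nsmul_eq_mul]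
    apply mul_le_mul_of_nonneg_right _ (by positivity)
    have : (univ.filter (fun i : Fin N => c₁ * n < ((F i).card : ℝ))).card ≤ N := by
      refine (card_le_univ _).trans ?_
      rw [Fintype.card_fin]
    exact_mod_cast this
  have h3 : (M : ℝ) ≤ N * ((2 : ℝ) ^ (-(c₂ * n)) * M) := h1.trans h2
  have hM1 : (0 : ℝ) < M := by exact_mod_cast hM0
  have h4 : (N : ℝ) * (2 : ℝ) ^ (-(c₂ * n)) < 1 := by
    rw [Real.rpow_neg (by norm_num), ← div_eq_mul_inv, div_lt_one (by positivity)]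
    exact hN
  nlinarith

end Pool.Agent.EC
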