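import Pool.Agent.EC.St
import Pool.Agent.EB.Sel1
import Pool.Agent.EB.Xp

/-!
# EC: gadgets for balanced cuts, with an explicit constant

Adaptation of `EB/Sel1.lean`, `EB/Sel2.lean` and of `Fin_sel` in `EB/Fin.lean`.
-/

set_option autoImplicit false

namespace Pool.Agent.EC

open Finset Pool.Agent.WD Pool.Agent.EB
open scoped NNReal

/-- the number of vertices without neighbours in a large set is small -/
private lemma SelX_few {k n D : ℕ} {E : Finset (Sym2 (Fin n))} (hG : PG k n D E)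
    (Y T : Finset (Fin n)) (hd : Disjoint Y T) (hT : n ≤ 20000 * k * T.card) :
    20000 * k * (Y.filter fun e => ∀ v ∈ T, s(e, v) ∉ E).card < n := by
  classical
  by_contra hcon
  push Not at hcon
  obtain ⟨u, hu, v, hv, huv⟩ := hG.G1 (Y.filter fun e => ∀ v ∈ T, s(e, v) ∉ E) T
    (hd.mono_left (filter_subset _ _)) hcon hT
  exact (mem_filter.mp hu).2 v hv huv

/-- gadgets, many eliminated variables -/
private theorem SelX_1 (k D n : ℕ) (E A : Finset (Sym2 (Fin n))) (Y : Finset (Fin n))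
    (hG : PG k n D E) (hY : 3 * n ≤ 20000 * k * Y.card)
    (P Q : Finset (Fin n)) (hPQ : Disjoint P Q) (hPY : Disjoint P Y) (hQY : Disjoint Q Y)
    (hP : n ≤ 3000 * k * P.card) (hQ : n ≤ 3000 * k * Q.card) :
    ∃ J : Finset (Gad (Fin n)), (∀ g ∈ J, IsGad E A Y D g ∧ g.p ∈ P ∧ g.q ∈ Q) ∧
      (∀ g ∈ J, ∀ h ∈ J, g ≠ h → Disjoint g.R h.R) ∧
      n ≤ (20000 * k * ((D + 1) * (2 * D + 3) * (D + 1) ^ 4)) * J.card := by
  classical
  have sw : ∀ {u v : Fin n}, s(u, v) ∈ E → s(v, u) ∈ E := fun {u v} h => by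
    rwa [Sym2.eq_swap]
  -- the bad vertices
  set YP := Y.filter fun e => ∀ v ∈ P, s(e, v) ∉ E with hYP
  set YQ := Y.filter fun e => ∀ v ∈ Q, s(e, v) ∉ E with hYQ
  have c1 : 20000 * k * YP.card < n := SelX_few hG Y P hPY.symm (by nlinarith)
  have c2 : 20000 * k * YQ.card < n := SelX_few hG Y Q hQY.symm (by nlinarith)
  let bad : Finset (Fin n) := univ.filter fun p => p ∉ Y ∧ ∃ e' ∈ Y, s(e', p) ∈ E ∧
    ∀ v, v ∉ Y → s(e', v) ∈ E → v = p
  have hbad : ∀ p, p ∈ bad ↔ p ∉ Y ∧ ∃ e' ∈ Y, s(e', p) ∈ E ∧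
      ∀ v, v ∉ Y → s(e', v) ∈ E → v = p := by
    intro p
    show p ∈ univ.filter _ ↔ _
    rw [mem_filter]
    exact ⟨fun h => h.2, fun h => ⟨mem_univ _, h⟩⟩
  have hbc : bad.card ≤ (YP ∪ YQ).card := by
    have h1 : ∀ p : Fin n, ∃ e', p ∈ bad → e' ∈ Y ∧ s(e', p) ∈ E ∧
        ∀ v, v ∉ Y → s(e', v) ∈ E → v = p := by
      intro p
      by_cases h : p ∈ bad
      · obtain ⟨-, e', h1, h2, h3⟩ := (hbad p).mp h
        exact ⟨e', fun _ => ⟨h1, h2, h3⟩⟩
      · exact ⟨p, fun h' => absurd h' h⟩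
    choose f hf using h1
    refine card_le_card_of_injOn f (fun p hp => ?_) fun p hp p' hp' hpp => ?_
    · obtain ⟨h1, h2, h3⟩ := hf p hp
      rw [Finset.mem_coe, mem_union]
      by_cases hpP : p ∈ P
      · right
        rw [hYQ, mem_filter]
        refine ⟨h1, fun v hv hev => ?_⟩
        have h4 := h3 v (Finset.disjoint_left.mp hQY hv) hev
        rw [h4] at hv
        exact Finset.disjoint_left.mp hPQ hpP hv
      · left
        rw [hYP, mem_filter]
        refine ⟨h1, fun v hv hev => ?_⟩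
        have h4 := h3 v (Finset.disjoint_left.mp hPY hv) hev
        rw [h4] at hv
        exact hpP hv
    · have h2 := (hf p hp).2.1
      rw [hpp] at h2
      exact (hf p' hp').2.2 p ((hbad p).mp hp).1 h2
  have hbc' : bad.card ≤ YP.card + YQ.card := hbc.trans (card_union_le _ _)
  have good : ∀ p, p ∉ Y → p ∉ bad → ∀ e' ∈ Y, s(e', p) ∈ E →
      ∃ v, v ∉ Y ∧ s(e', v) ∈ E ∧ v ≠ p := by
    intro p hp hpb e' he' hep
    by_contra hcon
    push Not at hcon
    exact hpb ((hbad p).mpr ⟨hp, e', he', hep, fun v h1 h2 => hcon v h1 h2⟩)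
  -- the good vertices
  have hP1 : n ≤ 20000 * k * (P \ bad).card := by
    have h1 := card_sdiff_add_card P bad
    have h2 : P.card ≤ (P \ bad).card + bad.card := by
      have := card_le_card (subset_union_left (s₁ := P) (s₂ := bad))
      omega
    nlinarith
  have hQ1 : n ≤ 20000 * k * (Q \ bad).card := by
    have h1 := card_sdiff_add_card Q bad
    have h2 : Q.card ≤ (Q \ bad).card + bad.card := by
      have := card_le_card (subset_union_left (s₁ := Q) (s₂ := bad))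
      omega
    nlinarith
  have c3 : 20000 * k * (Y.filter fun e => ∀ v ∈ P \ bad, s(e, v) ∉ E).card < n :=
    SelX_few hG Y _ (hPY.symm.mono_right sdiff_subset) hP1
  have c4 : 20000 * k * (Y.filter fun e => ∀ v ∈ Q \ bad, s(e, v) ∉ E).card < n :=
    SelX_few hG Y _ (hQY.symm.mono_right sdiff_subset) hQ1
  set Y1 := Y.filter fun e => (∃ p ∈ P \ bad, s(e, p) ∈ E) ∧ ∃ q ∈ Q \ bad, s(e, q) ∈ E with hY1
  have hY1c : n ≤ 20000 * k * Y1.card := by
    have h1 : Y ⊆ Y1 ∪ ((Y.filter fun e => ∀ v ∈ P \ bad, s(e, v) ∉ E) ∪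
        (Y.filter fun e => ∀ v ∈ Q \ bad, s(e, v) ∉ E)) := by
      intro e he
      rw [mem_union, mem_union, hY1, mem_filter, mem_filter, mem_filter]
      by_cases h1 : ∃ p ∈ P \ bad, s(e, p) ∈ E
      · by_cases h2 : ∃ q ∈ Q \ bad, s(e, q) ∈ E
        · exact Or.inl ⟨he, h1, h2⟩
        · push Not at h2
          exact Or.inr (Or.inr ⟨he, h2⟩)
      · push Not at h1
        exact Or.inr (Or.inl ⟨he, h1⟩)
    have h2 := (card_le_card h1).trans (card_union_le _ _)
    have h3 := h2.trans (Nat.add_le_add_left (card_union_le _ _) _)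
    nlinarith
  -- the gadgets
  have hg : ∀ e : Fin n, ∃ g : Gad (Fin n), e ∈ Y1 → IsGad E A Y D g ∧ g.p ∈ P ∧ g.q ∈ Q ∧
      ∀ v ∈ g.R, e ∈ Sel1_ball E v := by
    intro e
    by_cases he : e ∈ Y1
    · rw [hY1, mem_filter] at he
      obtain ⟨heY, ⟨p, hp, hep⟩, q, hq, heq⟩ := he
      rw [mem_sdiff] at hp hq
      have hpY : p ∉ Y := Finset.disjoint_left.mp hPY hp.1
      have hqY : q ∉ Y := Finset.disjoint_left.mp hQY hq.1
      have hpq : p ≠ q := by
        rintro rfl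
        exact Finset.disjoint_left.mp hPQ hp.1 hq.1
      obtain ⟨g, g1, g2, g3, g4⟩ := Sel1_gad (A := A) hG heY hpY hqY hpq hep heq
        (good p hpY hp.2) (good q hqY hq.2)
      exact ⟨g, fun _ => ⟨g1, g2 ▸ hp.1, g3 ▸ hq.1, g4⟩⟩
    · exact ⟨⟨e, e, ∅, ∅⟩, fun h => absurd h he⟩
  choose g hg using hg
  obtain ⟨J, hJ1, hJ2, hJ3⟩ := Sel1_greedy Y1 (fun a b => ¬ Disjoint (g a).R (g b).R)
    (fun a b h h' => h h'.symm) ((D + 1) * (2 * D + 3) * (D + 1) ^ 4)
    (fun a => (g a).R.biUnion (Sel1_ball E))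
    (fun a ha => by
      refine (card_biUnion_le_card_mul _ _ _ fun v _ => Sel1_ball_card E D hG.deg v).trans ?_
      exact Nat.mul_le_mul_right _ (hg a ha).1.Rc)
    (fun a _ b hb hab => by
      rw [Finset.not_disjoint_iff] at hab
      obtain ⟨v, hv1, hv2⟩ := hab
      rw [mem_biUnion]
      exact ⟨v, hv1, (hg b hb).2.2.2 v hv2⟩)
    (fun a ha h => by
      have h1 := (hg a ha).1.pR
      exact Finset.disjoint_left.mp h h1 h1)
  have hJ2' : ∀ a ∈ J, ∀ b ∈ J, a ≠ b → Disjoint (g a).R (g b).R := fun a ha b hb hab =>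
    not_not.mp (hJ2 a ha b hb hab)
  refine ⟨J.image g, ?_, ?_, ?_⟩
  · intro x hx
    obtain ⟨e, he, rfl⟩ := mem_image.mp hx
    have h1 := hg e (hJ1 he)
    exact ⟨h1.1, h1.2.1, h1.2.2.1⟩
  · intro x hx y hy hxy
    obtain ⟨e, he, rfl⟩ := mem_image.mp hx
    obtain ⟨e', he', rfl⟩ := mem_image.mp hy
    exact hJ2' e he e' he' fun h => hxy (by rw [h])
  · have h1 : (J.image g).card = J.card := by
      refine card_image_of_injOn fun a ha b hb hab => ?_
      by_contra hne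
      have h2 := hJ2' a ha b hb hne
      have h3 := (hg a (hJ1 ha)).1.pR
      have h4 : (g a).p ∈ (g b).R := by
        have h5 : g a = g b := hab
        rw [← h5]
        exact h3
      exact Finset.disjoint_left.mp h2 h3 h4
    rw [h1]
    calc n ≤ 20000 * k * Y1.card := hY1c
      _ ≤ 20000 * k * ((D + 1) * (2 * D + 3) * (D + 1) ^ 4 * J.card) :=
          Nat.mul_le_mul_left _ hJ3
      _ = _ := by ring

section

set_option linter.unusedSectionVars false

variable {V : Type} [Fintype V] [DecidableEq V]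

private def SelX_R (E : Finset (Sym2 V)) (Y : Finset V) (a : V × V) : Finset V :=
  (insert a.1 (insert a.2 (nb E a.1 ∪ nb E a.2))) \ Y

private def SelX_g (E : Finset (Sym2 V)) (Y : Finset V) (a : V × V) : Gad V :=
  ⟨a.1, a.2, SelX_R E Y a, ∅⟩

private theorem SelX_nb (E : Finset (Sym2 V)) (v w : V) : w ∈ nb E v ↔ s(v, w) ∈ E := by
  unfold nb
  rw [Finset.mem_filter]
  exact ⟨fun h => h.2, fun h => ⟨mem_univ _, h⟩⟩

private theorem SelX_card (E : Finset (Sym2 V)) (Y : Finset V) (D : ℕ)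
    (hD : ∀ v, (nb E v).card ≤ D) (a : V × V) : (SelX_R E Y a).card ≤ 2 * D + 2 := by
  unfold SelX_R
  refine (Finset.card_le_card Finset.sdiff_subset).trans ?_
  have h1 := Finset.card_insert_le a.1 (insert a.2 (nb E a.1 ∪ nb E a.2))
  have h2 := Finset.card_insert_le a.2 (nb E a.1 ∪ nb E a.2)
  have h3 := Finset.card_union_le (nb E a.1) (nb E a.2)
  have h4 := hD a.1
  have h5 := hD a.2
  omega

private theorem SelX_isGad (E A : Finset (Sym2 V)) (Y : Finset V) (D : ℕ) (hAE : A ⊆ E)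
    (hloop : ∀ e ∈ E, ¬ e.IsDiag) (hD : ∀ v, (nb E v).card ≤ D) (a : V × V)
    (ha : s(a.1, a.2) ∈ A ∧ a.1 ∉ Y ∧ a.2 ∉ Y) : IsGad E A Y D (SelX_g E Y a) where
  pR := by
    show a.1 ∈ SelX_R E Y a
    unfold SelX_R
    rw [Finset.mem_sdiff]
    exact ⟨Finset.mem_insert_self _ _, ha.2.1⟩
  qR := by
    show a.2 ∈ SelX_R E Y a
    unfold SelX_R
    rw [Finset.mem_sdiff]
    exact ⟨Finset.mem_insert_of_mem (Finset.mem_insert_self _ _), ha.2.2⟩
  pq := by
    show a.1 ≠ a.2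
    intro h
    exact hloop _ (hAE ha.1) (Sym2.mk_isDiag_iff.2 h)
  CR := Finset.empty_subset _
  pC := Finset.notMem_empty _
  qC := Finset.notMem_empty _
  RY := by
    show Disjoint (SelX_R E Y a) Y
    unfold SelX_R
    exact Finset.sdiff_disjoint
  Cc := by
    show (∅ : Finset V).card ≤ 2 * D
    simp
  Rc := by
    show (SelX_R E Y a).card ≤ (D + 1) * (2 * D + 3)
    refine (SelX_card E Y D hD a).trans ?_
    nlinarith
  near := by
    intro u v hu hv huv
    show v ∈ SelX_R E Y a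
    unfold SelX_R
    rw [Finset.mem_sdiff]
    refine ⟨?_, hv⟩
    rcases hu with hu | hu | hu
    · exact absurd hu (Finset.notMem_empty _)
    · have hu' : u = a.1 := hu
      subst hu'
      exact Finset.mem_insert_of_mem (Finset.mem_insert_of_mem
        (Finset.mem_union_left _ ((SelX_nb E _ _).2 huv)))
    · have hu' : u = a.2 := hu
      subst hu'
      exact Finset.mem_insert_of_mem (Finset.mem_insert_of_mem
        (Finset.mem_union_right _ ((SelX_nb E _ _).2 huv)))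
  typ := Or.inr ⟨rfl, ha.1⟩

private def SelX_P (E : Finset (Sym2 V)) (v : V) : Finset (V × V) :=
  (insert v (nb E v)).biUnion (fun p => (nb E p).image (fun q => (p, q))) ∪
    (insert v (nb E v)).biUnion (fun q => (nb E q).image (fun p => (p, q)))

private theorem SelX_P_card (E : Finset (Sym2 V)) (D : ℕ) (hD : ∀ v, (nb E v).card ≤ D) (v : V) :
    (SelX_P E v).card ≤ 2 * ((D + 1) * D) := by
  unfold SelX_P
  have h0 : (insert v (nb E v)).card ≤ D + 1 :=
    (Finset.card_insert_le _ _).trans (Nat.succ_le_succ (hD v))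
  have h1 : ((insert v (nb E v)).biUnion (fun p => (nb E p).image (fun q => (p, q)))).card ≤
      (D + 1) * D :=
    (Finset.card_biUnion_le_card_mul _ _ D fun p _ => Finset.card_image_le.trans (hD p)).trans
      (Nat.mul_le_mul_right _ h0)
  have h2 : ((insert v (nb E v)).biUnion (fun q => (nb E q).image (fun p => (p, q)))).card ≤
      (D + 1) * D :=
    (Finset.card_biUnion_le_card_mul _ _ D fun p _ => Finset.card_image_le.trans (hD p)).trans
      (Nat.mul_le_mul_right _ h0)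
  have h3 := Finset.card_union_le
    ((insert v (nb E v)).biUnion (fun p => (nb E p).image (fun q => (p, q))))
    ((insert v (nb E v)).biUnion (fun q => (nb E q).image (fun p => (p, q))))
  omega

private theorem SelX_mem_P (E : Finset (Sym2 V)) (Y : Finset V) (v : V) (a : V × V)
    (ha : s(a.1, a.2) ∈ E) (hv : v ∈ SelX_R E Y a) : a ∈ SelX_P E v := by
  have ha' : s(a.2, a.1) ∈ E := by rw [Sym2.eq_swap]; exact ha
  unfold SelX_R at hv
  rw [Finset.mem_sdiff, Finset.mem_insert, Finset.mem_insert, Finset.mem_union, SelX_nb,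
    SelX_nb] at hv
  unfold SelX_P
  rw [Finset.mem_union, Finset.mem_biUnion, Finset.mem_biUnion]
  have hL : a.1 ∈ insert v (nb E v) → ∃ p ∈ insert v (nb E v),
      a ∈ (nb E p).image (fun q => (p, q)) := fun h =>
    ⟨a.1, h, Finset.mem_image.2 ⟨a.2, (SelX_nb E _ _).2 ha, rfl⟩⟩
  have hR : a.2 ∈ insert v (nb E v) → ∃ q ∈ insert v (nb E v),
      a ∈ (nb E q).image (fun p => (p, q)) := fun h =>
    ⟨a.2, h, Finset.mem_image.2 ⟨a.1, (SelX_nb E _ _).2 ha', rfl⟩⟩
  rcases hv.1 with h | h | h | h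
  · exact Or.inl (hL (by rw [h]; exact Finset.mem_insert_self _ _))
  · exact Or.inr (hR (by rw [h]; exact Finset.mem_insert_self _ _))
  · exact Or.inl (hL (Finset.mem_insert_of_mem ((SelX_nb E _ _).2 (by rw [Sym2.eq_swap]; exact h))))
  · exact Or.inr (hR (Finset.mem_insert_of_mem ((SelX_nb E _ _).2 (by rw [Sym2.eq_swap]; exact h))))

private theorem SelX_2 (D : ℕ) (E A : Finset (Sym2 V)) (Y : Finset V) (hAE : A ⊆ E)
    (hloop : ∀ e ∈ E, ¬ e.IsDiag) (hD : ∀ v, (nb E v).card ≤ D) (X : Finset (V × V))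
    (hX : ∀ e ∈ X, s(e.1, e.2) ∈ A ∧ e.1 ∉ Y ∧ e.2 ∉ Y) :
    ∃ J : Finset (Gad V), (∀ g ∈ J, IsGad E A Y D g ∧ (g.p, g.q) ∈ X) ∧
      (∀ g ∈ J, ∀ h ∈ J, g ≠ h → Disjoint g.R h.R) ∧
      X.card ≤ ((2 * D + 2) * (2 * ((D + 1) * D))) * J.card := by
  classical
  -- a maximal subfamily
  set PP : Finset (Finset (V × V)) := X.powerset.filter
    (fun Z => ∀ a ∈ Z, ∀ b ∈ Z, a ≠ b → Disjoint (SelX_R E Y a) (SelX_R E Y b)) with hPP
  have hne : PP.Nonempty := by
    refine ⟨∅, ?_⟩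
    rw [hPP, Finset.mem_filter]
    exact ⟨Finset.empty_mem_powerset _, fun a ha => absurd ha (Finset.notMem_empty _)⟩
  obtain ⟨Z, hZ, hmax⟩ := Finset.exists_max_image PP Finset.card hne
  rw [hPP, Finset.mem_filter, Finset.mem_powerset] at hZ
  obtain ⟨hZX, hZd⟩ := hZ
  have hinj : Function.Injective (SelX_g E Y) := by
    intro a b hab
    have h1 : (SelX_g E Y a).p = (SelX_g E Y b).p := by rw [hab]
    have h2 : (SelX_g E Y a).q = (SelX_g E Y b).q := by rw [hab]
    exact Prod.ext h1 h2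
  have hmeet : ∀ e ∈ X, ∃ a ∈ Z, ¬ Disjoint (SelX_R E Y e) (SelX_R E Y a) := by
    intro e he
    by_cases heZ : e ∈ Z
    · refine ⟨e, heZ, ?_⟩
      rw [disjoint_self]
      intro h0
      have h1 := (SelX_isGad E A Y D hAE hloop hD e (hX e he)).pR
      have h2 : e.1 ∈ SelX_R E Y e := h1
      rw [h0] at h2
      exact absurd h2 (Finset.notMem_empty _)
    · by_contra hcon
      push Not at hcon
      have hins : insert e Z ∈ PP := by
        rw [hPP, Finset.mem_filter, Finset.mem_powerset]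
        refine ⟨Finset.insert_subset he hZX, ?_⟩
        intro a ha b hb hab
        rcases Finset.mem_insert.1 ha with ha' | ha'
        · rcases Finset.mem_insert.1 hb with hb' | hb'
          · exact absurd (ha'.trans hb'.symm) hab
          · rw [ha']; exact hcon b hb'
        · rcases Finset.mem_insert.1 hb with hb' | hb'
          · rw [hb']; exact (hcon a ha').symm
          · exact hZd a ha' b hb' hab
      have h1 := hmax _ hins
      rw [Finset.card_insert_of_notMem heZ] at h1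
      omega
  refine ⟨Z.image (SelX_g E Y), ?_, ?_, ?_⟩
  · intro g hg
    obtain ⟨a, ha, rfl⟩ := Finset.mem_image.1 hg
    exact ⟨SelX_isGad E A Y D hAE hloop hD a (hX a (hZX ha)), hZX ha⟩
  · intro g hg h hh hgh
    obtain ⟨a, ha, rfl⟩ := Finset.mem_image.1 hg
    obtain ⟨b, hb, rfl⟩ := Finset.mem_image.1 hh
    exact hZd a ha b hb fun e => hgh (by rw [e])
  · rw [Finset.card_image_of_injective _ hinj]
    have hsub : X ⊆ Z.biUnion (fun a => (SelX_R E Y a).biUnion (SelX_P E)) := by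
      intro e he
      obtain ⟨a, ha, hd⟩ := hmeet e he
      rw [Finset.not_disjoint_iff] at hd
      obtain ⟨v, hv1, hv2⟩ := hd
      rw [Finset.mem_biUnion]
      refine ⟨a, ha, ?_⟩
      rw [Finset.mem_biUnion]
      exact ⟨v, hv2, SelX_mem_P E Y v e (hAE (hX e he).1) hv1⟩
    refine (Finset.card_le_card hsub).trans ?_
    refine (Finset.card_biUnion_le_card_mul _ _ ((2 * D + 2) * (2 * ((D + 1) * D))) ?_).trans
      (le_of_eq (Nat.mul_comm _ _))
    intro a _
    refine (Finset.card_biUnion_le_card_mul _ _ _ fun v _ => SelX_P_card E D hD v).trans ?_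
    exact Nat.mul_le_mul_right _ (SelX_card E Y D hD a)

end

private theorem SelX_c1 (k D : ℕ) :
    20000 * k * ((D + 1) * (2 * D + 3) * (D + 1) ^ 4) ≤ Lc k D := by
  unfold Lc
  have h1 : (D + 1) * (2 * D + 3) * (D + 1) ^ 4 ≤ 3 * (D + 1) ^ 6 := by
    have h2 : (D + 1) * (2 * D + 3) * (D + 1) ^ 4 = (2 * D + 3) * (D + 1) ^ 5 := by ring
    rw [h2]
    calc (2 * D + 3) * (D + 1) ^ 5 ≤ (3 * (D + 1)) * (D + 1) ^ 5 :=
          Nat.mul_le_mul_right _ (by omega)
      _ = 3 * (D + 1) ^ 6 := by ring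
  have h3 : (D + 1) ^ 6 ≤ (D + 1) ^ 12 := Nat.pow_le_pow_right (by omega) (by norm_num)
  calc 20000 * k * ((D + 1) * (2 * D + 3) * (D + 1) ^ 4) ≤ 20000 * k * (3 * (D + 1) ^ 12) :=
        Nat.mul_le_mul_left _ (h1.trans (Nat.mul_le_mul_left _ h3))
    _ = 60000 * (k * (D + 1) ^ 12) := by ring
    _ ≤ 10 ^ 6 * (k * (D + 1) ^ 12) := Nat.mul_le_mul_right _ (by norm_num)
    _ = 10 ^ 6 * k * (D + 1) ^ 12 := by ring

private theorem SelX_c2 (k D : ℕ) (hk : 1 ≤ k) :
    (2 * D + 2) * (2 * ((D + 1) * D)) ≤ Lc k D := by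
  unfold Lc
  have h1 : (2 * D + 2) * (2 * ((D + 1) * D)) ≤ 4 * (D + 1) ^ 3 := by
    calc (2 * D + 2) * (2 * ((D + 1) * D)) ≤ (2 * D + 2) * (2 * ((D + 1) * (D + 1))) :=
          Nat.mul_le_mul_left _ (Nat.mul_le_mul_left _ (Nat.mul_le_mul_left _ (by omega)))
      _ = 4 * (D + 1) ^ 3 := by ring
  have h3 : (D + 1) ^ 3 ≤ (D + 1) ^ 12 := Nat.pow_le_pow_right (by omega) (by norm_num)
  calc (2 * D + 2) * (2 * ((D + 1) * D)) ≤ 4 * (D + 1) ^ 12 :=
        h1.trans (Nat.mul_le_mul_left _ h3)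
    _ ≤ (10 ^ 6 * k) * (D + 1) ^ 12 := Nat.mul_le_mul_right _ (by omega)

/-- [EC SelX] gadgets for a balanced cut -/
theorem thm_SelX : St_SelX := by
  classical
  intro k D n E A Y hk hn hG hAE hclo hA1 hA2
  -- the complement of `Y` is large
  have hXbig : n ≤ 1000 * k * Yᶜ.card := by
    rcases hA2 with hA2 | hA2
    swap
    · nlinarith [Nat.zero_le (k * Yᶜ.card)]
    by_contra hcon
    push Not at hcon
    have h2 := hG.G2 Yᶜ hcon.le
    have h3 : E \ A ⊆ E.filter fun e => ∀ v ∈ e, v ∈ Yᶜ := by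
      intro e he
      rw [mem_sdiff] at he
      rw [mem_filter]
      refine ⟨he.1, fun v hv => ?_⟩
      rw [mem_compl]
      intro hvY
      exact he.2 (hclo e he.1 v hvY hv)
    have h4 := card_le_card h3
    have h5 : (E \ A).card = E.card - A.card := card_sdiff_of_subset hAE
    have h6 := card_le_card hAE
    have h7 := hG.big
    have h8 : E.card ≤ k * (E \ A).card := by
      rw [h5, Nat.mul_sub]
      omega
    have h9 : E.card ≤ k * (40000 * n) := h8.trans (Nat.mul_le_mul_left _ (h4.trans h2))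
    have h10 : 10 ^ 9 * k ^ 2 * n ≤ k * (40000 * n) := h7.trans h9
    have h11 : k * n ≤ k ^ 2 * n := by nlinarith
    nlinarith [Nat.mul_pos (by omega : 0 < k) hn]
  by_cases hY : 3 * n ≤ 20000 * k * Y.card
  · refine ⟨Yᶜ, hXbig, ?_⟩
    intro S hS1 hS2
    have hd1 : Disjoint (S ∩ Yᶜ) (Yᶜ \ S) := by
      rw [Finset.disjoint_left]
      intro v hv hv2
      exact (mem_sdiff.1 hv2).2 (mem_inter.1 hv).1
    have hd2 : Disjoint (S ∩ Yᶜ) Y := by
      rw [Finset.disjoint_left]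
      intro v hv hv2
      exact (mem_compl.1 (mem_inter.1 hv).2) hv2
    have hd3 : Disjoint (Yᶜ \ S) Y := by
      rw [Finset.disjoint_left]
      intro v hv hv2
      exact (mem_compl.1 (mem_sdiff.1 hv).1) hv2
    have hc : (Yᶜ \ S).card + (S ∩ Yᶜ).card = Yᶜ.card := by
      rw [inter_comm]
      exact card_sdiff_add_card_inter _ _
    have hP : n ≤ 3000 * k * (S ∩ Yᶜ).card := by nlinarith
    have hQ : n ≤ 3000 * k * (Yᶜ \ S).card := by
      have : Yᶜ.card ≤ 3 * (Yᶜ \ S).card := by omega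
      nlinarith
    obtain ⟨J, hJ1, hJ2, hJ3⟩ := SelX_1 k D n E A Y hG hY _ _ hd1 hd2 hd3 hP hQ
    refine ⟨J, fun g hg => (hJ1 g hg).1, hJ2, fun g hg => ?_, ?_⟩
    · exact ⟨(mem_inter.1 (hJ1 g hg).2.1).1, (mem_sdiff.1 (hJ1 g hg).2.2).2⟩
    · exact hJ3.trans (Nat.mul_le_mul_right _ (SelX_c1 k D))
  · push Not at hY
    obtain ⟨X, hXY, hXn, hX⟩ := thm_Xp k n D E A Y hk hG hAE hA1 hY
    refine ⟨X, hXn, ?_⟩
    intro S hS1 hS2
    have hX' := hX S hS1 hS2
    obtain ⟨J, hJ1, hJ2, hJ3⟩ := SelX_2 D E A Y hAE hG.loop hG.deg _ (by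
      intro e he
      rw [mem_filter] at he
      obtain ⟨-, h1, h2, h3, h4, h5⟩ := he
      exact ⟨h5, Finset.disjoint_left.1 hXY h1, Finset.disjoint_left.1 hXY h2⟩ :
      ∀ e ∈ (univ.filter fun e : Fin n × Fin n =>
          e.1 ∈ X ∧ e.2 ∈ X ∧ e.1 ∈ S ∧ e.2 ∉ S ∧ s(e.1, e.2) ∈ A),
        s(e.1, e.2) ∈ A ∧ e.1 ∉ Y ∧ e.2 ∉ Y)
    refine ⟨J, fun g hg => (hJ1 g hg).1, hJ2, fun g hg => ?_, ?_⟩
    · have := (mem_filter.1 (hJ1 g hg).2).2
      exact ⟨this.2.2.1, this.2.2.2.1⟩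
    · exact (hX'.trans hJ3).trans (Nat.mul_le_mul_right _ (SelX_c2 k D hk))

end Pool.Agent.EC
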