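import Pool.Agent.EC.St
import Pool.Agent.EB.Sel1

/-!
# EC: a supply of gadgets of the first type, many eliminated variables
-/

set_option autoImplicit false

namespace Pool.Agent.EC

open Finset Pool.Agent.WD Pool.Agent.EB
open scoped NNReal

/-- the number of vertices without neighbours in a large set is small -/
private lemma SupA_few {k n D : ℕ} {E : Finset (Sym2 (Fin n))} (hG : PG k n D E)
    (Y T : Finset (Fin n)) (hd : Disjoint Y T) (hT : n ≤ 20000 * k * T.card) :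
    20000 * k * (Y.filter fun e => ∀ v ∈ T, s(e, v) ∉ E).card < n := by
  classical
  by_contra hcon
  push Not at hcon
  obtain ⟨u, hu, v, hv, huv⟩ := hG.G1 (Y.filter fun e => ∀ v ∈ T, s(e, v) ∉ E) T
    (hd.mono_left (filter_subset _ _)) hcon hT
  exact (mem_filter.mp hu).2 v hv huv

/-- the vertices which are the only neighbour outside `Y` of some vertex of `Y` -/
private def SupA_bad {n : ℕ} (E : Finset (Sym2 (Fin n))) (Y : Finset (Fin n)) : Finset (Fin n) := by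
  classical
  exact univ.filter fun p => p ∉ Y ∧ ∃ e' ∈ Y, s(e', p) ∈ E ∧ ∀ v, v ∉ Y → s(e', v) ∈ E → v = p

private lemma SupA_mem_bad {n : ℕ} (E : Finset (Sym2 (Fin n))) (Y : Finset (Fin n)) (p : Fin n) :
    p ∈ SupA_bad E Y ↔ p ∉ Y ∧ ∃ e' ∈ Y, s(e', p) ∈ E ∧ ∀ v, v ∉ Y → s(e', v) ∈ E → v = p := by
  classical
  unfold SupA_bad
  rw [mem_filter]
  exact ⟨fun h => h.2, fun h => ⟨mem_univ _, h⟩⟩

private lemma SupA_bad_card {k n D : ℕ} {E : Finset (Sym2 (Fin n))} (hG : PG k n D E)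
    (Y P Q : Finset (Fin n)) (hPQ : Disjoint P Q) (hPY : Disjoint P Y) (hQY : Disjoint Q Y)
    (hP : n ≤ 20000 * k * P.card) (hQ : n ≤ 20000 * k * Q.card) :
    20000 * k * (SupA_bad E Y).card < 2 * n := by
  classical
  set YP := Y.filter fun e => ∀ v ∈ P, s(e, v) ∉ E with hYP
  set YQ := Y.filter fun e => ∀ v ∈ Q, s(e, v) ∉ E with hYQ
  have c1 : 20000 * k * YP.card < n := SupA_few hG Y P hPY.symm hP
  have c2 : 20000 * k * YQ.card < n := SupA_few hG Y Q hQY.symm hQ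
  have hbad := SupA_mem_bad E Y
  have hbc : (SupA_bad E Y).card ≤ (YP ∪ YQ).card := by
    have h1 : ∀ p : Fin n, ∃ e', p ∈ SupA_bad E Y → e' ∈ Y ∧ s(e', p) ∈ E ∧
        ∀ v, v ∉ Y → s(e', v) ∈ E → v = p := by
      intro p
      by_cases h : p ∈ SupA_bad E Y
      · obtain ⟨-, e', h1, h2, h3⟩ := (hbad p).mp h
        exact ⟨e', fun _ => ⟨h1, h2, h3⟩⟩
      · exact ⟨p, fun h' => absurd h' h⟩
    choose f hf using h1
    refine card_le_card_of_injOn f (fun p hp => ?_) fun p hp p' hp' hpp => ?_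
    · obtain ⟨h1, h2, h3⟩ := hf p hp
      rw [Finset.mem_coe, mem_union]
      by_cases hpP : p ∈ P
      · right
        rw [hYQ, mem_filter]
        refine ⟨h1, fun v hv hev => ?_⟩
        have h4 := h3 v (Finset.disjoint_left.mp hQY hv) hev
        rw [h4] at hv
        exact Finset.disjoint_left.mp hPQ hpP hv
      · left
        rw [hYP, mem_filter]
        refine ⟨h1, fun v hv hev => ?_⟩
        have h4 := h3 v (Finset.disjoint_left.mp hPY hv) hev
        rw [h4] at hv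
        exact hpP hv
    · have h2 := (hf p hp).2.1
      rw [hpp] at h2
      exact (hf p' hp').2.2 p ((hbad p).mp hp).1 h2
  have hbc' : (SupA_bad E Y).card ≤ YP.card + YQ.card := hbc.trans (card_union_le _ _)
  nlinarith

private lemma SupA_mem_betw {V : Type} [Fintype V] [DecidableEq V] (E : Finset (Sym2 V))
    (S T : Finset V) (e : Sym2 V) :
    e ∈ betw E S T ↔ e ∈ E ∧ ∃ u ∈ S, ∃ v ∈ T, e = s(u, v) := by
  unfold betw
  rw [mem_filter]

private lemma SupA_mem_inner {V : Type} [Fintype V] [DecidableEq V] (E : Finset (Sym2 V))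
    (S : Finset V) (e : Sym2 V) : e ∈ inner E S ↔ e ∈ E ∧ ∀ v ∈ e, v ∈ S := by
  unfold inner
  rw [mem_filter]

/-- many edges between a union of blocks and a large set -/
private lemma SupA_blocks {k n D : ℕ} {E : Finset (Sym2 (Fin n))} (hG : PG2 k n D E)
    (s : ℕ) (hs : n ≤ 20000 * k * s) (Y' : Finset (Fin n)) (hY' : n ≤ 20000 * k * Y'.card) :
    ∀ (j : ℕ) (T : Finset (Fin n)), Disjoint T Y' → j * s ≤ T.card →
      j * (3 * n) ≤ (betw E T Y').card := by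
  classical
  intro j
  induction j with
  | zero => intro T _ _; omega
  | succ j ih =>
    intro T hd hT
    have h0 : s ≤ T.card := by
      have : (j + 1) * s = j * s + s := by ring
      omega
    obtain ⟨T1, hT1, hT1c⟩ := Finset.exists_subset_card_eq h0
    have h1 : (T \ T1).card = T.card - s := by
      rw [card_sdiff_of_subset hT1, hT1c]
    have h2 := ih (T \ T1) (hd.mono_left sdiff_subset) (by
      rw [h1]
      have : (j + 1) * s = j * s + s := by ring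
      omega)
    have h3 := hG.G1n T1 Y' (hd.mono_left hT1) (by rw [hT1c]; exact hs) hY'
    have hdis : Disjoint (betw E T1 Y') (betw E (T \ T1) Y') := by
      rw [Finset.disjoint_left]
      intro e he he'
      obtain ⟨-, u, hu, v, hv, rfl⟩ := (SupA_mem_betw _ _ _ _).mp he
      obtain ⟨-, u', hu', v', hv', huv⟩ := (SupA_mem_betw _ _ _ _).mp he'
      rw [mem_sdiff] at hu'
      rw [Sym2.eq_iff] at huv
      rcases huv with ⟨h4, -⟩ | ⟨h4, -⟩
      · exact hu'.2 (h4 ▸ hu)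
      · exact Finset.disjoint_left.mp hd (hT1 hu) (h4 ▸ hv')
    have hsub : betw E T1 Y' ∪ betw E (T \ T1) Y' ⊆ betw E T Y' := by
      intro e he
      rw [mem_union] at he
      rcases he with he | he
      · obtain ⟨h5, u, hu, v, hv, rfl⟩ := (SupA_mem_betw _ _ _ _).mp he
        exact (SupA_mem_betw _ _ _ _).mpr ⟨h5, u, hT1 hu, v, hv, rfl⟩
      · obtain ⟨h5, u, hu, v, hv, rfl⟩ := (SupA_mem_betw _ _ _ _).mp he
        exact (SupA_mem_betw _ _ _ _).mpr ⟨h5, u, (mem_sdiff.mp hu).1, v, hv, rfl⟩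
    have h6 := card_le_card hsub
    rw [card_union_of_disjoint hdis] at h6
    have : (j + 1) * (3 * n) = j * (3 * n) + 3 * n := by ring
    omega

private lemma SupA_nb {V : Type} [Fintype V] [DecidableEq V] (G : Finset (Sym2 V)) (v : V) :
    (G.filter fun e => v ∈ e).card ≤ (nb G v).card := by
  classical
  have h : (G.filter fun e => v ∈ e) ⊆ (nb G v).image fun w => s(v, w) := by
    intro e he
    rw [mem_filter] at he
    obtain ⟨w, hw⟩ := he.2
    rw [mem_image]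
    refine ⟨w, ?_, hw.symm⟩
    unfold nb
    rw [mem_filter]
    exact ⟨mem_univ _, hw ▸ he.1⟩
  exact (card_le_card h).trans card_image_le

private lemma SupA_mem_nb {V : Type} [Fintype V] [DecidableEq V] (G : Finset (Sym2 V)) (v w : V) :
    w ∈ nb G v ↔ s(v, w) ∈ G := by
  unfold nb
  rw [mem_filter]
  exact ⟨fun h => h.2, fun h => ⟨mem_univ _, h⟩⟩

/-- one gadget with its centre -/
private lemma SupA_gad {k n D : ℕ} {E A : Finset (Sym2 (Fin n))} {Y : Finset (Fin n)}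
    (hG : PG k n D E) (hAE : A ⊆ E) {e p q : Fin n} (he : e ∈ Y) (hp : p ∉ Y) (hq : q ∉ Y)
    (hpq : p ≠ q) (hep : s(e, p) ∈ E) (heq : s(e, q) ∈ E) (bp : p ∉ SupA_bad E Y)
    (bq : q ∉ SupA_bad E Y) :
    ∃ g : Gad (Fin n), GadA E A Y D g e ∧ g.p = p ∧ g.q = q ∧ ∀ v ∈ g.R, e ∈ Sel1_ball E v := by
  classical
  have good : ∀ p, p ∉ Y → p ∉ SupA_bad E Y → ∀ e' ∈ Y, s(e', p) ∈ E →
      ∃ v, v ∉ Y ∧ s(e', v) ∈ E ∧ v ≠ p := by
    intro p hp hpb e' he' hep
    by_contra hcon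
    push Not at hcon
    exact hpb ((SupA_mem_bad E Y p).mpr ⟨hp, e', he', hep, fun v h1 h2 => hcon v h1 h2⟩)
  obtain ⟨g, hg, hgp, hgq, hb⟩ := Sel1_gad (A := A) hG he hp hq hpq hep heq (good p hp bp)
    (good q hq bq)
  refine ⟨g, ?_, hgp, hgq, hb⟩
  have sw : ∀ {u v : Fin n}, s(u, v) ∈ E → s(v, u) ∈ E := fun {u v} h => by
    rwa [Sym2.eq_swap]
  have htyp : s(e, g.p) ∈ E ∧ s(e, g.q) ∈ E ∧ (∀ v, v ∉ Y → s(e, v) ∈ E → v ∈ g.R) ∧
      (∀ u ∈ g.C, s(e, u) ∉ E) ∧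
      (∀ u v, (u ∈ g.C ∨ u = g.p ∨ u = g.q) → (v ∈ g.C ∨ v = g.p ∨ v = g.q) → s(u, v) ∉ E) ∧
      ∀ e' ∈ Y, e' ≠ e → (s(e', g.p) ∈ E ∨ s(e', g.q) ∈ E) → ∃ u ∈ g.C, s(e', u) ∈ E := by
    rcases hg.typ with ⟨e0, h0, h1, h2, h3⟩ | ⟨-, h1⟩
    · have h4 : e0 = e := by
        by_contra hne
        rw [hgp] at h1
        rw [hgq] at h2
        exact hG.c4 e0 p e q hne hpq ⟨h1, sw hep, heq, sw h2⟩
      subst h4
      exact ⟨h1, h2, h3⟩
    · exfalso
      have h2 := hAE h1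
      rw [hgp, hgq] at h2
      exact hG.c3 e p q ⟨hep, h2, sw heq⟩
  exact ⟨hg.pR, hg.qR, hg.pq, hg.CR, hg.pC, hg.qC, hg.RY, hg.Cc, hg.Rc, hg.near,
    fun u _ => hG.deg u, hG.deg e, he, htyp.1, htyp.2.1, htyp.2.2.1, htyp.2.2.2.1,
    htyp.2.2.2.2.1, htyp.2.2.2.2.2⟩

theorem thm_SupA (hCore : St_Core) : St_SupA := by
  classical
  intro k D hk
  refine ⟨10 ^ 5 * k, ?_⟩
  intro n E A Y H hn hP hAE _ hY hYc hH
  have hG := hP.pg
  have sw : ∀ {G : Finset (Sym2 (Fin n))} {u v : Fin n}, s(u, v) ∈ G → s(v, u) ∈ G :=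
    fun {G u v} h => by rwa [Sym2.eq_swap]
  have hΛ1 : 20000 * k * (D + 1) ^ 4 ≤ Lc k D := by
    unfold Lc
    have h1 : (D + 1) ^ 4 ≤ (D + 1) ^ 12 := Nat.pow_le_pow_right (Nat.succ_pos D) (by decide)
    calc 20000 * k * (D + 1) ^ 4 ≤ 10 ^ 6 * k * (D + 1) ^ 4 :=
          Nat.mul_le_mul_right _ (Nat.mul_le_mul_right _ (by norm_num))
      _ ≤ _ := Nat.mul_le_mul_left _ h1
  have hD4 : D + 1 ≤ (D + 1) ^ 4 := Nat.le_self_pow (by decide) _
  have hΛ2 : D + 1 ≤ Lc k D := by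
    refine le_trans ?_ hΛ1
    have h1 : 1 ≤ 20000 * k := by omega
    calc D + 1 ≤ 1 * (D + 1) ^ 4 := by omega
      _ ≤ _ := Nat.mul_le_mul_right _ h1
  -- the bad vertices
  obtain ⟨P, hPsub, hPc⟩ := Finset.exists_subset_card_eq (Nat.div_le_self Yᶜ.card 2)
  have hQc : (Yᶜ \ P).card = Yᶜ.card - Yᶜ.card / 2 := by
    rw [card_sdiff_of_subset hPsub, hPc]
  have hPY : Disjoint P Y := (disjoint_compl_left (a := Y)).mono_left hPsub
  have hQY : Disjoint (Yᶜ \ P) Y := (disjoint_compl_left (a := Y)).mono_left sdiff_subset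
  have hPn : n ≤ 20000 * k * P.card := by
    rw [hPc]
    have h1 : Yᶜ.card ≤ 2 * (Yᶜ.card / 2) + 1 := by omega
    have h2 : 1000 * k * Yᶜ.card ≤ 1000 * k * (2 * (Yᶜ.card / 2) + 1) := Nat.mul_le_mul_left _ h1
    have h3 : 20000 * k * (Yᶜ.card / 2) + 10000 * k = 10 * (1000 * k * (2 * (Yᶜ.card / 2) + 1)) := by
      ring
    omega
  have hQn : n ≤ 20000 * k * (Yᶜ \ P).card := by
    refine hPn.trans (Nat.mul_le_mul_left _ ?_)
    rw [hQc, hPc]
    omega
  have hbadc : 20000 * k * (SupA_bad E Y).card < 2 * n :=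
    SupA_bad_card hG Y P (Yᶜ \ P) disjoint_sdiff hPY hQY hPn hQn
  -- the vertices near `H`
  set Z : Finset (Fin n) := H.biUnion (Sel1_ball E) with hZ
  have hZc : 20000 * k * Z.card ≤ n := by
    have h1 : Z.card ≤ H.card * (D + 1) ^ 4 :=
      card_biUnion_le_card_mul _ _ _ fun v _ => Sel1_ball_card E D hG.deg v
    calc 20000 * k * Z.card ≤ 20000 * k * (H.card * (D + 1) ^ 4) := Nat.mul_le_mul_left _ h1
      _ = 20000 * k * (D + 1) ^ 4 * H.card := by ring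
      _ ≤ Lc k D * H.card := Nat.mul_le_mul_right _ hΛ1
      _ ≤ n := hH
  set T : Finset (Fin n) := Yᶜ \ (SupA_bad E Y ∪ Z) with hT
  set Y' : Finset (Fin n) := Y \ Z with hY'
  have hTY : Disjoint T Y := (disjoint_compl_left (a := Y)).mono_left sdiff_subset
  have hTY' : Disjoint T Y' := hTY.mono_right sdiff_subset
  have hTc : 17 * n ≤ 20000 * k * T.card := by
    have h1 : Yᶜ.card ≤ T.card + (SupA_bad E Y ∪ Z).card := by
      rw [hT]
      have := card_sdiff_add_card Yᶜ (SupA_bad E Y ∪ Z)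
      have h2 := card_le_card (subset_union_left (s₁ := Yᶜ) (s₂ := SupA_bad E Y ∪ Z))
      omega
    have h2 := card_union_le (SupA_bad E Y) Z
    have h3 : 20000 * k * Yᶜ.card ≤ 20000 * k * (T.card + ((SupA_bad E Y).card + Z.card)) :=
      Nat.mul_le_mul_left _ (by omega)
    have h4 : 20000 * k * (T.card + ((SupA_bad E Y).card + Z.card)) = 20000 * k * T.card +
        20000 * k * (SupA_bad E Y).card + 20000 * k * Z.card := by ring
    have h5 : 20000 * k * Yᶜ.card = 20 * (1000 * k * Yᶜ.card) := by ring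
    omega
  have hY'c : n ≤ 20000 * k * Y'.card := by
    have h1 : Y.card ≤ Y'.card + Z.card := by
      rw [hY']
      have := card_sdiff_add_card Y Z
      have h2 := card_le_card (subset_union_left (s₁ := Y) (s₂ := Z))
      omega
    have h3 : 20000 * k * Y.card ≤ 20000 * k * (Y'.card + Z.card) := Nat.mul_le_mul_left _ h1
    have h4 : 20000 * k * (Y'.card + Z.card) = 20000 * k * Y'.card + 20000 * k * Z.card := by ring
    omega
  -- many edges
  have hkpos : 0 < 20000 * k := by omega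
  have hs1 : n ≤ 20000 * k * (n / (20000 * k) + 1) := (Nat.lt_mul_div_succ n hkpos).le
  have hs2 : 20000 * k * (n / (20000 * k)) ≤ n := Nat.mul_div_le n _
  have hs3 : 5 * (n / (20000 * k) + 1) ≤ T.card := by
    have h1 : 20000 * k * (5 * (n / (20000 * k) + 1)) ≤ 20000 * k * T.card := by
      have h2 : 20000 * k * (5 * (n / (20000 * k) + 1)) =
        5 * (20000 * k * (n / (20000 * k))) + 10 ^ 5 * k := by ring
      omega
    exact Nat.le_of_mul_le_mul_left h1 hkpos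
  have hE0 := SupA_blocks hP _ hs1 Y' hY'c 5 T hTY' hs3
  set G0 := betw E T Y' with hG0
  obtain ⟨U, hU1, hU2⟩ := hCore (Fin n) G0 11
  rw [Fintype.card_fin] at hU2
  set GU := inner G0 U with hGU
  have hGUc : 4 * n ≤ GU.card := by omega
  -- edges of the core
  have hedge : ∀ u v, s(u, v) ∈ GU → s(u, v) ∈ E ∧ u ∈ U ∧ v ∈ U ∧
      ((u ∈ T ∧ v ∈ Y') ∨ (u ∈ Y' ∧ v ∈ T)) := by
    intro u v h
    obtain ⟨h1, h2⟩ := (SupA_mem_inner _ _ _).mp h
    obtain ⟨h3, a, ha, b, hb, hab⟩ := (SupA_mem_betw _ _ _ _).mp h1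
    refine ⟨h3, h2 u (Sym2.mem_mk_left u v), h2 v (Sym2.mem_mk_right u v), ?_⟩
    rw [Sym2.eq_iff] at hab
    rcases hab with ⟨rfl, rfl⟩ | ⟨rfl, rfl⟩
    · exact Or.inl ⟨ha, hb⟩
    · exact Or.inr ⟨hb, ha⟩
  have hTn : ∀ v ∈ T, v ∉ Y := fun v hv => Finset.disjoint_left.mp hTY hv
  have hYn : ∀ v ∈ Y', v ∈ Y := fun v hv => (mem_sdiff.mp hv).1
  have hedgeY : ∀ c p, c ∈ Y → s(c, p) ∈ GU → s(c, p) ∈ E ∧ c ∈ U ∧ p ∈ U ∧ c ∈ Y' ∧ p ∈ T := by
    intro c p hc h
    obtain ⟨h1, h2, h3, h4⟩ := hedge c p h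
    rcases h4 with h4 | h4
    · exact absurd hc (hTn c h4.1)
    · exact ⟨h1, h2, h3, h4.1, h4.2⟩
  have hedgeT : ∀ p c, p ∉ Y → s(p, c) ∈ GU → s(p, c) ∈ E ∧ p ∈ U ∧ c ∈ U ∧ p ∈ T ∧ c ∈ Y' := by
    intro p c hp h
    obtain ⟨h1, h2, h3, h4⟩ := hedge p c h
    rcases h4 with h4 | h4
    · exact ⟨h1, h2, h3, h4.1, h4.2⟩
    · exact absurd (hYn p h4.1) hp
  have hdeg : ∀ v ∈ U, 12 ≤ (nb GU v).card := fun v hv =>
    (Nat.succ_le_of_lt (hU1 v hv)).trans (SupA_nb GU v)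
  -- the supply
  let X : Finset (Fin n) := U.filter fun v => v ∉ Y
  have hX : ∀ v, v ∈ X ↔ v ∈ U ∧ v ∉ Y := fun v => mem_filter
  let Pr : Fin n × Fin n → Fin n → Prop := fun e c => e.1 ≠ e.2 ∧ c ∈ Y ∧ s(c, e.1) ∈ GU ∧
    s(c, e.2) ∈ GU
  let G : Finset (Fin n × Fin n) := univ.filter fun e => ∃ c, Pr e c
  have hGm : ∀ e, e ∈ G ↔ ∃ c, Pr e c := by
    intro e
    show e ∈ univ.filter _ ↔ _
    rw [mem_filter]
    exact ⟨fun h => h.2, fun h => ⟨mem_univ _, h⟩⟩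
  have hgad : ∀ e : Fin n × Fin n, ∃ (g : Gad (Fin n)) (c : Fin n), e ∈ G → Pr e c ∧
      GadA E A Y D g c ∧ g.p = e.1 ∧ g.q = e.2 ∧ ∀ v ∈ g.R, c ∈ Sel1_ball E v := by
    intro e
    by_cases h : e ∈ G
    · obtain ⟨c, hc⟩ := (hGm e).1 h
      obtain ⟨h1, h2, h3, h4⟩ := hc
      obtain ⟨a1, a2, a3, a4, a5⟩ := hedgeY c e.1 h2 h3
      obtain ⟨b1, b2, b3, b4, b5⟩ := hedgeY c e.2 h2 h4
      have hb : ∀ v ∈ T, v ∉ SupA_bad E Y := fun v hv hv' =>
        (mem_sdiff.mp hv).2 (mem_union_left _ hv')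
      obtain ⟨g, g1, g2, g3, g4⟩ := SupA_gad (A := A) hG hAE h2 (hTn _ a5) (hTn _ b5) h1 a1 b1
        (hb _ a5) (hb _ b5)
      exact ⟨g, c, fun _ => ⟨⟨h1, h2, h3, h4⟩, g1, g2, g3, g4⟩⟩
    · exact ⟨⟨e.1, e.1, ∅, ∅⟩, e.1, fun h' => absurd h' h⟩
  choose g ctr hg using hgad
  refine ⟨X, G, g, ctr, ?_, ?_, ?_, ?_, ?_, ?_⟩
  · -- big
    have h1 : GU ⊆ X.biUnion fun x => (nb E x).image fun w => s(x, w) := by
      intro e he
      induction e using Sym2.ind with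
      | _ u v =>
        obtain ⟨h1, h2, h3, h4⟩ := hedge u v he
        rw [mem_biUnion]
        rcases h4 with h4 | h4
        · refine ⟨u, (hX u).2 ⟨h2, hTn u h4.1⟩, mem_image.mpr ⟨v, (SupA_mem_nb E u v).2 h1, rfl⟩⟩
        · refine ⟨v, (hX v).2 ⟨h3, hTn v h4.2⟩, mem_image.mpr ⟨u, (SupA_mem_nb E v u).2 (sw h1), ?_⟩⟩
          exact Sym2.eq_swap
    have h2 : GU.card ≤ X.card * D :=
      (card_le_card h1).trans (card_biUnion_le_card_mul _ _ _ fun x _ =>
        card_image_le.trans (hG.deg x))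
    calc n ≤ X.card * D := by omega
      _ ≤ X.card * Lc k D := Nat.mul_le_mul_left _ (by omega)
      _ = Lc k D * X.card := Nat.mul_comm _ _
  · -- core
    intro e he
    obtain ⟨⟨h1, h2, h3, h4⟩, -, h5, h6, -⟩ := hg e he
    obtain ⟨a1, a2, a3, a4, a5⟩ := hedgeY _ e.1 h2 h3
    obtain ⟨b1, b2, b3, b4, b5⟩ := hedgeY _ e.2 h2 h4
    exact ⟨(hX _).2 ⟨a3, hTn _ a5⟩, (hX _).2 ⟨b3, hTn _ b5⟩, h5, h6⟩
  · -- typ
    exact Or.inl fun e he => (hg e he).2.1
  · -- conf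
    intro e he
    have he' := hg e he
    set C : Finset (Fin n) := ((g e).R.biUnion (Sel1_ball E)) ∪ (insert (ctr e) (nb E (ctr e)))
      with hC
    have h1 : (G.filter fun f => ¬ Disjoint (g e).R (g f).R ∨ ctr e = ctr f ∨
        s(ctr e, ctr f) ∈ E) ⊆ C.biUnion fun c => (nb E c) ×ˢ (nb E c) := by
      intro f hf
      rw [mem_filter] at hf
      obtain ⟨hf, hf2⟩ := hf
      have hf' := hg f hf
      rw [mem_biUnion]
      refine ⟨ctr f, ?_, ?_⟩
      · rw [hC, mem_union, mem_insert]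
        rcases hf2 with h2 | h2 | h2
        · rw [Finset.not_disjoint_iff] at h2
          obtain ⟨v, hv1, hv2⟩ := h2
          exact Or.inl (mem_biUnion.mpr ⟨v, hv1, hf'.2.2.2.2 v hv2⟩)
        · exact Or.inr (Or.inl h2.symm)
        · exact Or.inr (Or.inr ((SupA_mem_nb E _ _).2 h2))
      · rw [mem_product]
        exact ⟨(SupA_mem_nb E _ _).2 (hedgeY _ _ hf'.1.2.1 hf'.1.2.2.1).1,
          (SupA_mem_nb E _ _).2 (hedgeY _ _ hf'.1.2.1 hf'.1.2.2.2).1⟩
    have h2 : C.card ≤ (D + 1) * (2 * D + 3) * (D + 1) ^ 4 + (D + 1) := by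
      refine (card_union_le _ _).trans (Nat.add_le_add ?_ ?_)
      · refine (card_biUnion_le_card_mul _ _ _ fun v _ => Sel1_ball_card E D hG.deg v).trans ?_
        exact Nat.mul_le_mul_right _ he'.2.1.Rc
      · exact (card_insert_le _ _).trans (Nat.succ_le_succ (hG.deg _))
    have h3 : (G.filter fun f => ¬ Disjoint (g e).R (g f).R ∨ ctr e = ctr f ∨
        s(ctr e, ctr f) ∈ E).card ≤ C.card * (D * D) :=
      (card_le_card h1).trans (card_biUnion_le_card_mul _ _ _ fun c _ => by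
        rw [card_product]
        exact Nat.mul_le_mul (hG.deg c) (hG.deg c))
    refine h3.trans ?_
    have h4 : 2 * D + 3 ≤ 3 * (D + 1) := by omega
    have h5 : (D + 1) * (2 * D + 3) * (D + 1) ^ 4 ≤ 3 * (D + 1) ^ 6 := by
      calc (D + 1) * (2 * D + 3) * (D + 1) ^ 4 ≤ (D + 1) * (3 * (D + 1)) * (D + 1) ^ 4 :=
            Nat.mul_le_mul_right _ (Nat.mul_le_mul_left _ h4)
        _ = 3 * (D + 1) ^ 6 := by ring
    have h6 : D + 1 ≤ (D + 1) ^ 6 := Nat.le_self_pow (by decide) _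
    have h7 : D * D ≤ (D + 1) ^ 2 := by nlinarith
    have h8 : (D + 1) ^ 8 ≤ (D + 1) ^ 12 := Nat.pow_le_pow_right (Nat.succ_pos D) (by decide)
    calc C.card * (D * D) ≤ (4 * (D + 1) ^ 6) * (D + 1) ^ 2 :=
          Nat.mul_le_mul (by omega) h7
      _ = 4 * (D + 1) ^ 8 := by ring
      _ ≤ (10 ^ 6 * k) * (D + 1) ^ 12 := Nat.mul_le_mul (by omega) h8
  · -- avoid
    intro e he
    obtain ⟨⟨h1, h2, h3, h4⟩, -, -, -, h7⟩ := hg e he
    obtain ⟨a1, a2, a3, a4, a5⟩ := hedgeY _ e.1 h2 h3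
    have hcZ : ctr e ∉ Z := (mem_sdiff.mp a4).2
    constructor
    · rw [Finset.disjoint_left]
      intro v hv hvH
      exact hcZ (mem_biUnion.mpr ⟨v, hvH, h7 v hv⟩)
    · intro hcH
      exact hcZ (mem_biUnion.mpr ⟨ctr e, hcH,
        Sel1_mem_ball E (Or.inl rfl) (Or.inl rfl) (Or.inl rfl) (Or.inl rfl)⟩)
  · -- cross
    intro S hS hSc
    let N : Finset (Fin n) := univ.filter fun c => c ∈ Y ∧ c ∈ U ∧ ∀ q, s(c, q) ∈ GU → q ∈ S
    have hN : ∀ c, c ∈ N ↔ c ∈ Y ∧ c ∈ U ∧ ∀ q, s(c, q) ∈ GU → q ∈ S := by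
      intro c
      show c ∈ univ.filter _ ↔ _
      rw [mem_filter]
      exact ⟨fun h => h.2, fun h => ⟨mem_univ _, h⟩⟩
    -- the pairs
    let P1 : Finset (Σ _ : Fin n, Fin n) := S.sigma fun p => nb GU p
    have hP1 : ∀ x, x ∈ P1 ↔ x.1 ∈ S ∧ s(x.1, x.2) ∈ GU := by
      intro x
      show x ∈ S.sigma _ ↔ _
      rw [mem_sigma, SupA_mem_nb]
    have c1 : 12 * S.card ≤ P1.card := by
      show 12 * S.card ≤ (S.sigma _).card
      rw [card_sigma, mul_comm, ← smul_eq_mul]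
      exact card_nsmul_le_sum _ _ _ fun p hp => hdeg p ((hX p).1 (hS hp)).1
    have hNS : N.card ≤ S.card * D := by
      have h1 : N ⊆ S.biUnion fun p => nb E p := by
        intro c hc
        obtain ⟨h1, h2, h3⟩ := (hN c).1 hc
        have h4 : 0 < (nb GU c).card := lt_of_lt_of_le (by norm_num) (hdeg c h2)
        obtain ⟨q, hq⟩ := Finset.card_pos.mp h4
        rw [SupA_mem_nb] at hq
        rw [mem_biUnion]
        exact ⟨q, h3 q hq, (SupA_mem_nb E q c).2 (sw (hedgeY c q h1 hq).1)⟩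
      exact (card_le_card h1).trans (card_biUnion_le_card_mul _ _ _ fun x _ => hG.deg x)
    have hSN : (S ∪ N).card ≤ S.card + N.card := card_union_le _ _
    have c2 : (inner E (S ∪ N)).card ≤ 5 * (S ∪ N).card := by
      apply hP.G4
      refine le_trans (Nat.pow_le_pow_left ?_ 4) hSc
      calc (S ∪ N).card ≤ S.card + S.card * D := by omega
        _ = (D + 1) * S.card := by ring
        _ ≤ Lc k D * S.card := Nat.mul_le_mul_right _ hΛ2
    -- the pairs with centre in `N`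
    have c3 : (P1.filter fun x => x.2 ∈ N).card ≤ (inner E (S ∪ N)).card := by
      refine card_le_card_of_injOn (fun x => s(x.1, x.2)) (fun x hx => ?_) fun x hx y hy hxy => ?_
      · rw [Finset.mem_coe, mem_filter, hP1] at hx
        obtain ⟨⟨h1, h2⟩, h3⟩ := hx
        have hx1 : x.1 ∉ Y := ((hX _).1 (hS h1)).2
        rw [Finset.mem_coe]
        refine (SupA_mem_inner _ _ _).mpr ⟨(hedgeT _ _ hx1 h2).1, fun v hv => ?_⟩
        rcases Sym2.mem_iff.mp hv with rfl | rfl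
        · exact mem_union_left _ h1
        · exact mem_union_right _ h3
      · rw [Finset.mem_coe, mem_filter, hP1] at hx hy
        have hx1 : x.1 ∉ Y := ((hX _).1 (hS hx.1.1)).2
        have hy2 : y.2 ∈ Y := ((hN _).1 hy.2).1
        rcases Sym2.eq_iff.mp hxy with ⟨h1, h2⟩ | ⟨h1, -⟩
        · exact Sigma.ext h1 (heq_of_eq h2)
        · exact absurd (h1 ▸ hy2) hx1
    have c4 : 12 * N.card ≤ (P1.filter fun x => x.2 ∈ N).card := by
      let P2 : Finset (Σ _ : Fin n, Fin n) := N.sigma fun c => nb GU c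
      have h1 : 12 * N.card ≤ P2.card := by
        show 12 * N.card ≤ (N.sigma _).card
        rw [card_sigma, mul_comm, ← smul_eq_mul]
        exact card_nsmul_le_sum _ _ _ fun c hc => hdeg c ((hN c).1 hc).2.1
      refine h1.trans ?_
      refine card_le_card_of_injOn (fun x => ⟨x.2, x.1⟩) (fun x hx => ?_) fun x _ y _ hxy => ?_
      · have hx' : x ∈ N.sigma fun c => nb GU c := hx
        rw [mem_sigma, SupA_mem_nb] at hx'
        rw [Finset.mem_coe, mem_filter, hP1]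
        exact ⟨⟨((hN _).1 hx'.1).2.2 _ hx'.2, sw hx'.2⟩, hx'.1⟩
      · have h2 : x.2 = y.2 := congrArg Sigma.fst hxy
        have h3 : x.1 = y.1 := congrArg (fun z : Σ _ : Fin n, Fin n => z.2) hxy
        exact Sigma.ext h3 (heq_of_eq h2)
    have c5 : (P1.filter fun x => x.2 ∈ N).card + (P1.filter fun x => ¬ x.2 ∈ N).card = P1.card :=
      card_filter_add_card_filter_not _
    -- the other pairs
    have hq : ∀ c : Fin n, ∃ q, c ∈ Y → c ∈ U → c ∉ N → s(c, q) ∈ GU ∧ q ∉ S := by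
      intro c
      by_cases h : c ∈ Y ∧ c ∈ U ∧ c ∉ N
      · obtain ⟨h1, h2, h3⟩ := h
        have h4 : ¬ ∀ q, s(c, q) ∈ GU → q ∈ S := fun h => h3 ((hN c).2 ⟨h1, h2, h⟩)
        push Not at h4
        obtain ⟨q, hq⟩ := h4
        exact ⟨q, fun _ _ _ => hq⟩
      · exact ⟨c, fun h1 h2 h3 => absurd ⟨h1, h2, h3⟩ h⟩
    choose q hq using hq
    have c6 : (P1.filter fun x => ¬ x.2 ∈ N).card ≤
        (G.filter fun e => (e.1 ∈ S ∧ e.2 ∉ S) ∨ (e.1 ∉ S ∧ e.2 ∈ S)).card := by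
      have key : ∀ x ∈ P1.filter fun x => ¬ x.2 ∈ N, x.1 ∈ S ∧ x.2 ∈ Y ∧ s(x.2, x.1) ∈ GU ∧
          s(x.2, q x.2) ∈ GU ∧ q x.2 ∉ S := by
        intro x hx
        rw [mem_filter, hP1] at hx
        obtain ⟨⟨h1, h2⟩, h3⟩ := hx
        obtain ⟨d1, d2, d3, d4, d5⟩ := hedgeT _ _ ((hX _).1 (hS h1)).2 h2
        obtain ⟨h4, h5⟩ := hq x.2 (hYn _ d5) d3 h3
        exact ⟨h1, hYn _ d5, sw h2, h4, h5⟩
      refine card_le_card_of_injOn (fun x => (x.1, q x.2)) (fun x hx => ?_)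
        fun x hx y hy hxy => ?_
      · obtain ⟨h1, h2, h3, h4, h5⟩ := key x (Finset.mem_coe.1 hx)
        rw [Finset.mem_coe, mem_filter, hGm]
        refine ⟨⟨x.2, ?_, h2, h3, h4⟩, Or.inl ⟨h1, h5⟩⟩
        rintro h6
        have h6' : x.1 = q x.2 := h6
        exact h5 (h6' ▸ h1)
      · obtain ⟨h1, h2, h3, h4, h5⟩ := key x (Finset.mem_coe.1 hx)
        obtain ⟨k1, k2, k3, k4, k5⟩ := key y (Finset.mem_coe.1 hy)
        have e1 : x.1 = y.1 := congrArg Prod.fst hxy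
        have e2 : q x.2 = q y.2 := congrArg Prod.snd hxy
        refine Sigma.ext e1 (heq_of_eq ?_)
        by_contra hne
        have hpq : x.1 ≠ q x.2 := by
          intro h6
          exact h5 (h6 ▸ h1)
        refine hG.c4 x.2 x.1 y.2 (q x.2) hne hpq ⟨(hedgeY _ _ h2 h3).1, ?_, ?_, ?_⟩
        · rw [e1]
          exact sw (hedgeY _ _ k2 k3).1
        · rw [e2]
          exact (hedgeY _ _ k2 k4).1
        · exact sw (hedgeY _ _ h2 h4).1
    omega

end Pool.Agent.EC
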