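import Pool.Agent.EC.St
import Pool.Agent.EB.MV

set_option autoImplicit false

/-!
# [Tree] a tree tensor network is a sum of products of functions of the pieces of a partition
-/

namespace Pool.Agent.EC

open Finset Pool.Agent.WD Pool.Agent.EB

section

variable {V : Type} [DecidableEq V]

/-- the function `h` with the variables in `N` fixed to the values `b` -/
def Tree_fix (N : Finset V) (b : V → Bool) (h : (V → Bool) → ℝ) : (V → Bool) → ℝ :=
  fun x => h (N.piecewise b x)

theorem Tree_rk_fix {W : ℕ} {h : (V → Bool) → ℝ} {S : Finset V} (hh : RkLe W h S)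
    (N : Finset V) (b : V → Bool) : RkLe W (Tree_fix N b h) S := by
  obtain ⟨u, v, hu, hv, huv⟩ := hh
  refine ⟨fun i x => u i (N.piecewise b x), fun i x => v i (N.piecewise b x), ?_, ?_, ?_⟩
  · intro i x y hxy
    apply hu
    intro w hw
    by_cases hN : w ∈ N
    · rw [piecewise_eq_of_mem _ _ _ hN, piecewise_eq_of_mem _ _ _ hN]
    · rw [piecewise_eq_of_notMem _ _ _ hN, piecewise_eq_of_notMem _ _ _ hN, hxy w hw]
  · intro i x y hxy
    apply hv
    intro w hw
    by_cases hN : w ∈ N
    · rw [piecewise_eq_of_mem _ _ _ hN, piecewise_eq_of_mem _ _ _ hN]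
    · rw [piecewise_eq_of_notMem _ _ _ hN, piecewise_eq_of_notMem _ _ _ hN, hxy w hw]
  · intro x
    exact huv _

theorem Tree_cuts_fix {W : ℕ} {h : (V → Bool) → ℝ} (N : Finset V) (b : V → Bool) :
    ∀ τ : VTree V, CutsR W h τ → CutsR W (Tree_fix N b h) τ
  | .leaf _, hh => Tree_rk_fix hh N b
  | .node l r, hh =>
    ⟨Tree_rk_fix hh.1 N b, Tree_cuts_fix N b l hh.2.1, Tree_cuts_fix N b r hh.2.2⟩

/-- a node of the tree with between `L` and `2 * L` elements of `X` below it -/
theorem Tree_node (X : Finset V) (L : ℕ) (hL : 1 ≤ L) :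
    ∀ τ : VTree V, L ≤ (τ.vars ∩ X).card → ∃ N : Finset V, L ≤ (N ∩ X).card ∧
      (N ∩ X).card ≤ 2 * L ∧ ∀ (W : ℕ) (h : (V → Bool) → ℝ), CutsR W h τ → RkLe W h N
  | .leaf v, hX => by
    refine ⟨{v}, hX, ?_, fun W h hh => hh⟩
    have h1 : (({v} : Finset V) ∩ X).card ≤ ({v} : Finset V).card :=
      card_le_card inter_subset_left
    rw [card_singleton] at h1
    omega
  | .node l r, hX => by
    by_cases hl : L ≤ (l.vars ∩ X).card
    · obtain ⟨N, h1, h2, h3⟩ := Tree_node X L hL l hl
      exact ⟨N, h1, h2, fun W h hh => h3 W h hh.2.1⟩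
    by_cases hr : L ≤ (r.vars ∩ X).card
    · obtain ⟨N, h1, h2, h3⟩ := Tree_node X L hL r hr
      exact ⟨N, h1, h2, fun W h hh => h3 W h hh.2.2⟩
    refine ⟨l.vars ∪ r.vars, hX, ?_, fun W h hh => hh.1⟩
    have h1 : ((l.vars ∪ r.vars) ∩ X).card ≤ (l.vars ∩ X).card + (r.vars ∩ X).card := by
      rw [union_inter_distrib_right]
      exact card_union_le _ _
    omega

theorem Tree_interp [Fintype V] {W : ℕ} {h : (V → Bool) → ℝ} {N : Finset V} (hh : RkLe W h N) :
    ∃ B : Finset (V → Bool), B.card ≤ W ∧ ∃ φ : (V → Bool) → (V → Bool) → ℝ,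
      (∀ b x y, (∀ v ∈ N, x v = y v) → φ b x = φ b y) ∧
      ∀ x, h x = ∑ b ∈ B, φ b x * h (N.piecewise b x) := by
  obtain ⟨u, v, hu, hv, huv⟩ := hh
  have key : ∀ t s : V → Bool, h (N.piecewise t s) = ∑ i, v i s * u i t := by
    intro t s
    rw [huv]
    apply sum_congr rfl
    intro i _
    have h1 : u i (N.piecewise t s) = u i t :=
      hu i _ _ fun w hw => piecewise_eq_of_mem _ _ _ hw
    have h2 : v i (N.piecewise t s) = v i s :=
      hv i _ _ fun w hw => piecewise_eq_of_notMem _ _ _ hw
    rw [h1, h2, mul_comm]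
  obtain ⟨B, hB, hl⟩ := thm_MV (V → Bool) (V → Bool) W (fun t s => h (N.piecewise t s)) v u key
  choose l _ hl using hl
  refine ⟨B, hB, fun b x => l (N.piecewise x fun _ => false) b, ?_, ?_⟩
  · intro b x y hxy
    have h1 : (N.piecewise x fun _ => false) = N.piecewise y fun _ => false := by
      funext w
      by_cases hN : w ∈ N
      · rw [piecewise_eq_of_mem _ _ _ hN, piecewise_eq_of_mem _ _ _ hN, hxy w hN]
      · rw [piecewise_eq_of_notMem _ _ _ hN, piecewise_eq_of_notMem _ _ _ hN]
    dsimp only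
    rw [h1]
  · intro x
    have h1 := hl (N.piecewise x fun _ => false) x
    have h2 : N.piecewise (N.piecewise x fun _ => false) x = x := by
      funext w
      by_cases hN : w ∈ N
      · rw [piecewise_eq_of_mem _ _ _ hN, piecewise_eq_of_mem _ _ _ hN]
      · rw [piecewise_eq_of_notMem _ _ _ hN]
    rw [h2] at h1
    exact h1

/-- the decomposition, with any index type -/
def TreeDec (W k : ℕ) (P : Fin k → Finset V) (h : (V → Bool) → ℝ) : Prop :=
  ∃ (T : Type) (_ : Fintype T) (f : T → Fin k → (V → Bool) → ℝ) (f0 : T → (V → Bool) → ℝ),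
    Fintype.card T ≤ W ^ k ∧
    (∀ t j x y, (∀ v ∈ P j, x v = y v) → f t j x = f t j y) ∧
    (∀ t x y, (∀ v, (∀ j, v ∉ P j) → x v = y v) → f0 t x = f0 t y) ∧
    ∀ x, h x = ∑ t, f0 t x * ∏ j, f t j x

theorem Tree_agree {N Q : Finset V} {b x y : V → Bool} (hxy : ∀ v ∈ Q \ N, x v = y v) :
    ∀ v ∈ Q, N.piecewise b x v = N.piecewise b y v := by
  intro w hw
  by_cases hN : w ∈ N
  · rw [piecewise_eq_of_mem _ _ _ hN, piecewise_eq_of_mem _ _ _ hN]
  · rw [piecewise_eq_of_notMem _ _ _ hN, piecewise_eq_of_notMem _ _ _ hN,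
      hxy w (mem_sdiff.mpr ⟨hw, hN⟩)]

theorem Tree_step [Fintype V] {W k : ℕ} {P : Fin k → Finset V} {h : (V → Bool) → ℝ}
    {N : Finset V} (hh : RkLe W h N) (hd : ∀ b, TreeDec W k P (Tree_fix N b h)) :
    TreeDec W (k + 1) (Fin.cons N fun j => P j \ N) h := by
  obtain ⟨B, hB, φ, hφ, hx⟩ := Tree_interp hh
  choose T hT f f0 hc hf hf0 hs using hd
  refine ⟨Σ b : B, T b.1, inferInstance,
    fun t => Fin.cons (φ t.1.1) fun j x => f t.1.1 t.2 j (N.piecewise t.1.1 x),
    fun t x => f0 t.1.1 t.2 (N.piecewise t.1.1 x), ?_, ?_, ?_, ?_⟩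
  · rw [Fintype.card_sigma]
    calc ∑ b : B, Fintype.card (T b.1) ≤ ∑ _b : B, W ^ k := sum_le_sum fun b _ => hc b.1
      _ = B.card * W ^ k := by
        rw [sum_const, smul_eq_mul, card_univ, Fintype.card_coe]
      _ ≤ W * W ^ k := Nat.mul_le_mul_right _ hB
      _ = W ^ (k + 1) := by rw [pow_succ, mul_comm]
  · intro t j x y
    refine Fin.cases ?_ (fun j => ?_) j
    · intro hxy
      rw [Fin.cons_zero] at hxy
      exact hφ _ _ _ hxy
    · intro hxy
      rw [Fin.cons_succ] at hxy
      exact hf _ _ _ _ _ (Tree_agree hxy)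
  · intro t x y hxy
    apply hf0
    intro w hw
    by_cases hN : w ∈ N
    · rw [piecewise_eq_of_mem _ _ _ hN, piecewise_eq_of_mem _ _ _ hN]
    · rw [piecewise_eq_of_notMem _ _ _ hN, piecewise_eq_of_notMem _ _ _ hN]
      apply hxy
      intro j
      refine Fin.cases ?_ (fun j => ?_) j
      · rw [Fin.cons_zero]
        exact hN
      · rw [Fin.cons_succ]
        exact fun h1 => hw j (mem_sdiff.mp h1).1
  · intro x
    rw [hx x, Fintype.sum_sigma, ← sum_coe_sort B]
    apply sum_congr rfl
    intro b _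
    have h1 : h (N.piecewise b.1 x) = Tree_fix N b.1 h (N.piecewise b.1 x) := by
      rw [Tree_fix, piecewise_idem_right]
    rw [h1, hs b.1, mul_sum]
    apply sum_congr rfl
    intro t _
    rw [Fin.prod_univ_succ]
    simp only [Fin.cons_zero, Fin.cons_succ]
    ring

end

theorem thm_Tree : St_Tree := by
  intro V _ _ τ X L hτ hL
  have main : ∀ (m : ℕ) (X : Finset V), X.card = m → ∃ (k : ℕ) (P : Fin k → Finset V),
      (∀ i j, i ≠ j → Disjoint (P i) (P j)) ∧
      (∀ j, L ≤ (P j ∩ X).card ∧ (P j ∩ X).card ≤ 2 * L) ∧ X.card ≤ 2 * L * k + L ∧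
      ∀ (W : ℕ) (h : (V → Bool) → ℝ), CutsR W h τ → TreeDec W k P h := by
    intro m
    induction m using Nat.strong_induction_on with
    | _ m IH =>
      intro X hm
      by_cases hX : L ≤ X.card
      · obtain ⟨N, h1, h2, h3⟩ := Tree_node X L hL τ (by rw [hτ, univ_inter]; exact hX)
        have h4 : (X \ N).card + (N ∩ X).card = X.card := by
          rw [inter_comm, card_sdiff_add_card_inter]
        obtain ⟨k, P, hP1, hP2, hP3, hP4⟩ := IH (X \ N).card (by omega) (X \ N) rfl
        refine ⟨k + 1, Fin.cons N fun j => P j \ N, ?_, ?_, ?_, ?_⟩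
        · intro i j
          refine Fin.cases ?_ (fun i => ?_) i
          · refine Fin.cases ?_ (fun j => ?_) j
            · intro h5
              exact absurd rfl h5
            · intro _
              rw [Fin.cons_zero, Fin.cons_succ]
              exact disjoint_sdiff
          · refine Fin.cases ?_ (fun j => ?_) j
            · intro _
              rw [Fin.cons_zero, Fin.cons_succ]
              exact sdiff_disjoint
            · intro h5
              rw [Fin.cons_succ, Fin.cons_succ]
              exact (hP1 i j fun h6 => h5 (by rw [h6])).mono sdiff_subset sdiff_subset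
        · intro j
          refine Fin.cases ?_ (fun j => ?_) j
          · rw [Fin.cons_zero]
            exact ⟨h1, h2⟩
          · rw [Fin.cons_succ]
            have h5 : P j \ N ∩ X = P j ∩ (X \ N) := by
              ext w
              simp only [mem_inter, mem_sdiff]
              tauto
            rw [h5]
            exact hP2 j
        · have h5 : 2 * L * (k + 1) = 2 * L * k + 2 * L := by ring
          omega
        · intro W h hh
          exact Tree_step (h3 W h hh) fun b => hP4 W _ (Tree_cuts_fix N b τ hh)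
      · refine ⟨0, Fin.elim0, fun i => i.elim0, fun i => i.elim0, by omega, ?_⟩
        intro W h hh
        refine ⟨Unit, inferInstance, fun _ i => i.elim0, fun _ => h, ?_, ?_, ?_, ?_⟩
        · rw [pow_zero, Fintype.card_unit]
        · intro t j
          exact j.elim0
        · intro t x y hxy
          have h1 : x = y := funext fun v => hxy v fun j => j.elim0
          rw [h1]
        · intro x
          simp
  obtain ⟨k, P, hP1, hP2, hP3, hP4⟩ := main X.card X rfl
  refine ⟨k, P, hP1, hP2, hP3, fun W h hh => ?_⟩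
  obtain ⟨T, hT, f, f0, hc, hf, hf0, hs⟩ := hP4 W h hh
  obtain ⟨e⟩ : Nonempty (T ↪ Fin (W ^ k)) :=
    Function.Embedding.nonempty_of_card_le (by rw [Fintype.card_fin]; exact hc)
  refine ⟨Function.extend e f fun _ _ _ => 0, Function.extend e f0 fun _ _ => 0, ?_, ?_, ?_⟩
  · intro t j x y hxy
    by_cases ht : ∃ s, e s = t
    · obtain ⟨s, rfl⟩ := ht
      rw [e.injective.extend_apply]
      exact hf s j x y hxy
    · rw [Function.extend_apply' _ _ _ ht]
  · intro t x y hxy
    by_cases ht : ∃ s, e s = t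
    · obtain ⟨s, rfl⟩ := ht
      rw [e.injective.extend_apply]
      exact hf0 s x y hxy
    · rw [Function.extend_apply' _ _ _ ht]
  · intro x
    rw [hs x]
    apply Fintype.sum_of_injective e e.injective
    · intro t ht
      have h1 : ¬ ∃ s, e s = t := fun ⟨s, h2⟩ => ht ⟨s, h2⟩
      rw [Function.extend_apply' _ _ _ h1, zero_mul]
    · intro s
      rw [e.injective.extend_apply, e.injective.extend_apply]

end Pool.Agent.EC
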