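import Pool.Agent.EC.Asm
import Pool.Agent.EC.Gr1
import Pool.Agent.EC.Gr2
import Pool.Agent.EC.ParL
import Pool.Agent.EC.SelX
import Pool.Agent.EC.Cnv
import Pool.Agent.EC.FinP
import Pool.Agent.EC.Core
import Pool.Agent.EC.SupB
import Pool.Agent.EC.SupA
import Pool.Agent.EC.SupE
import Pool.Agent.EC.Pick
import Pool.Agent.EC.Ori
import Pool.Agent.EC.Tree
import Pool.Agent.EC.Rank
import Pool.Agent.EC.Lin
import Pool.Agent.EC.Full
import Pool.Agent.EC.SumH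
import Pool.Agent.EC.Cub
import Pool.Agent.EC.Run

/-!
# The main theorem
-/

set_option autoImplicit false

namespace Pool.Agent.EC

open Finset Pool.Agent.WD Pool.Agent.EB
open scoped NNReal

theorem Main_ec (ε : ℝ) (hε0 : 0 < ε) (hε1 : ε < 1) (t : ℕ) (ht : 1 ≤ t) :
    ∃ d₀ : ℝ, ∀ d : ℝ, d₀ ≤ d → ∃ c : ℝ, 0 < c ∧ ∃ C : ℝ, ∀ n : ℕ, d ≤ n →
      Prob n (d / n) (fun E => ¬ Resist ε t c E) ≤ C / n :=
  Asm_main thm_Gr1 thm_Gr2
    (thm_FinP thm_ParL thm_Conc (thm_B1 thm_Aff) (thm_B2 (thm_Rk thm_MV)) thm_SelX thm_Cnv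
      (thm_Dec2 thm_Bro))
    (thm_SupE (thm_SupA thm_Core) (thm_SupB thm_Core) thm_Cnv)
    (thm_SumH thm_Pick thm_Ori thm_Tree thm_Rank thm_Lin thm_Full)
    (thm_Run thm_Cub) ε hε0 hε1 t ht

end Pool.Agent.EC
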