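import Pool.Agent.EB.Model

/-!
# Early elimination, with subtraction: definitions

Partial counts, programs and tree tensor networks are defined in `Pool/Agent/EB/Model.lean` and
`Pool/Agent/WE/Model.lean`.
-/

set_option autoImplicit false

namespace Pool.Agent.EC

open Finset Pool.Agent.WD Pool.Agent.EB
open scoped NNReal

/-- Across the cut `S` the real function `h` has rank at most `W`: it is a sum of `W` products of a
function of the variables in `S` and a function of the other variables. -/
def RkLe {D V : Type} (W : ℕ) (h : (V → D) → ℝ) (S : Finset V) : Prop :=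
  ∃ u v : Fin W → (V → D) → ℝ,
    (∀ i x y, (∀ w ∈ S, x w = y w) → u i x = u i y) ∧
    (∀ i x y, (∀ w, w ∉ S → x w = y w) → v i x = v i y) ∧
    ∀ x, h x = ∑ i, u i x * v i x

/-- At every node of the tree the real function `h` has rank at most `W` across the cut into the
variables below the node and the others. -/
def CutsR {D V : Type} [DecidableEq V] (W : ℕ) (h : (V → D) → ℝ) : VTree V → Prop
  | .leaf v => RkLe W h {v}
  | .node l r => RkLe W h (l.vars ∪ r.vars) ∧ CutsR W h l ∧ CutsR W h r

/-- `h` is computed by a real tree tensor network of width `W`. -/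
def IsNetR {D V : Type} [Fintype V] [DecidableEq V] (W : ℕ) (h : (V → D) → ℝ) : Prop :=
  ∃ t : VTree V, t.vars = univ ∧ CutsR W h t

/-- On the cube of all `x` which agree with `r` on `F`, the partial count `part A Y` is not a sum of
`s` functions `h i` (of any sign) computed by real tree tensor networks of width `W`, each with its
own tree, unless `s + W` is at least `2 ^ (c * n ^ (1 / 3))`. -/
def SumHardOn {n : ℕ} (c : ℝ) (A : Finset (Sym2 (Fin n))) (Y F : Finset (Fin n))
    (r : Fin n → Bool) : Prop :=
  ∀ (s W : ℕ) (h : Fin s → (Fin n → Bool) → ℝ), (∀ i, IsNetR W (h i)) →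
    (∀ x, (∀ v ∈ F, x v = r v) → (part A Y x : ℝ) = ∑ i, h i x) →
    (2 : ℝ) ^ (c * (n : ℝ) ^ (1 / 3 : ℝ)) ≤ s + W

/-- `RunS E t b δ A Y F r`: the list of the subproblems `i < N`, given by the clauses `A i`, the
eliminated variables `Y i` and the cube of all `x` which agree with `r i` on `F i`, is a run of a
counting algorithm which computes the partial count `part (A i) (Y i)` on its cube for each `i`:
each subproblem has at most `b / t` clauses (these are free), or each model `x` of `A i` in its cube
lies in the cubes of at most `t` earlier subproblems which contain together all but at most `δ` of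
the clauses in `A i`. -/
def RunS {n N : ℕ} (E : Finset (Sym2 (Fin n))) (t : ℕ) (b δ : ℝ)
    (A : Fin N → Finset (Sym2 (Fin n))) (Y F : Fin N → Finset (Fin n))
    (r : Fin N → Fin n → Bool) : Prop :=
  ∀ i, Closed E (A i) (Y i) ∧ (t * ((A i).card : ℝ) ≤ b ∨
    ∀ x : Fin n → Bool, (∀ v ∈ F i, x v = r i v) → (∀ e ∈ A i, ∃ v ∈ e, x v = true) →
      ∃ J : Finset (Fin N), J.card ≤ t ∧ (∀ j ∈ J, j < i ∧ ∀ v ∈ F j, x v = r j v) ∧
        ((A i \ J.biUnion A).card : ℝ) ≤ δ)

/-- The clauses `x_u ∨ x_v`, `u ≠ v`, of a monotone 2-CNF on `n` variables. -/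
def clauses (n : ℕ) : Finset (Sym2 (Fin n)) := univ.filter fun e => ¬ e.IsDiag

open Classical in
/-- The probability that the random monotone 2-CNF on `n` variables has the property `Q`, if each of
the `n (n - 1) / 2` clauses is present with probability `p`, independently. -/
noncomputable def Prob (n : ℕ) (p : ℝ) (Q : Finset (Sym2 (Fin n)) → Prop) : ℝ :=
  ∑ E ∈ (clauses n).powerset.filter Q, p ^ E.card * (1 - p) ^ ((clauses n).card - E.card)

end Pool.Agent.EC
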