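import Pool.Agent.EC.St

/-!
# From a supply of gadgets to the lower bound for sums of tree tensor networks
-/

set_option autoImplicit false

namespace Pool.Agent.EC

open Finset Pool.Agent.WD Pool.Agent.EB
open scoped NNReal

section

variable {V I : Type} [DecidableEq V] {g : I → Gad V} {x₀ : V → Bool}

theorem SumH_asg_p (hp : ∀ i j, (g i).p = (g j).p → i = j) (a b : I → Bool) (i : I) :
    asg g x₀ a b (g i).p = a i := by
  classical
  have h : ∃ j, (g i).p = (g j).p := ⟨i, rfl⟩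
  unfold asg
  rw [dif_pos h]
  exact congrArg a (hp _ _ h.choose_spec).symm

theorem SumH_asg_q (hq : ∀ i j, (g i).q = (g j).q → i = j) (hpq : ∀ i j, (g i).q ≠ (g j).p)
    (a b : I → Bool) (i : I) : asg g x₀ a b (g i).q = b i := by
  classical
  have h : ∃ j, (g i).q = (g j).q := ⟨i, rfl⟩
  have h' : ¬ ∃ j, (g i).q = (g j).p := fun ⟨j, hj⟩ => hpq i j hj
  unfold asg
  rw [dif_neg h', dif_pos h]
  exact congrArg b (hq _ _ h.choose_spec).symm

theorem SumH_asg_o {v : V} (hp : ∀ i, v ≠ (g i).p) (hq : ∀ i, v ≠ (g i).q)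
    (a b a' b' : I → Bool) : asg g x₀ a b v = asg g x₀ a' b' v := by
  classical
  have h : ¬ ∃ j, v = (g j).p := fun ⟨j, hj⟩ => hp j hj
  have h' : ¬ ∃ j, v = (g j).q := fun ⟨j, hj⟩ => hq j hj
  unfold asg
  rw [dif_neg h, dif_neg h', dif_neg h, dif_neg h']

theorem SumH_asg_F {v : V} (hp : ∀ i, (g i).p ∈ (g i).R) (hq : ∀ i, (g i).q ∈ (g i).R)
    (hC : ∀ i, (g i).C ⊆ (g i).R) (hv : ∀ i, v ∉ (g i).R) (a b : I → Bool) :
    asg g x₀ a b v = x₀ v := by
  classical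
  have h : ¬ ∃ j, v = (g j).p := fun ⟨j, hj⟩ => hv j (hj ▸ hp j)
  have h' : ¬ ∃ j, v = (g j).q := fun ⟨j, hj⟩ => hv j (hj ▸ hq j)
  have h2 : ¬ ∃ j, v ∈ (g j).C := fun ⟨j, hj⟩ => hv j (hC j hj)
  have h3 : ¬ ∃ j, v ∈ (g j).R := fun ⟨j, hj⟩ => hv j hj
  unfold asg
  rw [dif_neg h, dif_neg h', if_neg h2, if_neg h3]

end

/-- The matrix of the count has full rank and is a sum of matrices of small rank. -/
theorem SumH_rank (hRank : St_Rank) (hLin : St_Lin) {I V : Type} [Fintype I] [DecidableEq I]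
    [Fintype V] [DecidableEq V] {g : I → Gad V} {x₀ : V → Bool} {o : I → Bool}
    {φ : (V → Bool) → ℝ} {s : ℕ} {k : Fin s → ℕ} {N : Fin s → ℕ}
    {P : ∀ i : Fin s, Fin (k i) → Finset V}
    {f : ∀ i : Fin s, Fin (N i) → Fin (k i) → (V → Bool) → ℝ}
    {f0 : ∀ i : Fin s, Fin (N i) → (V → Bool) → ℝ}
    (hp : ∀ i, (g i).p ∈ (g i).R) (hq : ∀ i, (g i).q ∈ (g i).R) (hpq : ∀ i, (g i).p ≠ (g i).q)
    (hR : ∀ i j, i ≠ j → Disjoint (g i).R (g j).R)
    (hPd : ∀ i j j', j ≠ j' → Disjoint (P i j) (P i j'))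
    (hf : ∀ i t j x y, (∀ v ∈ P i j, x v = y v) → f i t j x = f i t j y)
    (hf0 : ∀ i t x y, (∀ v, (∀ j, v ∉ P i j) → x v = y v) → f0 i t x = f0 i t y)
    (hφ : ∀ y z, φ (asg g x₀ (mix o y z) (mix o z y)) =
      ∑ i, ∑ t, f0 i t (asg g x₀ (mix o y z) (mix o z y)) *
        ∏ j, f i t j (asg g x₀ (mix o y z) (mix o z y)))
    (hrow : Rows fun y z => φ (asg g x₀ (mix o y z) (mix o z y))) :
    ∃ R : Fin s → ℕ, (∀ i, 2 * R i + ∑ j, (imb (mix o (fun i => (g i).p) (fun i => (g i).q))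
      (mix o (fun i => (g i).q) (fun i => (g i).p)) (P i j)).natAbs ≤ 2 * Fintype.card I) ∧
      2 ^ Fintype.card I ≤ ∑ i, N i * 2 ^ R i := by
  classical
  have hpp : ∀ i j, (g i).p = (g j).p → i = j := by
    intro i j hij
    by_contra hne
    exact (disjoint_left.1 (hR i j hne)) (hp i) (hij ▸ hp j)
  have hqq : ∀ i j, (g i).q = (g j).q → i = j := by
    intro i j hij
    by_contra hne
    exact (disjoint_left.1 (hR i j hne)) (hq i) (hij ▸ hq j)
  have hqp : ∀ i j, (g i).q ≠ (g j).p := by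
    intro i j hij
    by_cases hne : i = j
    · subst hne
      exact hpq i hij.symm
    · exact (disjoint_left.1 (hR i j hne)) (hq i) (hij ▸ hp j)
  set a : I → V := mix o (fun i => (g i).p) (fun i => (g i).q) with ha
  set b : I → V := mix o (fun i => (g i).q) (fun i => (g i).p) with hb
  have ha1 : ∀ i, a i = if o i then (g i).p else (g i).q := fun i => rfl
  have hb1 : ∀ i, b i = if o i then (g i).q else (g i).p := fun i => rfl
  have hainj : Function.Injective a := by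
    intro i j hij
    rw [ha1, ha1] at hij
    split_ifs at hij
    · exact hpp i j hij
    · exact absurd hij.symm (hqp j i)
    · exact absurd hij (hqp i j)
    · exact hqq i j hij
  have hbinj : Function.Injective b := by
    intro i j hij
    rw [hb1, hb1] at hij
    split_ifs at hij
    · exact hqq i j hij
    · exact absurd hij (hqp i j)
    · exact absurd hij.symm (hqp j i)
    · exact hpp i j hij
  have hab : ∀ i j, a i ≠ b j := by
    intro i j hij
    rw [ha1, hb1] at hij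
    split_ifs at hij with h1 h2 h3
    · exact absurd hij.symm (hqp j i)
    · obtain rfl := hpp i j hij
      exact h2 h1
    · obtain rfl := hqq i j hij
      exact h1 h3
    · exact absurd hij (hqp i j)
  let x : (I → Bool) → (I → Bool) → V → Bool := fun y z => asg g x₀ (mix o y z) (mix o z y)
  have hxa : ∀ y z i, x y z (a i) = y i := by
    intro y z i
    show asg g x₀ (mix o y z) (mix o z y) (a i) = y i
    rw [ha1]
    split_ifs with h1
    · rw [SumH_asg_p hpp]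
      show (if o i then y i else z i) = y i
      rw [if_pos h1]
    · rw [SumH_asg_q hqq hqp]
      show (if o i then z i else y i) = y i
      rw [if_neg h1]
  have hxb : ∀ y z i, x y z (b i) = z i := by
    intro y z i
    show asg g x₀ (mix o y z) (mix o z y) (b i) = z i
    rw [hb1]
    split_ifs with h1
    · rw [SumH_asg_q hqq hqp]
      show (if o i then z i else y i) = z i
      rw [if_pos h1]
    · rw [SumH_asg_p hpp]
      show (if o i then y i else z i) = z i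
      rw [if_neg h1]
  have hxo : ∀ v, (∀ i, v ≠ a i) → (∀ i, v ≠ b i) → ∀ y z y' z', x y z v = x y' z' v := by
    intro v hva hvb y z y' z'
    apply SumH_asg_o
    · intro i hi
      have h1 := hva i
      have h2 := hvb i
      rw [ha1] at h1
      rw [hb1] at h2
      split_ifs at h1 h2
      · exact h1 hi
      · exact h2 hi
    · intro i hi
      have h1 := hva i
      have h2 := hvb i
      rw [ha1] at h1
      rw [hb1] at h2
      split_ifs at h1 h2
      · exact h2 hi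
      · exact h1 hi
  have hR1 := fun i => hRank I V a b x hainj hbinj hab hxa hxb hxo (k i) (P i) (hPd i)
  choose R hR2 hR3 using hR1
  refine ⟨R, hR2, ?_⟩
  have h1 : RkM (∑ q : (Σ i : Fin s, Fin (N i)), 2 ^ R q.1)
      fun y z => ∑ q : (Σ i : Fin s, Fin (N i)), f0 q.1 q.2 (x y z) * ∏ j, f q.1 q.2 j (x y z) :=
    hLin.2 (I → Bool) (I → Bool) (Σ i : Fin s, Fin (N i)) (fun q => 2 ^ R q.1)
      (fun q y z => f0 q.1 q.2 (x y z) * ∏ j, f q.1 q.2 j (x y z))
      (fun q => hR3 q.1 (f q.1 q.2) (f0 q.1 q.2) (hf q.1 q.2) (hf0 q.1 q.2))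
  have h2 : (fun y z => φ (x y z)) = fun y z =>
      ∑ q : (Σ i : Fin s, Fin (N i)), f0 q.1 q.2 (x y z) * ∏ j, f q.1 q.2 j (x y z) := by
    funext y z
    rw [Fintype.sum_sigma]
    exact hφ y z
  rw [← h2] at h1
  have h3 := hLin.1 (I → Bool) (I → Bool) _ (fun y z => φ (x y z)) hrow h1
  rw [Fintype.card_fun, Fintype.card_bool] at h3
  refine h3.trans (le_of_eq ?_)
  rw [Fintype.sum_sigma]
  refine sum_congr rfl fun i _ => ?_
  show ∑ t : Fin (N i), 2 ^ R i = _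
  rw [sum_const, card_univ, Fintype.card_fin, smul_eq_mul]

/-- the choice of gadgets without conflicts -/
theorem SumH_pick {Λ K : ℕ}
    (hPick : ∀ (G : Type) [Fintype G] [DecidableEq G] (c : G → G → Prop)
      [DecidableRel c], (∀ g h, c g h → c h g) → (∀ g, (univ.filter (c g)).card ≤ Λ) →
      ∀ (ι : Type) [Fintype ι] (T : ι → Finset G) (m : ℕ), (∀ i, m ≤ (T i).card) →
        (Fintype.card ι : ℝ) < 2 ^ ((m : ℝ) / K) →
        ∃ J : Finset G, (∀ g ∈ J, ∀ h ∈ J, g ≠ h → ¬ c g h) ∧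
          ∀ i, (T i).card ≤ K * (J ∩ T i).card)
    (hK : 1 ≤ K) {n D : ℕ} {E A : Finset (Sym2 (Fin n))} {Y F X : Finset (Fin n)}
    {G : Finset (Fin n × Fin n)} {g : Fin n × Fin n → Gad (Fin n)}
    {ctr : Fin n × Fin n → Fin n} (hsup : Supply E A Y D F Λ X G g ctr)
    (hp : ∀ e ∈ G, e.1 ∈ (g e).R) (hq : ∀ e ∈ G, e.2 ∈ (g e).R) {ι : Type} [Fintype ι]
    (P : ι → Finset (Fin n)) (m : ℕ)
    (hP : ∀ i, K * m ≤ (P i ∩ X).card ∧ (P i ∩ X).card ≤ 2 * (K * m))
    (hn : (Λ * (2 * (K * m))) ^ 4 ≤ n ^ 3) (hι : (Fintype.card ι : ℝ) < 2 ^ m) :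
    ∃ J : Finset (Fin n × Fin n), J ⊆ G ∧
      (∀ e ∈ J, ∀ f ∈ J, e ≠ f → Disjoint (g e).R (g f).R ∧ ctr e ≠ ctr f ∧
        s(ctr e, ctr f) ∉ E) ∧
      ∀ i, m ≤ (J.filter fun e => (e.1 ∈ P i ∧ e.2 ∉ P i) ∨ (e.1 ∉ P i ∧ e.2 ∈ P i)).card ∧
        (J.filter fun e => (e.1 ∈ P i ∧ e.2 ∉ P i) ∨ (e.1 ∉ P i ∧ e.2 ∈ P i)).card ≤
          2 * K * m := by
  classical
  let cf : {e // e ∈ G} → {e // e ∈ G} → Prop := fun e f =>
    ¬ Disjoint (g e.1).R (g f.1).R ∨ ctr e.1 = ctr f.1 ∨ s(ctr e.1, ctr f.1) ∈ E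
  let T : ι → Finset {e // e ∈ G} := fun i => univ.filter fun e =>
    (e.1.1 ∈ P i ∧ e.1.2 ∉ P i) ∨ (e.1.1 ∉ P i ∧ e.1.2 ∈ P i)
  obtain ⟨J', hJ1, hJ2⟩ := hPick {e // e ∈ G} cf (by
      rintro e f (h | h | h)
      · exact Or.inl fun h' => h h'.symm
      · exact Or.inr (Or.inl h.symm)
      · exact Or.inr (Or.inr (by rw [Sym2.eq_swap]; exact h))) (by
      intro e
      refine le_trans ?_ (hsup.conf e.1 e.2)
      apply card_le_card_of_injOn Subtype.val
      · intro f hf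
        exact mem_filter.2 ⟨f.2, (mem_filter.1 hf).2⟩
      · exact fun f _ f' _ h => Subtype.ext h) ι T (K * m) (by
      intro i
      have h1 : (P i ∩ X).card ≤ (G.filter fun e => (e.1 ∈ P i ∩ X ∧ e.2 ∉ P i ∩ X) ∨
          (e.1 ∉ P i ∩ X ∧ e.2 ∈ P i ∩ X)).card := by
        apply hsup.cross _ inter_subset_right
        refine le_trans ?_ hn
        exact Nat.pow_le_pow_left (Nat.mul_le_mul_left _ (hP i).2) 4
      refine (hP i).1.trans (h1.trans ?_)
      apply card_le_card_of_surjOn Subtype.val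
      intro e he
      obtain ⟨heG, he⟩ := mem_filter.1 he
      obtain ⟨hX1, hX2, -, -⟩ := hsup.core e heG
      refine ⟨⟨e, heG⟩, ?_, rfl⟩
      refine mem_coe.2 (mem_filter.2 ⟨mem_univ _, ?_⟩)
      rcases he with ⟨h2, h3⟩ | ⟨h2, h3⟩
      · exact Or.inl ⟨(mem_inter.1 h2).1, fun h4 => h3 (mem_inter.2 ⟨h4, hX2⟩)⟩
      · exact Or.inr ⟨fun h4 => h2 (mem_inter.2 ⟨h4, hX1⟩), (mem_inter.1 h3).1⟩) (by
      have hK' : (K : ℝ) ≠ 0 := by
        have : K ≠ 0 := by omega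
        exact_mod_cast this
      have h1 : (((K * m : ℕ) : ℝ)) / K = m := by
        push_cast
        field_simp
      rw [h1, Real.rpow_natCast]
      exact hι)
  refine ⟨J'.map ⟨Subtype.val, Subtype.val_injective⟩, ?_, ?_, ?_⟩
  · intro e he
    obtain ⟨e', -, rfl⟩ := mem_map.1 he
    exact e'.2
  · intro e he f hf hef
    obtain ⟨e', he', rfl⟩ := mem_map.1 he
    obtain ⟨f', hf', rfl⟩ := mem_map.1 hf
    have h1 := hJ1 e' he' f' hf' (fun h => hef (congrArg _ h))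
    change ¬ (¬ Disjoint (g e'.1).R (g f'.1).R ∨ ctr e'.1 = ctr f'.1 ∨
      s(ctr e'.1, ctr f'.1) ∈ E) at h1
    push Not at h1
    exact h1
  · intro i
    constructor
    · have h1 : K * m ≤ (T i).card := by
        -- as above
        have h1 : (P i ∩ X).card ≤ (G.filter fun e => (e.1 ∈ P i ∩ X ∧ e.2 ∉ P i ∩ X) ∨
            (e.1 ∉ P i ∩ X ∧ e.2 ∈ P i ∩ X)).card := by
          apply hsup.cross _ inter_subset_right
          refine le_trans ?_ hn
          exact Nat.pow_le_pow_left (Nat.mul_le_mul_left _ (hP i).2) 4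
        refine (hP i).1.trans (h1.trans ?_)
        apply card_le_card_of_surjOn Subtype.val
        intro e he
        obtain ⟨heG, he⟩ := mem_filter.1 he
        obtain ⟨hX1, hX2, -, -⟩ := hsup.core e heG
        refine ⟨⟨e, heG⟩, ?_, rfl⟩
        refine mem_coe.2 (mem_filter.2 ⟨mem_univ _, ?_⟩)
        rcases he with ⟨h2, h3⟩ | ⟨h2, h3⟩
        · exact Or.inl ⟨(mem_inter.1 h2).1, fun h4 => h3 (mem_inter.2 ⟨h4, hX2⟩)⟩
        · exact Or.inr ⟨fun h4 => h2 (mem_inter.2 ⟨h4, hX1⟩), (mem_inter.1 h3).1⟩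
      have h2 : m ≤ (J' ∩ T i).card :=
        Nat.le_of_mul_le_mul_left (h1.trans (hJ2 i)) (by omega)
      refine h2.trans ?_
      apply card_le_card_of_injOn Subtype.val
      · intro e he
        obtain ⟨h3, h4⟩ := mem_inter.1 he
        exact mem_filter.2 ⟨mem_map.2 ⟨e, h3, rfl⟩, (mem_filter.1 h4).2⟩
      · exact fun f _ f' _ h => Subtype.ext h
    · have h1 : 2 * K * m = 2 * (K * m) := by ring
      rw [h1]
      refine le_trans ?_ (hP i).2
      apply card_le_card_of_injOn fun e => if e.1 ∈ P i then e.1 else e.2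
      · intro e he
        obtain ⟨h3, h4⟩ := mem_filter.1 he
        obtain ⟨e', -, rfl⟩ := mem_map.1 h3
        obtain ⟨hX1, hX2, -, -⟩ := hsup.core e'.1 e'.2
        show (if e'.1.1 ∈ P i then e'.1.1 else e'.1.2) ∈ (↑(P i ∩ X) : Set (Fin n))
        rcases h4 with ⟨h5, h6⟩ | ⟨h5, h6⟩
        · have h5' : e'.1.1 ∈ P i := h5
          rw [if_pos h5']
          exact mem_coe.2 (mem_inter.2 ⟨h5', hX1⟩)
        · have h5' : ¬ e'.1.1 ∈ P i := h5
          rw [if_neg h5']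
          exact mem_coe.2 (mem_inter.2 ⟨h6, hX2⟩)
      · intro e he f hf hef
        obtain ⟨h3, -⟩ := mem_filter.1 he
        obtain ⟨h5, -⟩ := mem_filter.1 hf
        obtain ⟨e', he', rfl⟩ := mem_map.1 h3
        obtain ⟨f', hf', rfl⟩ := mem_map.1 h5
        by_contra hne
        have h7 := hJ1 e' he' f' hf' (fun h => hne (congrArg _ h))
        apply h7
        left
        rw [not_disjoint_iff]
        refine ⟨if e'.1.1 ∈ P i then e'.1.1 else e'.1.2, ?_, ?_⟩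
        · split_ifs
          · exact hp _ e'.2
          · exact hq _ e'.2
        · change (if e'.1.1 ∈ P i then e'.1.1 else e'.1.2) =
            (if f'.1.1 ∈ P i then f'.1.1 else f'.1.2) at hef
          rw [hef]
          split_ifs
          · exact hp _ f'.2
          · exact hq _ f'.2

/-- the choice of the orientation -/
theorem SumH_ori {Λ' : ℕ} {c₁ : ℝ}
    (hOri : ∀ (I V : Type) [Fintype I] [DecidableEq I] [DecidableEq V]
      (p q : I → V) (k m : ℕ) (P : Fin k → Finset V), 1 ≤ m →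
      (∀ i j, i ≠ j → Disjoint (P i) (P j)) →
      (∀ j, m ≤ (univ.filter fun i =>
          (p i ∈ P j ∧ q i ∉ P j) ∨ (p i ∉ P j ∧ q i ∈ P j)).card ∧
        (univ.filter fun i =>
          (p i ∈ P j ∧ q i ∉ P j) ∨ (p i ∉ P j ∧ q i ∈ P j)).card ≤ Λ' * m) →
      ((univ.filter fun o : I → Bool =>
          ((∑ j, (imb (mix o p q) (mix o q p) (P j)).natAbs : ℕ) : ℝ) <
            c₁ * k * Real.sqrt m).card : ℝ) ≤ 2 ^ (-(c₁ * k)) * 2 ^ Fintype.card I)
    {I V : Type} [Fintype I] [DecidableEq I] [DecidableEq V] (p q : I → V) {s : ℕ}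
    (k : Fin s → ℕ) (m : ℕ) (P : ∀ i, Fin (k i) → Finset V) (hm : 1 ≤ m)
    (hPd : ∀ i j j', j ≠ j' → Disjoint (P i j) (P i j'))
    (hcr : ∀ i j, m ≤ (univ.filter fun e =>
          (p e ∈ P i j ∧ q e ∉ P i j) ∨ (p e ∉ P i j ∧ q e ∈ P i j)).card ∧
        (univ.filter fun e =>
          (p e ∈ P i j ∧ q e ∉ P i j) ∨ (p e ∉ P i j ∧ q e ∈ P i j)).card ≤ Λ' * m)
    {β : ℝ} (hβ : ∀ i, (2 : ℝ) ^ (-(c₁ * k i)) ≤ β) (hs : s * β < 1) :
    ∃ o : I → Bool, ∀ i, c₁ * k i * Real.sqrt m ≤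
      ((∑ j, (imb (mix o p q) (mix o q p) (P i j)).natAbs : ℕ) : ℝ) := by
  classical
  by_contra hcon
  push Not at hcon
  let Bd : Fin s → Finset (I → Bool) := fun i => univ.filter fun o : I → Bool =>
    ((∑ j, (imb (mix o p q) (mix o q p) (P i j)).natAbs : ℕ) : ℝ) < c₁ * k i * Real.sqrt m
  have h1 : ∀ i, ((Bd i).card : ℝ) ≤ β * 2 ^ Fintype.card I := fun i =>
    (hOri I V p q (k i) m (P i) hm (hPd i) (hcr i)).trans
      (mul_le_mul_of_nonneg_right (hβ i) (by positivity))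
  have h2 : (univ : Finset (I → Bool)) ⊆ univ.biUnion Bd := by
    intro o _
    obtain ⟨i, hi⟩ := hcon o
    exact mem_biUnion.2 ⟨i, mem_univ _, mem_filter.2 ⟨mem_univ _, hi⟩⟩
  have h3 := (card_le_card h2).trans card_biUnion_le
  rw [card_univ, Fintype.card_fun, Fintype.card_bool] at h3
  have h4 : ((2 ^ Fintype.card I : ℕ) : ℝ) ≤ ∑ i, ((Bd i).card : ℝ) := by exact_mod_cast h3
  have h5 : ∑ i, ((Bd i).card : ℝ) ≤ ∑ _i : Fin s, β * 2 ^ Fintype.card I :=
    sum_le_sum fun i _ => h1 i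
  rw [sum_const, card_univ, Fintype.card_fin, nsmul_eq_mul] at h5
  push_cast at h4
  have h6 : (0 : ℝ) < 2 ^ Fintype.card I := by positivity
  have h7 : (s : ℝ) * (β * 2 ^ Fintype.card I) < 1 * 2 ^ Fintype.card I := by
    rw [← mul_assoc]
    exact mul_lt_mul_of_pos_right hs h6
  linarith

/-- the final estimate -/
theorem SumH_fin {c c₁ N : ℝ} {M s W m : ℕ} {k R S : Fin s → ℕ} (hN : 0 ≤ N)
    (hc : c ≤ c₁ / 4) (hc₁ : 0 < c₁) (hm : N ≤ Real.sqrt m) (hk : ∀ i, 1 ≤ k i)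
    (hW : (s : ℝ) + W < 2 ^ (c * N)) (hS : ∀ i, c₁ * k i * Real.sqrt m ≤ (S i : ℝ))
    (hR : ∀ i, 2 * R i + S i ≤ 2 * M) (hsum : 2 ^ M ≤ ∑ i, W ^ k i * 2 ^ R i) : False := by
  have hs0 : (0 : ℝ) ≤ s := Nat.cast_nonneg _
  have hW0 : (0 : ℝ) ≤ W := Nat.cast_nonneg _
  have h1 : ((2 ^ M : ℕ) : ℝ) ≤ ∑ i, ((W : ℝ) ^ k i * 2 ^ R i) := by exact_mod_cast hsum
  have h2 : ∀ i, (W : ℝ) ^ k i * 2 ^ R i ≤ 2 ^ M * (2 : ℝ) ^ (-(c₁ / 4 * N)) := by
    intro i
    have hk' : (1 : ℝ) ≤ k i := by exact_mod_cast hk i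
    have e1 : (W : ℝ) ^ k i ≤ (2 : ℝ) ^ (c₁ / 4 * N * k i) := by
      calc (W : ℝ) ^ k i ≤ ((2 : ℝ) ^ (c * N)) ^ k i :=
            pow_le_pow_left₀ hW0 (by linarith) _
        _ = (2 : ℝ) ^ (c * N * k i) := by
            rw [← Real.rpow_natCast, ← Real.rpow_mul (by norm_num)]
        _ ≤ (2 : ℝ) ^ (c₁ / 4 * N * k i) := by
            apply Real.rpow_le_rpow_of_exponent_le (by norm_num)
            exact mul_le_mul_of_nonneg_right (mul_le_mul_of_nonneg_right hc hN) (by linarith)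
    have e2 : (2 : ℝ) ^ R i ≤ (2 : ℝ) ^ ((M : ℝ) - c₁ / 2 * N * k i) := by
      rw [← Real.rpow_natCast]
      apply Real.rpow_le_rpow_of_exponent_le (by norm_num)
      have e3 : (2 : ℝ) * R i + S i ≤ 2 * M := by exact_mod_cast hR i
      have e4 : c₁ * k i * N ≤ c₁ * k i * Real.sqrt m :=
        mul_le_mul_of_nonneg_left hm (by positivity)
      have e5 := hS i
      nlinarith
    calc (W : ℝ) ^ k i * 2 ^ R i
        ≤ (2 : ℝ) ^ (c₁ / 4 * N * k i) * (2 : ℝ) ^ ((M : ℝ) - c₁ / 2 * N * k i) :=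
          mul_le_mul e1 e2 (by positivity) (by positivity)
      _ = (2 : ℝ) ^ (c₁ / 4 * N * k i + ((M : ℝ) - c₁ / 2 * N * k i)) := by
          rw [← Real.rpow_add (by norm_num)]
      _ ≤ (2 : ℝ) ^ ((M : ℝ) + -(c₁ / 4 * N)) := by
          apply Real.rpow_le_rpow_of_exponent_le (by norm_num)
          have e6 : 0 ≤ c₁ / 4 * N := by positivity
          nlinarith
      _ = 2 ^ M * (2 : ℝ) ^ (-(c₁ / 4 * N)) := by
          rw [Real.rpow_add (by norm_num), Real.rpow_natCast]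
  have h3 : ∑ i, ((W : ℝ) ^ k i * 2 ^ R i) ≤ ∑ _i : Fin s, 2 ^ M * (2 : ℝ) ^ (-(c₁ / 4 * N)) :=
    sum_le_sum fun i _ => h2 i
  rw [sum_const, card_univ, Fintype.card_fin, nsmul_eq_mul] at h3
  have h4 : (s : ℝ) < (2 : ℝ) ^ (c₁ / 4 * N) := by
    have e1 : (2 : ℝ) ^ (c * N) ≤ (2 : ℝ) ^ (c₁ / 4 * N) :=
      Real.rpow_le_rpow_of_exponent_le (by norm_num) (mul_le_mul_of_nonneg_right hc hN)
    linarith
  have h5 : (s : ℝ) * (2 : ℝ) ^ (-(c₁ / 4 * N)) < 1 := by
    rw [Real.rpow_neg (by norm_num)]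
    rw [← div_eq_mul_inv, div_lt_one (by positivity)]
    exact h4
  push_cast at h1
  have h6 : (0 : ℝ) < 2 ^ M := by positivity
  have h7 : (s : ℝ) * (2 ^ M * (2 : ℝ) ^ (-(c₁ / 4 * N))) < 2 ^ M := by
    calc (s : ℝ) * (2 ^ M * (2 : ℝ) ^ (-(c₁ / 4 * N)))
        = 2 ^ M * (s * (2 : ℝ) ^ (-(c₁ / 4 * N))) := by ring
      _ < 2 ^ M * 1 := mul_lt_mul_of_pos_left h5 h6
      _ = 2 ^ M := mul_one _
  linarith

theorem SumH_card {α : Type} (J : Finset α) (Pr : α → Prop) [DecidablePred Pr] :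
    (univ.filter fun e : {e // e ∈ J} => Pr e.1).card = (J.filter Pr).card := by
  classical
  rw [← card_map ⟨Subtype.val, Subtype.val_injective⟩]
  congr 1
  ext a
  simp only [mem_map, mem_filter, mem_univ, true_and, Function.Embedding.coeFn_mk,
    Subtype.exists]
  constructor
  · rintro ⟨b, hb, h1, rfl⟩
    exact ⟨hb, h1⟩
  · rintro ⟨ha, h1⟩
    exact ⟨a, ha, h1, rfl⟩

theorem thm_SumH (hPick : St_Pick) (hOri : St_Ori) (hTree : St_Tree) (hRank : St_Rank)
    (hLin : St_Lin) (hFull : St_Full) : St_SumH := by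
  classical
  intro D Λ
  obtain ⟨K, hK1, hPick⟩ := hPick Λ
  obtain ⟨c₁, hc₁, hOri⟩ := hOri (2 * K)
  obtain ⟨Q, hQ⟩ : ∃ Q : ℕ, Q = 4 * (Λ + 1) * K := ⟨_, rfl⟩
  have hQ1 : 4 ≤ Q := by
    rw [hQ]
    have : 1 ≤ (Λ + 1) * K := Nat.mul_pos (Nat.succ_pos _) (by omega)
    nlinarith
  have hQ4 : (4 : ℝ) ≤ Q := by exact_mod_cast hQ1
  have hQK : 4 * (Λ : ℝ) * K ≤ Q := by
    rw [hQ]
    push_cast
    have : (0 : ℝ) ≤ K := Nat.cast_nonneg _
    nlinarith
  obtain ⟨c₂, hc₂⟩ : ∃ c₂ : ℝ, c₂ = 1 / (2 * Q) := ⟨_, rfl⟩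
  have hc₂0 : 0 < c₂ := by
    rw [hc₂]
    positivity
  have hc₂1 : c₂ ≤ 1 / 4 := by
    rw [hc₂]
    apply one_div_le_one_div_of_le (by norm_num)
    linarith
  refine ⟨min (c₁ * c₂) 1, lt_min (mul_pos hc₁ hc₂0) one_pos, Q ^ 12, ?_⟩
  intro n E A Y F X G g ctr r hn hloop hcl hsup hr s W h hnet hsum
  by_contra hcon
  push Not at hcon
  obtain ⟨N, hNdef⟩ : ∃ N : ℝ, N = (n : ℝ) ^ (1 / 3 : ℝ) := ⟨_, rfl⟩
  rw [← hNdef] at hcon
  obtain ⟨c, hc⟩ : ∃ c : ℝ, c = min (c₁ * c₂) 1 := ⟨_, rfl⟩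
  rw [← hc] at hcon
  have hcc : c ≤ c₁ * c₂ := by rw [hc]; exact min_le_left _ _
  have hc1 : c ≤ 1 := by rw [hc]; exact min_le_right _ _
  have hN0 : 0 ≤ N := by rw [hNdef]; positivity
  have hN3 : N ^ 3 = n := by
    rw [hNdef, ← Real.rpow_natCast, ← Real.rpow_mul (Nat.cast_nonneg n)]
    norm_num
  have hNQ : (Q : ℝ) ^ 4 ≤ N := by
    have h1 : ((Q : ℝ) ^ 4) ^ 3 ≤ N ^ 3 := by
      rw [hN3, ← pow_mul]
      exact_mod_cast hn
    exact (pow_le_pow_iff_left₀ (by positivity) hN0 (by norm_num)).1 h1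
  have hQN : (Q : ℝ) ≤ N := by
    refine le_trans ?_ hNQ
    calc (Q : ℝ) = Q ^ 1 := (pow_one _).symm
      _ ≤ Q ^ 4 := pow_le_pow_right₀ (by linarith) (by norm_num)
  have hN4 : 4 ≤ N := by linarith
  have hs0 : (0 : ℝ) ≤ s := Nat.cast_nonneg _
  have hW0 : (0 : ℝ) ≤ W := Nat.cast_nonneg _
  have hs1 : (s : ℝ) < 2 ^ (c * N) := by linarith
  obtain ⟨m, hm⟩ : ∃ m : ℕ, m = ⌈N ^ 2⌉₊ := ⟨_, rfl⟩
  have hm1 : N ^ 2 ≤ m := by rw [hm]; exact Nat.le_ceil _
  have hm2 : (m : ℝ) ≤ 2 * N ^ 2 := by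
    have h1 : (m : ℝ) < N ^ 2 + 1 := by rw [hm]; exact Nat.ceil_lt_add_one (by positivity)
    nlinarith
  have hm0 : 1 ≤ m := by
    have h1 : (0 : ℝ) < m := by nlinarith
    have h2 : 0 < m := by exact_mod_cast h1
    omega
  have hL0 : 1 ≤ K * m := Nat.mul_pos (by omega) (by omega)
  choose τ hτ hcuts using hnet
  have hT : ∀ i : Fin s, ∃ (k : ℕ) (P : Fin k → Finset (Fin n))
      (f : Fin (W ^ k) → Fin k → (Fin n → Bool) → ℝ) (f0 : Fin (W ^ k) → (Fin n → Bool) → ℝ),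
      (∀ i j, i ≠ j → Disjoint (P i) (P j)) ∧
      (∀ j, K * m ≤ (P j ∩ X).card ∧ (P j ∩ X).card ≤ 2 * (K * m)) ∧
      X.card ≤ 2 * (K * m) * k + K * m ∧
      (∀ t j x y, (∀ v ∈ P j, x v = y v) → f t j x = f t j y) ∧
      (∀ t x y, (∀ v, (∀ j, v ∉ P j) → x v = y v) → f0 t x = f0 t y) ∧
      ∀ x, h i x = ∑ t, f0 t x * ∏ j, f t j x := by
    intro i
    obtain ⟨k, P, h1, h2, h3, h4⟩ := hTree (Fin n) (τ i) X (K * m) (hτ i) hL0
    obtain ⟨f, f0, h5, h6, h7⟩ := h4 W (h i) (hcuts i)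
    exact ⟨k, P, f, f0, h1, h2, h3, h5, h6, h7⟩
  choose k P f f0 hPd hPX hXk hf hf0 hh using hT
  -- the number of pieces
  have hkN : ∀ i, (k i : ℝ) ≤ N := by
    intro i
    have h1 : k i * (K * m) ≤ n := by
      calc k i * (K * m) = ∑ _j : Fin (k i), K * m := by
            rw [sum_const, card_univ, Fintype.card_fin, smul_eq_mul]
        _ ≤ ∑ j, (P i j ∩ X).card := sum_le_sum fun j _ => (hPX i j).1
        _ = (univ.biUnion fun j => P i j ∩ X).card := by
            rw [card_biUnion]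
            intro j _ j' _ hj
            exact (hPd i j j' hj).mono inter_subset_left inter_subset_left
        _ ≤ (univ : Finset (Fin n)).card := card_le_card (subset_univ _)
        _ = n := by rw [card_univ, Fintype.card_fin]
    have h2 : (k i : ℝ) * (K * m) ≤ N ^ 3 := by
      rw [hN3]
      exact_mod_cast h1
    have h3 : (1 : ℝ) ≤ K := by exact_mod_cast hK1
    have h4 : (0 : ℝ) ≤ k i := Nat.cast_nonneg _
    have h5 : (k i : ℝ) * N ^ 2 ≤ k i * (K * m) := by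
      apply mul_le_mul_of_nonneg_left _ h4
      nlinarith
    have h6 : (k i : ℝ) * N ^ 2 ≤ N * N ^ 2 := by nlinarith
    exact le_of_mul_le_mul_right h6 (by positivity)
  have hkc : ∀ i, c₂ * N ≤ k i := by
    intro i
    have h1 : n ≤ Λ * (2 * (K * m) * k i + K * m) :=
      hsup.big.trans (Nat.mul_le_mul_left _ (hXk i))
    have h2 : N ^ 3 ≤ Λ * (2 * (K * m) * k i + K * m) := by
      rw [hN3]
      exact_mod_cast h1
    have h4 : (0 : ℝ) ≤ k i := Nat.cast_nonneg _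
    have h5 : (Λ : ℝ) * (2 * (K * m) * k i + K * m) ≤ (Q / 2) * (2 * k i + 1) * N ^ 2 := by
      have h6 : (Λ : ℝ) * (2 * (K * m) * k i + K * m) = (Λ * K) * (2 * k i + 1) * m := by ring
      rw [h6]
      have h7 : (Λ : ℝ) * K ≤ Q / 4 := by linarith
      have h8 : (0 : ℝ) ≤ Λ * K := by positivity
      calc (Λ : ℝ) * K * (2 * k i + 1) * m ≤ (Λ : ℝ) * K * (2 * k i + 1) * (2 * N ^ 2) :=
            mul_le_mul_of_nonneg_left hm2 (by positivity)
        _ ≤ (Q / 4) * (2 * k i + 1) * (2 * N ^ 2) := by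
            apply mul_le_mul_of_nonneg_right _ (by positivity)
            exact mul_le_mul_of_nonneg_right h7 (by positivity)
        _ = (Q / 2) * (2 * k i + 1) * N ^ 2 := by ring
    have h6 : N * N ^ 2 ≤ (Q / 2) * (2 * k i + 1) * N ^ 2 := by
      have : N * N ^ 2 = N ^ 3 := by ring
      linarith
    have h7 : N ≤ (Q / 2) * (2 * k i + 1) := le_of_mul_le_mul_right h6 (by positivity)
    have hQ0 : (0 : ℝ) < Q := by linarith
    rw [hc₂, div_mul_eq_mul_div, div_le_iff₀ (by positivity), one_mul]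
    nlinarith
  have hk1 : ∀ i, 1 ≤ k i := by
    intro i
    have h1 : (0 : ℝ) < k i := lt_of_lt_of_le (by positivity) (hkc i)
    have h2 : 0 < k i := by exact_mod_cast h1
    omega
  -- the gadgets
  have hGp : ∀ e ∈ G, e.1 ∈ (g e).R := by
    intro e he
    rw [← (hsup.core e he).2.2.1]
    rcases hsup.typ with h1 | h1
    · exact (h1 e he).pR
    · exact (h1 e he).pR
  have hGq : ∀ e ∈ G, e.2 ∈ (g e).R := by
    intro e he
    rw [← (hsup.core e he).2.2.2]
    rcases hsup.typ with h1 | h1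
    · exact (h1 e he).qR
    · exact (h1 e he).qR
  have hGpq : ∀ e ∈ G, (g e).p ≠ (g e).q := by
    intro e he
    rcases hsup.typ with h1 | h1
    · exact (h1 e he).pq
    · exact (h1 e he).pq
  have hGC : ∀ e ∈ G, (g e).C ⊆ (g e).R := by
    intro e he
    rcases hsup.typ with h1 | h1
    · exact (h1 e he).CR
    · rw [(h1 e he).C0]
      exact empty_subset _
  obtain ⟨J, hJG, hJ1, hJ2⟩ := SumH_pick hPick hK1 hsup hGp hGq
    (ι := Σ i : Fin s, Fin (k i)) (fun q => P q.1 q.2) m (fun q => hPX q.1 q.2) (by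
      have h1 : ((Λ : ℝ) * (2 * (K * m))) ^ 4 ≤ (n : ℝ) ^ 3 := by
        have h2 : (Λ : ℝ) * (2 * (K * m)) ≤ Q * N ^ 2 := by
          have h8 : (0 : ℝ) ≤ Λ * K := by positivity
          calc (Λ : ℝ) * (2 * (K * m)) = 2 * (Λ * K) * m := by ring
            _ ≤ 2 * (Λ * K) * (2 * N ^ 2) := mul_le_mul_of_nonneg_left hm2 (by positivity)
            _ = 4 * Λ * K * N ^ 2 := by ring
            _ ≤ Q * N ^ 2 := mul_le_mul_of_nonneg_right hQK (by positivity)
        calc ((Λ : ℝ) * (2 * (K * m))) ^ 4 ≤ (Q * N ^ 2) ^ 4 :=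
              pow_le_pow_left₀ (by positivity) h2 4
          _ = Q ^ 4 * N ^ 8 := by ring
          _ ≤ N * N ^ 8 := mul_le_mul_of_nonneg_right hNQ (by positivity)
          _ = (N ^ 3) ^ 3 := by ring
          _ = (n : ℝ) ^ 3 := by rw [hN3]
      exact_mod_cast h1) (by
      have h1 : (Fintype.card (Σ i : Fin s, Fin (k i)) : ℝ) ≤ s * N := by
        rw [Fintype.card_sigma]
        push_cast
        calc ∑ i : Fin s, (Fintype.card (Fin (k i)) : ℝ) ≤ ∑ _i : Fin s, N := by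
              apply sum_le_sum
              intro i _
              rw [Fintype.card_fin]
              exact hkN i
          _ = s * N := by rw [sum_const, card_univ, Fintype.card_fin, nsmul_eq_mul]
      have h2 : 1 + N * 1 ≤ (1 + 1 : ℝ) ^ N :=
        one_add_mul_self_le_rpow_one_add (by norm_num) (by linarith)
      have h3 : N < (2 : ℝ) ^ N := by
        have : (1 + 1 : ℝ) = 2 := by norm_num
        rw [this] at h2
        linarith
      have h4 : (s : ℝ) ≤ 2 ^ N := by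
        have : (2 : ℝ) ^ (c * N) ≤ 2 ^ N := by
          apply Real.rpow_le_rpow_of_exponent_le (by norm_num)
          nlinarith
        linarith
      have h5 : (2 : ℝ) ^ N * 2 ^ N ≤ 2 ^ m := by
        rw [← Real.rpow_add (by norm_num), ← Real.rpow_natCast]
        apply Real.rpow_le_rpow_of_exponent_le (by norm_num)
        nlinarith
      have h6 : (0 : ℝ) < 2 ^ N := by positivity
      calc (Fintype.card (Σ i : Fin s, Fin (k i)) : ℝ) ≤ s * N := h1
        _ ≤ 2 ^ N * N := mul_le_mul_of_nonneg_right h4 hN0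
        _ < 2 ^ N * 2 ^ N := mul_lt_mul_of_pos_left h3 h6
        _ ≤ 2 ^ m := h5)
  let gI : {e // e ∈ J} → Gad (Fin n) := fun e => g e.1
  have hpc : ∀ e : {e // e ∈ J}, (gI e).p = e.1.1 := fun e => (hsup.core e.1 (hJG e.2)).2.2.1
  have hqc : ∀ e : {e // e ∈ J}, (gI e).q = e.1.2 := fun e => (hsup.core e.1 (hJG e.2)).2.2.2
  -- the orientation
  obtain ⟨o, ho⟩ := SumH_ori hOri (I := {e // e ∈ J}) (fun e => (gI e).p) (fun e => (gI e).q)
    k m P hm0 hPd (by
      intro i j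
      simp only [hpc, hqc]
      rw [SumH_card J fun e : Fin n × Fin n =>
        (e.1 ∈ P i j ∧ e.2 ∉ P i j) ∨ (e.1 ∉ P i j ∧ e.2 ∈ P i j)]
      exact hJ2 ⟨i, j⟩) (β := (2 : ℝ) ^ (-(c₁ * c₂ * N))) (by
      intro i
      apply Real.rpow_le_rpow_of_exponent_le (by norm_num)
      have := mul_le_mul_of_nonneg_left (hkc i) hc₁.le
      linarith) (by
      rw [Real.rpow_neg (by norm_num), ← div_eq_mul_inv, div_lt_one (by positivity)]
      refine lt_of_lt_of_le hs1 ?_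
      apply Real.rpow_le_rpow_of_exponent_le (by norm_num)
      exact mul_le_mul_of_nonneg_right hcc hN0)
  -- full rank
  have hrow := hFull (Fin n) {e // e ∈ J} E A Y F D gI (fun e => ctr e.1) r hcl.1 hloop hcl.2 hr
    (by
      rcases hsup.typ with h1 | h1
      · exact Or.inl fun e => h1 e.1 (hJG e.2)
      · exact Or.inr fun e => h1 e.1 (hJG e.2))
    (fun e f hef => hJ1 e.1 e.2 f.1 f.2 fun h => hef (Subtype.ext h))
    (fun e => (hsup.avoid e.1 (hJG e.2)).1) o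
  obtain ⟨R, hR1, hR2⟩ := SumH_rank hRank hLin (g := gI)
    (x₀ := fun v => if v ∈ F then r v else true) (o := o) (φ := fun x => (part A Y x : ℝ))
    (k := k) (N := fun i => W ^ k i) (P := P) (f := f) (f0 := f0)
    (fun e => by rw [hpc]; exact hGp e.1 (hJG e.2)) (fun e => by rw [hqc]; exact hGq e.1 (hJG e.2))
    (fun e => hGpq e.1 (hJG e.2))
    (fun e f hef => (hJ1 e.1 e.2 f.1 f.2 fun h => hef (Subtype.ext h)).1) hPd hf hf0 (by
      intro y z
      have hF : ∀ v ∈ F, asg gI (fun v => if v ∈ F then r v else true) (mix o y z) (mix o z y) v =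
          r v := by
        intro v hv
        rw [SumH_asg_F (fun e => by rw [hpc]; exact hGp e.1 (hJG e.2))
          (fun e => by rw [hqc]; exact hGq e.1 (hJG e.2)) (fun e => hGC e.1 (hJG e.2))
          (fun e he => disjoint_left.1 (hsup.avoid e.1 (hJG e.2)).1 he hv), if_pos hv]
      show (part A Y _ : ℝ) = _
      rw [hsum _ hF]
      exact sum_congr rfl fun i _ => hh i _) hrow
  refine SumH_fin (c := c) (c₁ := c₁) (N := N) (m := m) (k := k) (R := R) hN0 ?_ hc₁ ?_ hk1 hcon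
    ho hR1 hR2
  · nlinarith
  · exact Real.le_sqrt_of_sq_le hm1

end Pool.Agent.EC
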